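import Pool.Agent.MP_6eaae3_al.MX.Basic

section PartTl

/-! One place of the boundary in side letters. -/

namespace Pool.Agent.MP_6eaae3_al.MX

open FreeGroup (of mk invRev IsReduced)
open Set Pool.Agent.MP_6eaae3_al.LT Pool.Agent.MP_6eaae3_al.LT.Path Pool.Agent.MP_6eaae3_al.EV

namespace Tl

/-- The two indices give the same side letter. -/
def E (N a b : ℕ) : Prop := a = b ∨ ((a = 0 ∨ N < a) ∧ (b = 0 ∨ N < b))

theorem E.et {N a b : ℕ} (h : E N a b) : et N a = et N b := by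
  rcases h with rfl | ⟨u, v⟩
  · rfl
  · rw [EV.et, EV.et, if_neg (by omega), if_neg (by omega)]

/-- The open letters before and after a place with the side `x`. -/
def C (N π : ℕ) (x : ℕ × Bool) (z z' : ℕ) : Prop :=
  if x.1 = 0 then E N z z' else
    if x.2 = true then (if x.1 % 2 = π then x.1 ≤ N ∧ z = x.1 ∧ z' = x.1 else
      E N z (x.1 + 1) ∧ E N z' (x.1 - 1))
    else (if x.1 % 2 = π then E N z 0 ∧ E N z' 0 else E N z (x.1 - 1) ∧ E N z' (x.1 + 1))

theorem core {N π : ℕ} {x : ℕ × Bool} {z z' : ℕ} (h : C N π x z z') :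
    xi N π (if x.1 = 0 then 1 else if x.2 then of x.1 else (of x.1)⁻¹) =
      et N z * be (if x.1 ≠ 0 ∧ x.1 % 2 = π then sgl x else 1) * (et N z')⁻¹ := by
  obtain ⟨j, e⟩ := x
  have e0 : et N 0 = 1 := if_neg (by omega)
  unfold C at h
  by_cases j0 : j = 0
  · rw [if_pos j0] at h
    rw [if_pos j0, if_neg (fun c => c.1 j0), h.et]
    simp
  rw [if_neg j0] at h
  rw [if_neg j0]
  by_cases jp : j % 2 = π
  · rw [if_pos (⟨j0, jp⟩ : j ≠ 0 ∧ j % 2 = π)]
    cases e
    · simp only [Bool.false_eq_true, if_false, if_pos jp] at h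
      simp only [Bool.false_eq_true, if_false, sgl, map_inv, xi_of jp, be_of, eo, h.1.et, h.2.et, e0]
      group
    · simp only [if_true, if_pos jp] at h
      simp only [if_true, sgl, xi_of jp, be_of, eo, h.2.1, h.2.2,
        et_eq (Nat.one_le_iff_ne_zero.2 j0) h.1]
      group
  · have x1 : xi N π (of j) = et N (j + 1) * (et N (j - 1))⁻¹ := by
      rw [xi, FreeGroup.lift_apply_of, if_neg jp]
    rw [if_neg (fun c : j ≠ 0 ∧ j % 2 = π => jp c.2)]
    cases e
    · simp only [Bool.false_eq_true, if_false, if_neg jp] at h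
      simp only [Bool.false_eq_true, if_false, map_inv, x1, h.1.et, h.2.et, map_one]
      group
    · simp only [if_true, if_neg jp] at h
      simp only [if_true, x1, h.1.et, h.2.et, map_one]
      group

theorem step {N π : ℕ} {β r : ℤ} (hN : 3 ≤ N) (hπ : π < 2) (b : β = 0 ∨ β = 1) (h0 : 0 ≤ r)
    (h1 : r + 1 < 2 * N - 2) : C N π (s0 N β r) (z0 N π β r) (z0 N π β (r + 1)) := by
  obtain rfl | rfl : π = 0 ∨ π = 1 := by omega
  all_goals
    rcases b with rfl | rfl <;>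
    simp only [s0, z0, if_true, true_and, zero_ne_one, one_ne_zero, false_and, if_false,
      Nat.cast_zero, Nat.cast_one] <;> split_ifs <;> (try omega) <;>
    simp only [C, E, Bool.false_eq_true, if_true, if_false, true_or, true_and, and_true, and_self] <;>
    (try split_ifs) <;> first | trivial | omega

theorem last {N π : ℕ} {β β' r : ℤ} (hN : 3 ≤ N) (hπ : π < 2) (b : β = 0 ∨ β = 1)
    (b' : β' = (β + N + 1) % 2) (h1 : r + 1 = 2 * N - 2) :
    C N π (s0 N β r) (z0 N π β r) (z0 N π β' 0) := by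
  obtain rfl | rfl : π = 0 ∨ π = 1 := by omega
  all_goals
    rcases b with rfl | rfl <;>
    simp only [s0, z0, if_true, true_and, and_true, zero_ne_one, one_ne_zero, false_and, if_false,
      Nat.cast_zero, Nat.cast_one] <;> split_ifs <;> (try omega) <;>
    simp only [C, E, Bool.false_eq_true, if_true, if_false, true_or, true_and, and_true, and_self] <;>
    (try split_ifs) <;> first | trivial | omega

end Tl

theorem tl : S_TL := by
  intro N π b p hN hπ
  refine Tl.core (x := slot N b p) ?_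
  obtain ⟨r, n, h0, h1, rfl⟩ := place (N := N) (by omega) p
  rw [slot_eq _ _ h0 h1, zet_eq _ _ _ h0 h1]
  by_cases c : r + 1 < 2 * N - 2
  · rw [add_right_comm, zet_eq _ _ _ (by omega) c]
    exact Tl.step hN hπ (by omega) h0 c
  · rw [show r + n * (2 * N - 2) + 1 = 0 + (n + 1) * (2 * N - 2) by
      rw [show r = 2 * N - 2 - 1 by omega]; ring, zet_eq _ _ _ le_rfl (by omega)]
    exact Tl.last hN hπ (by omega) (by rw [add_mul, one_mul]; omega) (by omega)

end Pool.Agent.MP_6eaae3_al.MX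

end PartTl

section PartLd

/-! The open side letters at the start and at the landing place of a port. -/

namespace Pool.Agent.MP_6eaae3_al.MX

open FreeGroup (of mk invRev IsReduced)
open Set Pool.Agent.MP_6eaae3_al.LT Pool.Agent.MP_6eaae3_al.LT.Path Pool.Agent.MP_6eaae3_al.EV

namespace Ld

theorem et_congr {N a b : ℕ} (h : a = b ∨ ((a = 0 ∨ N < a) ∧ (b = 0 ∨ N < b))) : et N a = et N b := by
  rcases h with rfl | h
  · rfl
  · rw [et, et, if_neg (by omega), if_neg (by omega)]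

theorem eo_eq {N i : ℕ} (h1 : 1 ≤ i) (h2 : i ≤ N) (e : Bool) :
    eo i e = et N (if e = true then i else 0) := by
  cases e
  · rw [if_neg (by simp), et, if_neg (by omega)]; rfl
  · rw [if_pos rfl, et_eq h1 h2]; rfl

/-- A place within two periods. -/
theorem zz {N : ℕ} (π : ℕ) (b n x : ℤ) (h0 : 0 ≤ x) (h1 : x < 2 * (2 * N - 2)) :
    ∃ β r : ℤ, zet N π b (x + n * (2 * N - 2)) = z0 N π β r ∧
      ((x < 2 * N - 2 ∧ β = (b + n * (N + 1)) % 2 ∧ r = x) ∨
        (2 * N - 2 ≤ x ∧ β = (b + n * (N + 1) + (N + 1)) % 2 ∧ r = x - (2 * N - 2))) := by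
  by_cases c : x < 2 * N - 2
  · exact ⟨_, _, zet_eq π b n h0 c, Or.inl ⟨c, rfl, rfl⟩⟩
  · refine ⟨_, _, ?_, Or.inr ⟨by omega, rfl, rfl⟩⟩
    rw [show x + n * (2 * N - 2) = x - (2 * N - 2) + (n + 1) * (2 * N - 2) by ring,
      zet_eq π b (n + 1) (by omega) (by omega)]
    congr 2
    ring

/-- The landing place of a port. -/
theorem land {N i : ℕ} (π : ℕ) (k : ℤ) (hN : 3 ≤ N) (h1 : 1 ≤ i) (h2 : i ≤ N) :
    ∃ s d : ℤ, (N % 2 = 1 → s % 2 = 0) ∧
      ((d = 0 ∧ ix N k i = i ∧ (sid N i k = true ↔ s % 2 = 0)) ∨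
        (d = N - 1 ∧ ix N k i = N + 1 - i ∧ (sid N i k = true ↔ (N + 1 - i + s) % 2 = 1))) ∧
      ∀ e, ∃ β r : ℤ, zet N π (shb i e) (lan N i e k) = z0 N π β r ∧
        ((sta N i e + d < 2 * N - 2 ∧ β = (shb i e + s) % 2 ∧ r = sta N i e + d) ∨
          (2 * N - 2 ≤ sta N i e + d ∧ β = (shb i e + s + (N + 1)) % 2 ∧
            r = sta N i e + d - (2 * N - 2))) := by
  have st : ∀ e, 0 ≤ sta N i e ∧ sta N i e < 2 * N := fun e => by unfold sta; split_ifs <;> omega
  have st' : ∀ e, sta N i e + (N - 1) < 2 * (2 * N - 2) := fun e => by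
    unfold sta; split_ifs <;> omega
  have sh : ∀ n : ℤ, N % 2 = 1 → n * (N + 1) % 2 = 0 := fun n h => by rw [sheet, if_neg (by omega)]
  obtain ⟨n, rfl | rfl⟩ : ∃ n : ℤ, k = -(2 * n) ∨ k = -(2 * n + 1) := ⟨-k / 2, by omega⟩
  · refine ⟨n * (N + 1), 0, sh n, Or.inl ⟨rfl, if_pos (by omega), ?_⟩, fun e => ?_⟩
    · rw [sid, if_pos (by omega), show -(2 * n) / 2 = -n by omega, neg_mul, decide_eq_true_iff]
      omega
    · rw [show lan N i e (-(2 * n)) = sta N i e + 0 + n * (2 * N - 2) by rw [lan]; ring]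
      exact zz π _ n _ (by have := st e; omega) (by have := st e; omega)
  · refine ⟨n * (N + 1), N - 1, sh n, Or.inr ⟨rfl, if_neg (by omega), ?_⟩, fun e => ?_⟩
    · rw [sid, if_neg (by omega), show (-(-(2 * n + 1)) - 1) / 2 = n by omega, decide_eq_true_iff]
    · rw [show lan N i e (-(2 * n + 1)) = sta N i e + (N - 1) + n * (2 * N - 2) by rw [lan]; ring]
      exact zz π _ n _ (by have := st e; omega) (st' e)

/-- The values of the open letter. -/
theorem z0_spec (N π : ℕ) {β r : ℤ} (hN : 3 ≤ N) (hβ : β = 0 ∨ β = 1) (h0 : 0 ≤ r) :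
    (β = 0 ∧ r < N ∧ (N - r) % 2 = π ∧ (z0 N π β r : ℤ) = N - r) ∨
    (β = 0 ∧ r < N ∧ (N - r) % 2 ≠ π ∧ (z0 N π β r : ℤ) = N - r + 1) ∨
    (β = 1 ∧ r = 0 ∧ N % 2 ≠ π ∧ (z0 N π β r : ℤ) = N - 1) ∨
    (β = 1 ∧ r = 0 ∧ N % 2 = π ∧ z0 N π β r = 0) ∨
    (β = 1 ∧ 0 < r ∧ r < N ∧ z0 N π β r = 0) ∨
    (N ≤ r ∧ β = π ∧ z0 N π β r = 0) ∨
    (N ≤ r ∧ β ≠ π ∧ (r - N) % 2 = π ∧ (z0 N π β r : ℤ) = r - N + 2) ∨
    (N ≤ r ∧ β ≠ π ∧ (r - N) % 2 ≠ π ∧ (z0 N π β r : ℤ) = r - N + 1) := by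
  unfold z0
  split_ifs with a b c d e f g
  · exact .inl (by omega)
  · exact .inr (.inl (by omega))
  · exact .inr (.inr (.inr (.inl (by omega))))
  · exact .inr (.inr (.inl (by omega)))
  · exact .inr (.inr (.inr (.inr (.inl (by omega)))))
  · exact .inr (.inr (.inr (.inr (.inr (.inl (by omega))))))
  · exact .inr (.inr (.inr (.inr (.inr (.inr (.inl (by omega)))))))
  · exact .inr (.inr (.inr (.inr (.inr (.inr (.inr (by omega)))))))

end Ld

open Ld in
theorem ld : S_LD := by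
  intro N π i k hN hπ h1 h2
  have st : ∀ e, 0 ≤ sta N i e ∧ sta N i e < 2 * N := fun e => by unfold sta; split_ifs <;> omega
  refine ⟨fun e => ?_, fun h e => ?_, fun h => ?_⟩
  · obtain ⟨β, r, u, v⟩ := zz (N := N) π (shb i e) 0 (sta N i e) (st e).1 (by have := st e; omega)
    rw [zero_mul, add_zero] at u
    rw [u, eo_eq h1 h2, ← apply_ite (et N)]
    refine et_congr ?_
    have w := z0_spec N π (β := β) (r := r) hN (by omega) (by have := st e; omega)
    generalize z0 N π β r = a at w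
    clear u st
    cases e <;> simp only [sta, shb, if_true, Bool.false_eq_true, if_false] at v ⊢ <;> split_ifs <;>
      rcases v with v | v <;> rcases w with w | w | w | w | w | w | w | w <;> omega
  · obtain ⟨s, d, a, b, c⟩ := land π k hN h1 h2
    obtain ⟨β, r, u, v⟩ := c e
    rw [u, eo_eq (ix_le k h1 h2).1 (ix_le k h1 h2).2]
    refine et_congr ?_
    have w := z0_spec N π (β := β) (r := r) hN (by omega) (by have := st e; omega)
    unfold zl
    generalize z0 N π β r = x at w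
    generalize sid N i k = σ at b
    generalize ix N k i = j at b h
    clear u st c
    cases e <;> cases σ <;> simp only [sta, shb, if_true, Bool.false_eq_true, if_false, true_iff,
      false_iff, beq_self_eq_true, Bool.true_beq, Bool.false_beq, Bool.not_true, true_or,
      and_true] at v b ⊢ <;>
      rcases b with b | b <;> rcases v with v | v <;>
      rcases w with w | w | w | w | w | w | w | w <;> omega
  · obtain ⟨s, d, a, b, c⟩ := land π k hN h1 h2
    obtain ⟨β, r, u, v⟩ := c true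
    obtain ⟨β', r', u', v'⟩ := c false
    rw [u, u']
    refine et_congr ?_
    have b' : (d = 0 ∧ ix N k i = i) ∨ (d = N - 1 ∧ ix N k i = N + 1 - i) :=
      b.imp (fun w => ⟨w.1, w.2.1⟩) fun w => ⟨w.1, w.2.1⟩
    have w := z0_spec N π (β := β) (r := r) hN (by omega) (by have := st true; omega)
    have w' := z0_spec N π (β := β') (r := r') hN (by omega) (by have := st false; omega)
    generalize z0 N π β r = x at w
    generalize z0 N π β' r' = x' at w'
    generalize ix N k i = j at b' h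
    simp only [sta, shb, if_true, Bool.false_eq_true, if_false] at v v'
    clear b u u' c st
    revert w'
    rcases b' with b | b <;> rcases v with v | v <;> rcases v' with v' | v' <;>
      rcases w with w | w | w | w | w | w | w | w <;>
      first | (exfalso; omega) | (rintro (w' | w' | w' | w' | w' | w' | w' | w') <;> omega)

end Pool.Agent.MP_6eaae3_al.MX

end PartLd

section PartT1

/-! Sides met by the path of a port: first tables. -/

namespace Pool.Agent.MP_6eaae3_al.MX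

open FreeGroup (of mk invRev IsReduced)
open Set Pool.Agent.MP_6eaae3_al.LT Pool.Agent.MP_6eaae3_al.LT.Path Pool.Agent.MP_6eaae3_al.EV

namespace T1

variable {N i : ℕ} {k : ℤ}

theorem tR (n : ℤ) (j : ℕ) (c : ℤ) (hN : 3 ≤ N) (j1 : 1 ≤ j)
    (jN : j ≤ N) (h : (0 + n * ((N : ℤ) + 1)) % 2 = 0)
    (hp : ((N : ℤ) - i ≤ N - j + n * (2 * N - 2) ∧ (N : ℤ) - j + n * (2 * N - 2) < N - i - c * (N - 1)) ∨
      ((N : ℤ) - i - c * (N - 1) ≤ N - j + n * (2 * N - 2) ∧ (N : ℤ) - j + n * (2 * N - 2) < N - i))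
    (hk : (0 ≤ c ∧ c ≤ k) ∨ (k ≤ c ∧ c ≤ 0)) : In N i true k (j, true) :=
  (in_R (e := true) (k := c) n hN j1 jN h hp).mono (by omega) hk

theorem tL (n : ℤ) (j : ℕ) (c : ℤ) (hN : 3 ≤ N) (j1 : 1 ≤ j)
    (jN : j ≤ N) (h : (0 + (j : ℤ) + n * ((N : ℤ) + 1)) % 2 = 0)
    (hp : ((N : ℤ) - i ≤ N + j - 2 + n * (2 * N - 2) ∧
        (N : ℤ) + j - 2 + n * (2 * N - 2) < N - i - c * (N - 1)) ∨
      ((N : ℤ) - i - c * (N - 1) ≤ N + j - 2 + n * (2 * N - 2) ∧
        (N : ℤ) + j - 2 + n * (2 * N - 2) < N - i))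
    (hk : (0 ≤ c ∧ c ≤ k) ∨ (k ≤ c ∧ c ≤ 0)) : In N i true k (j, false) :=
  (in_L (e := true) (k := c) n hN j1 jN h hp).mono (by omega) hk

theorem fR (n : ℤ) (j : ℕ) (c : ℤ) (hN : 3 ≤ N) (j1 : 1 ≤ j)
    (jN : j ≤ N) (h : ((i : ℤ) % 2 + n * ((N : ℤ) + 1)) % 2 = 0)
    (hp : ((N : ℤ) + i - 1 ≤ N - j + n * (2 * N - 2) ∧
        (N : ℤ) - j + n * (2 * N - 2) < N + i - 1 - c * (N - 1)) ∨
      ((N : ℤ) + i - 1 - c * (N - 1) ≤ N - j + n * (2 * N - 2) ∧
        (N : ℤ) - j + n * (2 * N - 2) < N + i - 1))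
    (hk : (0 ≤ c ∧ c ≤ k) ∨ (k ≤ c ∧ c ≤ 0)) : In N i false k (j, true) :=
  (in_R (e := false) (k := c) n hN j1 jN h hp).mono (by omega) hk

theorem fL (n : ℤ) (j : ℕ) (c : ℤ) (hN : 3 ≤ N) (j1 : 1 ≤ j)
    (jN : j ≤ N) (h : ((i : ℤ) % 2 + (j : ℤ) + n * ((N : ℤ) + 1)) % 2 = 0)
    (hp : ((N : ℤ) + i - 1 ≤ N + j - 2 + n * (2 * N - 2) ∧
        (N : ℤ) + j - 2 + n * (2 * N - 2) < N + i - 1 - c * (N - 1)) ∨
      ((N : ℤ) + i - 1 - c * (N - 1) ≤ N + j - 2 + n * (2 * N - 2) ∧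
        (N : ℤ) + j - 2 + n * (2 * N - 2) < N + i - 1))
    (hk : (0 ≤ c ∧ c ≤ k) ∨ (k ≤ c ∧ c ≤ 0)) : In N i false k (j, false) :=
  (in_L (e := false) (k := c) n hN j1 jN h hp).mono (by omega) hk

theorem pk {e b : Bool} {j π : ℕ} (h : In N i e k (j, b)) (u : j % 2 = π)
    (v : j ≠ i) : ∃ x : ℕ × Bool, x.1 % 2 = π ∧ x.1 ≠ i ∧ In N i e k x := ⟨_, u, v, h⟩

theorem ot (h4 : 4 ≤ N) (ev : N % 2 = 0) (i1 : 1 ≤ i) (iN : i ≤ N) (k0 : k ≠ 0) (ke : k % 2 = 0)
    (e : Bool) : ∃ x : ℕ × Bool, x.1 % 2 = (i + 1) % 2 ∧ x.1 ≠ i ∧ In N i e k x := by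
  cases e <;> rcases lt_or_gt_of_ne k0 with s | s
  · by_cases c : i = 1
    exacts [pk (fR 1 2 (-2) (by omega) (by omega) (by omega) (by omega) (by omega) (by omega)) (by omega) (by omega),
      pk (fL 1 (i - 1) (-2) (by omega) (by omega) (by omega) (by omega) (by omega) (by omega)) (by omega) (by omega)]
  · by_cases c : i = N
    exacts [pk (fR 0 1 2 (by omega) (by omega) (by omega) (by omega) (by omega) (by omega)) (by omega) (by omega),
      pk (fL (-1) (i + 1) 2 (by omega) (by omega) (by omega) (by omega) (by omega) (by omega)) (by omega) (by omega)]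
  · by_cases c : i = 1
    exacts [pk (tL 0 2 (-2) (by omega) (by omega) (by omega) (by omega) (by omega) (by omega)) (by omega) (by omega),
      pk (tR 0 (i - 1) (-2) (by omega) (by omega) (by omega) (by omega) (by omega) (by omega)) (by omega) (by omega)]
  · by_cases c : i = N
    exacts [pk (tL (-1) 1 2 (by omega) (by omega) (by omega) (by omega) (by omega) (by omega)) (by omega) (by omega),
      pk (tR 0 (i + 1) 2 (by omega) (by omega) (by omega) (by omega) (by omega) (by omega)) (by omega) (by omega)]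

theorem nb (h4 : 4 ≤ N) (ev : N % 2 = 0) (i1 : 1 ≤ i) (iN : i ≤ N) (k0 : k ≠ 0) (ke : k % 2 = 0)
    (e : Bool) (b : ¬ Bs N i e k) : ∃ x : ℕ × Bool, x.1 % 2 = i % 2 ∧ x.1 ≠ i ∧ In N i e k x := by
  unfold Bs at b
  cases e <;> simp only [Bool.false_eq_true, false_iff, true_iff] at b <;>
    rcases lt_or_gt_of_ne k0 with s | s
  · by_cases c : i + 1 = N
    exacts [pk (fR 1 1 (-2) (by omega) (by omega) (by omega) (by omega) (by omega) (by omega)) (by omega) (by omega),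
      pk (fL 0 (i + 2) (-2) (by omega) (by omega) (by omega) (by omega) (by omega) (by omega)) (by omega) (by omega)]
  · by_cases c : i = 2
    exacts [pk (fR 0 4 2 (by omega) (by omega) (by omega) (by omega) (by omega) (by omega)) (by omega) (by omega),
      pk (fL 0 (i - 2) 2 (by omega) (by omega) (by omega) (by omega) (by omega) (by omega)) (by omega) (by omega)]
  · by_cases c : i = 2
    exacts [pk (tL 0 4 (-2) (by omega) (by omega) (by omega) (by omega) (by omega) (by omega)) (by omega) (by omega),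
      pk (tR 0 (i - 2) (-2) (by omega) (by omega) (by omega) (by omega) (by omega) (by omega)) (by omega) (by omega)]
  · by_cases c : i + 1 = N
    exacts [pk (tL (-1) 1 2 (by omega) (by omega) (by omega) (by omega) (by omega) (by omega)) (by omega) (by omega),
      pk (tR 0 (i + 2) 2 (by omega) (by omega) (by omega) (by omega) (by omega) (by omega)) (by omega) (by omega)]

theorem yb (h4 : 4 ≤ N) (ev : N % 2 = 0) (k0 : k ≠ 0) (ke : k % 4 = 0)
    (e : Bool) (b : Bs N i e k) : ∃ x : ℕ × Bool, x.1 % 2 = i % 2 ∧ x.1 ≠ i ∧ In N i e k x := by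
  unfold Bs at b
  cases e <;> simp only [Bool.false_eq_true, false_iff, true_iff] at b <;> rcases b with b | b
  exacts [pk (fR (-1) 3 4 (by omega) (by omega) (by omega) (by omega) (by omega) (by omega)) (by omega) (by omega),
      pk (fR 2 2 (-4) (by omega) (by omega) (by omega) (by omega) (by omega) (by omega)) (by omega) (by omega),
      pk (tR 2 3 (-4) (by omega) (by omega) (by omega) (by omega) (by omega) (by omega)) (by omega) (by omega),
      pk (tR (-2) 2 4 (by omega) (by omega) (by omega) (by omega) (by omega) (by omega)) (by omega) (by omega)]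

theorem od (h3 : 3 ≤ N) (o : N % 2 = 1) (i1 : 1 ≤ i) (iN : i ≤ N) (k0 : k ≠ 0)
    (hx : k % 2 = 0 ∨ N + 1 - i = i) (ex : ¬ (N = 3 ∧ i = 2)) (e : Bool) :
    ∃ x : ℕ × Bool, x.1 % 2 = i % 2 ∧ x.1 ≠ i ∧ In N i e k x := by
  rcases hx with ke | m <;> cases e <;> rcases lt_or_gt_of_ne k0 with s | s
  · by_cases c : i + 2 ≤ N
    exacts [pk (fL 0 (i + 2) (-2) (by omega) (by omega) (by omega) (by omega) (by omega) (by omega)) (by omega) (by omega),
      pk (fL 1 (i - 2) (-2) (by omega) (by omega) (by omega) (by omega) (by omega) (by omega)) (by omega) (by omega)]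
  · by_cases c : 3 ≤ i
    exacts [pk (fL 0 (i - 2) 2 (by omega) (by omega) (by omega) (by omega) (by omega) (by omega)) (by omega) (by omega),
      pk (fL (-1) (i + 2) 2 (by omega) (by omega) (by omega) (by omega) (by omega) (by omega)) (by omega) (by omega)]
  · by_cases c : 3 ≤ i
    exacts [pk (tR 0 (i - 2) (-2) (by omega) (by omega) (by omega) (by omega) (by omega) (by omega)) (by omega) (by omega),
      pk (tR 1 (i + 2) (-2) (by omega) (by omega) (by omega) (by omega) (by omega) (by omega)) (by omega) (by omega)]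
  · by_cases c : i + 2 ≤ N
    exacts [pk (tR 0 (i + 2) 2 (by omega) (by omega) (by omega) (by omega) (by omega) (by omega)) (by omega) (by omega),
      pk (tR (-1) (i - 2) 2 (by omega) (by omega) (by omega) (by omega) (by omega) (by omega)) (by omega) (by omega)]
  exacts [pk (fL 0 (i + 2) (-1) (by omega) (by omega) (by omega) (by omega) (by omega) (by omega)) (by omega) (by omega),
      pk (fL 0 (i - 2) 1 (by omega) (by omega) (by omega) (by omega) (by omega) (by omega)) (by omega) (by omega),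
      pk (tR 0 (i - 2) (-1) (by omega) (by omega) (by omega) (by omega) (by omega) (by omega)) (by omega) (by omega),
      pk (tR 0 (i + 2) 1 (by omega) (by omega) (by omega) (by omega) (by omega) (by omega)) (by omega) (by omega)]

theorem wk {e : Bool} (h : ∃ x : ℕ × Bool, x.1 % 2 = i % 2 ∧ x.1 ≠ i ∧ In N i e k x) :
    ∃ x : ℕ × Bool, x.1 % 2 = i % 2 ∧ x ≠ (i, e) ∧ In N i e k x :=
  h.imp fun _ u => ⟨u.1, fun v => u.2.1 (congrArg Prod.fst v), u.2.2⟩

theorem ok (h4 : 4 ≤ N) (ev : N % 2 = 0) (i1 : 1 ≤ i) (iN : i ≤ N) (k0 : k ≠ 0)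
    (e : Bool) (b : ¬ Bs N i e k) : ∃ x : ℕ × Bool, x.1 % 2 = i % 2 ∧ x ≠ (i, e) ∧ In N i e k x := by
  unfold Bs at b
  cases e <;> simp only [Bool.false_eq_true, false_iff, true_iff] at b <;>
    rcases lt_or_gt_of_ne k0 with s | s
  · by_cases c : i + 1 = N
    exacts [⟨_, rfl, by simp, fR 1 i (-1) (by omega) (by omega) (by omega) (by omega) (by omega) (by omega)⟩,
      wk (pk (fL 0 (i + 2) (-1) (by omega) (by omega) (by omega) (by omega) (by omega) (by omega)) (by omega) (by omega))]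
  · by_cases c : i = 2
    exacts [⟨_, rfl, by simp, fR 0 i 1 (by omega) (by omega) (by omega) (by omega) (by omega) (by omega)⟩,
      wk (pk (fL 0 (i - 2) 1 (by omega) (by omega) (by omega) (by omega) (by omega) (by omega)) (by omega) (by omega))]
  · by_cases c : i = 2
    exacts [⟨_, rfl, by simp, tL 0 i (-1) (by omega) (by omega) (by omega) (by omega) (by omega) (by omega)⟩,
      wk (pk (tR 0 (i - 2) (-1) (by omega) (by omega) (by omega) (by omega) (by omega) (by omega)) (by omega) (by omega))]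
  · by_cases c : i + 1 = N
    exacts [⟨_, rfl, by simp, tL (-1) i 1 (by omega) (by omega) (by omega) (by omega) (by omega) (by omega)⟩,
      wk (pk (tR 0 (i + 2) 1 (by omega) (by omega) (by omega) (by omega) (by omega) (by omega)) (by omega) (by omega))]

end T1

open T1

theorem t1 : S_T1 := by
  intro N i k h4 ev i1 iN k0
  refine ⟨fun ke => ⟨fun e => (ot h4 ev i1 iN k0 ke e).imp fun _ u => ⟨u.1, u.2.2⟩, ?_⟩,
    fun _ e => or_iff_not_imp_left.2 (ok h4 ev i1 iN k0 e)⟩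
  by_cases b : Bs N i true k
  · refine ⟨false, nb h4 ev i1 iN k0 ke false ?_⟩
    unfold Bs at b ⊢
    simp only [Bool.false_eq_true, false_iff, true_iff] at b ⊢
    omega
  · exact ⟨true, nb h4 ev i1 iN k0 ke true b⟩

theorem t4 : S_T4 := by
  intro N i k h3 i1 iN k0 ke hx ex e hb
  rcases Nat.mod_two_eq_zero_or_one N with ev | o
  · by_cases b : Bs N i e k
    · have := ke ev
      have : ¬ k % 4 = 2 := fun u => hb ev u b
      exact yb (by omega) ev k0 (by omega) e b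
    · exact nb (by omega) ev i1 iN k0 (ke ev) e b
  · refine od h3 o i1 iN k0 ?_ ex e
    unfold ix at hx
    split_ifs at hx with u
    exacts [Or.inl u, Or.inr hx]

end Pool.Agent.MP_6eaae3_al.MX

end PartT1

section PartT5

/-! The table of the sides for odd powers on chains of even length. -/

namespace Pool.Agent.MP_6eaae3_al.MX

open FreeGroup (of mk invRev IsReduced)
open Set Pool.Agent.MP_6eaae3_al.LT Pool.Agent.MP_6eaae3_al.LT.Path Pool.Agent.MP_6eaae3_al.EV

namespace T5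

/-- The place `p` lies between `a` and `a - k' (N - 1)`, and `k` extends `k'`. -/
def Bt (N : ℕ) (a p k' k : ℤ) : Prop :=
  ((a ≤ p ∧ p < a - k' * (N - 1)) ∨ (a - k' * (N - 1) ≤ p ∧ p < a)) ∧
    ((0 ≤ k' ∧ k' ≤ k) ∨ (k ≤ k' ∧ k' ≤ 0))

variable {N i j : ℕ} {k : ℤ}

theorem sh0 (h : N % 2 = 0) (n : ℤ) : n * (N + 1) % 2 = n % 2 := by rw [sheet, if_pos h]

theorem rT (n k' : ℤ) (h : 4 ≤ N ∧ N % 2 = 0 ∧ 1 ≤ j ∧ j ≤ N ∧ n % 2 = 0)
    (b : Bt N (N - i) (N - j + n * (2 * N - 2)) k' k) : In N i true k (j, true) :=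
  (in_R (e := true) (k := k') n (by omega) h.2.2.1 h.2.2.2.1
    (by have := sh0 h.2.1 n; simp only [shb, if_true]; omega) b.1).mono (by omega) b.2

theorem lT (n k' : ℤ) (h : 4 ≤ N ∧ N % 2 = 0 ∧ 1 ≤ j ∧ j ≤ N ∧ (j + n) % 2 = 0)
    (b : Bt N (N - i) (N + j - 2 + n * (2 * N - 2)) k' k) : In N i true k (j, false) :=
  (in_L (e := true) (k := k') n (by omega) h.2.2.1 h.2.2.2.1
    (by have := sh0 h.2.1 n; simp only [shb, if_true]; omega) b.1).mono (by omega) b.2

theorem rF (n k' : ℤ) (h : 4 ≤ N ∧ N % 2 = 0 ∧ 1 ≤ j ∧ j ≤ N ∧ (i + n) % 2 = 0)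
    (b : Bt N (N + i - 1) (N - j + n * (2 * N - 2)) k' k) : In N i false k (j, true) :=
  (in_R (e := false) (k := k') n (by omega) h.2.2.1 h.2.2.2.1
    (by have := sh0 h.2.1 n; simp only [shb, Bool.false_eq_true, if_false]; omega) b.1).mono
    (by omega) b.2

theorem lF (n k' : ℤ) (h : 4 ≤ N ∧ N % 2 = 0 ∧ 1 ≤ j ∧ j ≤ N ∧ (i + j + n) % 2 = 0)
    (b : Bt N (N + i - 1) (N + j - 2 + n * (2 * N - 2)) k' k) : In N i false k (j, false) :=
  (in_L (e := false) (k := k') n (by omega) h.2.2.1 h.2.2.2.1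
    (by have := sh0 h.2.1 n; simp only [shb, Bool.false_eq_true, if_false]; omega) b.1).mono
    (by omega) b.2

theorem wR {lo hi : ℤ} {π : ℕ} (j : ℕ) (n : ℤ)
    (h : 4 ≤ N ∧ N % 2 = 0 ∧ 1 ≤ j ∧ j ≤ N ∧ n % 2 = 0 ∧ j % 2 = π ∧
      lo ≤ N - j + n * (2 * N - 2) ∧ N - j + n * (2 * N - 2) < hi) :
    ∃ q, lo ≤ q ∧ q < hi ∧ (slot N 0 q).1 ≠ 0 ∧ (slot N 0 q).1 % 2 = π := by
  have e := ((pe N (by omega)).2.2.2.2.2 0 n j (by omega) (by omega)).1
    (by have := sh0 h.2.1 n; omega)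
  exact ⟨_, h.2.2.2.2.2.2.1, h.2.2.2.2.2.2.2, by rw [e]; show j ≠ 0; omega, by rw [e]; show j % 2 = π; omega⟩

theorem wL {lo hi : ℤ} {π : ℕ} (j : ℕ) (n : ℤ)
    (h : 4 ≤ N ∧ N % 2 = 0 ∧ 1 ≤ j ∧ j ≤ N ∧ (j + n) % 2 = 0 ∧ j % 2 = π ∧
      lo ≤ N + j - 2 + n * (2 * N - 2) ∧ N + j - 2 + n * (2 * N - 2) < hi) :
    ∃ q, lo ≤ q ∧ q < hi ∧ (slot N 0 q).1 ≠ 0 ∧ (slot N 0 q).1 % 2 = π := by
  have e := ((pe N (by omega)).2.2.2.2.2 0 n j (by omega) (by omega)).2
    (by have := sh0 h.2.1 n; omega)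
  exact ⟨_, h.2.2.2.2.2.2.1, h.2.2.2.2.2.2.2, by rw [e]; show j ≠ 0; omega, by rw [e]; show j % 2 = π; omega⟩

theorem sep (hN : 4 ≤ N) (ev : N % 2 = 0) (h1 : 1 ≤ i) (h2 : i ≤ N) (hk : k % 2 = 1) :
    Sep N (i % 2) i k := by
  obtain ⟨n, rfl⟩ : ∃ n, k = -(2 * n + 1) := ⟨(-k - 1) / 2, by omega⟩
  have a1 : lan N i true (-(2 * n + 1)) = 2 * N - 1 - i + n * (2 * N - 2) := by
    simp only [lan, sta, if_true]; ring
  have a2 : lan N i false (-(2 * n + 1)) = 2 * N + i - 2 + n * (2 * N - 2) := by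
    simp only [lan, sta, Bool.false_eq_true, if_false]; ring
  have e1 : (n + 1) * (2 * (N : ℤ) - 2) = n * (2 * N - 2) + (2 * N - 2) := by ring
  have e2 : (n - 1) * (2 * (N : ℤ) - 2) = n * (2 * N - 2) - (2 * N - 2) := by ring
  unfold Sep
  rw [a1, a2, if_pos ev]
  rcases Nat.mod_two_eq_zero_or_one i with p | p
  · rw [show (i : ℤ) % 2 = 0 by omega]
    rcases Int.emod_two_eq_zero_or_one n with q | q
    · exact ⟨wL N n (by omega), wR N n (by omega)⟩
    · exact ⟨wR N (n + 1) (by omega), wL N (n - 1) (by omega)⟩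
  · rw [show (i : ℤ) % 2 = 1 by omega]
    rcases Int.emod_two_eq_zero_or_one n with q | q
    · exact ⟨wL 1 (n + 1) (by omega), wR 1 n (by omega)⟩
    · exact ⟨wR 1 (n + 1) (by omega), wL 1 n (by omega)⟩

theorem two (hN : 4 ≤ N) (ev : N % 2 = 0) (h1 : 1 ≤ i) (h2 : i ≤ N) (hk : k % 2 = 1) :
    ∃ (e : Bool) (x : ℕ × Bool), x.1 % 2 = i % 2 ∧ x.1 ≠ i ∧ In N i e k x := by
  rcases Nat.mod_two_eq_zero_or_one i with p | p <;> rcases le_or_gt 0 k with s | s
  · by_cases c : i = N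
    · exact ⟨_, (2, _), by omega, by omega, lF 0 1 (by omega) (by unfold Bt; omega)⟩
    · exact ⟨_, (N, _), by omega, by omega, rT 0 1 (by omega) (by unfold Bt; omega)⟩
  · by_cases c : i = 2
    · exact ⟨_, (N, _), by omega, by omega, lF 0 (-1) (by omega) (by unfold Bt; omega)⟩
    · exact ⟨_, (2, _), by omega, by omega, rT 0 (-1) (by omega) (by unfold Bt; omega)⟩
  · by_cases c : i + 1 = N
    · exact ⟨_, (1, _), by omega, by omega, lF 0 1 (by omega) (by unfold Bt; omega)⟩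
    · exact ⟨_, (N - 1, _), by omega, by omega, rT 0 1 (by omega) (by unfold Bt; omega)⟩
  · by_cases c : i = 1
    · exact ⟨_, (3, _), by omega, by omega, lF 0 (-1) (by omega) (by unfold Bt; omega)⟩
    · exact ⟨_, (1, _), by omega, by omega, rT 0 (-1) (by omega) (by unfold Bt; omega)⟩

variable {A : Set (ℕ × Bool)}

theorem gb (j : ℕ) (a : (j, true) ∈ A) (b : (j, false) ∈ A) : Good N A := Or.inl ⟨j, a, b⟩

theorem g3 (ev : N % 2 = 0) {e} (a : (3, e) ∈ A) : Good N A :=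
  Or.inr (Or.inr ⟨ev, Or.inl ⟨e, Or.inl a⟩⟩)

theorem gm (ev : N % 2 = 0) {e} (a : (N - 2, e) ∈ A) : Good N A :=
  Or.inr (Or.inr ⟨ev, Or.inl ⟨e, Or.inr a⟩⟩)

theorem g1 (ev : N % 2 = 0) (a : (1, true) ∈ A) (b : (N - 1, true) ∈ A) : Good N A :=
  Or.inr (Or.inr ⟨ev, Or.inr (Or.inl ⟨a, b⟩)⟩)

theorem g2 (ev : N % 2 = 0) (a : (2, true) ∈ A) (b : (N, true) ∈ A) : Good N A :=
  Or.inr (Or.inr ⟨ev, Or.inr (Or.inr ⟨a, b⟩)⟩)

theorem mo {e e' : Bool} (h : In N i e' k (j, e)) (c : j % 2 = i % 2 ∧ j ≠ i) :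
    (j, e) ∈ {x : ℕ × Bool | x.1 % 2 = i % 2 ∧ x.1 ≠ i ∧ ∃ e, In N i e k x} := ⟨c.1, c.2, e', h⟩

theorem three (hN : 4 ≤ N) (ev : N % 2 = 0) (h1 : 1 ≤ i) (h2 : i ≤ N) (hk : k % 2 = 1)
    (ex : ¬ (N = 4 ∧ (i = 2 ∨ i = 3) ∧ (k = 1 ∨ k = -1))) :
    Good N {x | x.1 % 2 = i % 2 ∧ x.1 ≠ i ∧ ∃ e, In N i e k x} := by
  rcases Nat.mod_two_eq_zero_or_one i with p | p <;> rcases le_or_gt 0 k with s | s
  · rcases lt_trichotomy (i + 2) N with c | c | c
    · exact gm ev (mo (rT 0 1 (by omega) (by unfold Bt; omega)) (by omega))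
    · by_cases d : N = 4
      · exact gb 4 (mo (rT 0 3 (by omega) (by unfold Bt; omega)) (by omega))
          (mo (lT (-2) 3 (by omega) (by unfold Bt; omega)) (by omega))
      · exact g2 ev (mo (rF 0 1 (by omega) (by unfold Bt; omega)) (by omega))
          (mo (rT 0 1 (by omega) (by unfold Bt; omega)) (by omega))
    · exact gm ev (mo (lF 0 1 (by omega) (by unfold Bt; omega)) (by omega))
  · rcases lt_trichotomy (i + 2) N with c | c | c
    · exact gm ev (mo (lF 0 (-1) (by omega) (by unfold Bt; omega)) (by omega))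
    · by_cases d : N = 4
      · exact gb 4 (mo (rF 2 (-3) (by omega) (by unfold Bt; omega)) (by omega))
          (mo (lF 0 (-3) (by omega) (by unfold Bt; omega)) (by omega))
      · exact gb 2 (mo (rT 0 (-1) (by omega) (by unfold Bt; omega)) (by omega))
          (mo (lT 0 (-1) (by omega) (by unfold Bt; omega)) (by omega))
    · exact gm ev (mo (rT 0 (-1) (by omega) (by unfold Bt; omega)) (by omega))
  · rcases lt_trichotomy i 3 with c | c | c
    · exact g3 ev (mo (rT 0 1 (by omega) (by unfold Bt; omega)) (by omega))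
    · by_cases d : N = 4
      · exact gb 1 (mo (rF (-1) 3 (by omega) (by unfold Bt; omega)) (by omega))
          (mo (lF 0 3 (by omega) (by unfold Bt; omega)) (by omega))
      · exact gb (N - 1) (mo (rT 0 1 (by omega) (by unfold Bt; omega)) (by omega))
          (mo (lT (-1) 1 (by omega) (by unfold Bt; omega)) (by omega))
    · exact g3 ev (mo (lF 0 1 (by omega) (by unfold Bt; omega)) (by omega))
  · rcases lt_trichotomy i 3 with c | c | c
    · exact g3 ev (mo (lF 0 (-1) (by omega) (by unfold Bt; omega)) (by omega))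
    · by_cases d : N = 4
      · exact gb 1 (mo (rT 0 (-3) (by omega) (by unfold Bt; omega)) (by omega))
          (mo (lT 1 (-3) (by omega) (by unfold Bt; omega)) (by omega))
      · exact g1 ev (mo (rT 0 (-1) (by omega) (by unfold Bt; omega)) (by omega))
          (mo (rF 1 (-1) (by omega) (by unfold Bt; omega)) (by omega))
    · exact g3 ev (mo (rT 0 (-1) (by omega) (by unfold Bt; omega)) (by omega))

theorem mt {e : Bool} (h : In N i true k (j, e)) (c : j % 2 = (i + 1) % 2) :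
    (j, e) ∈ {x : ℕ × Bool | (x.1 % 2 = (i + 1) % 2 ∧ In N i true k x) ∨ x = zl N i true k} :=
  Or.inl ⟨c, h⟩

theorem zl_eq (hk : k % 2 = 1) (c : j = N + 1 - i)
    (h : ((N : ℤ) + 1 - i + (-k - 1) / 2 * (N + 1)) % 2 = 1) :
    (j, true) ∈ {x : ℕ × Bool | (x.1 % 2 = (i + 1) % 2 ∧ In N i true k x) ∨ x = zl N i true k} := by
  refine Or.inr ?_
  rw [zl, ix, sid, if_neg (by omega), if_neg (by omega), decide_eq_true h, c]
  rfl

theorem four (hN : 4 ≤ N) (ev : N % 2 = 0) (h1 : 1 ≤ i) (h2 : i ≤ N) (hk : k % 2 = 1) :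
    Good N {x | (x.1 % 2 = (i + 1) % 2 ∧ In N i true k x) ∨ x = zl N i true k} := by
  rcases Nat.mod_two_eq_zero_or_one i with p | p <;> rcases le_or_gt 0 k with s | s
  · by_cases c : i = N
    · exact g3 ev (mt (lT (-1) 1 (by omega) (by unfold Bt; omega)) (by omega))
    · exact gb (N - 1) (mt (rT 0 1 (by omega) (by unfold Bt; omega)) (by omega))
        (mt (lT (-1) 1 (by omega) (by unfold Bt; omega)) (by omega))
  · by_cases c : i = 2
    · by_cases d : k = -1
      · exact g1 ev (mt (rT 0 (-1) (by omega) (by unfold Bt; omega)) (by omega))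
          (zl_eq hk (by omega) (by rw [d, show (-(-1 : ℤ) - 1) / 2 = 0 by rfl]; omega))
      · exact gb 1 (mt (rT 0 (-1) (by omega) (by unfold Bt; omega)) (by omega))
          (mt (lT 1 (-3) (by omega) (by unfold Bt; omega)) (by omega))
    · exact g3 ev (mt (rT 0 (-1) (by omega) (by unfold Bt; omega)) (by omega))
  · by_cases c : i + 1 = N
    · by_cases d : k = 1
      · exact g2 ev (zl_eq hk (by omega) (by rw [d, show (-(1 : ℤ) - 1) / 2 = -1 by rfl]; omega))
          (mt (rT 0 1 (by omega) (by unfold Bt; omega)) (by omega))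
      · exact gb N (mt (rT 0 1 (by omega) (by unfold Bt; omega)) (by omega))
          (mt (lT (-2) 3 (by omega) (by unfold Bt; omega)) (by omega))
    · exact gm ev (mt (rT 0 1 (by omega) (by unfold Bt; omega)) (by omega))
  · by_cases c : i = 1
    · exact gm ev (mt (lT 0 (-1) (by omega) (by unfold Bt; omega)) (by omega))
    · by_cases d : i + 1 = N
      · exact gm ev (mt (rT 0 (-1) (by omega) (by unfold Bt; omega)) (by omega))
      · exact gb 2 (mt (rT 0 (-1) (by omega) (by unfold Bt; omega)) (by omega))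
          (mt (lT 0 (-1) (by omega) (by unfold Bt; omega)) (by omega))

/-! The short words. -/

theorem seg3 (f : ℤ → FH) (a : ℤ) : seg f a (a + 1 + 1 + 1) = f a * f (a + 1) * f (a + 1 + 1) := by
  rw [seg_succ, seg_succ, seg_one]

theorem seg3' (f : ℤ → FH) (a : ℤ) :
    seg f (a + 1 + 1 + 1) a = (f a * f (a + 1) * f (a + 1 + 1))⁻¹ := by rw [← seg_inv, seg3]

theorem expo {x : ℕ × Bool} (hx : x ∉ A) {w : FH} (h : w ∈ Fre A) :
    C2.hm (fun y => if y = x then (1 : ℤ) else 0) w = 0 :=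
  C2.hm_fre (fun y hy => if_neg fun e : y = x => hx (e ▸ hy)) h

theorem cj {x F : ℕ × Bool} (hx : x ∉ A) (ne : x ≠ F) {c n : ℤ} (c0 : c ≠ 0) (n0 : n ≠ 0)
    (h : of x ^ c * of F ^ n * (of x ^ c)⁻¹ ∈ Fre A) : False := by
  have u := (cb _ A F F (of x ^ c) n 0 0 n0 (by simpa using h)).1
  have v := expo (x := x) (by simp [hx, ne]) u
  simp only [C2.hm_zpow, C2.hm_of, if_true, smul_eq_mul, mul_one] at v
  exact c0 v

theorem hv {π : ℕ} {b p : ℤ} {x : ℕ × Bool} (h : slot N b p = x) :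
    hat N π b p = if x.1 ≠ 0 ∧ x.1 % 2 = π then sgl x else 1 := by rw [hat, h]

theorem w1 : bh 4 0 2 false 1 * (bh 4 0 2 true 1)⁻¹ =
    of (2, false) * (of (2, true))⁻¹ * of (4, true) := by
  have a : bh 4 0 2 false 1 = (of (2, true) * 1 * (of (2, false))⁻¹)⁻¹ := seg3' (hat 4 0 0) 2
  have b : bh 4 0 2 true 1 = (1 * of (4, true) * 1)⁻¹ := by
    have c : bh 4 0 2 true 1 = seg (hat 4 0 0) (-1 + 1 + 1 + 1) (-1) := rfl
    rw [c, seg3', hv (p := -1) (x := (3, false)) (by decide), hv (p := -1 + 1) (x := (4, true)) (by decide),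
      hv (p := -1 + 1 + 1) (x := (3, true)) (by decide)]
    rfl
  rw [a, b]; group

theorem w2 : bh 4 0 2 false (-1) * (bh 4 0 2 true (-1))⁻¹ =
    (of (4, false))⁻¹ * of (2, false) * (of (2, true))⁻¹ := by
  have a : bh 4 0 2 false (-1) = 1 * (of (4, false))⁻¹ * 1 := seg3 (hat 4 0 0) 5
  have b : bh 4 0 2 true (-1) = of (2, true) * 1 * (of (2, false))⁻¹ := seg3 (hat 4 0 0) 2
  rw [a, b]; group

theorem w3 : bh 4 1 3 false 1 * (bh 4 1 3 true 1)⁻¹ =
    of (3, false) * of (1, false) * (of (3, false))⁻¹ := by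
  have a : bh 4 1 3 false 1 = ((of (1, false))⁻¹ * 1 * (of (3, false))⁻¹)⁻¹ := seg3' (hat 4 1 1) 3
  have b : bh 4 1 3 true 1 = (1 * (of (3, false))⁻¹ * 1)⁻¹ := by
    have c : bh 4 1 3 true 1 = seg (hat 4 1 0) (-2 + 1 + 1 + 1) (-2) := rfl
    rw [c, seg3', hv (p := -2) (x := (0, false)) (by decide), hv (p := -2 + 1) (x := (3, false)) (by decide),
      hv (p := -2 + 1 + 1) (x := (4, true)) (by decide)]
    rfl
  rw [a, b]; group

theorem w4 : bh 4 1 3 false (-1) * (bh 4 1 3 true (-1))⁻¹ =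
    of (3, true) * (of (1, true))⁻¹ * (of (3, true))⁻¹ := by
  have a : bh 4 1 3 false (-1) = 1 * of (3, true) * 1 := seg3 (hat 4 1 1) 6
  have b : bh 4 1 3 true (-1) = of (3, true) * 1 * of (1, true) := seg3 (hat 4 1 0) 1
  rw [a, b]; group

end T5

theorem t5 : S_T5 := fun _ _ _ hN ev h1 h2 hk =>
  ⟨T5.sep hN ev h1 h2 hk, T5.two hN ev h1 h2 hk,
    (em _).symm.imp_left (T5.three hN ev h1 h2 hk), T5.four hN ev h1 h2 hk⟩

theorem t9 : S_T9 := by
  intro i k a b A hi hk h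
  by_contra hn
  have nf : (i, false) ∉ A := fun c => hn ⟨_, c⟩
  have nt : (i, true) ∉ A := fun c => hn ⟨_, c⟩
  have ef := T5.expo nf h
  have et := T5.expo nt h
  rcases hi with rfl | rfl <;> rcases hk with rfl | rfl
  · rw [show 2 % 2 = 0 from rfl, T5.w1] at h ef et
    simp [C2.hm_mul, C2.hm_inv, C2.hm_zpow, C2.hm_of] at ef et
    rw [show a = -1 by omega, show b = 1 by omega] at h
    refine T5.cj nt (F := (4, true)) (by decide) (c := -1) (n := 1) (by decide) (by decide) ?_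
    simpa [← mul_assoc] using h
  · rw [show 2 % 2 = 0 from rfl, T5.w2] at h ef et
    simp [C2.hm_mul, C2.hm_inv, C2.hm_zpow, C2.hm_of] at ef et
    rw [show a = -1 by omega, show b = 1 by omega] at h
    refine T5.cj nf (F := (4, false)) (by decide) (c := -1) (n := -1) (by decide) (by decide) ?_
    simpa [← mul_assoc] using h
  · rw [show 3 % 2 = 1 from rfl, T5.w3] at h ef et
    simp [C2.hm_mul, C2.hm_inv, C2.hm_zpow, C2.hm_of] at ef et
    rw [show a = 0 by omega, show b = 0 by omega] at h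
    refine T5.cj nf (F := (1, false)) (by decide) (c := 1) (n := 1) (by decide) (by decide) ?_
    simpa using h
  · rw [show 3 % 2 = 1 from rfl, T5.w4] at h ef et
    simp [C2.hm_mul, C2.hm_inv, C2.hm_zpow, C2.hm_of] at ef et
    rw [show a = 0 by omega, show b = 0 by omega] at h
    refine T5.cj nt (F := (1, true)) (by decide) (c := 1) (n := -1) (by decide) (by decide) ?_
    simpa using h

end Pool.Agent.MP_6eaae3_al.MX

end PartT5

section PartT6

/-! The sides seen from one port. -/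

namespace Pool.Agent.MP_6eaae3_al.MX

open FreeGroup (of mk invRev IsReduced)
open Set Pool.Agent.MP_6eaae3_al.LT Pool.Agent.MP_6eaae3_al.LT.Path Pool.Agent.MP_6eaae3_al.EV

namespace T6

variable {N i : ℕ} {e : Bool} {k : ℤ}

/-- The set of sides in the statement. -/
def St (N i : ℕ) (e : Bool) (k : ℤ) : Set (ℕ × Bool) :=
  {x | (x.1 % 2 = i % 2 ∧ x ≠ (i, e) ∧ In N i e k x) ∨ x = zl N i e k}

theorem iR (j : ℕ) (n k' : ℤ) (hN : 3 ≤ N) (j1 : 1 ≤ j) (jN : j ≤ N)
    (hk : (0 ≤ k' ∧ k' ≤ k) ∨ (k ≤ k' ∧ k' ≤ 0))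
    (h : ((if e then 0 else (i : ℤ) % 2) + n * (N + 1)) % 2 = 0)
    (hp : ∀ a : ℤ, a = (if e then (N : ℤ) - i else N + i - 1) →
      (a ≤ N - j + n * (2 * N - 2) ∧ N - j + n * (2 * N - 2) < a - k' * (N - 1)) ∨
      (a - k' * (N - 1) ≤ N - j + n * (2 * N - 2) ∧ N - j + n * (2 * N - 2) < a)) :
    In N i e k (j, true) := (in_R n hN j1 jN h (hp _ rfl)).mono (by omega) hk

theorem iL (j : ℕ) (n k' : ℤ) (hN : 3 ≤ N) (j1 : 1 ≤ j) (jN : j ≤ N)
    (hk : (0 ≤ k' ∧ k' ≤ k) ∨ (k ≤ k' ∧ k' ≤ 0))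
    (h : ((if e then 0 else (i : ℤ) % 2) + j + n * (N + 1)) % 2 = 0)
    (hp : ∀ a : ℤ, a = (if e then (N : ℤ) - i else N + i - 1) →
      (a ≤ N + j - 2 + n * (2 * N - 2) ∧ N + j - 2 + n * (2 * N - 2) < a - k' * (N - 1)) ∨
      (a - k' * (N - 1) ≤ N + j - 2 + n * (2 * N - 2) ∧ N + j - 2 + n * (2 * N - 2) < a)) :
    In N i e k (j, false) := (in_L n hN j1 jN h (hp _ rfl)).mono (by omega) hk

theorem mem {j : ℕ} {u : Bool} (p : j % 2 = i % 2) (ne : j ≠ i ∨ u ≠ e) (h : In N i e k (j, u)) :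
    (j, u) ∈ St N i e k :=
  Or.inl ⟨p, fun c => by obtain ⟨a, b⟩ := Prod.mk.inj c; tauto, h⟩

theorem own (h : k % 2 = 0) : ∃ u, (i, u) ∈ St N i e k :=
  ⟨_, Or.inr (by rw [zl, ix, if_pos h])⟩

/-- Odd length, even curve. -/
theorem odd (hN : 3 ≤ N) (i1 : 1 ≤ i) (iN : i ≤ N) (k0 : k ≠ 0) (o : N % 2 = 1) (p : i % 2 = 0)
    (c : ¬ (N = 3 ∧ i = 2)) : Good N (St N i e k) := by
  have two : ∀ u, (2, u) ∈ St N i e k → Good N (St N i e k) := fun u h =>
    Or.inr (Or.inl ⟨o, Or.inl ⟨u, h⟩⟩)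
  cases e <;> rcases lt_or_gt_of_ne k0 with s | s
  · by_cases d : i = N - 1
    · exact two _ (mem (by omega) (by simp) (iR 2 1 (-1) hN (by omega) (by omega) (by omega)
        (by simp; omega) fun a h => by simp at h; omega))
    · exact Or.inl ⟨N - 1, mem (by omega) (by simp) (iR _ 1 (-1) hN (by omega) (by omega) (by omega)
        (by simp; omega) fun a h => by simp at h; omega), mem (by omega) (by omega)
        (iL _ 0 (-1) hN (by omega) (by omega) (by omega) (by simp; omega)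
          fun a h => by simp at h; omega)⟩
  · by_cases d : i = 2
    · exact two _ (mem (by omega) (by simp) (iR 2 0 1 hN (by omega) (by omega) (by omega)
        (by simp; omega) fun a h => by simp at h; omega))
    · exact two _ (mem (by omega) (by omega) (iL 2 0 1 hN (by omega) (by omega) (by omega)
        (by simp; omega) fun a h => by simp at h; omega))
  · by_cases d : i = 2
    · exact two _ (mem (by omega) (by simp) (iL 2 0 (-1) hN (by omega) (by omega) (by omega)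
        (by simp) fun a h => by simp at h; omega))
    · exact two _ (mem (by omega) (by omega) (iR 2 0 (-1) hN (by omega) (by omega) (by omega)
        (by simp) fun a h => by simp at h; omega))
  · by_cases d : i = N - 1
    · exact two _ (mem (by omega) (by simp) (iL 2 (-1) 1 hN (by omega) (by omega) (by omega)
        (by simp; omega) fun a h => by simp at h; omega))
    · exact Or.inl ⟨N - 1, mem (by omega) (by omega) (iR _ 0 1 hN (by omega) (by omega) (by omega)
        (by simp) fun a h => by simp at h; omega), mem (by omega) (by simp)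
        (iL _ (-1) 1 hN (by omega) (by omega) (by omega) (by simp; omega)
          fun a h => by simp at h; omega)⟩

/-- Odd length, odd curve. -/
theorem mir (hN : 3 ≤ N) (i1 : 1 ≤ i) (iN : i ≤ N) (k0 : k ≠ 0) (o : N % 2 = 1) (p : i % 2 = 1) :
    ((N + 1 - i, e) ≠ (i, e) ∧ In N i e k (N + 1 - i, e)) ∨ (N + 1 - i, e) = zl N i e k := by
  have sh : ∀ n : ℤ, n * (N + 1) % 2 = 0 := fun n => by rw [sheet, if_neg (by omega)]
  have sd : sid N i k = true := by
    have := sh (k / 2)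
    have := sh ((-k - 1) / 2)
    unfold sid
    split_ifs <;> simp only [decide_eq_true_eq] <;> omega
  by_cases c : ix N k i = N + 1 - i
  · exact Or.inr (by rw [zl, c, sd]; cases e <;> rfl)
  have q : k % 2 = 0 ∧ i ≠ N + 1 - i := by
    unfold ix at c
    split_ifs at c with h
    exacts [⟨h, c⟩, absurd rfl c]
  refine Or.inl ⟨fun h => q.2 (Prod.mk.inj h).1.symm, ?_⟩
  cases e <;> rcases lt_or_gt_of_ne k0 with s | s <;> rcases lt_or_gt_of_ne q.2 with d | d
  · exact iL _ 0 (-2) hN (by omega) (by omega) (by omega) (by simp; omega) fun a h => by simp at h; omega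
  · exact iL _ 1 (-2) hN (by omega) (by omega) (by omega) (by simp; omega) fun a h => by simp at h; omega
  · exact iL _ (-1) 2 hN (by omega) (by omega) (by omega) (by simp; omega) fun a h => by simp at h; omega
  · exact iL _ 0 2 hN (by omega) (by omega) (by omega) (by simp; omega) fun a h => by simp at h; omega
  · exact iR _ 1 (-2) hN (by omega) (by omega) (by omega) (by simp; omega) fun a h => by simp at h; omega
  · exact iR _ 0 (-2) hN (by omega) (by omega) (by omega) (by simp) fun a h => by simp at h; omega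
  · exact iR _ 0 2 hN (by omega) (by omega) (by omega) (by simp) fun a h => by simp at h; omega
  · exact iR _ (-1) 2 hN (by omega) (by omega) (by omega) (by simp; omega) fun a h => by simp at h; omega

/-- Even length. -/
theorem even (hN : 3 ≤ N) (i1 : 1 ≤ i) (iN : i ≤ N) (k0 : k ≠ 0) (o : N % 2 = 0) (p : k % 2 = 0)
    (b : ¬ Bs N i e k) (c : ¬ (e = false ∧ 1 < i ∧ i < N)) : Good N (St N i e k) := by
  have g3 : ∀ u, (3, u) ∈ St N i e k → Good N (St N i e k) := fun u h =>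
    Or.inr (Or.inr ⟨o, Or.inl ⟨u, Or.inl h⟩⟩)
  have g2 : ∀ u, (N - 2, u) ∈ St N i e k → Good N (St N i e k) := fun u h =>
    Or.inr (Or.inr ⟨o, Or.inl ⟨u, Or.inr h⟩⟩)
  obtain ⟨u, w⟩ := own (N := N) (i := i) (e := e) p
  by_cases d3 : i = 3
  · exact g3 u (d3 ▸ w)
  by_cases d2 : i = N - 2
  · exact g2 u (d2 ▸ w)
  unfold Bs at b
  cases e <;> simp at b c <;> rcases lt_or_gt_of_ne k0 with s | s
  · exact g3 _ (mem (by omega) (by simp) (iR 3 1 (-2) hN (by omega) (by omega) (by omega)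
      (by simp; omega) fun a h => by simp at h; omega))
  · exact g2 _ (mem (by omega) (by simp) (iR _ 0 2 hN (by omega) (by omega) (by omega)
      (by simp; omega) fun a h => by simp at h; omega))
  · by_cases d : i % 2 = 0
    · exact g2 _ (mem (by omega) (by simp) (iL _ 0 (-2) hN (by omega) (by omega) (by omega)
        (by simp; omega) fun a h => by simp at h; omega))
    · exact g3 _ (mem (by omega) (by omega) (iR 3 0 (-2) hN (by omega) (by omega) (by omega)
        (by simp) fun a h => by simp at h; omega))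
  · by_cases d : i % 2 = 0
    · exact g2 _ (mem (by omega) (by omega) (iR _ 0 2 hN (by omega) (by omega) (by omega)
        (by simp) fun a h => by simp at h; omega))
    · exact g3 _ (mem (by omega) (by simp) (iL 3 (-1) 2 hN (by omega) (by omega) (by omega)
        (by simp; omega) fun a h => by simp at h; omega))

end T6

theorem t6 : S_T6 := by
  intro N i k e hN i1 iN k0 ev c
  rcases Nat.mod_two_eq_zero_or_one N with o | o
  · by_cases d : e = false ∧ 1 < i ∧ i < N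
    exacts [Or.inr (Or.inl ⟨o, d⟩), Or.inl (T6.even hN i1 iN k0 o (ev o).1 (ev o).2 d)]
  · rcases Nat.mod_two_eq_zero_or_one i with p | p
    exacts [Or.inl (T6.odd hN i1 iN k0 o p c), Or.inr (Or.inr ⟨o, p, T6.mir hN i1 iN k0 o p⟩)]

end Pool.Agent.MP_6eaae3_al.MX

end PartT6

section PartT7

/-! The sides of the other parity that are seen. -/

namespace Pool.Agent.MP_6eaae3_al.MX

open FreeGroup (of mk invRev IsReduced)
open Set Pool.Agent.MP_6eaae3_al.LT Pool.Agent.MP_6eaae3_al.EV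

namespace T7

variable {N π i : ℕ} {k : ℤ}

theorem sR (j : ℕ) (n d : ℤ) {lo hi : ℤ} (hN : 3 ≤ N)
    (h : 1 ≤ j ∧ j ≤ N ∧ j % 2 = π ∧ (N % 2 = 0 → (n + d) % 2 = 0) ∧
      lo ≤ N - j + (n * (2 * N - 2) + d * (2 * N - 2)) ∧
      N - j + (n * (2 * N - 2) + d * (2 * N - 2)) < hi) :
    ∃ q, lo ≤ q ∧ q < hi ∧ (slot N 0 q).1 ≠ 0 ∧ (slot N 0 q).1 % 2 = π := by
  obtain ⟨a, b, c, e, f, g⟩ := h
  have s := sheet N (n + d)
  rw [← add_mul] at f g
  refine ⟨_, f, g, ?_⟩
  rw [((pe N hN).2.2.2.2.2 0 (n + d) j a b).1 (by split_ifs at s <;> omega)]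
  exact ⟨by omega, c⟩

theorem sL (j : ℕ) (n d : ℤ) {lo hi : ℤ} (hN : 3 ≤ N)
    (h : 1 ≤ j ∧ j ≤ N ∧ j % 2 = π ∧ N % 2 = 0 ∧ (j + n + d) % 2 = 0 ∧
      lo ≤ N + j - 2 + (n * (2 * N - 2) + d * (2 * N - 2)) ∧
      N + j - 2 + (n * (2 * N - 2) + d * (2 * N - 2)) < hi) :
    ∃ q, lo ≤ q ∧ q < hi ∧ (slot N 0 q).1 ≠ 0 ∧ (slot N 0 q).1 % 2 = π := by
  obtain ⟨a, b, c, o, e, f, g⟩ := h
  have s := sheet N (n + d)
  rw [← add_mul] at f g
  refine ⟨_, f, g, ?_⟩
  rw [((pe N hN).2.2.2.2.2 0 (n + d) j a b).2 (by rw [if_pos o] at s; omega)]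
  exact ⟨by omega, c⟩

theorem sep (hN : 3 ≤ N) (h1 : 1 ≤ i) (h2 : i ≤ N) (hk : N % 2 = 0 → k % 2 = 0)
    (h : N % 2 = 0 ∨ i % 2 = 0) : Sep N ((i + 1) % 2) i k := by
  obtain ⟨n, r, hr, e⟩ : ∃ n r : ℤ, (r = 0 ∨ r = 1) ∧ k = -(2 * n + r) :=
    ⟨-k / 2, -k % 2, by omega, by omega⟩
  have l : ∀ b, lan N i b k = sta N i b + n * (2 * N - 2) + r * (N - 1) := fun b => by
    rw [lan, e]; ring
  have hi : (i : ℤ) % 2 = 0 ∨ (i : ℤ) % 2 = 1 := by omega
  rw [Sep, l, l, sta, sta, if_pos rfl, if_neg Bool.false_ne_true]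
  by_cases o : N % 2 = 0
  · obtain rfl : r = 0 := by omega
    rw [if_pos o]
    rcases hi with hi | hi <;> rw [hi] <;> by_cases p : n % 2 = 0
    · exact ⟨sR 1 n 0 hN (by omega), sL 1 n (-1) hN (by omega)⟩
    · exact ⟨sL 1 n 0 hN (by omega), sR 1 n (-1) hN (by omega)⟩
    · exact ⟨sL 2 n 0 hN (by omega), sR N n 0 hN (by omega)⟩
    · exact ⟨sR 2 n 1 hN (by omega), sL N n (-1) hN (by omega)⟩
  · rw [if_neg o, show (i : ℤ) % 2 = 0 by omega]
    rcases hr with rfl | rfl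
    · exact ⟨sR 1 n 0 hN (by omega), sR N n 0 hN (by omega)⟩
    · exact ⟨sR N n 1 hN (by omega), sR 1 n 0 hN (by omega)⟩

theorem iR (j : ℕ) (e : Bool) (n k' : ℤ) (hN : 3 ≤ N)
    (h : 1 ≤ j ∧ j ≤ N ∧ j % 2 = (i + 1) % 2 ∧ ((0 ≤ k' ∧ k' ≤ k) ∨ (k ≤ k' ∧ k' ≤ 0)))
    (h' : (shb i e + n * (N + 1)) % 2 = 0 ∧
      ((sta N i e ≤ N - j + n * (2 * N - 2) ∧ N - j + n * (2 * N - 2) < lan N i e k') ∨
      (lan N i e k' ≤ N - j + n * (2 * N - 2) ∧ N - j + n * (2 * N - 2) < sta N i e))) :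
    (j, true) ∈ {x : ℕ × Bool | x.1 % 2 = (i + 1) % 2 ∧ ∃ e, In N i e k x} :=
  ⟨h.2.2.1, e, (in_R n hN h.1 h.2.1 h'.1 h'.2).mono (by omega) h.2.2.2⟩

theorem iL (j : ℕ) (e : Bool) (n k' : ℤ) (hN : 3 ≤ N)
    (h : 1 ≤ j ∧ j ≤ N ∧ j % 2 = (i + 1) % 2 ∧ ((0 ≤ k' ∧ k' ≤ k) ∨ (k ≤ k' ∧ k' ≤ 0)))
    (h' : (shb i e + j + n * (N + 1)) % 2 = 0 ∧
      ((sta N i e ≤ N + j - 2 + n * (2 * N - 2) ∧ N + j - 2 + n * (2 * N - 2) < lan N i e k') ∨
      (lan N i e k' ≤ N + j - 2 + n * (2 * N - 2) ∧ N + j - 2 + n * (2 * N - 2) < sta N i e))) :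
    (j, false) ∈ {x : ℕ × Bool | x.1 % 2 = (i + 1) % 2 ∧ ∃ e, In N i e k x} :=
  ⟨h.2.2.1, e, (in_L n hN h.1 h.2.1 h'.1 h'.2).mono (by omega) h.2.2.2⟩

theorem good (hN : 3 ≤ N) (h1 : 1 ≤ i) (h2 : i ≤ N) (k0 : k ≠ 0) (hk : N % 2 = 0 → k % 2 = 0) :
    Good N {x | x.1 % 2 = (i + 1) % 2 ∧ ∃ e, In N i e k x} := by
  have t1 : shb i true = 0 := rfl
  have t2 : shb i false = i % 2 := rfl
  have t3 : sta N i true = N - i := rfl
  have t4 : sta N i false = N + i - 1 := rfl
  by_cases o : N % 2 = 0 <;> by_cases p : i % 2 = 0 <;> by_cases s : 0 < k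
  · exact .inl ⟨N - 1, iR _ false 0 2 hN (by omega) (by unfold lan; omega),
      iL _ true (-1) 2 hN (by omega) (by unfold lan; omega)⟩
  · exact .inl ⟨1, iR _ true 0 (-2) hN (by omega) (by unfold lan; omega),
      iL _ false 1 (-2) hN (by omega) (by unfold lan; omega)⟩
  · exact .inl ⟨N, iR _ true 0 2 hN (by omega) (by unfold lan; omega),
      iL _ false (-1) 2 hN (by omega) (by unfold lan; omega)⟩
  · exact .inl ⟨2, iR _ false 1 (-2) hN (by omega) (by unfold lan; omega),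
      iL _ true 0 (-2) hN (by omega) (by unfold lan; omega)⟩
  · exact .inr (.inl ⟨by omega, .inr ⟨iR _ false 0 1 hN (by omega) (by unfold lan; omega),
      iR _ true 0 1 hN (by omega) (by unfold lan; omega)⟩⟩)
  · exact .inr (.inl ⟨by omega, .inr ⟨iR _ true 0 (-1) hN (by omega) (by unfold lan; omega),
      iR _ false 1 (-1) hN (by omega) (by unfold lan; omega)⟩⟩)
  · by_cases a : i = 1
    · exact .inr (.inl ⟨by omega, .inl ⟨_, iR _ true 0 1 hN (by omega) (by unfold lan; omega)⟩⟩)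
    by_cases b : i = N
    · exact .inr (.inl ⟨by omega, .inl ⟨_, iL _ true (-1) 1 hN (by omega) (by unfold lan; omega)⟩⟩)
    · exact .inl ⟨N - 1, iR _ true 0 1 hN (by omega) (by unfold lan; omega),
        iL _ true (-1) 1 hN (by omega) (by unfold lan; omega)⟩
  · by_cases a : i = 1
    · exact .inr (.inl ⟨by omega, .inl ⟨_, iL _ true 0 (-1) hN (by omega) (by unfold lan; omega)⟩⟩)
    · exact .inr (.inl ⟨by omega, .inl ⟨_, iR _ true 0 (-1) hN (by omega) (by unfold lan; omega)⟩⟩)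

end T7

theorem t7 : S_T7 := fun _ _ _ hN h1 h2 k0 hk =>
  ⟨T7.sep hN h1 h2 hk, T7.good hN h1 h2 k0 hk⟩

end Pool.Agent.MP_6eaae3_al.MX

end PartT7
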