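import Pool.Agent.MP_6eaae3_al.MX.Basic

section PartP1

/-! Powers of the Garside element seen from a third colour, chains of even length. -/

namespace Pool.Agent.MP_6eaae3_al.MX

open FreeGroup (of mk invRev IsReduced)
open Set Pool.Agent.MP_6eaae3_al.LT Pool.Agent.MP_6eaae3_al.LT.Path Pool.Agent.MP_6eaae3_al.EV

namespace P1

theorem bd {H : Type} [Group H] {o w : H} {K : Subgroup H} (h : Bd o K w) :
    ∃ a b : ℤ, o ^ a * w * o ^ b ∈ K := by
  obtain ⟨a, b, κ, δ, δ', u, d, d', e⟩ := h.en (η := 1)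
  rw [or_self] at d d'
  refine ⟨-a, -b, ?_⟩
  rwa [e, d, d', show o ^ (-a) * (o ^ a * 1 * κ * 1⁻¹ * o ^ b) * o ^ (-b) = κ by group]

theorem one (en : S_EN) {w u v : FH} (hu : u ∈ Fre {x : ℕ × Bool | x.2 = true})
    (hv : v ∈ Fre {x : ℕ × Bool | x.2 = true})
    (h : u * be w * v⁻¹ ∈ Fre {x : ℕ × Bool | x.2 = true}) : w = 1 :=
  (en 0 ∅ w).2.1 ((mul_mem_cancel_left hu).1 ((mul_mem_cancel_right (inv_mem hv)).1 h))

theorem zl_not (N i : ℕ) (k : ℤ) : (zl N i true k).2 = !(zl N i false k).2 := by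
  unfold zl
  cases sid N i k <;> rfl

end P1

open P1 in
theorem p1 : S_DF → S_TL → S_LD → S_PL → S_EN → S_T1 → S_T7 → S_P1 := by
  intro df tl ld pl en t1 t7 G _ s t Δ N p P i k h4 ev rel i1 iN par k0
  have hN : 3 ≤ N := by omega
  have hΔ : Δ ^ k ∈ Subgroup.closure {s, t} :=
    zpow_mem (rel 0 ▸ alG_mem _ (yy_mem Al.ms Al.mt _) (yy_mem Al.ms Al.mt _)) k
  obtain ⟨dw, ε, hε, dφ⟩ := df G s t Δ N p P i k hN rel i1 iN par
  have cw : ∀ e j, Cw P (Δ ^ k) i e j e =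
      bp N i e k * of (ix N k i) ^ (ε * j) * (bp N i e k)⁻¹ := fun e j => by
    rw [Cw, dw, dφ, conj_zpow, ← zpow_mul]
    cases e
    · simp
    · simp only [if_true]; group
  have n0 : ∀ {j : ℤ}, j ≠ 0 → ε * j ≠ 0 := fun j0 => mul_ne_zero (by omega) j0
  have T := t1 N i k h4 ev i1 iN k0
  have x1 : ∀ {w}, w ∈ Fre (Tp i) → xi N ((i + 1) % 2) w ∈ Fre {x : ℕ × Bool | x.2 = true} :=
    xi_mem fun j (hj : j % 2 = i % 2) => by omega
  have x0 : ∀ {w}, w ∈ Fre (Tp i)ᶜ → xi N (i % 2) w ∈ Fre {x : ℕ × Bool | x.2 = true} :=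
    xi_mem fun j hj => hj
  have b1 := xi_bp tl hN (π := (i + 1) % 2) (by omega) i
  have b0 := xi_bp tl hN (π := i % 2) (by omega) i
  have L1 := ld N ((i + 1) % 2) i k hN (by omega) i1 iN
  have L0 := ld N (i % 2) i k hN (by omega) i1 iN
  have em : k % 2 = 0 → ∀ e, bh N ((i + 1) % 2) i e k ∉ Fre ∅ := fun ke e h => by
    obtain ⟨x, u, v⟩ := (T.1 ke).1 e
    exact (pl N _ i k ∅ hN i1 iN).1 e h x u v
  have A : k % 2 = 0 → ∀ e, bp N i e k ∉ Fre (Tp i) := fun ke e h => by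
    have := x1 h
    rw [b1] at this
    exact em ke e (one en (et_mem _ _) (et_mem _ _) this ▸ one_mem _)
  refine ⟨fun ke => ?_, fun e j j0 H => ?_⟩
  · have ie : ix N k i = i := if_pos ke
    refine ⟨fun H => ?_, fun h H => ?_, fun e j j0 H => ?_⟩
    · have := x1 H
      rw [dw, map_mul, map_inv, b1, b1, L1.2.2 (by omega), mul_inv_rev, inv_inv, mul_assoc,
        inv_mul_cancel_left, mul_inv_rev, ← mul_assoc, mul_assoc (et _ _), ← map_inv,
        ← map_mul] at this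
      exact em ke true ((pl N _ i k ∅ hN i1 iN).2.2.1 (Or.inl ev)
        ((t7 N i k hN i1 iN k0 fun _ => ke).1 (Or.inl ev))
        (one en (et_mem _ _) (et_mem _ _) this ▸ one_mem _) true)
    · obtain ⟨a, b, H⟩ := P1.bd H
      have := x0 H
      rw [(Al.W_t P i1 iN par hΔ h).2.2, dw, dφ, conj_zpow, ← zpow_mul, mul_assoc (_ * of _ ^ _),
        inv_mul_cancel_left] at this
      simp only [map_mul, map_inv, map_zpow, b0, L0.1, L0.2.1 (by rw [ie]), ie, xi_of, if_true,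
        zl_not] at this
      obtain ⟨k1, k2⟩ := ((en i ∅ (bh N (i % 2) i false k)).2.2.2 (bh N (i % 2) i true k)⁻¹ false
        true (zl N i false k).2).2 a b (ε * h) (by
          rw [map_inv]
          refine Eq.mp (congrArg (· ∈ _) ?_) this
          group)
      obtain ⟨e, x, u, v, w⟩ := (T.1 ke).2
      refine v ((pl N _ i k ∅ hN i1 iN).2.1 e i ?_ x u w)
      cases e
      exacts [k1, by rwa [map_inv, inv_eq_one] at k2]
    · rw [cw, ie] at H
      exact A ke e (inv_mem_iff.1 (mn ℕ _ _ _ (zpow_mem (of_mem_Fre (S := Tp i) (x := i) rfl) _)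
        (of_zpow_ne i (n0 j0)) (by rwa [inv_inv])))
  · obtain ⟨a, b, H⟩ := P1.bd H
    rw [cw] at H
    have C := (cb ℕ _ i _ _ _ a b (n0 j0) H).2.2 fun h => h rfl
    rcases Int.emod_two_eq_zero_or_one k with ke | ko
    · have ie : ix N k i = i := if_pos ke
      have sub : ({i} : Set ℕ) ⊆ Tp i := singleton_subset_iff.2 (rfl : i % 2 = i % 2)
      exact (A ke e (Fre.mono sub (C.2 ie))).elim
    obtain ⟨c, hc⟩ := C.1 (by rw [ix, if_neg (by omega)]; omega)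
    have := x0 hc
    rw [map_mul, map_zpow, xi_of rfl, b0, L0.1, if_pos rfl, ← mul_assoc, ← mul_assoc,
      show ff i ^ c * eo i e = eo i e * be (of (i, e) ^ c) by rw [be_zpow]; group,
      mul_assoc (eo _ _), ← map_mul] at this
    have z := eq_inv_of_mul_eq_one_right (one en (eo_mem _ _) (et_mem _ _) this)
    rcases T.2 ko e with h | ⟨x, u, v, w⟩
    · exact h
    · exact (v ((pl N _ i k {(i, e)} hN i1 iN).1 e
        (z ▸ inv_mem (zpow_mem (of_mem_Fre (mem_singleton _)) c)) x u w)).elim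

end Pool.Agent.MP_6eaae3_al.MX

end PartP1

section PartP3

/-! Powers of the Garside element: seeds of the same colour. -/

namespace Pool.Agent.MP_6eaae3_al.MX

open FreeGroup (of mk invRev IsReduced)
open Set Pool.Agent.MP_6eaae3_al.LT Pool.Agent.MP_6eaae3_al.LT.Path Pool.Agent.MP_6eaae3_al.EV

namespace P3

theorem hown {w : FreeGroup ℕ} (h : Own 3 2 ∅ w) : Hown 3 2 w := by
  obtain ⟨a, b, κ, δ, δ', ⟨u, hu, rfl⟩, h1, h2, e⟩ := h
  refine ⟨fun c => absurd c (by decide), fun _ => ⟨a, b, _, δ, δ', ?_, h1, h2, e⟩⟩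
  exact Fre.map_mem be (fun x hx => hx.elim) hu

theorem cw (df : S_DF) {G : Type} [Group G] {s t Δ : G} {N : ℕ} {p : ℤ} (P : Pu s t N p) {i : ℕ}
    (k : ℤ) (hN : 3 ≤ N) (rel : ∀ i, aa s t i (N + 1) = Δ) (i1 : 1 ≤ i) (iN : i ≤ N)
    (par : (i + p) % 2 = 1) (e : Bool) {j : ℤ} (j0 : j ≠ 0) : ∃ n : ℤ, n ≠ 0 ∧
      Cw P (Δ ^ k) i e j e = bp N i e k * of (ix N k i) ^ n * (bp N i e k)⁻¹ := by
  obtain ⟨dw, ε, hε, dφ⟩ := df G s t Δ N p P i k hN rel i1 iN par
  refine ⟨ε * j, mul_ne_zero (by omega) j0, ?_⟩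
  rw [Cw, dw, dφ, conj_zpow, ← zpow_mul]
  cases e
  · simp
  · simp only [if_true]; group

end P3

theorem p3 : S_DF → S_TL → S_LD → S_PL → S_EN → S_T4 → S_T5 → S_T6 → S_T9 → S_P3 := by
  intro df tl ld pl en t4 t5 t6 t9 G _ s t Δ N p P i k A hN rel i1 iN par k0 hA
  by_cases c32 : N = 3 ∧ i = 2
  · obtain ⟨rfl, rfl⟩ := c32
    rcases A.eq_empty_or_nonempty with rfl | ⟨⟨x, e⟩, hx⟩
    · have Z := EV.pd EV.df EV.z1 EV.z2 EV.z3 EV.z4 EV.mn (EV.cj EV.mn) G s t Δ 3 p P 2 k hN rfl rel i1 iN par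
      exact ⟨fun _ H => absurd (Z.1 (Or.inr (Or.inl (P3.hown H)))) k0, fun e j j0 _ H =>
        absurd (Z.2.2 e j j0 (Or.inr rfl) (Or.inr (Or.inr (P3.hown H)))) k0⟩
    · have g : Good 3 A := by
        have := hA _ hx
        obtain rfl : x = 2 := by simp only at this; omega
        exact Or.inr (Or.inl ⟨rfl, Or.inl ⟨e, hx⟩⟩)
      exact ⟨fun _ _ => g, fun _ _ _ _ _ => Or.inl g⟩
  have hπ : i % 2 < 2 := Nat.mod_lt _ (by norm_num)
  obtain ⟨l1, l2, l3⟩ := ld N (i % 2) i k hN hπ i1 iN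
  have xb : ∀ e, xi N (i % 2) (bp N i e k) = eo i e * be (bh N (i % 2) i e k) *
      (et N (zet N (i % 2) (shb i e) (lan N i e k)))⁻¹ := fun e => by
    rw [xi_bp tl hN hπ, l1, if_pos rfl]
  have PL := fun B => pl N (i % 2) i k B hN i1 iN
  refine ⟨fun k4 H => ?_, fun e j j0 k2 H => ?_⟩
  · rw [Own, (df G s t Δ N p P i k hN rel i1 iN par).1, et_eq i1 iN, map_mul, map_inv, xb, xb] at H
    by_cases c : ix N k i % 2 = i % 2
    · exfalso
      rw [l2 c, l2 c] at H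
      have ev : N % 2 = 0 → k % 2 = 0 := fun h => by
        unfold ix at c
        split_ifs at c <;> omega
      have u : (zl N i true k).2 = !(zl N i false k).2 := by
        unfold zl
        cases sid N i k <;> rfl
      rw [u] at H
      obtain ⟨q1, q2⟩ := ((en i A (bh N (i % 2) i false k)).2.2.2 (bh N (i % 2) i true k)⁻¹ false true
        (zl N i false k).2).1 (ix N k i) (by
          rw [map_inv]
          refine (congrArg _ ?_).mp H
          group)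
      have key : ∀ e, kl i (bh N (i % 2) i e k) ≠ 1 := fun e h => by
        obtain ⟨x, x1, x2, x3⟩ := t4 N i k hN i1 iN k0 ev q1 c32 e fun a b => absurd b (k4 a)
        exact x2 ((PL A).2.1 e i h x x1 x3)
      rcases q2 with q | q
      · exact key false q
      · rw [map_inv, inv_eq_one] at q
        exact key true q
    · rw [l3 c] at H
      have ev : N % 2 = 0 ∧ k % 2 = 1 := by
        unfold ix at c
        split_ifs at c <;> omega
      obtain ⟨T1, ⟨e0, x0, y1, y2, y3⟩, T3, -⟩ := t5 N i k (by omega) ev.1 i1 iN ev.2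
      have see : ∀ B, bh N (i % 2) i false k * (bh N (i % 2) i true k)⁻¹ ∈ Fre B →
          ∀ e x, x.1 % 2 = i % 2 → In N i e k x → x ∈ B := fun B h e =>
        (PL B).1 e ((PL B).2.2.1 (Or.inl ev.1) T1 h e)
      rcases (en i A (bh N (i % 2) i false k * (bh N (i % 2) i true k)⁻¹)).2.2.1 false true (by
          rw [map_mul, map_inv]
          refine (congrArg _ ?_).mp H
          group) with ⟨a, b, q⟩ | q
      · rcases T3 with g | ⟨rfl, i23, k1⟩
        · have ho : ∀ (e : Bool) (c : ℤ), (of (i, e) : FH) ^ c ∈ Fre (A ∪ Ho i) := fun e c =>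
            zpow_mem (of_mem_Fre (S := A ∪ Ho i) (x := (i, e)) (Or.inr rfl)) c
          have q' := (mul_mem_cancel_left (ho false a)).1
            ((mul_mem_cancel_right (ho true b)).1 (Fre.mono subset_union_left q))
          refine g.mono fun x ⟨x1, x2, e, x3⟩ => ?_
          exact (see _ q' e x x1 x3).resolve_right x2
        · obtain ⟨e, he⟩ := t9 i k a b A i23 k1 q
          refine Or.inr (Or.inr ⟨rfl, Or.inl ⟨e, ?_⟩⟩)
          rcases i23 with rfl | rfl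
          exacts [Or.inr he, Or.inl he]
      · exact absurd (see _ q e0 x0 y1 y3) y2
  · obtain ⟨n, n0, cw⟩ := P3.cw df P k hN rel i1 iN par e j0
    have c : ix N k i % 2 = i % 2 := by
      unfold ix
      split_ifs <;> omega
    rw [Own, cw, et_eq i1 iN, map_mul, map_mul, map_inv, map_zpow, xi_of c, xb, l2 c] at H
    by_cases bs : N % 2 = 0 ∧ Bs N i e k
    · exact Or.inr (Or.inl ⟨bs.1, Or.inl bs.2⟩)
    have no : ix N k i = i → ∀ B, bh N (i % 2) i e k ∈ Fre B → B ⊆ Ho i → False := fun q B h hB => by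
      obtain ⟨x, x1, x2, x3⟩ := t4 N i k hN i1 iN k0 k2 q c32 e fun a _ b => bs ⟨a, b⟩
      exact x2 (hB ((PL B).1 e h x x1 x3))
    rcases (en i A (bh N (i % 2) i e k * of (zl N i e k) ^ n * (bh N (i % 2) i e k)⁻¹)).2.2.1 e e (by
        rw [map_mul, map_mul, map_inv, show zl N i e k = (ix N k i, (zl N i e k).2) from rfl, be_zpow]
        refine (congrArg _ ?_).mp H
        group) with ⟨a, b, q⟩ | q
    · obtain ⟨r1, r2, r3⟩ := cb _ A (i, e) (zl N i e k) _ n a b n0 q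
      by_cases hF : zl N i e k ∈ A
      · have sub : ∀ x, (x.1 % 2 = i % 2 ∧ x ≠ (i, e) ∧ In N i e k x) ∨ x = zl N i e k → x ∈ A := by
          rintro x (⟨x1, x2, x3⟩ | rfl)
          · rcases (PL _).1 e r1 x x1 x3 with h | h | h
            exacts [h, absurd h x2, h ▸ hF]
          · exact hF
        rcases t6 N i k e hN i1 iN k0 (fun a => ⟨k2 a, fun b => bs ⟨a, b⟩⟩) c32 with
          g | ⟨a1, a2, a3, a4⟩ | ⟨a1, a2, a3⟩
        · exact Or.inl (g.mono sub)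
        · refine Or.inr (Or.inl ⟨a1, Or.inr ⟨a2, a3, a4, (zl N i e k).2, ?_⟩⟩)
          have : zl N i e k = (i, (zl N i e k).2) := Prod.ext (if_pos (k2 a1)) rfl
          exact this ▸ hF
        · refine Or.inr (Or.inr ⟨a1, a2, sub _ (a3.imp (fun h => ⟨?_, h⟩) id)⟩)
          simp only
          omega
      · have f : zl N i e k = (i, e) := by_contra fun h => hF (r2 h)
        exact (no (congrArg Prod.fst f) _ ((r3 (f ▸ hF)).2 f) fun x hx => congrArg Prod.fst hx).elim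
    · obtain ⟨r1, r2, -⟩ := cb _ (Ho i) (i, e) (zl N i e k) (bh N (i % 2) i e k) n 0 0 n0
        (by simpa using q)
      have f : zl N i e k ∈ Ho i := by
        by_cases h : zl N i e k = (i, e)
        · exact congrArg Prod.fst h
        · exact r2 h
      refine (no f _ r1 ?_).elim
      rintro x (h | h | h)
      exacts [h, congrArg Prod.fst h, h ▸ f]

end Pool.Agent.MP_6eaae3_al.MX

end PartP3

section PartP4

/-! Powers of the Garside element seen from the other colour. -/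

namespace Pool.Agent.MP_6eaae3_al.MX

open FreeGroup (of mk invRev IsReduced)
open Set Pool.Agent.MP_6eaae3_al.LT Pool.Agent.MP_6eaae3_al.LT.Path Pool.Agent.MP_6eaae3_al.EV

theorem p4 : S_DF → S_TL → S_LD → S_PL → S_EN → S_T5 → S_T7 → S_P4 := by
  intro df tl ld pl en t5 t7 G _ s t Δ N p P i k A hN rel i1 iN par k0
  obtain ⟨dw, ε, hε, dφ⟩ := df G s t Δ N p P i k hN rel i1 iN par
  have hπ : (i + 1) % 2 < 2 := Nat.mod_lt _ two_pos
  obtain ⟨l1, l2, l3⟩ := ld N ((i + 1) % 2) i k hN hπ i1 iN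
  have xb : ∀ e, xi N ((i + 1) % 2) (bp N i e k) = et N (i + 1) * be (bh N ((i + 1) % 2) i e k) *
      (et N (zet N ((i + 1) % 2) (shb i e) (lan N i e k)))⁻¹ := fun e => by
    rw [xi_bp tl hN hπ, l1 e, if_neg (by omega)]
  refine ⟨fun ev H => ?_, fun e j j0 ev od H => ?_⟩
  · have l := l3 (by unfold ix; split_ifs <;> omega)
    have H1 : bh N ((i + 1) % 2) i false k * (bh N ((i + 1) % 2) i true k)⁻¹ ∈ Fre A := by
      refine (en i A _).1 ?_
      unfold Oth at H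
      rw [dw, map_mul, map_inv, xb, xb, l] at H
      rw [map_mul, map_inv]
      refine Eq.mp (congrArg (· ∈ Dk A) ?_) H
      group
    obtain ⟨q1, -, q3, q4⟩ := pl N ((i + 1) % 2) i k A hN i1 iN
    obtain ⟨u1, u2⟩ := t7 N i k hN i1 iN k0 ev
    have H2 : ∀ e, bh N ((i + 1) % 2) i e k ∈ Fre A := by
      by_cases c : N % 2 = 0 ∨ i % 2 = 0
      · exact q3 c (u1 c) H1
      · have z : bh N ((i + 1) % 2) i false k = 1 := by
          rw [show (i + 1) % 2 = 0 by omega]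
          exact q4 (by omega) (by omega)
        rw [z, one_mul, inv_mem_iff] at H1
        intro e
        cases e
        exacts [z ▸ one_mem _, H1]
    exact u2.mono fun x ⟨a, e, b⟩ => q1 e (H2 e) x a b
  · have ixe : ix N k i = N + 1 - i := if_neg (by omega)
    have ixp : ix N k i % 2 = (i + 1) % 2 := by omega
    have n0 : ε * j ≠ 0 := mul_ne_zero (by omega) j0
    have e1 : Cw P (Δ ^ k) i e j e = bp N i e k * of (ix N k i) ^ (ε * j) * (bp N i e k)⁻¹ := by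
      rw [Cw, dw, dφ, conj_zpow, ← zpow_mul]
      cases e
      · simp
      · simp only [if_true]; group
    have H1 : bh N ((i + 1) % 2) i e k * of (zl N i e k) ^ (ε * j) *
        (bh N ((i + 1) % 2) i e k)⁻¹ ∈ Fre A := by
      refine (en i A _).1 ?_
      unfold Oth at H
      rw [e1, map_mul, map_mul, map_inv, map_zpow, xb, l2 ixp e, xi_of ixp] at H
      have z : be (of (zl N i e k) ^ (ε * j)) = _ := be_zpow (ix N k i) (zl N i e k).2 (ε * j)
      rw [map_mul, map_mul, map_inv, z]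
      refine Eq.mp (congrArg (· ∈ Dk A) ?_) H
      group
    obtain ⟨c1, c2, -⟩ := cb _ A (0, true) (zl N i e k) _ (ε * j) 0 0 n0 (by
      rw [zpow_zero, one_mul, mul_one]; exact H1)
    have zA : zl N i e k ∈ A := c2 fun c => by
      have : ix N k i = 0 := congrArg Prod.fst c
      omega
    refine ⟨?_, (zl N i e k).2, ixe ▸ zA⟩
    rintro rfl
    refine (t5 N i k (by omega) ev i1 iN od).2.2.2.mono ?_
    rintro x (⟨a, b⟩ | rfl)
    · rcases (pl N ((i + 1) % 2) i k _ hN i1 iN).1 true c1 x a b with c | rfl | rfl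
      exacts [c, absurd rfl b.1, zA]
    · exact zA

end Pool.Agent.MP_6eaae3_al.MX

end PartP4

section PartLv

/-! A numbering of the levels with three marked classes. -/

namespace Pool.Agent.MP_6eaae3_al.MX

open FreeGroup (of mk invRev IsReduced)
open Set Pool.Agent.MP_6eaae3_al.LT Pool.Agent.MP_6eaae3_al.LT.Path Pool.Agent.MP_6eaae3_al.EV

namespace Lv

theorem permL {n : ℕ} (L : List ℕ) (hL : L.Nodup) (hn : ∀ x ∈ L, x < n) (hk : L.length ≤ n) :
    ∃ π : Equiv.Perm ℕ, (∀ i, π i < n ↔ i < n) ∧ ∀ i (h : i < L.length), π i = L[i] := by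
  obtain ⟨σ, hσ⟩ := Equiv.Perm.exists_extending_pair (f := Fin.castLE hk)
    (g := fun j => (⟨L.get j, hn _ (L.get_mem j)⟩ : Fin n)) (Fin.castLE_injective hk)
    fun a b h => List.nodup_iff_injective_get.1 hL (congrArg Fin.val h)
  obtain ⟨π, hπ⟩ := Equiv.Perm.exists_extending_pair (f := (Fin.val : Fin n → ℕ))
    (g := fun j => (σ j).val) Fin.val_injective (Fin.val_injective.comp σ.injective)
  refine ⟨π, fun i => ⟨fun h => ?_, fun h => ?_⟩, fun i hi => ?_⟩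
  · have h1 := hπ (σ.symm ⟨π i, h⟩)
    rw [σ.apply_symm_apply] at h1
    rw [← π.injective h1]
    exact Fin.is_lt _
  · rw [show π i = _ from hπ ⟨i, h⟩]
    exact Fin.is_lt _
  · exact (hπ (Fin.castLE hk ⟨i, hi⟩)).trans (by rw [hσ]; rfl)

theorem em_inj {N : ℕ} {p p' : ℕ × ℕ} (h : p.2 < N) (h' : p'.2 < N)
    (e : p.1 * N + p.2 = p'.1 * N + p'.2) : p = p' := by
  have e1 := congrArg (· % N) e
  have e2 := congrArg (· / N) e
  simp only [EV.Lv.md _ h, EV.Lv.md _ h', EV.Lv.dv _ h, EV.Lv.dv _ h'] at e1 e2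
  exact Prod.ext e2 e1

/-- Three disjoint sets of slots of sizes `a`, `a`, `2 a` receive the first three ranges of levels. -/
theorem perm3 {N q a : ℕ} (h4 : 4 * a ≤ N * q) (A B C : Finset (ℕ × ℕ))
    (hb : ∀ p, p ∈ A ∨ p ∈ B ∨ p ∈ C → p.1 < q ∧ p.2 < N) (d1 : ∀ p ∈ A, p ∉ B)
    (d2 : ∀ p ∈ A, p ∉ C) (d3 : ∀ p ∈ B, p ∉ C) (cA : A.card = a) (cB : B.card = a)
    (cC : C.card = 2 * a) : ∃ π : Equiv.Perm ℕ, (∀ i, π i < N * q ↔ i < N * q) ∧
      ∀ r j, j < N → (Em a (π.symm (r * N + j)) ↔ (r, j) ∈ A) ∧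
        (Ep a (π.symm (r * N + j)) ↔ (r, j) ∈ B) ∧ (Kk a (π.symm (r * N + j)) ↔ (r, j) ∈ C) := by
  let M := A.toList ++ (B.toList ++ C.toList)
  have mM : ∀ p, p ∈ M ↔ p ∈ A ∨ p ∈ B ∨ p ∈ C := fun p => by
    simp only [M, List.mem_append, Finset.mem_toList]
  have lA : A.toList.length = a := by rw [Finset.length_toList, cA]
  have lB : B.toList.length = a := by rw [Finset.length_toList, cB]
  have lM : M.length = 4 * a := by
    simp only [M, List.length_append, Finset.length_toList, cA, cB, cC]; omega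
  have nM : M.Nodup := by
    refine List.nodup_append.2 ⟨A.nodup_toList, List.nodup_append.2
      ⟨B.nodup_toList, C.nodup_toList, ?_⟩, ?_⟩
    · rintro x hx y hy rfl
      exact d3 x (Finset.mem_toList.1 hx) (Finset.mem_toList.1 hy)
    · rintro x hx y hy rfl
      rcases List.mem_append.1 hy with h | h
      · exact d1 x (Finset.mem_toList.1 hx) (Finset.mem_toList.1 h)
      · exact d2 x (Finset.mem_toList.1 hx) (Finset.mem_toList.1 h)
  obtain ⟨π, p1, p2⟩ := permL (n := N * q) (M.map fun p => p.1 * N + p.2)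
    (nM.map_on fun x hx y hy e => em_inj (hb x ((mM x).1 hx)).2 (hb y ((mM y).1 hy)).2 e)
    (fun x hx => by
      obtain ⟨p, hp, rfl⟩ := List.mem_map.1 hx
      obtain ⟨u, v⟩ := hb p ((mM p).1 hp)
      have := Nat.mul_le_mul_right N (Nat.succ_le_of_lt u)
      rw [Nat.succ_mul, mul_comm q] at this
      omega)
    (by rw [List.length_map, lM]; exact h4)
  refine ⟨π, p1, fun r j hj => ?_⟩
  have k1 : (r, j) ∈ A ∨ (r, j) ∈ B ∨ (r, j) ∈ C → π.symm (r * N + j) < 4 * a := fun h => by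
    obtain ⟨i, hi, e⟩ := List.getElem_of_mem ((mM _).2 h)
    have := p2 i (by rw [List.length_map]; exact hi)
    rw [List.getElem_map, e] at this
    rw [← show π i = r * N + j from this, π.symm_apply_apply, ← lM]
    exact hi
  have k2 : ∀ h : π.symm (r * N + j) < M.length, M[π.symm (r * N + j)] = (r, j) := fun h => by
    have := p2 _ (by rw [List.length_map]; exact h)
    rw [List.getElem_map, π.apply_symm_apply] at this
    exact em_inj (hb _ ((mM _).1 (List.getElem_mem h))).2 hj this.symm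
  generalize π.symm (r * N + j) = i at k1 k2
  have a1 : i < a → (r, j) ∈ A := fun h => by
    rw [← k2 (by omega), List.getElem_append_left (by omega)]
    exact Finset.mem_toList.1 (List.getElem_mem _)
  have a2 : a ≤ i → i < 2 * a → (r, j) ∈ B := fun h h' => by
    rw [← k2 (by omega), List.getElem_append_right (by omega), List.getElem_append_left (by omega)]
    exact Finset.mem_toList.1 (List.getElem_mem _)
  have a3 : 2 * a ≤ i → i < 4 * a → (r, j) ∈ C := fun h h' => by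
    rw [← k2 (by omega), List.getElem_append_right (by omega), List.getElem_append_right (by omega)]
    exact Finset.mem_toList.1 (List.getElem_mem _)
  refine ⟨⟨a1, fun h => ?_⟩, ⟨fun h => a2 h.1 h.2, fun h => ?_⟩, ⟨fun h => a3 h.1 h.2, fun h => ?_⟩⟩
  · have := k1 (.inl h)
    by_contra c
    rcases lt_or_ge i (2 * a) with u | u
    · exact d1 _ h (a2 (Nat.le_of_not_lt c) u)
    · exact d2 _ h (a3 u this)
  · have := k1 (.inr (.inl h))
    exact ⟨Nat.le_of_not_lt fun u => d1 _ (a1 u) h, Nat.lt_of_not_le fun u => d3 _ h (a3 u this)⟩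
  · refine ⟨Nat.le_of_not_lt fun u => ?_, k1 (.inr (.inr h))⟩
    rcases lt_or_ge i a with v | v
    · exact d2 _ (a1 v) h
    · exact d3 _ (a2 v u) h

/-- The mirror image of a set of slots. -/
def mi (N : ℕ) (A : Finset (ℕ × ℕ)) : Finset (ℕ × ℕ) := A.image fun p => (p.1, N - 1 - p.2)

theorem mem_mi {N : ℕ} {A : Finset (ℕ × ℕ)} (h : ∀ p ∈ A, p.2 < N) {p : ℕ × ℕ} :
    p ∈ mi N A ↔ p.2 < N ∧ (p.1, N - 1 - p.2) ∈ A := by
  refine Finset.mem_image.trans ⟨?_, fun u => ⟨_, u.2, Prod.ext rfl ?_⟩⟩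
  · rintro ⟨x, hx, rfl⟩
    have := h x hx
    refine ⟨by show N - 1 - x.2 < N; omega, ?_⟩
    rw [show N - 1 - (x.1, N - 1 - x.2).2 = x.2 by show N - 1 - (N - 1 - x.2) = x.2; omega]
    exact hx
  · have := u.1
    show N - 1 - (N - 1 - p.2) = p.2
    omega

theorem card_mi {N : ℕ} {A : Finset (ℕ × ℕ)} (h : ∀ p ∈ A, p.2 < N) : (mi N A).card = A.card :=
  Finset.card_image_of_injOn fun x hx y hy e => by
    have := h x hx
    have := h y hy
    obtain ⟨e1, e2⟩ := Prod.mk.inj e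
    exact Prod.ext e1 (by omega)

theorem blk {N q r : ℕ} (h3 : 3 ≤ N) (h : r * N + N ≤ N * q) : r < q := by
  by_contra hc
  have := Nat.mul_le_mul_right N (Nat.le_of_not_lt hc)
  rw [mul_comm q] at this
  omega

theorem even {k q a : ℕ} (hk : 2 ≤ k) (h4 : 4 * a ≤ 2 * k * q) (hq : q ≤ a) :
    ∃ π : Equiv.Perm ℕ, (∀ i, π i < 2 * k * q ↔ i < 2 * k * q) ∧
      ∀ r, r < q → Pat a (2 * k) fun j => π.symm (r * (2 * k) + j - 1) := by
  obtain ⟨c, c1, c2, c3⟩ : ∃ c, 1 ≤ c ∧ c < k ∧ ((c = 2 ∧ 3 ≤ k) ∨ (c = 1 ∧ k = 2)) := by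
    rcases Nat.lt_or_ge 2 k with h | h
    · exact ⟨2, by omega⟩
    · exact ⟨1, by omega⟩
  let H := Finset.range q ×ˢ Finset.range k
  let A := fun c : ℕ => Finset.range q ×ˢ ({c} : Finset ℕ)
  have mH : ∀ p, p ∈ H ↔ p.1 < q ∧ p.2 < k := fun p => by
    simp only [H, Finset.mem_product, Finset.mem_range]
  have mA : ∀ c p, p ∈ A c ↔ p.1 < q ∧ p.2 = c := fun c p => by
    simp only [A, Finset.mem_product, Finset.mem_range, Finset.mem_singleton]
  have cH : 2 * a ≤ H.card := by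
    rw [Finset.card_product, Finset.card_range, Finset.card_range]
    nlinarith
  have cA : ∀ c, (A c).card = q := fun c => by
    rw [Finset.card_product, Finset.card_range, Finset.card_singleton, mul_one]
  obtain ⟨Z, z1, z2, z3⟩ := Finset.exists_subsuperset_card_eq (s := A 0) (t := H \ A c) (n := a)
    (fun p hp => by
      rw [Finset.mem_sdiff, mH, mA]
      rw [mA] at hp
      omega)
    (by rw [cA]; exact hq)
    (by have := Finset.le_card_sdiff (A c) H; rw [cA] at this; omega)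
  have mZ : ∀ p ∈ Z, (p.1 < q ∧ p.2 < k) ∧ ¬ (p.1 < q ∧ p.2 = c) := fun p hp => by
    rw [← mH, ← mA]; exact Finset.mem_sdiff.1 (z2 hp)
  obtain ⟨K, k1, k2, k3⟩ := Finset.exists_subsuperset_card_eq (s := A c) (t := H \ Z) (n := a)
    (fun p hp => by
      rw [Finset.mem_sdiff, mH]
      rw [mA] at hp
      exact ⟨by omega, fun u => (mZ p u).2 hp⟩)
    (by rw [cA]; exact hq)
    (by have := Finset.le_card_sdiff Z H; omega)
  have mK : ∀ p ∈ K, (p.1 < q ∧ p.2 < k) ∧ p ∉ Z := fun p hp => by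
    rw [← mH]; exact Finset.mem_sdiff.1 (k2 hp)
  have bZ : ∀ p ∈ Z, p.2 < 2 * k := fun p hp => by have := mZ p hp; omega
  have bK : ∀ p ∈ K, p.2 < 2 * k := fun p hp => by have := (mK p hp).1; omega
  have uZ : ∀ p ∈ mi (2 * k) Z, p.1 < q ∧ k ≤ p.2 ∧ p.2 < 2 * k := fun p hp => by
    obtain ⟨u, v⟩ := (mem_mi bZ).1 hp
    have := (mZ _ v).1
    simp only at this
    omega
  have uK : ∀ p ∈ mi (2 * k) K, p.1 < q ∧ k ≤ p.2 ∧ p.2 < 2 * k := fun p hp => by
    obtain ⟨u, v⟩ := (mem_mi bK).1 hp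
    have := (mK _ v).1
    simp only at this
    omega
  obtain ⟨π, p1, p2⟩ := perm3 (N := 2 * k) h4 Z (mi (2 * k) Z) (K ∪ mi (2 * k) K)
    (fun p hp => by
      rw [Finset.mem_union] at hp
      rcases hp with h | h | h | h
      · have := mZ p h; omega
      · have := uZ p h; omega
      · have := (mK p h).1; omega
      · have := uK p h; omega)
    (fun p h h' => by have := mZ p h; have := uZ p h'; omega)
    (fun p h h' => by
      rcases Finset.mem_union.1 h' with u | u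
      · exact (mK p u).2 h
      · have := mZ p h; have := uK p u; omega)
    (fun p h h' => by
      rcases Finset.mem_union.1 h' with u | u
      · have := uZ p h; have := (mK p u).1; omega
      · exact (mK _ ((mem_mi bK).1 u).2).2 ((mem_mi bZ).1 h).2)
    z3 (by rw [card_mi bZ, z3])
    (by
      rw [Finset.card_union_of_disjoint (Finset.disjoint_left.2 fun p h h' => by
        have := (mK p h).1; have := uK p h'; omega), card_mi bK, k3, two_mul])
  refine ⟨π, p1, fun r hr => ⟨fun _ => ?_, fun h => by omega⟩⟩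
  have P : ∀ j, 1 ≤ j → j ≤ 2 * k → (Em a (π.symm (r * (2 * k) + j - 1)) ↔ (r, j - 1) ∈ Z) ∧
      (Ep a (π.symm (r * (2 * k) + j - 1)) ↔ (r, j - 1) ∈ mi (2 * k) Z) ∧
      (Kk a (π.symm (r * (2 * k) + j - 1)) ↔ (r, j - 1) ∈ K ∪ mi (2 * k) K) := fun j u v => by
    rw [Nat.add_sub_assoc u]
    exact p2 r (j - 1) (by omega)
  have z0 : (r, 0) ∈ Z := z1 ((mA 0 _).2 ⟨hr, rfl⟩)
  have kc : ∀ j, j = c ∨ j = 2 * k - 1 - c → (r, j) ∈ K ∪ mi (2 * k) K := fun j hj => by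
    have h0 : (r, c) ∈ K := k1 ((mA c _).2 ⟨hr, rfl⟩)
    rcases hj with rfl | rfl
    · exact Finset.mem_union_left _ h0
    · exact Finset.mem_union_right _ (Finset.mem_image.2 ⟨_, h0, rfl⟩)
  refine ⟨(P 1 le_rfl (by omega)).1.2 z0, (P (2 * k) (by omega) le_rfl).2.1.2 ?_, fun h => ?_,
    fun h => ?_, (P 3 (by omega) (by omega)).2.2.2 (kc _ (by omega)),
    (P (2 * k - 2) (by omega) (by omega)).2.2.2 (kc _ (by omega)), fun j u v h => ?_⟩
  · exact Finset.mem_image.2 ⟨_, z0, rfl⟩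
  · have := uZ _ ((P 2 (by omega) (by omega)).2.1.1 h)
    simp only at this
    omega
  · have := mZ _ ((P (2 * k - 1) (by omega) (by omega)).1.1 h)
    simp only at this
    omega
  · refine (P (2 * k + 1 - j) (by omega) (by omega)).2.2.2 ?_
    rw [show 2 * k + 1 - j - 1 = 2 * k - 1 - (j - 1) by omega]
    rcases Finset.mem_union.1 ((P j u v).2.2.1 h) with w | w
    · exact Finset.mem_union_right _ (Finset.mem_image.2 ⟨_, w, rfl⟩)
    · exact Finset.mem_union_left _ ((mem_mi bK).1 w).2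

theorem odd {k q a : ℕ} (hk : 1 ≤ k) (h6 : (2 * k + 1) * q = 6 * a) :
    ∃ π : Equiv.Perm ℕ, (∀ i, π i < (2 * k + 1) * q ↔ i < (2 * k + 1) * q) ∧
      ∀ r, r < q → Pat a (2 * k + 1) fun j => π.symm (r * (2 * k + 1) + j - 1) := by
  let O := Finset.range q ×ˢ (Finset.range k).image fun j => 2 * j + 1
  let E := Finset.range q ×ˢ (Finset.range ((k + 1) / 2)).image fun j => 2 * j
  let A := Finset.range q ×ˢ ({1} : Finset ℕ)
  have mO : ∀ p, p ∈ O ↔ p.1 < q ∧ ∃ j < k, 2 * j + 1 = p.2 := fun p => by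
    simp only [O, Finset.mem_product, Finset.mem_range, Finset.mem_image]
  have mE : ∀ p ∈ E, p.1 < q ∧ p.2 < k ∧ p.2 % 2 = 0 := fun p hp => by
    simp only [E, Finset.mem_product, Finset.mem_range, Finset.mem_image] at hp
    obtain ⟨u, j, v, w⟩ := hp
    omega
  have mA : ∀ p, p ∈ A ↔ p.1 < q ∧ p.2 = 1 := fun p => by
    simp only [A, Finset.mem_product, Finset.mem_range, Finset.mem_singleton]
  have hkq := Nat.mul_le_mul_right q hk
  obtain ⟨K, k1, k2, k3⟩ := Finset.exists_subsuperset_card_eq (s := A) (t := O) (n := 2 * a)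
    (fun p hp => by
      rw [mA] at hp
      exact (mO p).2 ⟨hp.1, 0, hk, hp.2.symm⟩)
    (by rw [Finset.card_product, Finset.card_range, Finset.card_singleton]; nlinarith)
    (by
      rw [Finset.card_product, Finset.card_range,
        Finset.card_image_of_injective _ fun x y e => by simpa using e, Finset.card_range]
      nlinarith)
  obtain ⟨Z, z2, z3⟩ := Finset.exists_subset_card_eq (s := E) (n := a) (by
    rw [Finset.card_product, Finset.card_range,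
      Finset.card_image_of_injective _ fun x y e => by simpa using e, Finset.card_range]
    have := Nat.mul_le_mul_left q (show k ≤ 2 * ((k + 1) / 2) by omega)
    nlinarith)
  have mK : ∀ p ∈ K, p.1 < q ∧ p.2 < 2 * k ∧ p.2 % 2 = 1 := fun p hp => by
    obtain ⟨u, j, v, w⟩ := (mO p).1 (k2 hp)
    omega
  have mZ : ∀ p ∈ Z, p.1 < q ∧ p.2 < k ∧ p.2 % 2 = 0 := fun p hp => mE p (z2 hp)
  have bZ : ∀ p ∈ Z, p.2 < 2 * k + 1 := fun p hp => by have := mZ p hp; omega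
  have uZ : ∀ p ∈ mi (2 * k + 1) Z, p.1 < q ∧ k < p.2 ∧ p.2 < 2 * k + 1 ∧ p.2 % 2 = 0 :=
    fun p hp => by
      obtain ⟨u, v⟩ := (mem_mi bZ).1 hp
      have := mZ _ v
      simp only at this
      omega
  obtain ⟨π, p1, p2⟩ := perm3 (N := 2 * k + 1) (q := q) (a := a) (by omega) Z
    (mi (2 * k + 1) Z) K
    (fun p hp => by
      rcases hp with h | h | h
      · have := mZ p h; omega
      · have := uZ p h; omega
      · have := mK p h; omega)
    (fun p h h' => by have := mZ p h; have := uZ p h'; omega)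
    (fun p h h' => by have := mZ p h; have := mK p h'; omega)
    (fun p h h' => by have := uZ p h; have := mK p h'; omega)
    z3 (by rw [card_mi bZ, z3]) k3
  refine ⟨π, p1, fun r hr => ⟨fun h => by omega, fun _ => ?_⟩⟩
  have P : ∀ j, 1 ≤ j → j ≤ 2 * k + 1 →
      (Em a (π.symm (r * (2 * k + 1) + j - 1)) ↔ (r, j - 1) ∈ Z) ∧
      (Ep a (π.symm (r * (2 * k + 1) + j - 1)) ↔ (r, j - 1) ∈ mi (2 * k + 1) Z) ∧
      (Kk a (π.symm (r * (2 * k + 1) + j - 1)) ↔ (r, j - 1) ∈ K) := fun j u v => by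
    rw [Nat.add_sub_assoc u]
    exact p2 r (j - 1) (by omega)
  refine ⟨(P 2 (by omega) (by omega)).2.2.2 (k1 ((mA _).2 ⟨hr, rfl⟩)), fun j u v => ⟨fun h => ?_,
    fun _ => ?_⟩⟩
  · have := mK _ ((P j u v).2.2.1 h)
    simp only at this
    omega
  · refine (P j u v).1.trans (Iff.trans ?_ (P (2 * k + 1 + 1 - j) (by omega) (by omega)).2.1.symm)
    rw [mem_mi bZ, show 2 * k + 1 - 1 - (r, 2 * k + 1 + 1 - j - 1).2 = j - 1 by
      show 2 * k + 1 - 1 - (2 * k + 1 + 1 - j - 1) = j - 1; omega]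
    exact ⟨fun h => ⟨by show 2 * k + 1 + 1 - j - 1 < _; omega, h⟩, fun h => h.2⟩

end Lv

theorem lv : S_LV := by
  rintro N n a h3 ⟨q, rfl⟩ h4 he ho
  rcases Nat.mod_two_eq_zero_or_one N with h | h
  · obtain ⟨k, rfl⟩ : ∃ k, N = 2 * k := ⟨N / 2, by omega⟩
    obtain ⟨π, p1, p2⟩ := Lv.even (by omega) h4 (Nat.le_of_mul_le_mul_left (he h) (by omega))
    exact ⟨π, p1, fun r hr => p2 r (Lv.blk h3 hr)⟩
  · obtain ⟨k, rfl⟩ : ∃ k, N = 2 * k + 1 := ⟨N / 2, by omega⟩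
    obtain ⟨π, p1, p2⟩ := Lv.odd (by omega) (ho h)
    exact ⟨π, p1, fun r hr => p2 r (Lv.blk h3 hr)⟩

end Pool.Agent.MP_6eaae3_al.MX

end PartLv

section PartCs

/-! Every curve of the plumbing lies in a chain with the right classes; detection of double cosets. -/

namespace Pool.Agent.MP_6eaae3_al.MX

open FreeGroup (of mk invRev IsReduced)
open Set Pool.Agent.MP_6eaae3_al.LT Pool.Agent.MP_6eaae3_al.LT.Path Pool.Agent.MP_6eaae3_al.EV

theorem cs : S_CS := by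
  intro V M m n Y a Λ lv ev ha hl sy H s hs t ht ne h2 i hi
  have h3 := ev.three hs ht ne h2
  have hm : ∀ x ∈ ({s, t} : Set V), ∀ y ∈ ({s, t} : Set V), x ≠ y → m x y = m s t := by
    rintro x (rfl | rfl) y (rfl | rfl) e
    exacts [(e rfl).elim, rfl, ev.1 _ _, (e rfl).elim]
  have hv : ∀ x ∈ ({s, t} : Set V), ∀ y ∈ ({s, t} : Set V), x ≠ y → lv x y = lv s t := by
    rintro x (rfl | rfl) y (rfl | rfl) e
    exacts [(e rfl).elim, rfl, sy _ _, (e rfl).elim]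
  obtain ⟨hn, H'⟩ := H s hs t ht ne h2
  have hi' := (hl t s i).2 hi
  obtain ⟨N, hN⟩ : ∃ N, m s t - 1 = N := ⟨_, rfl⟩
  rw [hN] at h3 hn H' ⊢
  obtain ⟨r, hr'⟩ : ∃ r, r = lv t s i / N := ⟨_, rfl⟩
  obtain ⟨j, hj⟩ : ∃ j, j = lv t s i % N + 1 := ⟨_, rfl⟩
  have j2 : j ≤ N := hj ▸ Nat.mod_lt _ (by omega)
  have hrj : r * N + j - 1 = lv t s i := by
    have := Nat.div_add_mod' (lv t s i) N
    rw [hr']; omega
  have hr : r * N + N ≤ n := by
    obtain ⟨q, rfl⟩ := hn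
    have := Nat.mul_le_mul_right N (Nat.succ_le_of_lt (Nat.div_lt_of_lt_mul hi'))
    rwa [Nat.succ_mul, mul_comm q, ← hr'] at this
  obtain ⟨b, hb⟩ : ∃ b : ℕ → V, ∀ k : ℕ, b k = yy s t (k + (1 - j)) := ⟨_, fun _ => rfl⟩
  have mem : ∀ k, b k ∈ ({s, t} : Set V) := fun k => by
    rw [hb]; unfold yy; split_ifs <;> simp
  have ne' : ∀ k, b k ≠ b (k + 1) := fun k => by
    rw [hb, hb]; exact Bas.yy_ne ne (by push_cast; omega)
  refine ⟨fun k => (b k, (lv (b k) (b (k + 1))).symm (r * N + k - 1)), 1 - j, j,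
    EV.Cs.chain Y ha hl (by omega) hr mem (fun k => ?_) ne' (fun k x a e => ?_)
      fun x a y c e => by rw [hm x a y c e, hN], hb, by omega, j2, ?_, ?_⟩
  · rw [hb, hb]; exact yy_congr _ _ (by push_cast; omega)
  · rw [hb] at e ⊢
    rcases a with rfl | rfl <;> unfold yy at e ⊢ <;> push_cast at e ⊢ <;> split_ifs at e ⊢ <;>
      first | rfl | omega | exact (e rfl).elim
  · have e1 : b j = t := by rw [hb, yy, if_neg (by omega)]
    have e2 : b (j + 1) = s := by rw [hb, yy, if_pos (by push_cast; omega)]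
    simp only [e1, e2, hrj, Equiv.symm_apply_apply]
  · simp only [fun k => hv _ (mem k) _ (mem (k + 1)) (ne' k)]
    exact H' r hr

theorem dc (h1 : S_LV) (h3 : S_CS) (h4 : S_AX) : S_DC := by
  classical
  intro V _ m Λ n1 ev cl s hs t ht lo
  obtain ⟨a, a3, ha⟩ := Cl.exists_mult' n1
  obtain ⟨n, an, hd, hc⟩ : ∃ n, 4 * a ≤ n ∧ a ∣ n ∧ ∀ s ∈ Λ, ∀ t ∈ Λ, s ≠ t → m s t ≠ 2 →
      ((m s t - 1) % 2 = 0 → n ≤ (m s t - 1) * a) ∧ ((m s t - 1) % 2 = 1 → n = 6 * a) := by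
    rcases cl with cl | cl
    · refine ⟨6 * a, by omega, dvd_mul_left _ _, fun s u t v d e => ?_⟩
      have := ev.three u v d e
      have := cl s u t v d
      exact ⟨fun _ => Nat.mul_le_mul_right _ (by omega), fun _ => rfl⟩
    · refine ⟨4 * a, le_rfl, dvd_mul_left _ _, fun s u t v d e => ?_⟩
      have := ev.three u v d e
      have := cl s u t v d
      exact ⟨fun _ => Nat.mul_le_mul_right _ (by omega), fun _ => by omega⟩
  have hn : ∀ s t, s ≠ t → m s t ≠ 0 → m s t - 1 ∣ n := fun s t u v => (ha s t u v).trans hd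
  have ex : ∀ N : ℕ, ∃ π : Equiv.Perm ℕ, (∀ i, π i < n ↔ i < n) ∧
      (3 ≤ N → N ∣ n → (N % 2 = 0 → n ≤ N * a) → (N % 2 = 1 → n = 6 * a) →
        ∀ r, r * N + N ≤ n → Pat a N fun k => π.symm (r * N + k - 1)) := by
    intro N
    by_cases c : 3 ≤ N ∧ N ∣ n ∧ (N % 2 = 0 → n ≤ N * a) ∧ (N % 2 = 1 → n = 6 * a)
    · obtain ⟨π, u, v⟩ := h1 N n a c.1 c.2.1 an c.2.2.1 c.2.2.2
      exact ⟨π, u, fun _ _ _ _ => v⟩
    · exact ⟨1, fun _ => Iff.rfl, fun a b d e => (c ⟨a, b, d, e⟩).elim⟩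
  choose π hl hk using ex
  obtain ⟨R, Y, ad, mk, ne, H⟩ := EV.ts V m n lo (fun s t => π (m s t - 1)) ev.1 hn fun _ _ => hl _
  have ch := h3 V _ m n Y a Λ _ ev ad (fun _ _ => hl _) (fun s t => by rw [ev.1]) fun s u t v d e =>
    have o := ev.three u v d e
    have o' := hn s t d (by omega)
    ⟨o', hk _ o o' (hc s u t v d e).1 (hc s u t v d e).2⟩
  obtain ⟨A, hA⟩ := h4 V _ m n Y _ Λ t ev ch (by omega)
  refine ⟨_, R, ((Finset.range n).image fun i => Y.mr (s, i) true) ∪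
      ((Finset.range n).image fun i => Y.mr (t, i) false),
    fun ν => decide (∀ p, ν ≠ Y.mr p true), fun ν hν => ?_, ?_⟩
  · rcases Finset.mem_union.1 hν with hν | hν <;> obtain ⟨i, -, rfl⟩ := Finset.mem_image.1 hν
    · refine mk _ _ _ ?_
      beta_reduce
      rw [decide_eq_false (p := ∀ p, Y.mr (s, i) true ≠ Y.mr p true) fun a => a _ rfl]
      simp [hs]
    · refine mk _ _ _ ?_
      beta_reduce
      rw [decide_eq_true (p := ∀ p, Y.mr (t, i) false ≠ Y.mr p true) fun p => (ne p _).symm]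
      simp [ht]
  rintro g _ _ ⟨rfl, rfl, hg, ng⟩
  obtain ⟨⟨s', j⟩, B, rfl, hj, bl, w, hw, h⟩ :=
    hA _ _ _ (EV.gl EV.lnn (EV.uu EV.lnn (EV.tt EV.lnn)) V _ _ Λ t A s hs g hg ng)
  have hB : (Y.mr (s', j) true, false) ∈ B := (bl.2 _).2 ⟨Y.mrf _ _, rfl⟩
  have nm : w ∉ Fre {((Y.mr (s', j) true, false), true)}ᶜ := fun e =>
    wd_mem.1 e (((Y.mr (s', j) true, false), true), true)
      (h.subset (List.mem_flatMap.2 ⟨_, hB, by simp⟩)) rfl
  obtain ⟨_, ⟨i, hi, rfl⟩, e⟩ : ∃ w₀ ∈ Y.S0 t,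
      Y.ψ g w₀ ∉ Fre {((Y.mr (s', j) true, false), true)}ᶜ := by
    rcases hw with ⟨w₀, a, b⟩ | ⟨w₀, a, b⟩
    · exact ⟨w₀, a, b ▸ nm⟩
    · exact ⟨w₀, a, fun e => nm (inv_mem_iff.1 (b ▸ e))⟩
  exact ⟨_, Finset.mem_union_right _ (Finset.mem_image.2 ⟨i, Finset.mem_range.2 hi, rfl⟩), _,
    Finset.mem_union_left _ (Finset.mem_image.2 ⟨j, Finset.mem_range.2 hj, rfl⟩),
    decide_eq_true fun p => (ne p _).symm, decide_eq_false fun a => a _ rfl, fun u => e (H g _ _ u)⟩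

end Pool.Agent.MP_6eaae3_al.MX

end PartCs

section PartLl

/-! The dihedral step. -/

namespace Pool.Agent.MP_6eaae3_al.MX

open FreeGroup (of mk invRev IsReduced)
open Set Pool.Agent.MP_6eaae3_al.LT Pool.Agent.MP_6eaae3_al.LT.Path Pool.Agent.MP_6eaae3_al.EV

namespace Ll

variable {V M : Type} {m : V → V → ℕ} {n a : ℕ} {Y : Sy m n M} {Λ : Set V} {S : Set (FG M)} {s t : V}
  {x : V ⊕ Bool} {N : ℕ}

/-- The chain through a curve. -/
theorem chain (cs : Chs Y a Λ) (hs : s ∈ Λ) (ht : t ∈ Λ) (ne : s ≠ t) (m2 : m s t ≠ 2)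
    (xs : x ≠ Sum.inl s) (xt : x ≠ Sum.inl t) {i₀ : ℕ} (h : i₀ < n) :
    ∃ (c : ℕ → V × ℕ) (p : ℤ) (i : ℕ), (c i).2 = i₀ ∧ 1 ≤ i ∧ i ≤ m s t - 1 ∧ (i + p) % 2 = 1 ∧
      (Pat a (m s t - 1) fun k => (c k).2) ∧ (∀ k, k % 2 = i % 2 → (c k).1 = t) ∧
      (∀ k, k % 2 = (i + 1) % 2 → (c k).1 = s) ∧ ∀ B y y' e e' k, Y.Bl (t, i₀) x B → y ∈ B → y' ∈ B →
        Y.Pg S (t, i₀) y e k y' e' → Sdd Y S s t (m s t - 1) p c i x B y y' e e' k := by
  obtain ⟨c, p, i, cn, col, i1, iN, ci, pt⟩ := cs s hs t ht ne m2 i₀ h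
  have par : (i + p) % 2 = 1 := by
    have := col i
    rw [ci, yy] at this
    split_ifs at this
    exacts [(ne this.symm).elim, by omega]
  exact ⟨c, p, i, by rw [ci], i1, iN, par, pt, fun k u => by rw [col, yy, if_neg (by omega)],
    fun k u => by rw [col, yy, if_pos (by omega)], fun B y y' e e' k b u v w =>
      ⟨ne, cn, col, i1, iN, par, xs, xt, ci ▸ b, u, v, ci ▸ w⟩⟩

/-- For chains of even length a seed contains a passage that is good in a given direction. -/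
theorem pick (cs : Chs Y a Λ) (hs : s ∈ Λ) (ht : t ∈ Λ) (ne : s ≠ t) (m2 : m s t ≠ 2)
    (xs : x ≠ Sum.inl s) (xt : x ≠ Sum.inl t) (h3 : 3 ≤ m s t - 1) (ev : (m s t - 1) % 2 = 0)
    (w : Hh Y a S t x) (k : ℤ) :
    ∃ (c : ℕ → V × ℕ) (p : ℤ) (i : ℕ) (e : Bool) (j : ℤ), (Pat a (m s t - 1) fun k => (c k).2) ∧
      (∀ k, k % 2 = i % 2 → (c k).1 = t) ∧ j ≠ 0 ∧ (∃ B y y', Sdd Y S s t (m s t - 1) p c i x B y y' e e j) ∧
      ¬ Bs (m s t - 1) i e k ∧ (e = false → 1 < i → i < m s t - 1 → Kk a (c i).2) := by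
  classical
  have key : ∀ i₀ (E : ℕ → Bool), (∀ i, Hp Y S x (t, i₀) (E i)) →
      (∀ i, (i = 1 → Em a i₀) → (i = m s t - 1 → Ep a i₀) → ¬ Bs (m s t - 1) i (E i) k ∧
        (E i = false → 1 < i → i < m s t - 1 → Kk a i₀)) →
      ∃ (c : ℕ → V × ℕ) (p : ℤ) (i : ℕ) (e : Bool) (j : ℤ), (Pat a (m s t - 1) fun k => (c k).2) ∧
      (∀ k, k % 2 = i % 2 → (c k).1 = t) ∧ j ≠ 0 ∧ (∃ B y y', Sdd Y S s t (m s t - 1) p c i x B y y' e e j) ∧
      ¬ Bs (m s t - 1) i e k ∧ (e = false → 1 < i → i < m s t - 1 → Kk a (c i).2) := fun i₀ E u v => by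
    obtain ⟨c, p, i, rfl, -, -, -, pt, ct, -, D⟩ := chain (S := S) cs hs ht ne m2 xs xt (u 0).1
    obtain ⟨-, B, y, y', j, b1, b2, b3, b4, b5⟩ := u i
    exact ⟨c, p, i, E i, j, pt, ct, b4, ⟨B, y, y', D _ _ _ _ _ _ b1 b2 b3 b5⟩,
      v i (fun h => h ▸ (pt.1 ev).1) fun h => h ▸ (pt.1 ev).2.1⟩
  rcases w with ⟨i, u, v⟩ | ⟨i, u, v⟩ | ⟨⟨i, u, v⟩, i', u', v'⟩
  · exact key i (fun _ => false) (fun _ => v) fun j b c =>
      ⟨by unfold Bs Em Ep Kk at *; omega, fun _ _ _ => u⟩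
  · refine key i (fun j => decide (¬ Bs (m s t - 1) j true k)) (fun j => ?_) fun j b c => ?_
    · cases decide (¬ Bs (m s t - 1) j true k)
      exacts [v, u]
    · by_cases d : Bs (m s t - 1) j true k
      · rw [decide_eq_false (not_not.2 d)]
        unfold Bs at d ⊢
        simp only [true_iff, Bool.false_eq_true, false_iff] at d ⊢
        exact ⟨by omega, fun _ _ _ => by omega⟩
      · rw [decide_eq_true d]
        exact ⟨d, fun h => by cases h⟩
  · by_cases d : k < 0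
    · exact key i (fun _ => true) (fun _ => v) fun j b c =>
        ⟨fun h => h.elim (fun h => u (b h.1)) fun h => by have := h.2.1 rfl; omega, fun h => by cases h⟩
    · exact key i' (fun _ => true) (fun _ => v') fun j b c =>
        ⟨fun h => h.elim (fun h => d (h.2.1 rfl)) fun h => u' (c h.1), fun h => by cases h⟩

theorem ac_sub {γ : V} {π : ℕ} {c : ℕ → V × ℕ} : ∀ x ∈ Ac Y S γ N π c, 1 ≤ x.1 ∧ x.1 ≤ N ∧ x.1 % 2 = π :=
  fun _ h => ⟨h.1, h.2.1, h.2.2.1⟩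

theorem ac_hp {γ γ' : V} {π j : ℕ} {c : ℕ → V × ℕ} {e : Bool} (col : ∀ k, k % 2 = π → (c k).1 = γ)
    (h : (j, e) ∈ Ac Y S γ' N π c) : Hp Y S (Sum.inl γ') (γ, (c j).2) e :=
  col j h.2.2.1 ▸ h.2.2.2

end Ll

open Ll Al in
theorem ll (ls : S_LS) (c3 : S_C3) (c4 : S_C4) (p1 : S_P1) (p3 : S_P3) (p4 : S_P4) : S_LL := by
  intro V M m n Y a Λ S s t x g ev cs ht ok xs xt sd hg
  have lr := lr (li (f2 f3) ptt) (wp ptt) ta ch
  have al := al (c1 hf h3) (c2 hf h3) (pd df z1 z2 z3 z4 mn (EV.cj mn))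
  have m1 := m1 (f2 f3) V M m n Y 0
  obtain ⟨hs, ne, m2⟩ := ok s rfl
  have ne' := ne.symm
  have m2' : m s t ≠ 2 := ev.1 t s ▸ m2
  have o := ev.three hs ht ne' m2'
  obtain ⟨Δ, rel⟩ : ∃ Δ, ∀ i, aa (PresentedGroup.of s : Art m) (PresentedGroup.of t) i (m s t - 1 + 1) = Δ :=
    ⟨_, fun i => by
      rw [Nat.sub_add_cancel (by omega)]
      have := artin_rel m ne'
      rw [lift_alG, lift_alG] at this
      exact aa_eq this i⟩
  have CH := fun i₀ => chain (S := S) (i₀ := i₀) cs hs ht ne' m2' xs xt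
  have PK := pick (S := S) cs hs ht ne' m2' xs xt o
  generalize m s t - 1 = N at o rel CH PK
  rw [par_pair] at hg
  have hΔ : ∀ j : ℤ, Δ ^ j ∈ Subgroup.closure {PresentedGroup.of s, PresentedGroup.of t} :=
    fun j => zpow_mem (rel 0 ▸ alG_mem _ (yy_mem ms mt _) (yy_mem ms mt _)) j
  have back : ∀ (a : Art m) (j : ℤ) (g : Art m), Y.im (a ^ (-j)) (Y.im (a ^ j * g) S) = Y.im g S :=
    fun a j g => by rw [← Y.im_mul, zpow_neg, inv_mul_cancel_left]
  obtain ⟨c, p, i, B, y, y', e, e', k, par, pt, ct, cs', D, ty⟩ : ∃ (c : ℕ → V × ℕ) (p : ℤ) (i : ℕ) (B : _)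
      (y y' : _) (e e' : Bool) (k : ℤ), (i + p) % 2 = 1 ∧ (Pat a N fun k => (c k).2) ∧ (∀ k, k % 2 = i % 2 → (c k).1 = t) ∧
      (∀ k, k % 2 = (i + 1) % 2 → (c k).1 = s) ∧ Sdd Y S s t N p c i x B y y' e e' k ∧
      ((e = false ∧ e' = true) ∨ (e = e' ∧ k ≠ 0 ∧ (e = true ∨ Kk a (c i).2) ∧ Hh Y a S t x)) := by
    rcases sd with ⟨k, ⟨_, i₀⟩, B, y, y', rfl, b, c, d, e, f⟩ | w
    · obtain ⟨c', p, i, -, -, -, u1, u2, u3, u4, D⟩ := CH i₀ b
      exact ⟨c', p, i, B, y, y', _, _, k, u1, u2, u3, u4, D _ _ _ _ _ _ c d e f, Or.inl ⟨rfl, rfl⟩⟩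
    · obtain ⟨i₀, e, v, b, B, y, y', k, c, d, d', k0, f⟩ := w.base
      obtain ⟨c', p, i, rfl, -, -, u1, u2, u3, u4, D⟩ := CH i₀ b
      exact ⟨c', p, i, B, y, y', _, _, k, u1, u2, u3, u4, D _ _ _ _ _ _ c d d' f, Or.inr ⟨rfl, k0, v, w⟩⟩
  have i1 := D.i1
  have iN := D.iN
  have hk := mul_mem hg (zpow_mem mt k)
  have cr : ∀ (P : Pu _ _ N p) (z w : Art m) (b : ℤ), z ∈ Subgroup.closure {_, _} →
      g * PresentedGroup.of t ^ k = z ^ b * w → Cw P (z ^ (-b) * g) i false k true = P.W w i :=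
    fun P z w b hz u => by
      rw [cw_cross P i1 iN par (mul_mem (zpow_mem hz _) hg), mul_assoc, u]; congr 1; group
  have AL := fun od P Q => al _ _ _ _ _ p P i e e' k Q g o od rel i1 iN par
    (ty.imp_right fun u => ⟨u.1, u.2.1, u.2.2.1.imp_right ((pt.2 od).2 i i1 iN).1⟩) hg
  refine ⟨fun r b b' => or_iff_not_imp_left.2 fun u => ?_, fun r b b' => or_iff_not_imp_left.2 fun u => ?_,
    or_iff_not_imp_left.2 fun u => ?_, or_iff_not_imp_left.2 fun u => ?_⟩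
  · obtain ⟨P, H⟩ := lr V M m n Y S s t _ p c i x B y y' e e' k s r D
      (fun f => (b s f).2.1 rfl) b' fun j hj => exists_bl ev cs hs b hj
    have ps : ∀ g (j : ℤ), ¬ Y.Ps (Y.im g S) s r → ¬ Y.Ps (Y.im (PresentedGroup.of t ^ j * g) S) s r :=
      fun g j v w => v (back _ j g ▸ (m1 _ s t r _ ne).1 b' w)
    have H' := fun g v w => (H g (par_pair s t ▸ v) w).1 rfl
    rcases Nat.mod_two_eq_zero_or_one N with od | od
    swap
    · exact (AL od P _ u).1 ps (Or.inl H')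
    have P1 := fun j => p1 _ _ _ Δ N p P i j (by omega) od rel i1 iN par
    rcases ty with ⟨rfl, rfl⟩ | ⟨rfl, k0, -⟩
    · obtain ⟨b1, j, b2, v, w⟩ := (c3 _ _ _ Δ N p P i _ (by omega) od rel i1 iN par hk).1
        (cw_cross P i1 iN par hg k ▸ H' g hg u)
      have z := cr P _ _ b1 mt (w.trans (mul_assoc _ _ _))
      rw [W_s P i1 iN par (hΔ j)] at z
      obtain rfl : j = 0 := by_contra fun j0 =>
        ((P1 j j0).1 v).1 (z ▸ H' _ (mul_mem (zpow_mem mt _) hg) (ps g _ u))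
      exact ⟨b1, b2, -k, by rw [eq_mul_inv_of_mul_eq w]; group⟩
    · obtain ⟨b1, j, v, w⟩ := ((c3 _ _ _ Δ N p P i _ (by omega) od rel i1 iN par hg).2.2 e k k0).1
        (H' g hg u)
      obtain rfl : j = 0 := by_contra fun j0 => ((P1 j j0).1 v).2.2 e k k0
        (H' _ (hΔ j) (by simpa [w] using ps g (-b1) u))
      exact ⟨b1, 0, 0, by simpa using w⟩
  · have LR := fun p c i B y y' e e' k D => lr V M m n Y S s t N p c i x B y y' e e' k t r D b'
      (fun f => (b t f).2.1 rfl) fun j hj => exists_bl ev cs ht b hj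
    obtain ⟨P, H⟩ := LR p c i B y y' e e' k D
    have ps : ∀ g (j : ℤ), ¬ Y.Ps (Y.im g S) t r → ¬ Y.Ps (Y.im (PresentedGroup.of s ^ j * g) S) t r :=
      fun g j v w => v (back _ j g ▸ (m1 _ t s r _ ne').1 b' w)
    have H' := fun g v w => (H g (par_pair s t ▸ v) w).2 rfl
    rcases Nat.mod_two_eq_zero_or_one N with od | od
    swap
    · exact ((AL od P _ u).2 ps).1 H'
    rcases ty with ⟨rfl, rfl⟩ | ⟨rfl, k0, -, hh⟩
    · obtain ⟨b1, j, h, b2, v, -, w⟩ := (c3 _ _ _ Δ N p P i _ (by omega) od rel i1 iN par hk).2.1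
        (cw_cross P i1 iN par hg k ▸ H' g hg u)
      have z := cr P _ (Δ ^ j * PresentedGroup.of t ^ h * PresentedGroup.of s ^ b2) b1 ms (by rw [w]; group)
      rw [W_s P i1 iN par (mul_mem (hΔ j) (zpow_mem mt h))] at z
      obtain rfl : j = 0 := by_contra fun j0 =>
        ((p1 _ _ _ Δ N p P i j (by omega) od rel i1 iN par j0).1 v).2.1 h
          (z ▸ H' _ (mul_mem (zpow_mem ms _) hg) (ps g _ u))
      exact ⟨b1, h, b2, -k, by rw [eq_mul_inv_of_mul_eq w]; group⟩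
    · obtain ⟨b1, j, b2, w⟩ := ((c3 _ _ _ Δ N p P i _ (by omega) od rel i1 iN par hg).2.2 e k k0).2
        (H' g hg u)
      obtain rfl : j = 0 := by_contra fun j0 => by
        obtain ⟨c, p, i, e, k, -, -, k0, ⟨B, y, y', D⟩, nb, -⟩ := PK od hh j
        obtain ⟨P, H⟩ := LR p c i B y y' e e k D
        exact nb ((p1 _ _ _ Δ N p P i j (by omega) od rel D.i1 D.iN D.par j0).2 e k k0
          (cw_t P D.i1 D.iN D.par (hΔ j) b2 k e ▸ (H _ (par_pair s t ▸ mul_mem (hΔ j) (zpow_mem mt b2))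
            (by simpa [w, mul_assoc] using ps g (-b1) u)).2 rfl))
      exact ⟨b1, b2, 0, 0, by simpa using w⟩
  · obtain ⟨P, H⟩ := ls V M m n Y S s t N p c i x B y y' e e' k D
    have ps : ∀ j : ℤ, ¬ Sd Y a (Y.im (PresentedGroup.of t ^ j * g) S) t (Sum.inl s) :=
      fun j w => u (back _ j g ▸ w.own _)
    have H0 := (H g (par_pair s t ▸ hg)).1 fun f => u (Or.inl f)
    rcases ty with ⟨rfl, rfl⟩ | ⟨rfl, k0, -, hh⟩
    · obtain ⟨b1, j, b2, v, w⟩ := (c4 _ _ _ Δ N p P i _ _ o rel i1 iN par hk).1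
        (cw_cross P i1 iN par hg k ▸ H0)
      have z := cr P _ _ b1 mt (w.trans (mul_assoc _ _ _))
      rw [W_s P i1 iN par (hΔ j)] at z
      obtain rfl : j = 0 := by_contra fun j0 => ps (-b1) (Or.inr
        (((p3 _ _ _ Δ N p P i j _ o rel i1 iN par j0 ac_sub).1 v (z ▸ (H _ (par_pair s t ▸
          mul_mem (zpow_mem mt _) hg)).1 fun f => ps _ (Or.inl f))).hh o pt ct))
      exact ⟨b1, b2, -k, by rw [eq_mul_inv_of_mul_eq w]; group⟩
    · obtain ⟨b1, j, v, w⟩ := ((c4 _ _ _ Δ N p P i _ _ o rel i1 iN par hg).2.2 e k k0).1 H0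
      have nd : ¬ Sd Y a (Y.im (Δ ^ j) S) t (Sum.inl s) := by simpa [w] using ps (-b1)
      by_cases j0 : j = 0
      · exact ⟨b1, 0, 0, by simpa [j0] using w⟩
      refine (nd (Or.inr ?_)).elim
      have P3 := fun p c (i : ℕ) B y y' e k (D : Sdd Y S s t N p c i x B y y' e e k) k0 =>
        (ls V M m n Y S s t N p c i x B y y' e e k D).elim fun P H =>
          (p3 _ _ _ Δ N p P i j _ o rel D.i1 D.iN D.par j0 ac_sub).2 e k k0 v
            ((H _ (par_pair s t ▸ hΔ j)).1 fun f => nd (Or.inl f))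
      rcases Nat.mod_two_eq_zero_or_one N with od | od
      · obtain ⟨c, p, i, e, k, pt, ct, k0, ⟨B, y, y', D⟩, nb, kk⟩ := PK od hh j
        rcases P3 p c i B y y' e k D k0 with z | ⟨-, z | ⟨z1, z2, z3, e', z4⟩⟩ | ⟨z, -⟩
        · exact z.hh o pt ct
        · exact (nb z).elim
        · exact hh_kk (kk z1 z2 z3) (ac_hp ct z4)
        · omega
      by_contra nh
      have key : ∀ i₀ < n, ∃ i', ((∃ e, Hp Y S x (t, i₀) e) → (Em a i₀ ↔ Ep a i') ∧ (Ep a i₀ ↔ Em a i') ∧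
          ¬ Kk a i₀) ∧ ∀ e, Hp Y S x (t, i₀) e → Hp Y (Y.im (Δ ^ j) S) (Sum.inl s) (t, i') e := fun i₀ h => by
        obtain ⟨c, p, i, rfl, i1, iN, -, pt, ct, -, D⟩ := CH i₀ h
        have z : ∀ e, Hp Y S x (t, (c i).2) e → i % 2 = 1 ∧
            (N + 1 - i, e) ∈ Ac Y (Y.im (Δ ^ j) S) s N (i % 2) c := by
          rintro e ⟨-, B, y, y', k, b1, b2, b3, b4, b5⟩
          rcases P3 p c i B y y' e k (D _ _ _ _ _ _ b1 b2 b3 b5) b4 with z | ⟨z, -⟩ | ⟨-, z⟩
          exacts [(nh (z.hh o pt ct)).elim, by omega, z]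
        refine ⟨(c (N + 1 - i)).2, fun ⟨e, f⟩ => ?_, fun e f => ac_hp ct (z e f).2⟩
        have q := (z e f).1
        have q' := ((pt.2 od).2 (N + 1 - i) (by omega) (by omega)).2 (by omega)
        rw [show N + 1 - (N + 1 - i) = i by omega] at q'
        exact ⟨((pt.2 od).2 i i1 iN).2 q, q'.symm, fun f => by
          have := ((pt.2 od).2 i i1 iN).1 f; omega⟩
      rcases hh with ⟨i, u, v⟩ | ⟨i, u, v⟩ | ⟨⟨i, u, v⟩, i', u', v'⟩
      · obtain ⟨_, z, -⟩ := key i v.1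
        exact (z ⟨_, v⟩).2.2 u
      · obtain ⟨i', -, z⟩ := key i v.1
        exact nh (Or.inr (Or.inl ⟨i', z _ u, z _ v⟩))
      · obtain ⟨l, z, q⟩ := key i v.1
        obtain ⟨l', z', q'⟩ := key i' v'.1
        exact nh (Or.inr (Or.inr ⟨⟨l', fun f => u' ((z' ⟨_, v'⟩).2.1.2 f), q' _ v'⟩,
          l, fun f => u ((z ⟨_, v⟩).1.2 f), q _ v⟩))
  · obtain ⟨P, H⟩ := ls V M m n Y S s t N p c i x B y y' e e' k D
    have ps : ∀ j : ℤ, ¬ Sd Y a (Y.im (PresentedGroup.of s ^ j * g) S) s (Sum.inl t) :=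
      fun j w => u (back _ j g ▸ w.own _)
    have H0 := (H g (par_pair s t ▸ hg)).2 fun f => u (Or.inl f)
    have H1 := fun j => (H _ (par_pair s t ▸ mul_mem (zpow_mem ms j) hg)).2 fun f => ps j (Or.inl f)
    rcases ty with ⟨rfl, rfl⟩ | ⟨rfl, k0, kk, -⟩
    · obtain ⟨b1, j, v, w⟩ := (c4 _ _ _ Δ N p P i _ _ o rel i1 iN par hk).2.1
        (cw_cross P i1 iN par hg k ▸ H0)
      obtain rfl : j = 0 := by_contra fun j0 => ps (-b1) (Or.inr
        (((p4 _ _ _ Δ N p P i j _ o rel i1 iN par j0).1 v (cr P _ _ b1 ms w ▸ H1 (-b1))).hh o pt cs'))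
      exact ⟨b1, -k, by rw [eq_mul_inv_of_mul_eq w]; group⟩
    · obtain ⟨b1, j, od, v, w⟩ := ((c4 _ _ _ Δ N p P i _ _ o rel i1 iN par hg).2.2 e k k0).2 H0
      have z := H1 (-b1)
      rw [show PresentedGroup.of s ^ (-b1) * g = Δ ^ j by rw [w]; group] at z
      obtain ⟨z1, e', z2⟩ := (p4 _ _ _ Δ N p P i j _ o rel i1 iN par (by omega)).2 e k k0 od v z
      refine (ps (-b1) (Or.inr ?_)).elim
      rw [show PresentedGroup.of s ^ (-b1) * g = Δ ^ j by rw [w]; group]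
      exact kk.elim (fun f => (z1 f).hh o pt cs') fun f =>
        hh_kk ((pt.1 od).2.2.2.2.2.2 i i1 iN f) (ac_hp cs' z2)

end Pool.Agent.MP_6eaae3_al.MX

end PartLl

section PartAx

/-! The plumbing satisfies the rules of the induction. -/

namespace Pool.Agent.MP_6eaae3_al.MX

open FreeGroup (of mk invRev IsReduced)
open Set Pool.Agent.MP_6eaae3_al.LT Pool.Agent.MP_6eaae3_al.LT.Path Pool.Agent.MP_6eaae3_al.EV

namespace AxA

variable {V M : Type} {m : V → V → ℕ} {n a : ℕ} {Y : Sy m n M} {Λ : Set V} {S : Set (FG M)}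

theorem HP : S_HP := hp ptt (wp ptt)

theorem ps (ev : Nt m Λ) (ch : Chs Y a Λ) {q : V × ℕ} (ha : q.1 ∈ Λ) {r ρ B₀ y y' e e' k}
    (ok : Ok m Λ q.1 ρ) (ne : ρ ≠ r) (q2 : q.2 < n) (b : Y.Bl q r B₀) (a1 : y ∈ B₀) (a2 : y' ∈ B₀)
    (a3 : k ≠ 0) (a4 : Y.Pg S q y e k y' e') : Y.Ps S q.1 ρ := by
  obtain ⟨⟨z₀, sg₀⟩, bl₀⟩ := b
  obtain ⟨B, ⟨z, sg⟩, bl⟩ := exists_bl ev ch ha ok q2
  exact ⟨q, B, rfl, q2, ⟨⟨z, sg⟩, bl⟩, HP V M m n Y S q B B₀ z z₀ y y' e e' k q2 sg sg₀ a1 a2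
    (fun u => ne (((bl y).1 u).uq ((bl₀ y).1 a1)))
    (fun u => ne (((bl y').1 u).uq ((bl₀ y').1 a2))) a3 a4⟩

theorem pi (ev : Nt m Λ) (ch : Chs Y a Λ) {h d : V} (ha : h ∈ Λ) (ok : Ok m Λ h (Sum.inl d))
    (w : Y.Ps S d (Sum.inl h)) : Y.Cx S h (Sum.inl d) 0 := by
  obtain ⟨q, B, q1, q2, ⟨⟨y, sg⟩, bl⟩, hs⟩ := w
  obtain ⟨a1, p, p1, p2, p3⟩ := (bl y).1 sg.last
  obtain rfl : p.1 = h := p1
  obtain ⟨B', bl'⟩ := exists_bl ev ch ha ok p2
  have a2 : opp y ∈ B' := (bl'.2 _).2 ⟨p3, q, q1, q2, by rwa [opp_opp]⟩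
  have a3 := hs.inf (M2.inf_pw sg.last)
  refine ⟨p, B', opp y, opp y, rfl, p2, bl', a2, a2, ?_⟩
  obtain ⟨μ, _ | _⟩ := y
  · rw [Sy.Pg, Sy.Rn_self, wd_one]
    exact a3
  · rw [← neg_zero]
    refine Sy.Pg.symm ?_
    rw [Sy.Pg, Sy.Rn_self, wd_one]
    exact a3

theorem far {b : V} {q : V × ℕ} {r e} (j : ℤ) (ne : b ≠ q.1) (m1 : m b q.1 = 2) (m2 : m q.1 b = 2)
    (w : Hp Y S r q e) : Hp Y (Y.im (PresentedGroup.of b ^ j) S) r q e := by
  obtain ⟨u, B, y, y', k, hB, c, c', k0, hp⟩ := w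
  obtain ⟨z, hz⟩ := hB.1
  refine ⟨u, B, y, y', k, hB, c, c', k0, M1.pg_fix (f2 f3) (M1.pow_mem b j) {x | x ∈ Y.cl q} ?_ ne.symm
    (hz.mem c) (hz.mem c') (hz.mem c) (hz.mem c') (Sy.Rn_mem (hz.mem c) (hz.mem c') k) hp⟩
  rintro x hx ⟨p, rfl, -, p2⟩
  exact (Sy.cross_lab hx p2).elim (fun e => e m2) fun e => e m1

theorem sh (ev : Nt m Λ) (ch : Chs Y a Λ) {h d : V} {j : ℤ} (hh : h ∈ Λ) (ok : Ok m Λ h (Sum.inl d))
    (hj : j ≠ 0) (w : Y.Ps S h (Sum.inl d)) :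
    Y.Cx (Y.im (PresentedGroup.of d ^ j) S) h (Sum.inl d) 0 := by
  obtain ⟨⟨_, i⟩, B, rfl, hi, hB, hs⟩ := w
  have h1 := f2 f3
  obtain ⟨a, b, c0⟩ := ok d rfl
  have c1 : m d _ ≠ 2 := ev.1 _ d ▸ c0
  obtain ⟨c, p, k, cn, -, k1, k2, e, -⟩ := ch d a _ hh b.symm c1 i hi
  have hN := ev.three a hh b.symm c1
  have e1 := congrArg Prod.fst e
  obtain ⟨B', u, v⟩ := cn.bl (Or.inr rfl) k1 k2 e1
  rw [← e] at hB
  obtain rfl : B = B' := by
    obtain ⟨z, hz⟩ := hB.1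
    obtain ⟨z', hz'⟩ := u.1
    exact Sh.sub_ext (Sy.nodup _) hz.1.sublist hz'.1.sublist fun y => (hB.2 y).trans (u.2 y).symm
  rcases v with ⟨v1, v2, rfl⟩ | ⟨rfl, rfl⟩ | ⟨v1, rfl⟩
  · obtain ⟨z, hz⟩ := hB.1
    have m1 : Y.dn c k ∈ [Y.dn c k, Y.up c k] := by simp
    have m2 : Y.up c k ∈ [Y.dn c k, Y.up c k] := by simp
    obtain ⟨s, h4⟩ := Sh.mid (d := d) h1 hz.1 ((hB.2 _).1 m1).2 ((hB.2 _).1 m2).2 (e1 ▸ b) hj hs
    rcases Sh.both h4 with h5 | h5
    exacts [⟨_, _, _, _, e1, cn.lt k k1 k2, hB, m1, m2, h5⟩,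
      ⟨_, _, _, _, e1, cn.lt k k1 k2, hB, m2, m1, h5⟩]
  · have m1 := cn.dnm (k := 2) (by omega) (by omega)
    have h4 := (Sy.on_iff m1).1 ((hB.2 _).1 (List.mem_singleton_self _)).2
    have e3 := (cn.alt 1).symm.trans e1
    obtain ⟨B3, u3, v3⟩ := cn.bl (k := 3) (Or.inr rfl) (by omega) hN e3
    have m3 : Y.dn c 3 ∈ B3 := by
      rcases v3 with ⟨-, -, rfl⟩ | ⟨v, -⟩ | ⟨-, rfl⟩ <;> first | omega | simp
    rw [← show (c 2).1 = d from h4.1]
    rw [← show (c 2).1 = d from h4.1] at u3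
    exact ⟨_, _, _, _, e3, cn.lt 3 (by omega) hN, u3, m3, m3, Sh.endc (m0 h1) HP h4.2 m1
      (cn.upm (k := 2) (by omega) (by omega)) (by simp [opp, Sy.up]) hj hs _⟩
  · obtain ⟨k, rfl⟩ : ∃ k', k = k' + 2 := ⟨k - 2, by omega⟩
    have m1 := cn.upm (k := k + 1) (by omega) (by omega)
    have h4 := (Sy.on_iff m1).1 ((hB.2 _).1 (List.mem_singleton_self _)).2
    have e3 := (cn.alt k).trans e1
    obtain ⟨B3, u3, v3⟩ := cn.bl (k := k) (Or.inr rfl) (by omega) (by omega) e3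
    have m3 : Y.up c k ∈ B3 := by
      rcases v3 with ⟨-, -, rfl⟩ | ⟨-, rfl⟩ | ⟨v, -⟩ <;> first | omega | simp
    rw [← show (c (k + 1)).1 = d from h4.1]
    rw [← show (c (k + 1)).1 = d from h4.1] at u3
    exact ⟨_, _, _, _, e3, cn.lt k (by omega) (by omega), u3, m3, m3, Sh.endc (m0 h1) HP h4.2 m1
      (cn.dnm (k := k + 1) (by omega) (by omega)) (by simp [opp, Sy.dn]) hj hs _⟩

end AxA

open AxA EV.AxA in
theorem ax (ll : S_LL) : S_AX := by
  intro V M m n Y kk Λ t₀ ev cs hn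
  have m1 := m1 (f2 f3) V M m n Y 0
  have ok : ∀ {h d}, d ∈ Λ → h ≠ d ∧ m h d ≠ 2 → Ok m Λ h (Sum.inl d) := fun a b x e => by
    cases e; exact ⟨a, b⟩
  have two : ∀ {a h}, a ≠ h → ¬ (a ≠ h ∧ m a h ≠ 2) → m a h = 2 ∧ m h a = 2 := fun {a h} u v => by
    have : m a h = 2 := by_contra fun e => v ⟨u, e⟩
    exact ⟨this, ev.1 a h ▸ this⟩
  refine ⟨{ cr := fun a b => a ≠ b ∧ m a b ≠ 2
            Cx := fun g h r k => Y.Cx (Y.im g (Y.S0 t₀)) h r k
            Hh := fun g h r => Hh Y kk (Y.im g (Y.S0 t₀)) h r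
            Ps := fun g h r => Y.Ps (Y.im g (Y.S0 t₀)) h r
            sy := fun a b h => ⟨h.1.symm, ev.1 a b ▸ h.2⟩
            ne := fun a b h => h.1
            cm := fun a _ b _ h => ?_
            base := ?_
            ps1 := fun g h ρ a j u v w => Y.im_mul _ _ _ ▸ (m1 _ h a ρ j u).1 v w
            cx1 := fun g h ρ a j u v w => Y.im_mul _ _ _ ▸ (m1 _ h a ρ j u).2.1 v w
            cx2 := fun g h _ ρ a _ j k u v w => Y.im_mul _ _ _ ▸
              ((m1 _ h a ρ j u).2.2 (two u v).1 (two u v).2).1 k w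
            hh2 := fun g h _ ρ a _ j u v w => Y.im_mul _ _ _ ▸
              w.imp fun _ _ => far j u (two u v).1 (two u v).2
            cx0 := fun g h ρ j k w => ?_
            hp := fun g h hh x ρ u v w => ?_
            sh := fun g h hh d hd j u v w => Y.im_mul _ _ _ ▸ AxA.sh ev cs hh (ok hd u) v w
            pi := fun g h hh d hd u w => AxA.pi ev cs hh (ok hd u) w
            loc := fun g s hs t ht x e he u v w z => ?_
            df6 := fun h hh d hd u => ?_ }, fun _ _ _ h => h⟩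
  · by_cases e : a = b
    exacts [e ▸ Commute.refl _, comm e (two e h).1]
  · refine ⟨(t₀, 0), _, _, _, rfl, hn, Sy.bl_mr _ false, List.mem_singleton_self _,
      List.mem_singleton_self _, _, Or.inl (by rw [Y.im_one]; exact ⟨0, hn, rfl⟩), ?_⟩
    rw [Sy.Rn_self, wd_one, Has]
    refine (wd_mk (l := [_, _]) ?_).symm ▸ List.infix_rfl
    simp [FreeGroup.isReduced_cons_cons]
  · obtain ⟨q, B, y, y', rfl, a, b, c, d, e⟩ := w
    obtain ⟨z, f⟩ := b.1
    refine ⟨q, B, y, y', rfl, a, b, c, d, ?_⟩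
    have := m0 (f2 f3) V M m n Y _ q y y' false true k j a (f.mem c) (f.mem d) e
    rw [Y.im_mul]
    simpa using this
  · rcases w with ⟨k, hk, q, B, y, y', rfl, a2, a3, a4, a5, a6⟩ | w
    · exact AxA.ps ev cs hh u v a2 a3 a4 a5 hk a6
    · obtain ⟨i, e, -, a2, B, y, y', k, a3, a4, a5, hk, a6⟩ := w.base
      exact AxA.ps (q := (h, i)) ev cs hh u v a2 a3 a4 a5 hk a6
  · have := ll V M m n Y kk Λ _ s t x e ev cs ht (ok hs ⟨u.1.symm, ev.1 s t ▸ u.2⟩) v w z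
      (par_pair s t ▸ he)
    rw [← Y.im_mul] at this
    exact this
  · obtain ⟨c, p, j, cn, col, j1, jN, e, -⟩ := cs h hh d hd u.1 u.2 0 hn
    obtain ⟨P⟩ := exists_pu ta ch u.1 cn col
    have o := ev.three hh hd u.1 u.2
    obtain ⟨U, hU⟩ := exists_cheb cn.two
    have par : (j + p) % 2 = 1 := by
      have := col j
      rw [e, yy] at this
      split_ifs at this
      exacts [(u.1 this.symm).elim, by omega]
    obtain ⟨-, -, f0, f1, f0', f1', a, b, -⟩ := hf _ _ _ _ p P U j hU cn.two j1 jN par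
    refine d6 _ _ _ (U 2) f0 f1 f0' f1' (deg m) ?_ a b (deg_of _) (deg_of _)
    have h3 := hU.ge (j := 2) (by omega)
    have h4 := hU.rc 1
    rw [hU.o] at h4
    norm_num at h3 h4
    linarith

end Pool.Agent.MP_6eaae3_al.MX

end PartAx
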