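import Pool.Agent.MP_6eaae3_al.MX.Pa
import Pool.Agent.MP_6eaae3_al.MX.Pb
import Pool.Agent.MP_6eaae3_al.MX.Pc

/-! Cliques without the label three. -/

namespace Pool.Agent.MP_6eaae3_al.MX

theorem dc_mixed : S_DC :=
  have L := pl po pq
  dc lv cs (ax (ll (ls de) (c3 h4) (c4 h4) (p1 df tl ld L en t1 t7) (p3 df tl ld L en t4 t5 t6 t9)
    (p4 df tl ld L en t5 t7)))

end Pool.Agent.MP_6eaae3_al.MX
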