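import Pool.Agent.MP_6eaae3_al.MX.Spec

/-! Basic facts on boundary segments, places and classes. -/

namespace Pool.Agent.MP_6eaae3_al.MX

open FreeGroup (of mk invRev IsReduced)
open Set Pool.Agent.MP_6eaae3_al.LT Pool.Agent.MP_6eaae3_al.LT.Path Pool.Agent.MP_6eaae3_al.EV

section seg

variable {H H' : Type} [Group H] [Group H'] {f g : ℤ → H}

theorem pr_cons (u : ℕ → H) : ∀ n, pr u (n + 1) = u 0 * pr (fun j => u (j + 1)) n
  | 0 => by simp [pr]
  | n + 1 => by rw [pr, pr_cons u n, pr, mul_assoc]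

theorem Gz_succ (f : ℤ → H) (p : ℤ) : Gz f (p + 1) = Gz f p * f p := by
  rcases p with n | _ | n
  · rfl
  · show (1 : H) = (1 * f _)⁻¹ * f _
    simp
  · show (pr _ (n + 1))⁻¹ = (pr _ (n + 1 + 1))⁻¹ * f _
    rw [pr_cons _ (n + 1), mul_inv_rev, show ((0 : ℕ) : ℤ) - (((n + 1 : ℕ) : ℤ) + 1) = Int.negSucc (n + 1) by
      omega, inv_mul_cancel_right]
    congr 2
    funext j
    congr 1
    push_cast
    ring

@[simp] theorem seg_self (f : ℤ → H) (a : ℤ) : seg f a a = 1 := inv_mul_cancel _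

theorem seg_succ (f : ℤ → H) (a c : ℤ) : seg f a (c + 1) = seg f a c * f c := by
  rw [seg, Gz_succ, seg, mul_assoc]

theorem seg_pred (f : ℤ → H) (a c : ℤ) : seg f a (c - 1) = seg f a c * (f (c - 1))⁻¹ := by
  rw [eq_mul_inv_iff_mul_eq, ← seg_succ, sub_add_cancel]

theorem seg_one (f : ℤ → H) (a : ℤ) : seg f a (a + 1) = f a := by rw [seg_succ, seg_self, one_mul]

theorem seg_trans (f : ℤ → H) (a b c : ℤ) : seg f a b * seg f b c = seg f a c := by
  simp only [seg]; group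

theorem seg_inv (f : ℤ → H) (a c : ℤ) : (seg f a c)⁻¹ = seg f c a := by
  simp only [seg]; group

/-- A segment is determined by its steps. -/
theorem seg_eq {F : ℤ → H} (h : ∀ p, F (p + 1) = F p * f p) (a c : ℤ) : seg f a c = (F a)⁻¹ * F c := by
  induction c using Int.inductionOn' (b := a) with
  | zero => simp
  | succ k _ ih => rw [seg_succ, ih, h, mul_assoc]
  | pred k _ ih =>
    rw [seg_pred, ih, mul_assoc, show F k = F (k - 1) * f (k - 1) by rw [← h, sub_add_cancel],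
      mul_inv_cancel_right]

theorem seg_map (φ : H →* H') (f : ℤ → H) (a c : ℤ) : φ (seg f a c) = seg (fun p => φ (f p)) a c := by
  rw [seg_eq (F := fun p => φ (Gz f p)) (fun p => by rw [Gz_succ, map_mul]), seg, map_mul, map_inv]

theorem seg_tel {u : ℤ → H} (h : ∀ p, f p = u p * g p * (u (p + 1))⁻¹) (a c : ℤ) :
    seg f a c = u a * seg g a c * (u c)⁻¹ := by
  rw [seg_eq (F := fun p => Gz g p * (u p)⁻¹) fun p => by rw [h, Gz_succ]; group, seg]
  group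

theorem seg_shift (d : ℤ) (h : ∀ p, f (p + d) = g p) (a c : ℤ) : seg f (a + d) (c + d) = seg g a c := by
  rw [seg_eq (f := g) (F := fun p => Gz f (p + d)) fun p => by
    rw [add_right_comm, Gz_succ, h], seg]

theorem seg_mem {K : Subgroup H} {a c : ℤ}
    (h : ∀ p, (a ≤ p ∧ p < c) ∨ (c ≤ p ∧ p < a) → f p ∈ K) : seg f a c ∈ K := by
  induction c using Int.inductionOn' (b := a) with
  | zero => simp
  | succ k u ih => rw [seg_succ]; exact mul_mem (ih fun p v => h p (by omega)) (h k (by omega))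
  | pred k u ih =>
    rw [seg_pred]; exact mul_mem (ih fun p v => h p (by omega)) (inv_mem (h _ (by omega)))

end seg

/-! Places. -/

theorem sht_eq {N : ℕ} (b n : ℤ) {r : ℤ} (h0 : 0 ≤ r) (h1 : r < 2 * N - 2) :
    sht N b (r + n * (2 * N - 2)) = (b + n * (N + 1)) % 2 ∧
      (r + n * (2 * N - 2)) % (2 * N - 2) = r := by
  rw [sht, Int.add_mul_ediv_right _ _ (by omega), Int.ediv_eq_zero_of_lt h0 h1, zero_add,
    Int.add_mul_emod_self_right, Int.emod_eq_of_lt h0 h1]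
  exact ⟨rfl, rfl⟩

theorem slot_eq {N : ℕ} (b n : ℤ) {r : ℤ} (h0 : 0 ≤ r) (h1 : r < 2 * N - 2) :
    slot N b (r + n * (2 * N - 2)) = s0 N ((b + n * (N + 1)) % 2) r := by
  rw [slot, (sht_eq b n h0 h1).1, (sht_eq b n h0 h1).2]

theorem zet_eq {N : ℕ} (π : ℕ) (b n : ℤ) {r : ℤ} (h0 : 0 ≤ r) (h1 : r < 2 * N - 2) :
    zet N π b (r + n * (2 * N - 2)) = z0 N π ((b + n * (N + 1)) % 2) r := by
  rw [zet, (sht_eq b n h0 h1).1, (sht_eq b n h0 h1).2]

/-- Every place is `r + n T`. -/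
theorem place {N : ℕ} (h : 2 ≤ N) (p : ℤ) :
    ∃ r n : ℤ, 0 ≤ r ∧ r < 2 * N - 2 ∧ p = r + n * (2 * N - 2) :=
  ⟨p % (2 * N - 2), p / (2 * N - 2), Int.emod_nonneg _ (by omega), Int.emod_lt_of_pos _ (by omega),
    (Int.emod_add_ediv_mul _ _).symm⟩

/-- The parity of the sheet. -/
theorem sheet (N : ℕ) (n : ℤ) : n * (N + 1) % 2 = if N % 2 = 0 then n % 2 else 0 := by
  rw [Int.mul_emod]
  split_ifs with h
  · rw [show ((N : ℤ) + 1) % 2 = 1 by omega]; omega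
  · rw [show ((N : ℤ) + 1) % 2 = 0 by omega]; omega

theorem s0_inj {N : ℕ} (hN : 3 ≤ N) {β β' r r' : ℤ} (b : β = 0 ∨ β = 1) (b' : β' = 0 ∨ β' = 1)
    (h0 : 0 ≤ r) (h1 : r < 2 * N - 2) (h0' : 0 ≤ r') (h1' : r' < 2 * N - 2) (ne : (s0 N β r).1 ≠ 0)
    (e : s0 N β r = s0 N β' r') (c : N % 2 = 0 ∨ β = β') : β = β' ∧ r = r' := by
  unfold s0 at ne e
  split_ifs at ne e <;> simp only [Prod.mk.injEq, and_true, ne_eq, not_true_eq_false, Bool.true_eq_false,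
    Bool.false_eq_true, and_false] at ne e <;> omega

theorem pe : S_PE := by
  intro N hN
  have p1 : ∀ b p n : ℤ, slot N b (p + n * (2 * N - 2)) = slot N (b + n * (N + 1)) p := fun b p n => by
    obtain ⟨r, k, h0, h1, rfl⟩ := place (N := N) (by omega) p
    rw [add_assoc, ← add_mul, slot_eq _ _ h0 h1, slot_eq _ _ h0 h1]
    congr 2
    ring
  have p2 : ∀ b b' p : ℤ, b % 2 = b' % 2 → slot N b p = slot N b' p := fun b b' p h => by
    rw [slot, slot, sht, sht, Int.add_emod, h, ← Int.add_emod]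
  refine ⟨p1, p2, fun p p' ne e => ?_, fun b p => ?_, fun p o h => ?_, fun b n j j1 jN => ⟨fun h => ?_,
    fun h => ?_⟩⟩
  · obtain ⟨r, k, h0, h1, rfl⟩ := place (N := N) (by omega) p
    obtain ⟨r', k', h0', h1', rfl⟩ := place (N := N) (by omega) p'
    rw [slot_eq _ _ h0 h1, zero_add, sheet] at ne e
    rw [slot_eq _ _ h0' h1', zero_add, sheet] at e
    obtain ⟨u, rfl⟩ := s0_inj hN (by split_ifs <;> omega) (by split_ifs <;> omega) h0 h1 h0' h1' ne e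
      (by split_ifs <;> omega)
    rw [add_sub_add_left_eq_sub, ← sub_mul]
    refine mul_dvd_mul_right ?_ _
    split_ifs at u ⊢ <;> omega
  · obtain ⟨r, k, h0, h1, rfl⟩ := place (N := N) (by omega) p
    rw [slot_eq _ _ h0 h1, s0]
    split_ifs <;> simp only <;> omega
  · obtain ⟨r, k, h0, h1, rfl⟩ := place (N := N) (by omega) p
    rw [slot_eq _ _ h0 h1, Int.add_emod, sheet, if_neg (by omega), s0] at h ⊢
    split_ifs at h ⊢ <;> simp only at h ⊢ <;> omega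
  · rw [slot_eq _ _ (by omega) (by omega), h, s0, if_pos rfl, if_pos (by omega)]
    congr 1
    omega
  · by_cases c : j = N
    · have := sheet N n
      rw [show (N : ℤ) + j - 2 + n * (2 * N - 2) = 0 + (n + 1) * (2 * N - 2) by rw [c]; ring,
        slot_eq _ _ le_rfl (by omega), s0, if_neg (by rw [add_mul, one_mul]; omega), if_pos rfl, c]
    rw [slot_eq _ _ (by omega) (by omega), s0]
    split_ifs <;> first | omega | (congr 1; omega)

/-- A right side on the path of a port. -/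
theorem in_R {N i j : ℕ} {e : Bool} {k : ℤ} (n : ℤ) (hN : 3 ≤ N) (j1 : 1 ≤ j) (jN : j ≤ N)
    (h : (shb i e + n * (N + 1)) % 2 = 0)
    (hp : (sta N i e ≤ N - j + n * (2 * N - 2) ∧ N - j + n * (2 * N - 2) < lan N i e k) ∨
      (lan N i e k ≤ N - j + n * (2 * N - 2) ∧ N - j + n * (2 * N - 2) < sta N i e)) :
    In N i e k (j, true) :=
  ⟨by omega, _, hp, ((pe N hN).2.2.2.2.2 _ n j j1 jN).1 h⟩

/-- A left side on the path of a port. -/
theorem in_L {N i j : ℕ} {e : Bool} {k : ℤ} (n : ℤ) (hN : 3 ≤ N) (j1 : 1 ≤ j) (jN : j ≤ N)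
    (h : (shb i e + j + n * (N + 1)) % 2 = 0)
    (hp : (sta N i e ≤ N + j - 2 + n * (2 * N - 2) ∧ N + j - 2 + n * (2 * N - 2) < lan N i e k) ∨
      (lan N i e k ≤ N + j - 2 + n * (2 * N - 2) ∧ N + j - 2 + n * (2 * N - 2) < sta N i e)) :
    In N i e k (j, false) :=
  ⟨by omega, _, hp, ((pe N hN).2.2.2.2.2 _ n j j1 jN).2 h⟩

/-- Longer paths in the same direction see more. -/
theorem In.mono {N i : ℕ} {e : Bool} {k k' : ℤ} {x} (hN : 1 ≤ N) (h : In N i e k' x)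
    (hk : (0 ≤ k' ∧ k' ≤ k) ∨ (k ≤ k' ∧ k' ≤ 0)) : In N i e k x := by
  obtain ⟨a, p, b, c⟩ := h
  refine ⟨a, p, ?_, c⟩
  unfold lan at b ⊢
  have u : (0 : ℤ) ≤ N - 1 := by omega
  rcases hk with ⟨v, w⟩ | ⟨v, w⟩
  · have := mul_le_mul_of_nonneg_right w u
    have := mul_nonneg v u
    omega
  · have := mul_le_mul_of_nonneg_right v u
    have := mul_nonpos_of_nonpos_of_nonneg w u
    omega

theorem In.le {N i : ℕ} {e : Bool} {k : ℤ} {x} (hN : 3 ≤ N) (h : In N i e k x) : 1 ≤ x.1 ∧ x.1 ≤ N := by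
  obtain ⟨a, p, -, rfl⟩ := h
  exact ⟨by omega, (pe N hN).2.2.2.1 _ _⟩

/-! Side letters. -/

theorem be_of (i : ℕ) (e : Bool) : be (of (i, e)) = (eo i e)⁻¹ * ff i * eo i e := by
  cases e <;> simp [be, eo]

theorem be_zpow (i : ℕ) (e : Bool) (c : ℤ) : be (of (i, e) ^ c) = (eo i e)⁻¹ * ff i ^ c * eo i e := by
  have := conj_zpow (i := c) (a := (eo i e)⁻¹) (b := ff i)
  rw [inv_inv] at this
  rw [map_zpow, be_of, this]

theorem et_eq {N i : ℕ} (h1 : 1 ≤ i) (h2 : i ≤ N) : et N i = of (i, true) := if_pos ⟨h1, h2⟩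

theorem et_mem (N i : ℕ) : et N i ∈ Fre {x : ℕ × Bool | x.2 = true} := by
  unfold et; split_ifs
  exacts [of_mem_Fre rfl, one_mem _]

theorem eo_mem (i : ℕ) (e : Bool) : eo i e ∈ Fre {x : ℕ × Bool | x.2 = true} := by
  unfold eo; split_ifs
  exacts [of_mem_Fre rfl, one_mem _]

theorem xi_of {N π k : ℕ} (h : k % 2 = π) : xi N π (of k) = ff k := by
  rw [xi, FreeGroup.lift_apply_of, if_pos h]

/-- Loops of the other parity are sent to words in the sides. -/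
theorem xi_mem {N π : ℕ} {D : Set ℕ} (h : ∀ k ∈ D, k % 2 ≠ π) {w} (hw : w ∈ Fre D) :
    xi N π w ∈ Fre {x : ℕ × Bool | x.2 = true} :=
  Fre.map_mem _ (fun k hk => by
    rw [xi, FreeGroup.lift_apply_of, if_neg (h k hk)]
    exact mul_mem (et_mem _ _) (inv_mem (et_mem _ _))) hw

/-- The path of a port in side letters. -/
theorem xi_bp (h : S_TL) {N π : ℕ} (hN : 3 ≤ N) (hπ : π < 2) (i : ℕ) (e : Bool) (k : ℤ) :
    xi N π (bp N i e k) = et N (zet N π (shb i e) (sta N i e)) * be (bh N π i e k) *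
      (et N (zet N π (shb i e) (lan N i e k)))⁻¹ := by
  rw [bp, bh, seg_map, seg_map]
  exact seg_tel (u := fun p => et N (zet N π (shb i e) p)) (fun p => h N π _ p hN hπ) _ _

theorem Good.mono {N : ℕ} {A A' : Set (ℕ × Bool)} (h : Good N A) (s : A ⊆ A') : Good N A' := by
  rcases h with ⟨j, a, b⟩ | ⟨o, ⟨e, a⟩ | ⟨a, b⟩⟩ | ⟨o, ⟨e, a⟩ | ⟨a, b⟩ | ⟨a, b⟩⟩
  · exact Or.inl ⟨j, s a, s b⟩
  · exact Or.inr (Or.inl ⟨o, Or.inl ⟨e, s a⟩⟩)
  · exact Or.inr (Or.inl ⟨o, Or.inr ⟨s a, s b⟩⟩)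
  · exact Or.inr (Or.inr ⟨o, Or.inl ⟨e, a.imp (@s _) (@s _)⟩⟩)
  · exact Or.inr (Or.inr ⟨o, Or.inr (Or.inl ⟨s a, s b⟩)⟩)
  · exact Or.inr (Or.inr ⟨o, Or.inr (Or.inr ⟨s a, s b⟩)⟩)

theorem ix_le {N i : ℕ} (k : ℤ) (h1 : 1 ≤ i) (h2 : i ≤ N) : 1 ≤ ix N k i ∧ ix N k i ≤ N := by
  unfold ix; split_ifs <;> omega

theorem cb : S_CB := by
  classical
  intro L D o F u n a b n0 h
  have ex : ∀ x : L, x ∉ D → a * (if o = x then 1 else 0) + n * (if F = x then 1 else 0) +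
      b * (if o = x then 1 else 0) = (0 : ℤ) := fun x hx => by
    have := C2.hm_fre (w := fun y => if y = x then (1 : ℤ) else 0)
      (fun y hy => if_neg fun e : y = x => hx (e ▸ hy)) h
    simp only [C2.hm_mul, C2.hm_inv, C2.hm_zpow, C2.hm_of, smul_eq_mul] at this
    linarith
  have mn' : ∀ (E : Set L) (v : FreeGroup L), F ∈ E → v * of F ^ n * v⁻¹ ∈ Fre E → v ∈ Fre E :=
    fun E v hF hv => inv_mem_iff.1 (mn L E v⁻¹ _ (zpow_mem (of_mem_Fre hF) n) (of_zpow_ne F n0)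
      (by rwa [inv_inv]))
  have fd : F ≠ o → F ∈ D := fun ne => by_contra fun c => by
    have := ex F c
    simp [ne.symm, n0] at this
  refine ⟨mn' _ u (by simp) ?_, fd, fun c => ⟨fun ne => ⟨a, mn' _ _ (fd ne) ?_⟩, ?_⟩⟩
  · have ho : ∀ c : ℤ, of o ^ c ∈ Fre (D ∪ {o, F}) := fun c => zpow_mem (of_mem_Fre (by simp)) c
    exact (mul_mem_cancel_left (ho a)).1 ((mul_mem_cancel_right (ho b)).1 (Fre.mono subset_union_left h))
  · have := ex o c
    simp only [if_true, if_neg ne] at this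
    rw [show b = -a by omega] at h
    convert h using 1
    group
  · rintro rfl
    refine mn' _ u rfl ?_
    have k2 := Fre.fix (FreeGroup.lift fun x => if x = F then 1 else of x) (fun z hz => by
      rw [FreeGroup.lift_apply_of, if_neg fun e : z = F => c (e ▸ hz)]) h
    simp only [map_mul, map_inv, map_zpow, FreeGroup.lift_apply_of, if_true, one_zpow,
      mul_one, mul_inv_cancel] at k2
    rw [show u * of F ^ n * u⁻¹ = of F ^ (-a - b) by
      rw [← mul_left_inj (of F ^ b), ← mul_right_inj (of F ^ a), ← mul_assoc, ← k2]; group]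
    exact zpow_mem (of_mem_Fre (S := {F}) (mem_singleton F)) _

/-! Classes. -/

variable {V M : Type} {m : V → V → ℕ} {n a : ℕ} {Y : Sy m n M} {Λ : Set V} {S : Set (FG M)}

theorem Nt.three (ev : Nt m Λ) {s t} (hs : s ∈ Λ) (ht : t ∈ Λ) (ne : s ≠ t) (h : m s t ≠ 2) :
    3 ≤ m s t - 1 := by
  have := ev.2 s hs t ht ne
  omega

theorem exists_bl (ev : Nt m Λ) (ch : Chs Y a Λ) {h : V} (hh : h ∈ Λ) {r} (ok : Ok m Λ h r) {i}
    (hi : i < n) : ∃ B, Y.Bl (h, i) r B := by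
  rcases r with x | k
  · obtain ⟨a, b, d⟩ := ok x rfl
    obtain ⟨c, p, j, cn, -, j1, j2, e, -⟩ := ch x a h hh b.symm (ev.1 h x ▸ d) i hi
    obtain ⟨B, u, -⟩ := cn.bl (Or.inr rfl) j1 j2 (by rw [e])
    exact ⟨B, e ▸ u⟩
  · exact ⟨_, Sy.bl_mr _ _⟩

theorem Hh.imp {S' : Set (FG M)} {h r r'} (f : ∀ i e, Hp Y S r (h, i) e → Hp Y S' r' (h, i) e)
    (w : Hh Y a S h r) : Hh Y a S' h r' := by
  rcases w with ⟨i, u, v⟩ | ⟨i, u, v⟩ | ⟨⟨i, u, v⟩, i', u', v'⟩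
  exacts [Or.inl ⟨i, u, f _ _ v⟩, Or.inr (Or.inl ⟨i, f _ _ u, f _ _ v⟩),
    Or.inr (Or.inr ⟨⟨i, u, f _ _ v⟩, i', u', f _ _ v'⟩)]

/-- Every seed contains a passage on a right side or on a curve of the middle class. -/
theorem Hh.base {h r} (w : Hh Y a S h r) : ∃ i e, (e = true ∨ Kk a i) ∧ Hp Y S r (h, i) e := by
  rcases w with ⟨i, u, v⟩ | ⟨i, u, -⟩ | ⟨⟨i, -, v⟩, -⟩
  exacts [⟨i, _, Or.inr u, v⟩, ⟨i, _, Or.inl rfl, u⟩, ⟨i, _, Or.inl rfl, v⟩]

theorem hh_kk {h r i e} (u : Kk a i) (v : Hp Y S r (h, i) e) : Hh Y a S h r := by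
  cases e
  · exact Or.inl ⟨i, u, v⟩
  · unfold Kk at u
    exact Or.inr (Or.inr ⟨⟨i, by unfold Em; omega, v⟩, i, by unfold Ep; omega, v⟩)

theorem Hp.own {r q e} (j : ℤ) (w : Hp Y S r q e) : Hp Y (Y.im (PresentedGroup.of q.1 ^ j) S) r q e := by
  obtain ⟨a, B, y, y', k, b, c, d, u, w⟩ := w
  obtain ⟨z, f⟩ := b.1
  refine ⟨a, B, y, y', k, b, c, d, u, ?_⟩
  simpa using m0 (f2 f3) V M m n Y _ q y y' e e k j a (f.mem c) (f.mem d) w

theorem Sd.own {h r} (j : ℤ) (w : Sd Y a S h r) : Sd Y a (Y.im (PresentedGroup.of h ^ j) S) h r := by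
  rcases w with ⟨k, q, B, y, y', rfl, a, b, c, d, e⟩ | w
  · obtain ⟨z, f⟩ := b.1
    exact Or.inl ⟨_, q, B, y, y', rfl, a, b, c, d,
      m0 (f2 f3) V M m n Y _ q y y' false true k j a (f.mem c) (f.mem d) e⟩
  · exact Or.inr (w.imp fun i e v => v.own j)

/-- A good set of sides is a seed. -/
theorem Good.hh {N π : ℕ} {c : ℕ → V × ℕ} {γ γ' : V} (hN : 3 ≤ N) (pt : Pat a N fun k => (c k).2)
    (col : ∀ k, k % 2 = π → (c k).1 = γ) (h : Good N (Ac Y S γ' N π c)) :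
    Hh Y a S γ (Sum.inl γ') := by
  have key : ∀ {j e}, (j, e) ∈ Ac Y S γ' N π c → Hp Y S (Sum.inl γ') (γ, (c j).2) e :=
    fun {j e} u => col j u.2.2.1 ▸ u.2.2.2
  rcases h with ⟨j, u, v⟩ | ⟨o, ⟨e, u⟩ | ⟨u, v⟩⟩ | ⟨o, ⟨e, u | u⟩ | ⟨u, v⟩ | ⟨u, v⟩⟩
  · exact Or.inr (Or.inl ⟨_, key u, key v⟩)
  · exact hh_kk (pt.2 o).1 (key u)
  · have p1 := ((pt.2 o).2 1 le_rfl (by omega)).2 rfl
    have p2 := ((pt.2 o).2 N (by omega) le_rfl).2 o
    simp only [Nat.add_sub_cancel, Nat.add_sub_cancel_left] at p1 p2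
    refine Or.inr (Or.inr ⟨?_, ?_⟩)
    · by_cases w : Em a (c 1).2
      · exact ⟨_, fun w' => by have := p1.1 w; unfold Em Ep at *; omega, key v⟩
      · exact ⟨_, w, key u⟩
    · by_cases w : Ep a (c 1).2
      · exact ⟨_, fun w' => by have := p1.2 w'; unfold Em Ep at *; omega, key v⟩
      · exact ⟨_, w, key u⟩
  · exact hh_kk (pt.1 o).2.2.2.2.1 (key u)
  · exact hh_kk (pt.1 o).2.2.2.2.2.1 (key u)
  · have : Em a (c 1).2 := (pt.1 o).1
    exact Or.inr (Or.inr ⟨⟨_, (pt.1 o).2.2.2.1, key v⟩, _, by unfold Em Ep at *; omega, key u⟩)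
  · have : Ep a (c N).2 := (pt.1 o).2.1
    exact Or.inr (Or.inr ⟨⟨_, by unfold Em Ep at *; omega, key v⟩, _, (pt.1 o).2.2.1, key u⟩)

end Pool.Agent.MP_6eaae3_al.MX
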