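import Pool.Agent.MP_6eaae3_al.MX.Basic

/-! Counts over the curves of one colour, for chains of even length. -/

namespace Pool.Agent.MP_6eaae3_al.MX

open FreeGroup (of mk invRev IsReduced)
open Set Pool.Agent.MP_6eaae3_al.LT Pool.Agent.MP_6eaae3_al.LT.Path Pool.Agent.MP_6eaae3_al.EV

open C1 in
theorem c3 (h : S_H4) : S_C3 := by
  intro G _ s t Δ N p P i g hN ev rel i1 iN par hg
  obtain ⟨U, hU⟩ := exists_cheb (show 2 ≤ N by omega)
  obtain ⟨ω, τ, f0, f1, f0', f1', k1, k2, z1, z2, nz, -, -, -, -, key⟩ :=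
    EV.hf G s t N p P U i hU (by omega) i1 iN par
  obtain ⟨e1, e2, e3, e4⟩ := key g hg
  have hg' : g ∈ Subgroup.closure {t, s} := pair_comm s t ▸ hg
  obtain ⟨a1, -, a3, -⟩ := h G s t Δ N U f0 f1 hU hN ev rel k1 g hg
  obtain ⟨-, b2, -, b4, b5, -⟩ := h G t s Δ N U f0' f1' hU hN ev (rel_sw rel) k2 g hg'
  refine ⟨fun h => ?_, fun h => ?_, fun e k k0 => ⟨fun h => a1 ?_, fun h => ?_⟩⟩
  · rw [ws_fre z1 h, mul_zero] at e2
    obtain ⟨a, k, b, c, d⟩ := a3 (sub_eq_zero.1 ((mul_eq_zero.1 e2.symm).resolve_left nz)).symm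
    exact ⟨a, k, b, by omega, d⟩
  · obtain ⟨a, k, h, b, c, h3⟩ := LT.hk G t s Δ N U hU (by omega) (rel_sw rel) f0' f1' _
      (Subgroup.subset_closure (Or.inl rfl)) (Subgroup.subset_closure (Or.inr rfl))
      k2.1 k2.2.1 k2.2.2.1 k2.2.2.2 g hg' (by
        rcases ws_bd z2 h with h | h | h <;> rw [h] at e4
        · exact Or.inl (mul_left_cancel₀ nz (by linarith))
        · exact Or.inr (Or.inl (mul_left_cancel₀ nz (by linarith)))
        · exact Or.inr (Or.inr (mul_left_cancel₀ nz (by linarith))))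
    rw [sheet, if_pos ev] at c
    exact ⟨a, k, h, b, c, h3⟩
  · have := ws_fre z1 h
    rw [ws_cw, e1] at this
    exact (mul_eq_zero.1 ((mul_eq_zero.1 this).resolve_left (Int.cast_ne_zero.2 k0))).resolve_left nz
  · rcases b5 with a | a
    · obtain ⟨a, k, -, d⟩ := b2 a
      exact ⟨a, k, 0, by rw [zpow_zero, mul_one, d]⟩
    have c : |(k : ℝ) * f0' g| ≤ 1 := by
      have := ws_bd z2 h
      rw [ws_cw, e3] at this
      rcases this with h | h | h
      · rw [show k * f0' g = 0 from mul_left_cancel₀ nz (by linarith)]; simp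
      · rw [show k * f0' g = 1 from mul_left_cancel₀ nz (by linarith)]; simp
      · rw [show k * f0' g = -1 from mul_left_cancel₀ nz (by linarith)]; simp
    have d : (1 : ℝ) ≤ |(k : ℝ)| := by exact_mod_cast Int.one_le_abs k0
    rw [abs_mul] at c
    exact b4 (le_antisymm (by nlinarith) a)

end Pool.Agent.MP_6eaae3_al.MX
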