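import Pool.Agent.MP_6eaae3_al.MX.Basic

/-! Counts for the passages that see only the sides in a given set. -/

namespace Pool.Agent.MP_6eaae3_al.MX

open FreeGroup (of mk invRev IsReduced)
open Set Pool.Agent.MP_6eaae3_al.LT Pool.Agent.MP_6eaae3_al.LT.Path Pool.Agent.MP_6eaae3_al.EV
open Pool.Agent.MP_6eaae3_al.EV.C2

namespace C4

variable {B : Type} [AddCommGroup B]

theorem hm_sub {L : Type} (w w' : L → B) (x) : hm (fun a => w a - w' a) x = hm w x - hm w' x := by
  induction x using FreeGroup.induction_on with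
  | C1 => rw [hm_one, hm_one, hm_one, sub_zero]
  | of a => rw [hm_of, hm_of, hm_of]
  | inv_of a ih => rw [hm_inv, hm_inv, hm_inv, ih]; abel
  | mul a b u v => rw [hm_mul, hm_mul, hm_mul, u, v]; abel

theorem sd_be (w : ℕ → B) (x) : hm (sd w) (be x) = 0 := by
  induction x using FreeGroup.induction_on with
  | C1 => rw [map_one, hm_one]
  | of a => rw [show a = (a.1, a.2) from rfl, be_of, hm_mul, hm_mul, hm_inv, sd_ff]; abel
  | inv_of a ih => rw [map_inv, hm_inv, ih, neg_zero]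
  | mul a b u v => rw [map_mul, hm_mul, u, v, add_zero]

theorem sd_dk (w : ℕ → B) {A x} (h : x ∈ Dk A) : hm (sd w) x = 0 := by
  obtain ⟨y, -, rfl⟩ := h
  exact sd_be w y

theorem sd_x (w : ℕ → B) (N π k) : hm (sd w) (xi N π (of k)) = if k % 2 = π then 0 else
    (if 1 ≤ k + 1 ∧ k + 1 ≤ N then w (k + 1) else 0) - if 1 ≤ k - 1 ∧ k - 1 ≤ N then w (k - 1) else 0 := by
  rw [xi, FreeGroup.lift_apply_of]
  by_cases h : k % 2 = π
  · rw [if_pos h, if_pos h, sd_ff]
  · rw [if_neg h, if_neg h, hm_mul, hm_inv, sd_et, sd_et, sub_eq_add_neg]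

theorem sd_x' {w : ℕ → B} {N : ℕ} (h0 : w 0 = 0) (h1 : ∀ k, N < k → w k = 0) (π k) :
    hm (sd w) (xi N π (of k)) = if k % 2 = π then 0 else w (k + 1) - w (k - 1) := by
  have : ∀ j, (if 1 ≤ j ∧ j ≤ N then w j else 0) = w j := fun j => by
    split_ifs with a
    · rfl
    by_cases b : j = 0
    exacts [by rw [b, h0], (h1 j (by omega)).symm]
  rw [sd_x, this, this]

theorem sd_e {N i : ℕ} {A x} (i1 : 1 ≤ i) (iN : i ≤ N) (h : En (ff i) (et N i) (Dk A) x) :
    ∃ c : ℤ, (c = 0 ∨ c = 1 ∨ c = -1) ∧ ∀ {B : Type} [AddCommGroup B] (w : ℕ → B),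
      hm (sd w) x = c • w i := by
  obtain ⟨a, b, κ, δ, δ', h1, h2, h3, rfl⟩ := h
  rcases h2 with rfl | rfl <;> rcases h3 with rfl | rfl
  exacts [⟨0, by simp, fun w => by simp [hm_mul, hm_zpow, sd_ff, sd_dk w h1]⟩,
    ⟨-1, by simp, fun w => by simp [hm_mul, hm_inv, hm_zpow, sd_ff, sd_dk w h1, sd_et, i1, iN]⟩,
    ⟨1, by simp, fun w => by simp [hm_mul, hm_zpow, sd_ff, sd_dk w h1, sd_et, i1, iN]⟩,
    ⟨0, by simp, fun w => by simp [hm_mul, hm_inv, hm_zpow, sd_ff, sd_dk w h1]⟩]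

variable {G : Type} [Group G] {s t : G} {N : ℕ} {p : ℤ} (P : Pu s t N p)

/-- Only the letters of the chain occur. -/
theorem cnt0 {w : ℕ → B} (h : ∀ k, 1 ≤ k → k ≤ N → w k = 0) {g}
    (hg : g ∈ Subgroup.closure {s, t}) : ∀ k, k ≤ N + 1 → hm w (P.f g k) = 0 := by
  have ends : ∀ g k, k ≤ N + 1 → (1 ≤ k → k ≤ N → hm w (P.f g k) = 0) → hm w (P.f g k) = 0 :=
    fun g k b a => by
      by_cases c : k = 0
      · rw [c, (P.f0 g).1, hm_one]
      by_cases d : k = N + 1
      · rw [d, (P.f0 g).2, hm_one]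
      exact a (by omega) (by omega)
  induction hg using Subgroup.closure_induction_right with
  | one => exact fun k c => ends _ k c fun a b => by rw [(P.f1 k a b).1, hm_of, h k a b]
  | mul_right g hg y hy ih =>
    obtain ⟨r, hr⟩ := gen_col (p := p) hy
    refine fun k d => ends _ k d fun a b => ?_
    rcases Int.emod_two_eq_zero_or_one (k + r) with c | c
    · rw [(hr k).1 c, (P.own g hg k a b).1, ih k d]
    · rw [(hr k).2 c, (P.oth g hg k a b).1, hm_mul, hm_mul, hm_inv, ih k d,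
        ih (k + 1) (by omega), ih (k - 1) (by omega)]
      abel
  | mul_inv_cancel g hg y hy ih =>
    obtain ⟨r, hr⟩ := gen_col (p := p) hy
    have hg' := mul_mem hg (inv_mem (Subgroup.subset_closure hy))
    have own : ∀ k : ℕ, k ≤ N + 1 → (k + r) % 2 = 0 → hm w (P.f (g * y⁻¹) k) = 0 :=
      fun k d c => ends _ k d fun a b => by
        have := (P.own _ hg' k a b).1
        rw [← (hr k).1 c, inv_mul_cancel_right] at this
        rw [← this, ih k d]
    refine fun k d => ends _ k d fun a b => ?_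
    rcases Int.emod_two_eq_zero_or_one (k + r) with c | c
    · exact own k d c
    · have := congrArg (hm w) (P.oth _ hg' k a b).1
      rw [← (hr k).2 c, inv_mul_cancel_right, ih k d, hm_mul, hm_mul, hm_inv,
        own (k + 1) (by omega) (by omega), own (k - 1) (by omega) (by omega)] at this
      simpa using this.symm

/-- For odd length the two end terms cancel. -/
theorem odd_zero {i : ℕ} (hN : N % 2 = 1) (i1 : 1 ≤ i) (iN : i ≤ N) {x} {c : ℤ}
    (hc : i % 2 = 0 → hm (cq N) x = 0)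
    (h0 : ∀ w : ℕ → ℤ, (∀ k, 1 ≤ k → k ≤ N → w k = 0) → hm w x = 0)
    (h1 : c = 0 ∨ c = 1 ∨ c = -1)
    (h2 : ∀ {B : Type} [AddCommGroup B] (w : ℕ → B), hm (sd w) (xi N (i % 2) x) = c • w i) :
    c = 0 := by
  rcases Nat.mod_two_eq_zero_or_one i with hi | hi
  · have e := h2 fun j => ((j / 2 : ℕ) : ZMod ((N + 1) / 2))
    rw [hi, hm_comp, show (fun k => hm _ (xi N 0 (of k))) = cq N from rfl, hc hi] at e
    have ne : ((i / 2 : ℕ) : ZMod ((N + 1) / 2)) ≠ 0 := fun u => by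
      have := Nat.le_of_dvd (by omega) ((ZMod.natCast_eq_zero_iff _ _).1 u)
      omega
    rcases h1 with rfl | rfl | rfl
    · rfl
    · rw [one_smul] at e
      exact (ne e.symm).elim
    · rw [neg_smul, one_smul] at e
      exact (ne (neg_eq_zero.1 e.symm)).elim
  · have e := h2 fun _ => (1 : ℤ)
    rw [hi, hm_comp, h0 _ fun k a b => ?_] at e
    · simpa using e.symm
    · rw [sd_x]
      split_ifs <;> omega

end C4

open C4 in
theorem c4 (h : S_H4) : S_C4 := by
  intro G _ s t Δ N p P i g A h3' rel i1 iN par hg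
  obtain ⟨U, hU⟩ := exists_cheb (show 2 ≤ N by omega)
  obtain ⟨ω, τ, f0, f1, f0', f1', k1, k2, ωz, τz, τi, τ0, ω0, big, rc, val⟩ :=
    hf G s t N p P U i hU (by omega) i1 iN par
  obtain ⟨v1, v2, v3, v4⟩ := val g hg
  have wh : ∀ (w : ℕ → ℝ) x, ws w x = hm w x := fun _ _ => rfl
  rw [wh] at v1 v2 v3 v4
  have μ1 : 1 < U 2 := hU.gt 2 (by omega) (by omega)
  have rel' := C1.rel_sw rel
  have hg' : g ∈ Subgroup.closure {t, s} := by rwa [pair_comm]
  have m1 : ∀ a b : G, a ∈ Subgroup.closure {a, b} := fun a b => Subgroup.subset_closure (Or.inl rfl)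
  have m2 : ∀ a b : G, b ∈ Subgroup.closure {a, b} := fun a b => Subgroup.subset_closure (Or.inr rfl)
  have e1 := hecke hU (by omega) rel (m1 s t) (m2 s t) k1.1 k1.2.1 k1.2.2.1 k1.2.2.2 hg
  have e2 := hecke hU (by omega) rel' (m1 t s) (m2 t s) k2.1 k2.2.1 k2.2.2.1 k2.2.2.2 hg'
  have d1 := fun ev : N % 2 = 0 => h G s t Δ N U f0 f1 hU (by omega) ev rel k1 g hg
  have d2 := fun ev : N % 2 = 0 => h G t s Δ N U f0' f1' hU (by omega) ev rel' k2 g hg'
  let Ag : FreeGroup ℕ → Prop := fun x => ∀ (B : Type) [AddCommGroup B] (w : ℕ → B),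
    (∀ k, 1 ≤ k → k ≤ N → w k = 0) → hm w x = 0
  have aW : Ag (P.W g i) := fun B _ w hw =>
    cnt_W P i1 iN par (fun g hg => cnt0 P hw hg i (by omega)) hg
  have aC : ∀ e j, Ag (Cw P g i e j e) := fun e j B _ w hw => by
    rw [hm_cw, cnt0 P hw hg i (by omega), smul_zero]
  have own : ∀ x, Ag x → (N % 2 = 1 → i % 2 = 0 → hm (cq N) x = 0) → Own N i A x →
      ∃ c : ℤ, (c = 0 ∨ c = 1 ∨ c = -1) ∧ (N % 2 = 1 → c = 0) ∧ U 2 * hm ω x = -c * τ i :=
    fun x ag hc h => by
      obtain ⟨c, c1, c2⟩ := sd_e i1 iN h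
      refine ⟨c, c1, fun o => odd_zero o i1 iN (hc o) (ag ℤ) c1 c2, ?_⟩
      have a := ag ℝ (fun k => hm (sd fun j => -τ j) (xi N (i % 2) (of k)) - U 2 * ω k)
        fun k a b => by
          rw [sd_x' (by rw [τ0, neg_zero]) fun k a => by rw [(big k a).1, neg_zero]]
          split_ifs with c
          · rw [ωz k c, mul_zero, sub_zero]
          · rw [(rc k a b).1]; ring
      rw [hm_sub, ← hm_comp, c2, hm_smul, zsmul_eq_mul] at a
      linarith
  have oth : ∀ x, Ag x → Oth N i A x → hm τ x = 0 := fun x ag h => by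
    have b := sd_dk ω h
    have a := ag ℝ (fun k => hm (sd ω) (xi N ((i + 1) % 2) (of k)) - U 2 * τ k) fun k a b => by
      rw [sd_x' ω0 fun k a => (big k a).2]
      split_ifs with c
      · rw [τz k fun u => by have : k % 2 = i % 2 := u; omega, mul_zero, sub_zero]
      · rw [(rc k a b).2, sub_self]
    rw [hm_sub, ← hm_comp, hm_smul] at a
    rw [hm_mul, hm_mul, hm_inv] at b
    exact (mul_eq_zero.1 (show U 2 * hm τ x = 0 by linarith)).resolve_left (by linarith)
  have cf : N % 2 = 1 → i % 2 = 0 → ∀ g ∈ Subgroup.closure {s, t}, hm (cq N) (P.f g i) = 0 :=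
    fun hN hi g hg => by rw [cnt_f P hN (cq_eq hN) hg i (by omega), if_neg (by omega)]
  refine ⟨fun h => ?_, fun h => ?_, fun e j hj => ⟨fun h => ?_, fun h => ?_⟩⟩
  · obtain ⟨c, c1, c2, c3⟩ := own _ aW (fun o hi => cnt_W P i1 iN par (cf o hi) hg) h
    have f : f0 g = 1 + c := mul_left_cancel₀ τi (by linarith)
    rcases Nat.mod_two_eq_zero_or_one N with ev | od
    · obtain ⟨-, a0, a1, -, -, -, a2⟩ := d1 ev
      rcases c1 with rfl | rfl | rfl
      · obtain ⟨a, k, b, u, v⟩ := a1 (by simpa using f)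
        exact ⟨a, k, b, fun _ => by omega, v⟩
      · exact (a2 (by rw [f]; norm_num)).elim
      · obtain ⟨a, k, u, v⟩ := a0 (by simpa using f)
        exact ⟨a, k, 0, fun _ => by omega, by rw [zpow_zero, mul_one, v]⟩
    · obtain ⟨a, k, b, v⟩ := e1.2 (by simpa [c2 od] using f)
      exact ⟨a, k, b, fun _ => by omega, v⟩
  · rw [oth _ aW h, mul_zero] at v4
    have f := (mul_eq_zero.1 v4.symm).resolve_left τi
    rcases Nat.mod_two_eq_zero_or_one N with ev | od
    · obtain ⟨a, k, u, v⟩ := (d2 ev).1 f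
      exact ⟨a, k, fun _ => u, v⟩
    · obtain ⟨a, k, v⟩ := e2.1 f
      exact ⟨a, k, fun _ => by omega, v⟩
  · obtain ⟨c, c1, c2, c3⟩ := own _ (aC e j) (fun o hi => by rw [hm_cw, cf o hi g hg, smul_zero]) h
    rw [hm_cw, v1, zsmul_eq_mul] at c3
    have f : U 2 * (j * f1 g) = -c := mul_left_cancel₀ τi (by linarith)
    have d : (1 : ℝ) ≤ |(j : ℝ)| := by exact_mod_cast Int.one_le_abs hj
    rcases Nat.mod_two_eq_zero_or_one N with ev | od
    · obtain ⟨a0, -, -, -, -, a1, -⟩ := d1 ev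
      obtain ⟨a, k, u, v⟩ := a0 (a1.resolve_right fun a1 => by
        have b : |(-c : ℝ)| ≤ 1 := by rcases c1 with rfl | rfl | rfl <;> simp
        rw [← f, abs_mul, abs_mul, abs_of_pos (by linarith : 0 < U 2)] at b
        have : 1 ≤ |(j : ℝ)| * |f1 g| := by nlinarith
        nlinarith)
      exact ⟨a, k, fun _ => u, v⟩
    · rw [c2 od, Int.cast_zero, neg_zero] at f
      obtain ⟨a, k, v⟩ := e1.1 ((mul_eq_zero.1 ((mul_eq_zero.1 f).resolve_left
        (by linarith))).resolve_left (Int.cast_ne_zero.2 hj))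
      exact ⟨a, k, fun _ => by omega, v⟩
  · have a := oth _ (aC e j) h
    rw [hm_cw, v3, zsmul_eq_mul] at a
    have f := (mul_eq_zero.1 ((mul_eq_zero.1 a).resolve_left (Int.cast_ne_zero.2 hj))).resolve_left τi
    rcases Nat.mod_two_eq_zero_or_one N with ev | od
    · obtain ⟨a, k, u, v⟩ := (d2 ev).2.1 f
      exact ⟨a, k, ev, u, v⟩
    · have e3 := (h3 G t s Δ N U f0' f1' hU od rel' k2 g hg').1
      rw [f, abs_zero] at e3
      linarith

end Pool.Agent.MP_6eaae3_al.MX
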