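import Pool.Agent.MP_6eaae3_al.MX.Basic

/-! Every curve of the plumbing lies in a chain with the right classes; detection of double cosets. -/

namespace Pool.Agent.MP_6eaae3_al.MX

open FreeGroup (of mk invRev IsReduced)
open Set Pool.Agent.MP_6eaae3_al.LT Pool.Agent.MP_6eaae3_al.LT.Path Pool.Agent.MP_6eaae3_al.EV

theorem cs : S_CS := by
  intro V M m n Y a Λ lv ev ha hl sy H s hs t ht ne h2 i hi
  have h3 := ev.three hs ht ne h2
  have hm : ∀ x ∈ ({s, t} : Set V), ∀ y ∈ ({s, t} : Set V), x ≠ y → m x y = m s t := by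
    rintro x (rfl | rfl) y (rfl | rfl) e
    exacts [(e rfl).elim, rfl, ev.1 _ _, (e rfl).elim]
  have hv : ∀ x ∈ ({s, t} : Set V), ∀ y ∈ ({s, t} : Set V), x ≠ y → lv x y = lv s t := by
    rintro x (rfl | rfl) y (rfl | rfl) e
    exacts [(e rfl).elim, rfl, sy _ _, (e rfl).elim]
  obtain ⟨hn, H'⟩ := H s hs t ht ne h2
  have hi' := (hl t s i).2 hi
  obtain ⟨N, hN⟩ : ∃ N, m s t - 1 = N := ⟨_, rfl⟩
  rw [hN] at h3 hn H' ⊢
  obtain ⟨r, hr'⟩ : ∃ r, r = lv t s i / N := ⟨_, rfl⟩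
  obtain ⟨j, hj⟩ : ∃ j, j = lv t s i % N + 1 := ⟨_, rfl⟩
  have j2 : j ≤ N := hj ▸ Nat.mod_lt _ (by omega)
  have hrj : r * N + j - 1 = lv t s i := by
    have := Nat.div_add_mod' (lv t s i) N
    rw [hr']; omega
  have hr : r * N + N ≤ n := by
    obtain ⟨q, rfl⟩ := hn
    have := Nat.mul_le_mul_right N (Nat.succ_le_of_lt (Nat.div_lt_of_lt_mul hi'))
    rwa [Nat.succ_mul, mul_comm q, ← hr'] at this
  obtain ⟨b, hb⟩ : ∃ b : ℕ → V, ∀ k : ℕ, b k = yy s t (k + (1 - j)) := ⟨_, fun _ => rfl⟩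
  have mem : ∀ k, b k ∈ ({s, t} : Set V) := fun k => by
    rw [hb]; unfold yy; split_ifs <;> simp
  have ne' : ∀ k, b k ≠ b (k + 1) := fun k => by
    rw [hb, hb]; exact Bas.yy_ne ne (by push_cast; omega)
  refine ⟨fun k => (b k, (lv (b k) (b (k + 1))).symm (r * N + k - 1)), 1 - j, j,
    EV.Cs.chain Y ha hl (by omega) hr mem (fun k => ?_) ne' (fun k x a e => ?_)
      fun x a y c e => by rw [hm x a y c e, hN], hb, by omega, j2, ?_, ?_⟩
  · rw [hb, hb]; exact yy_congr _ _ (by push_cast; omega)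
  · rw [hb] at e ⊢
    rcases a with rfl | rfl <;> unfold yy at e ⊢ <;> push_cast at e ⊢ <;> split_ifs at e ⊢ <;>
      first | rfl | omega | exact (e rfl).elim
  · have e1 : b j = t := by rw [hb, yy, if_neg (by omega)]
    have e2 : b (j + 1) = s := by rw [hb, yy, if_pos (by push_cast; omega)]
    simp only [e1, e2, hrj, Equiv.symm_apply_apply]
  · simp only [fun k => hv _ (mem k) _ (mem (k + 1)) (ne' k)]
    exact H' r hr

theorem dc (h1 : S_LV) (h3 : S_CS) (h4 : S_AX) : S_DC := by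
  classical
  intro V _ m Λ n1 ev cl s hs t ht lo
  obtain ⟨a, a3, ha⟩ := Cl.exists_mult' n1
  obtain ⟨n, an, hd, hc⟩ : ∃ n, 4 * a ≤ n ∧ a ∣ n ∧ ∀ s ∈ Λ, ∀ t ∈ Λ, s ≠ t → m s t ≠ 2 →
      ((m s t - 1) % 2 = 0 → n ≤ (m s t - 1) * a) ∧ ((m s t - 1) % 2 = 1 → n = 6 * a) := by
    rcases cl with cl | cl
    · refine ⟨6 * a, by omega, dvd_mul_left _ _, fun s u t v d e => ?_⟩
      have := ev.three u v d e
      have := cl s u t v d
      exact ⟨fun _ => Nat.mul_le_mul_right _ (by omega), fun _ => rfl⟩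
    · refine ⟨4 * a, le_rfl, dvd_mul_left _ _, fun s u t v d e => ?_⟩
      have := ev.three u v d e
      have := cl s u t v d
      exact ⟨fun _ => Nat.mul_le_mul_right _ (by omega), fun _ => by omega⟩
  have hn : ∀ s t, s ≠ t → m s t ≠ 0 → m s t - 1 ∣ n := fun s t u v => (ha s t u v).trans hd
  have ex : ∀ N : ℕ, ∃ π : Equiv.Perm ℕ, (∀ i, π i < n ↔ i < n) ∧
      (3 ≤ N → N ∣ n → (N % 2 = 0 → n ≤ N * a) → (N % 2 = 1 → n = 6 * a) →
        ∀ r, r * N + N ≤ n → Pat a N fun k => π.symm (r * N + k - 1)) := by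
    intro N
    by_cases c : 3 ≤ N ∧ N ∣ n ∧ (N % 2 = 0 → n ≤ N * a) ∧ (N % 2 = 1 → n = 6 * a)
    · obtain ⟨π, u, v⟩ := h1 N n a c.1 c.2.1 an c.2.2.1 c.2.2.2
      exact ⟨π, u, fun _ _ _ _ => v⟩
    · exact ⟨1, fun _ => Iff.rfl, fun a b d e => (c ⟨a, b, d, e⟩).elim⟩
  choose π hl hk using ex
  obtain ⟨R, Y, ad, mk, ne, H⟩ := EV.ts V m n lo (fun s t => π (m s t - 1)) ev.1 hn fun _ _ => hl _
  have ch := h3 V _ m n Y a Λ _ ev ad (fun _ _ => hl _) (fun s t => by rw [ev.1]) fun s u t v d e =>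
    have o := ev.three u v d e
    have o' := hn s t d (by omega)
    ⟨o', hk _ o o' (hc s u t v d e).1 (hc s u t v d e).2⟩
  obtain ⟨A, hA⟩ := h4 V _ m n Y _ Λ t ev ch (by omega)
  refine ⟨_, R, ((Finset.range n).image fun i => Y.mr (s, i) true) ∪
      ((Finset.range n).image fun i => Y.mr (t, i) false),
    fun ν => decide (∀ p, ν ≠ Y.mr p true), fun ν hν => ?_, ?_⟩
  · rcases Finset.mem_union.1 hν with hν | hν <;> obtain ⟨i, -, rfl⟩ := Finset.mem_image.1 hν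
    · refine mk _ _ _ ?_
      beta_reduce
      rw [decide_eq_false (p := ∀ p, Y.mr (s, i) true ≠ Y.mr p true) fun a => a _ rfl]
      simp [hs]
    · refine mk _ _ _ ?_
      beta_reduce
      rw [decide_eq_true (p := ∀ p, Y.mr (t, i) false ≠ Y.mr p true) fun p => (ne p _).symm]
      simp [ht]
  rintro g _ _ ⟨rfl, rfl, hg, ng⟩
  obtain ⟨⟨s', j⟩, B, rfl, hj, bl, w, hw, h⟩ :=
    hA _ _ _ (EV.gl EV.lnn (EV.uu EV.lnn (EV.tt EV.lnn)) V _ _ Λ t A s hs g hg ng)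
  have hB : (Y.mr (s', j) true, false) ∈ B := (bl.2 _).2 ⟨Y.mrf _ _, rfl⟩
  have nm : w ∉ Fre {((Y.mr (s', j) true, false), true)}ᶜ := fun e =>
    wd_mem.1 e (((Y.mr (s', j) true, false), true), true)
      (h.subset (List.mem_flatMap.2 ⟨_, hB, by simp⟩)) rfl
  obtain ⟨_, ⟨i, hi, rfl⟩, e⟩ : ∃ w₀ ∈ Y.S0 t,
      Y.ψ g w₀ ∉ Fre {((Y.mr (s', j) true, false), true)}ᶜ := by
    rcases hw with ⟨w₀, a, b⟩ | ⟨w₀, a, b⟩
    · exact ⟨w₀, a, b ▸ nm⟩
    · exact ⟨w₀, a, fun e => nm (inv_mem_iff.1 (b ▸ e))⟩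
  exact ⟨_, Finset.mem_union_right _ (Finset.mem_image.2 ⟨i, Finset.mem_range.2 hi, rfl⟩), _,
    Finset.mem_union_left _ (Finset.mem_image.2 ⟨j, Finset.mem_range.2 hj, rfl⟩),
    decide_eq_true fun p => (ne p _).symm, decide_eq_false fun a => a _ rfl, fun u => e (H g _ _ u)⟩

end Pool.Agent.MP_6eaae3_al.MX
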