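import Pool.Agent.MP_6eaae3_al.MX.Basic

/-! The image of a path in a chain without crossing passages. -/

namespace Pool.Agent.MP_6eaae3_al.MX

open FreeGroup (of mk invRev IsReduced)
open Set Pool.Agent.MP_6eaae3_al.LT Pool.Agent.MP_6eaae3_al.LT.Path Pool.Agent.MP_6eaae3_al.EV

namespace De

open EV.De

variable {V M : Type} {m : V → V → ℕ} {n : ℕ} {Y : Sy m n M} {γ γ' : V} {N π : ℕ} {c : ℕ → V × ℕ}
  {z : ℕ → M × Bool} {θ : FG M →* FH} (D : Dat Y γ γ' N π c z θ) {k j i : ℕ} {x x' y' : M × Bool}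
  {S : Set (FG M)}

include D

/-- The image of a passage between two crossings. -/
theorem pass (hS : ¬ ∃ k, Y.Cx S γ (Sum.inl γ') k) (k1 : 1 ≤ k)
    (kN : k ≤ N) (hk : k % 2 = π) (a : x ∈ Y.cl (c k)) (a' : x' ∈ Y.cl (c k))
    (h : Y.On {γ, γ'} (opp x)) (h' : Y.On {γ, γ'} (opp x')) {e e' : Bool} {w : ℤ}
    (pg : Y.Pg S (c k) x e w x' e') :
    θ ((of (EV.pt x e))⁻¹ * Y.Rn (c k) x w x' * of (EV.pt x' e')) ∈ Dk (Ac Y S γ' N π c) := by
  have hc : (c k).1 = γ := (D.col k).trans (if_pos hk)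
  obtain ⟨B, bl, -⟩ := D.cn.bl (γ := γ) (γ' := γ') (Or.inl rfl) k1 kN hc
  have mem : ∀ u ∈ Y.cl (c k), Y.On {γ, γ'} (opp u) → u ∈ B := fun u hu ⟨p, p1, p2, p3⟩ =>
    (bl.2 u).2 ⟨hu, p, p1.resolve_left fun f => Sy.cross_ne hu p3 (hc.trans f.symm), p2, p3⟩
  have one : ∀ u ∈ Y.cl (c k), Y.On {γ, γ'} (opp u) → ∀ b, θ (of (u, b)) = 1 := fun u hu v b =>
    D.own k1 kN hk hu fun f => (D.att k k1 kN).2 ((show u = z k from congrArg Prod.fst f) ▸ v)
  have r0 : θ (Y.Rn (c k) x 0 x') = 1 := by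
    obtain ⟨t, ht⟩ := bl.1
    rcases ht.rn (mem x a h) (mem x' a' h') with ⟨f, -⟩ | ⟨-, -, f⟩ | ⟨-, -, f⟩
    · rw [f, map_one]
    · rw [f, map_mul, map_inv, oo, ii, one x a h, one x' a' h', inv_one, mul_one]
    · rw [f, map_mul, map_inv, oo, ii, one x a h, one x' a' h', inv_one, mul_one]
  rw [Sy.Rn_split a, map_mul, map_mul, map_mul, map_inv, map_zpow, r0, D.ell k1 kN hk a,
    D.port k1 kN hk a h, D.port k1 kN hk a' h', mul_one]
  have lt := D.cn.lt k k1 kN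
  by_cases w0 : e = e'
  · subst w0
    by_cases w1 : w = 0
    · rw [w1, zpow_zero, mul_one, inv_mul_cancel]
      exact one_mem _
    rw [et_eq k1 kN]
    exact ⟨of (k, e) ^ w, zpow_mem (of_mem_Fre (x := (k, e)) (And.intro k1 ⟨kN, hk, lt, B, x, x', w,
      bl, mem x a h, mem x' a' h', w1, pg⟩)) _, be_zpow k e w⟩
  · cases e <;> cases e'
    · exact (w0 rfl).elim
    · exact (hS ⟨w, c k, B, x, x', hc, lt, bl, mem x a h, mem x' a' h', pg⟩).elim
    · exact (hS ⟨-w, c k, B, x', x, hc, lt, bl, mem x' a' h', mem x a h, pg.symm⟩).elim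
    · exact (w0 rfl).elim

omit D in
/-- The statement for the part of the path after a letter of the other colour. -/
def Qy (Y : Sy m n M) (γ γ' : V) (N π : ℕ) (c : ℕ → V × ℕ) (θ : FG M →* FH) (i : ℕ)
    (S : Set (FG M)) (y' : M × Bool) (l : List (Lt M × Bool)) : Prop :=
  ∀ (a : Lt M) (j : ℕ), 1 ≤ j → j ≤ N → j % 2 ≠ π → a.1 ∈ Y.cl (c j) → Hs S ((a, false) :: l) →
    Y.Pth a.1.1 l y'.1 → (∀ b ∈ l, b.1 ∈ Y.C {γ, γ'}) →
      Rr (Dk (Ac Y S γ' N π c)) N π i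
        (θ ((of a)⁻¹ * mk l))

theorem start {l : List (Lt M × Bool)} {μ ν : M} (p : Y.Pth μ l ν) (e : μ = x.1) (e' : ν = y'.1)
    (ih : ∀ l', l'.length < l.length → Qy Y γ γ' N π c θ i S y' l') (j1 : 1 ≤ j) (jN : j ≤ N)
    (hj : j % 2 ≠ π) (a : x ∈ Y.cl (c j)) (h : ¬ Y.On {γ, γ'} (opp x)) (hs : Hs S l)
    (hC : ∀ b ∈ l, b.1 ∈ Y.C {γ, γ'}) :
    Rr (Dk (Ac Y S γ' N π c)) N π i (θ (FreeGroup.mk l)) := by
  cases p with
  | nil => exact ⟨1, one_mem _, Or.inl (map_one θ)⟩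
  | @cons b b' l _ ed p =>
    obtain rfl : b.1 = x := (cell_cases e).resolve_right fun f =>
      h (f ▸ hC (b, true) List.mem_cons_self)
    rw [mk_two, mul_assoc, map_mul, show θ (of b) = 1 from D.free j1 jN hj a h b.2, one_mul]
    exact ih l (by simp) b' j j1 jN hj (ed_rn ed a).1 (hs.inf (List.infix_cons_iff.2
      (Or.inr List.infix_rfl))) (e' ▸ p) fun u hu => hC u (by simp [hu])

theorem main (hS : ¬ ∃ k, Y.Cx S γ (Sum.inl γ') k) (i1 : 1 ≤ i) (a' : y' ∈ Y.cl (c i))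
    (h' : ¬ Y.On {γ, γ'} (opp y')) (l : List (Lt M × Bool)) : Qy Y γ γ' N π c θ i S y' l := by
  induction hn : l.length using Nat.strong_induction_on generalizing l with | h s ih
  subst hn
  intro a j j1 jN hj ha hs p hC
  by_cases h : Y.On {γ, γ'} (opp a.1)
  swap
  · rw [map_mul, map_inv, show θ (of a) = 1 from D.free j1 jN hj ha h a.2, inv_one, one_mul]
    exact start D p rfl rfl (fun l' u => ih _ u l' rfl) j1 jN hj ha h
      (hs.inf (List.infix_cons_iff.2 (Or.inr List.infix_rfl))) hC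
  obtain ⟨k, k1, kN, hx, hk⟩ := D.nbr j1 jN ha h
  have hk : k % 2 = π := by_contra fun u => hj (hk.2 u)
  have on : Y.On {γ, γ'} (opp (opp a.1)) := (opp_opp a.1).symm ▸ D.cn.on j1 jN ha
  obtain ⟨e, he⟩ := exists_pt (y := opp a.1) (a := a) (opp_opp _).symm
  obtain ⟨l₁, l₂, x', w, rfl, hx', r, ⟨rfl, f⟩ | ⟨b, b', l₃, rfl, f, ed, p'⟩⟩ :=
    trip p (opp a.1) hx rfl
  · obtain rfl : x' = y' := (cell_cases f).resolve_right fun u => h' (u ▸ D.cn.on k1 kN hx')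
    obtain rfl := D.idx k1 i1 hx' a'
    obtain ⟨t, ht⟩ := D.pow k1 kN hk (Sy.Rn_mem hx hx' w)
    refine ⟨1, one_mem _, Or.inr ⟨hk, θ (of a), t, ?_, ?_⟩⟩
    · rw [he, D.port k1 kN hk hx on]
      cases e <;> simp
    · rw [List.append_nil, r, map_mul, map_inv, ht, one_mul]
  · have on' : Y.On {γ, γ'} (opp x') := f ▸ hC (b, true) (by simp)
    obtain ⟨e', he'⟩ := exists_pt f
    obtain ⟨j', j1', jN', hb, hj'⟩ := D.nbr k1 kN hx' on'
    have pg : Y.Pg S (c k) (opp a.1) e w x' e' := by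
      rw [Sy.Pg, ← r, wd_mk (red_inf hs.red ⟨[(a, false)], _, rfl⟩), ← he, ← he']
      exact hs.inf ⟨[], (b', false) :: l₃, by simp⟩
    have := pass D hS k1 kN hk hx hx' on on' pg
    rw [← he, ← he', ← r] at this
    have key : (of a)⁻¹ * FreeGroup.mk (l₁ ++ (b, true) :: (b', false) :: l₃) =
        (of a)⁻¹ * FreeGroup.mk l₁ * of b * ((of b')⁻¹ * FreeGroup.mk l₃) := by
      rw [← FreeGroup.mul_mk, mk_two]
      simp only [mul_assoc]
    rw [key, map_mul]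
    exact Rr.mul this (ih _ (by simp; omega) l₃ rfl b' j' j1' jN' (hj'.1 hk)
      (ed_rn ed (f ▸ hb)).1 (hs.inf ⟨(a, false) :: l₁ ++ [(b, true)], [], by simp⟩) p'
      fun u hu => hC u (by simp [hu]))

end De

open De EV.De in
theorem de : S_DE := by
  intro V M m n Y S γ γ' N π i c z θ y y' l cn col _ att ta i1 iN a a' h h' p hC hs hS
  have D : Dat Y γ γ' N π c z θ := ⟨cn, col, att, ta⟩
  refine ⟨fun hi => ?_, fun hi => ?_⟩
  · obtain ⟨κ, u, e | ⟨e, -⟩⟩ := start D p rfl rfl (fun l' _ => main D hS i1 a' h' l') i1 iN hi a h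
      hs hC
    · exact e ▸ u
    · exact (hi e).elim
  · obtain ⟨l₁, l₂, x', w, rfl, hx', r, ⟨rfl, -⟩ | ⟨b, b', l₃, rfl, f, ed, p'⟩⟩ := trip p y a rfl
    · obtain ⟨t, ht⟩ := D.pow i1 iN hi (Sy.Rn_mem a hx' w)
      exact ⟨t, 0, 1, 1, 1, one_mem _, Or.inl rfl, Or.inl rfl, by simp [r, ht]⟩
    · obtain ⟨t, ht⟩ := D.pow i1 iN hi (Sy.Rn_mem a hx' w)
      have on' : Y.On {γ, γ'} (opp x') := f ▸ hC (b, true) (by simp)
      obtain ⟨e', he'⟩ := exists_pt f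
      obtain ⟨j', j1', jN', hb, hj'⟩ := D.nbr i1 iN hx' on'
      have hδ : θ (of b) = 1 ∨ θ (of b) = et N i := by
        rw [he', D.port i1 iN hi hx' on']
        cases e' <;> simp
      have key : mk (l₁ ++ (b, true) :: (b', false) :: l₃) =
          mk l₁ * of b * ((of b')⁻¹ * mk l₃) := by
        rw [← FreeGroup.mul_mk, mk_two]
        simp only [mul_assoc]
      rw [key, map_mul, map_mul, r, ht]
      obtain ⟨κ, u, e | ⟨-, δ, s, v, e⟩⟩ := main D hS i1 a' h' l₃ b' j' j1' jN' (hj'.1 hi)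
        (ed_rn ed (f ▸ hb)).1 (hs.inf ⟨l₁ ++ [(b, true)], [], by simp⟩) p'
        fun u hu => hC u (by simp [hu])
      · exact ⟨t, 0, κ, _, 1, u, hδ, Or.inl rfl, by rw [e]; simp⟩
      · exact ⟨t, s, κ, _, δ, u, hδ, v, by rw [e]; simp only [mul_assoc]⟩

end Pool.Agent.MP_6eaae3_al.MX
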