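import Pool.Agent.MP_6eaae3_al.MX.Basic

/-! Words in side letters are read off by an action on pairs of a state and a word. -/

namespace Pool.Agent.MP_6eaae3_al.MX

open FreeGroup (of mk invRev IsReduced)
open Set Pool.Agent.MP_6eaae3_al.LT Pool.Agent.MP_6eaae3_al.LT.Path Pool.Agent.MP_6eaae3_al.EV

namespace En

open Classical in
/-- The letter written by the curve `j` in the state `t`. -/
noncomputable def gg (j : ℕ) (t : ℕ → ℤ) : FH :=
  if t = 0 then of (j, false) else if t = Pi.single j 1 then of (j, true) else 1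

/-- The action. -/
noncomputable def PP : FH →* Equiv.Perm ((ℕ → ℤ) × FH) :=
  FreeGroup.lift fun a => if a.2 then (Equiv.addRight (Pi.single a.1 1)).prodCongr (Equiv.refl _)
    else (Equiv.refl _).prodShear fun t => Equiv.mulLeft (gg a.1 t)

def bb (e : Bool) : ℤ := if e then 1 else 0

/-- The word written by a word in side letters. -/
noncomputable def mu (t : ℕ → ℤ) : FH →* FH :=
  FreeGroup.lift fun a => gg a.1 (t + Pi.single a.1 (bb a.2))

theorem P_eo (j : ℕ) (e : Bool) (t : ℕ → ℤ) (x : FH) :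
    PP (eo j e) (t, x) = (t + Pi.single j (bb e), x) := by
  cases e <;> simp [PP, eo, bb]

theorem P_eo' (j : ℕ) (e : Bool) (t : ℕ → ℤ) (x : FH) :
    PP (eo j e)⁻¹ (t, x) = (t + Pi.single j (-bb e), x) := by
  rw [map_inv, Equiv.Perm.inv_eq_iff_eq, P_eo, add_assoc, ← Pi.single_add, neg_add_cancel,
    Pi.single_zero, add_zero]

theorem P_ff (j : ℕ) (t : ℕ → ℤ) (x : FH) : PP (ff j) (t, x) = (t, gg j t * x) := by
  simp [PP, ff]

theorem P_be (w : FH) : ∀ (t : ℕ → ℤ) (x : FH), PP (be w) (t, x) = (t, mu t w * x) := by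
  induction w using FreeGroup.induction_on with
  | C1 => intro t x; simp
  | of a =>
    intro t x
    obtain ⟨j, e⟩ := a
    rw [be_of, map_mul, map_mul, Equiv.Perm.mul_apply,
      Equiv.Perm.mul_apply, P_eo, P_ff, P_eo', add_assoc, ← Pi.single_add, add_neg_cancel,
      Pi.single_zero, add_zero, mu, FreeGroup.lift_apply_of]
  | inv_of a h =>
    intro t x
    rw [map_inv, map_inv, map_inv, Equiv.Perm.inv_eq_iff_eq, h, mul_inv_cancel_left]
  | mul u v hu hv =>
    intro t x
    rw [map_mul, map_mul, map_mul, Equiv.Perm.mul_apply, hv, hu, mul_assoc]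

theorem P_fz (j : ℕ) (a : ℤ) (t : ℕ → ℤ) (x : FH) :
    PP (ff j ^ a) (t, x) = (t, gg j t ^ a * x) := by
  have h := P_be (of (j, false) ^ a) t x
  rw [be_zpow, map_zpow (mu t), mu, FreeGroup.lift_apply_of] at h
  simpa [eo, bb] using h

theorem P_true {w : FH} (h : w ∈ Fre {x : ℕ × Bool | x.2 = true}) (p : (ℕ → ℤ) × FH) :
    (PP w p).2 = p.2 := by
  induction h using Subgroup.closure_induction generalizing p with
  | mem y hy =>
    obtain ⟨⟨j, e⟩, rfl, rfl⟩ := hy
    have h := P_eo j true p.1 p.2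
    rw [eo, if_pos rfl] at h
    rw [h]
  | one => simp
  | mul u v _ _ hu hv => rw [map_mul, Equiv.Perm.mul_apply, hu, hv]
  | inv u _ hu => rw [← hu (PP u⁻¹ p), ← Equiv.Perm.mul_apply, ← map_mul, mul_inv_cancel, map_one]; rfl

theorem gg_bb (j : ℕ) (e : Bool) : gg j (Pi.single j (bb e)) = of (j, e) := by
  have h : (Pi.single j 1 : ℕ → ℤ) ≠ 0 := fun h => by simpa using congrFun h j
  cases e <;> simp [gg, bb, h]

theorem gg_mem (j : ℕ) (t : ℕ → ℤ) : gg j t ∈ Fre (Ho j) := by
  unfold gg; split_ifs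
  exacts [of_mem_Fre rfl, of_mem_Fre rfl, one_mem _]

theorem mu_zero (w : FH) : mu 0 w = w := by
  have : mu 0 = MonoidHom.id _ := FreeGroup.ext_hom _ _ fun a => by
    rw [mu, FreeGroup.lift_apply_of, zero_add, gg_bb]; rfl
  rw [this]; rfl

theorem mu_mem (i : ℕ) {c : ℤ} (hc : c ≠ 0) (w : FH) : mu (Pi.single i c) w ∈ Fre (Ho i) := by
  induction w using FreeGroup.induction_on with
  | C1 => simp
  | of a =>
    rw [mu, FreeGroup.lift_apply_of]
    by_cases h : a.1 = i
    · exact h ▸ gg_mem _ _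
    · have h' : i ≠ a.1 := fun e => h e.symm
      rw [gg, if_neg fun e => hc (by simpa [h'] using congrFun e i),
        if_neg fun e => hc (by simpa [h'] using congrFun e i)]
      exact one_mem _
  | inv_of a h => rw [map_inv]; exact inv_mem h
  | mul u v hu hv => rw [map_mul]; exact mul_mem hu hv

theorem kl_ho {i : ℕ} {w : FH} (h : w ∈ Fre (Ho i)) : kl i w = 1 :=
  Subgroup.mem_bot.1 (Fre.map_mem (kl i) (K := ⊥) (fun x hx => by
    rw [kl, FreeGroup.lift_apply_of, if_pos (show x.1 = i from hx)]; exact one_mem _) h)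

theorem kl_gg (i : ℕ) (t : ℕ → ℤ) : kl i (gg i t) = 1 := kl_ho (gg_mem i t)

theorem kl_mu (i : ℕ) (c : ℤ) (w : FH) :
    kl i (mu (Pi.single i c) w) = if c = 0 then kl i w else 1 := by
  split_ifs with h
  · rw [h, Pi.single_zero, mu_zero]
  · exact kl_ho (mu_mem i h w)

theorem en_eo {i : ℕ} {A : Set (ℕ × Bool)} {X : FH} (h : En (ff i) (of (i, true)) (Dk A) X) :
    ∃ (a b : ℤ) (κ : FH) (d d' : Bool), κ ∈ Fre A ∧
      X = ff i ^ a * eo i d * be κ * (eo i d')⁻¹ * ff i ^ b := by
  obtain ⟨a, b, _, _, _, ⟨κ, hκ, rfl⟩, rfl | rfl, rfl | rfl, h⟩ := h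
  exacts [⟨a, b, κ, false, false, hκ, h⟩, ⟨a, b, κ, false, true, hκ, h⟩,
    ⟨a, b, κ, true, false, hκ, h⟩, ⟨a, b, κ, true, true, hκ, h⟩]

end En

open En in
theorem en : S_EN := by
  intro i A w
  refine ⟨?_, fun h => ?_, fun e e' h => ?_, fun w' e e' u => ⟨fun j h => ?_, fun a b c h => ?_⟩⟩
  · rintro ⟨κ, hκ, h⟩
    have h1 := congrArg (fun y => (PP y (0, 1)).2) h
    simp only [P_be, mu_zero, mul_one] at h1
    exact h1 ▸ hκ
  · simpa only [P_be, mu_zero, mul_one] using P_true h (0, 1)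
  · obtain ⟨a, b, κ, d, d', hκ, h⟩ := en_eo h
    have h1 := congrArg (fun y => PP y (Pi.single i (bb e'), 1)) h
    simp only [map_mul PP, Equiv.Perm.mul_apply, P_eo, P_eo', P_be, P_fz, ← Pi.single_add,
      add_neg_cancel, zero_add, Pi.single_zero, mu_zero, mul_one, gg_bb, Prod.mk.injEq] at h1
    obtain ⟨h2, h3⟩ := h1
    rw [← h2, gg_bb] at h3
    by_cases hd : bb e' + -bb d' = 0
    · rw [hd, Pi.single_zero, mu_zero] at h3
      refine Or.inl ⟨-a, -b, ?_⟩
      rw [show of (i, e) ^ (-a) * w * of (i, e') ^ (-b) = κ by rw [h3]; group]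
      exact hκ
    · have ho : ∀ (e : Bool) (a : ℤ), (of (i, e) : FH) ^ a ∈ Fre (Ho i) := fun e a =>
        zpow_mem (of_mem_Fre (show (i, e) ∈ Ho i from rfl)) a
      rw [h3]
      exact Or.inr (mul_mem (ho e a) (mul_mem (mu_mem i hd κ) (ho e' b)))
  · obtain ⟨a, b, κ, d, d', hκ, h⟩ := en_eo h
    have hu : bb (!u) + -bb u ≠ 0 := by cases u <;> simp [bb]
    have hj : j = i := by
      by_contra hj
      have h1 := congrArg (fun y => (PP y (0, 1)).1 j) h
      simp only [map_mul PP, Equiv.Perm.mul_apply, P_eo, P_eo', P_be, P_fz, Pi.add_apply,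
        Pi.single_eq_same, Pi.single_eq_of_ne hj, Pi.zero_apply] at h1
      omega
    subst hj
    have h1 := fun c : ℤ => congrArg (fun y => kl j (PP y (Pi.single j c, 1)).2) h
    simp only [map_mul PP, Equiv.Perm.mul_apply, P_eo, P_eo', P_be, P_fz, ← Pi.single_add,
      map_mul (kl j), map_zpow (kl j), kl_gg, kl_mu, one_zpow, mul_one, one_mul] at h1
    refine ⟨rfl, ?_⟩
    by_cases hd : bb e' = bb d'
    · have h2 := h1 (bb e' - (bb (!u) + -bb u))
      rw [if_pos (by omega), if_neg (by omega), if_neg (by omega), mul_one] at h2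
      exact Or.inl h2
    · have h2 := h1 (bb e')
      rw [if_neg (by omega), if_pos (by omega), if_neg (by omega), one_mul] at h2
      exact Or.inr h2
  · have hu : bb (!u) + -bb u ≠ 0 := by cases u <;> simp [bb]
    have h1 := fun c : ℤ => congrArg (kl i) (P_true h (Pi.single i c, 1))
    simp only [map_mul PP, Equiv.Perm.mul_apply, P_eo, P_eo', P_be, P_fz, ← Pi.single_add,
      map_mul (kl i), map_zpow (kl i), kl_gg, kl_mu, one_zpow, mul_one, one_mul, map_one] at h1
    have h2 := h1 (bb e' - (bb (!u) + -bb u))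
    have h3 := h1 (bb e')
    rw [if_pos (by omega), if_neg (by omega), mul_one] at h2
    rw [if_neg (by omega), if_pos (by omega), one_mul] at h3
    exact ⟨h2, h3⟩

end Pool.Agent.MP_6eaae3_al.MX
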