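import Pool.Agent.MP_6eaae3_al.MX.Basic

/-! The Hecke coordinates for even chain length. -/

namespace Pool.Agent.MP_6eaae3_al.MX

open FreeGroup (of mk invRev IsReduced)
open Set Pool.Agent.MP_6eaae3_al.LT Pool.Agent.MP_6eaae3_al.LT.Path Pool.Agent.MP_6eaae3_al.EV

namespace H4

variable {M : ℕ} {s : ℕ → ℝ}

theorem up (h : Cheb M s) (j : ℕ) : j + 3 < M → s (j + 3) < s (j + 4) → s 3 < s (j + 4) := by
  induction j with
  | zero => exact fun _ b => b
  | succ j ih =>
    intro a b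
    have c := LT.Hk.conc h (show j + 3 < M by omega)
    have := ih (by omega) (by linarith)
    linarith

theorem cls (h : Cheb M s) (hM : 4 ≤ M) (ev : M % 2 = 0) {l : ℕ} (a : 1 ≤ l) (b : l ≤ M) :
    s l = 1 ∨ s l = s 2 ∨ 2 < s l := by
  obtain ⟨n, rfl⟩ : ∃ n, M = n + 2 := ⟨M - 2, by omega⟩
  have t1 := h.rc (n + 1)
  have t2 := h.rc n
  rw [h.e, h.l] at t1
  rw [h.l] at t2
  by_cases r : l = 1 ∨ l = 2 ∨ l = n + 1 ∨ l = n + 2
  · rcases r with rfl | rfl | rfl | rfl
    exacts [Or.inl h.o, Or.inr (Or.inl rfl), Or.inr (Or.inl (by linarith)), Or.inl h.l]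
  have e3 := h.rc 1
  have e4 := h.rc 2
  have e5 := h.rc 3
  have g5 := h.gt 5 (by omega) (by omega)
  have g2 := h.gt 2 (by omega) (by omega)
  rw [h.o] at e3
  have m3 : 3 < s 2 * s 2 := by
    rw [e5, e4, e3] at g5
    by_contra q
    nlinarith [mul_pos (zero_lt_one.trans g2) (zero_lt_one.trans g2)]
  have en : 2 < s n := by rw [show s (n + 1) = s 2 by linarith] at t2; linarith
  refine Or.inr (Or.inr ?_)
  by_cases r' : l = 3 ∨ l = n
  · rcases r' with rfl | rfl
    exacts [by linarith, en]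
  obtain ⟨j, rfl⟩ : ∃ j, l = j + 4 := ⟨l - 4, by omega⟩
  obtain ⟨c, rfl⟩ : ∃ c, n = j + 3 + c + 2 := ⟨n - j - 5, by omega⟩
  rcases lt_or_ge (s (j + 3)) (s (j + 4)) with u | u
  · linarith [up h j (by omega) u]
  · linarith [(LT.Hk.down h (j + 3) c (by omega) u).2]

theorem two (h : Cheb M s) (hM : 4 ≤ M) {j : ℕ} (a : j + 1 < M) {A B : ℝ} (hA : 1 ≤ A)
    (hB : 1 ≤ B) : 2 < s (j + 2) * A + s (j + 1) * B := by
  have g1 := h.ge a
  have g0 := h.ge (show j < M by omega)
  by_cases r : j = 0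
  · have := h.gt (j + 2) (by omega) (by omega)
    nlinarith
  · have := h.gt (j + 1) (by omega) a
    nlinarith

end H4

theorem h4 : S_H4 := by
  intro G _ w x Δ M s f0 f1 hs hM ev rel ⟨mw, mx, i0, i1⟩ g hg
  have hk := fun g hg => hecke (g := g) hs (by omega) rel (K := Subgroup.closure {w, x})
    (Subgroup.subset_closure (by simp)) (Subgroup.subset_closure (by simp)) mw mx i0 i1 hg
  have nf := NF.all rel (by omega) hg
  have hw : w ∈ Subgroup.closure {w, x} := Subgroup.subset_closure (by simp)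
  have hx : x ∈ Subgroup.closure {w, x} := Subgroup.subset_closure (by simp)
  generalize Subgroup.closure {w, x} = K at *
  have ha : ∀ i j, aa w x i j ∈ K := fun i j => alG_mem _ (yy_mem hw hx _) (yy_mem hw hx _)
  have hΔ : Δ ∈ K := rel 0 ▸ ha 0 _
  let F : G → ℤ → ℝ := fun g i =>
    if i % 4 = 0 then f0 g else if i % 4 = 1 then f1 g else if i % 4 = 2 then -f0 g else -f1 g
  have an : ∀ g i, F g (i + 1 + 1) = -F g i := fun g i => by
    simp only [F]; split_ifs <;> first | omega | simp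
  have mv : ∀ g ∈ K, ∀ i, F (g * yy w x i) i = F g i ∧
      F (g * yy w x i) (i + 1) = F g (i + 1) + s 2 * F g i := fun g hg i => by
    simp only [F, yy]
    split_ifs <;> first | omega | (simp only [mw g hg, mx g hg, true_and]; try ring)
  have Fa : ∀ g ∈ K, ∀ i, ∀ j : ℕ,
      F (g * aa w x i (j + 1)) (i + j) = s (j + 1) * F g i + s j * F g (i + 1) ∧
      F (g * aa w x i (j + 1)) (i + j + 1) = s (j + 2) * F g i + s (j + 1) * F g (i + 1) := by
    intro g hg i j
    induction j with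
    | zero => simp [aa, alG, mv g hg, hs.z, hs.o, add_comm]
    | succ j ih =>
      have := mv _ (mul_mem hg (ha i (j + 1))) (i + (j + 1 : ℕ))
      rw [aa_succ', ← mul_assoc, this.1, this.2, Nat.cast_succ, ← add_assoc, an, ih.1, ih.2,
        hs.rc (j + 1), hs.rc j]
      exact ⟨rfl, by ring⟩
  have Fd : ∀ g ∈ K, ∀ i, F (g * Δ) (i + (M - 1)) = F g i := fun g hg i => by
    have := (Fa g hg (i - 1) M).1
    rw [rel, hs.e, hs.l, show i - 1 + M = i + (M - 1) by ring] at this
    simpa using this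
  have Fk : ∀ g ∈ K, ∀ k i : ℤ, F (g * Δ ^ k) (i + k * (M - 1)) = F g i := fun g hg k i => by
    induction k using Int.induction_on with
    | zero => simp
    | succ k ih =>
      rw [zpow_add_one, add_mul, one_mul, ← add_assoc, ← mul_assoc, Fd _ (mul_mem hg (zpow_mem hΔ _)), ih]
    | pred k ih =>
      rw [← ih, ← Fd _ (mul_mem hg (zpow_mem hΔ _)), zpow_sub_one]
      congr 1
      exacts [by group, by ring]
  have Fx : ∀ a : ℤ, f0 (x ^ a) = 1 ∧ f1 (x ^ a) = 0 := fun a => by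
    have := D6.shear hx (u := f1) (v := f0) (ν := -s 2)
      (fun g hg => ⟨(mx g hg).1, by rw [(mx g hg).2]; ring⟩) K.one_mem a
    simpa [i0, i1, and_comm] using this
  let P : ℝ → Prop := fun t => t = 1 ∨ t = s 2 ∨ 2 < t
  have m1 := hs.gt 2 (by omega) (by omega)
  have m2 := LT.Hk.lt_two hs
  have P1 : ∀ t, P t → 1 ≤ t ∧ t ≠ 2 := by
    rintro t (u | u | u) <;> exact ⟨by linarith, fun _ => by linarith⟩
  have key : ∀ h i, NF w x Δ M h i → h ∈ K ∧ P (F h i) ∧
      ((F h i = 1 ∧ F h (i + 1) = 0) ∨ P (F h (i + 1))) := fun h i n => by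
    induction n with
    | base a => exact ⟨zpow_mem hx a, Or.inl (by simp [F, Fx]), Or.inl (by simp [F, Fx])⟩
    | @del h i k _ ih =>
      rw [add_right_comm, Fk h ih.1, Fk h ih.1]
      exact ⟨mul_mem ih.1 (zpow_mem hΔ k), ih.2⟩
    | @step h i j _ hj ih =>
      obtain ⟨a, b, c⟩ := ih
      rw [(Fa h a i j).1, (Fa h a i j).2]
      refine ⟨mul_mem a (ha _ _), ?_⟩
      rcases c with ⟨c, d⟩ | c
      · simp only [c, d, mul_one, mul_zero, add_zero]
        refine ⟨H4.cls hs hM ev (by omega) hj, ?_⟩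
        by_cases q : j + 1 = M
        · exact Or.inl ⟨q ▸ hs.l, by rw [show j + 2 = M + 1 by omega, hs.e]⟩
        · exact Or.inr (H4.cls hs hM ev (by omega) (by omega))
      refine ⟨?_, Or.inr ?_⟩
      · rcases j with _ | j
        · rwa [hs.o, hs.z, one_mul, zero_mul, add_zero]
        · exact Or.inr (Or.inr (H4.two hs hM hj (P1 _ b).1 (P1 _ c).1))
      · by_cases q : j + 1 = M
        · rwa [show j + 2 = M + 1 by omega, q, hs.e, hs.l, zero_mul, zero_add, one_mul]
        · exact Or.inr (Or.inr (H4.two hs hM (by omega) (P1 _ b).1 (P1 _ c).1))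
  have par : ∀ k : ℤ, k * (M - 1) % 4 = if M % 4 = 0 then -k % 4 else k % 4 := fun k => by
    obtain ⟨q, r⟩ : ∃ q : ℤ, (M : ℤ) = 4 * q + (M % 4 : ℕ) := ⟨M / 4, by omega⟩
    have : k * (M - 1) = 4 * (k * q) + k * ((M % 4 : ℕ) - 1) := by rw [r]; push_cast; ring_nf
    split_ifs with c
    · rw [c] at this; omega
    · rw [show M % 4 = 2 by omega] at this; omega
  have val : ∀ a k i : ℤ, F (x ^ a * Δ ^ k) i = F (x ^ a) (i - k * (M - 1)) := fun a k i => by
    rw [← Fk _ (zpow_mem hx a) k, sub_add_cancel]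
  have c1 : ∀ g ∈ K, f1 g = 0 → ∃ a k : ℤ, k % 2 = 0 ∧ g = x ^ a * Δ ^ k := fun g hg u => by
    obtain ⟨a, k, rfl⟩ := (hk g hg).1 u
    refine ⟨a, k, ?_, rfl⟩
    have v := val a k 1
    have := par k
    simp only [F, Fx, u] at v
    split_ifs at v this <;> first | omega | simp at v
  have c3 : ∀ g ∈ K, f0 g = 1 → ∃ a k b : ℤ, k % 4 = 0 ∧ g = x ^ a * Δ ^ k * w ^ b :=
    fun g hg u => by
    obtain ⟨a, k, b, rfl⟩ := (hk g hg).2 u
    refine ⟨a, k, b, ?_, rfl⟩
    rw [(D6.shear hw mw (mul_mem (zpow_mem hx a) (zpow_mem hΔ k)) b).1] at u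
    have v := val a k 0
    have := par k
    simp only [F, Fx, u] at v
    split_ifs at v this <;> first | omega | norm_num at v
  obtain ⟨i, n⟩ := nf
  obtain ⟨-, b, c⟩ := key g i n
  have b' := P1 _ b
  have c' : F g (i + 1) = 0 ∨ 1 ≤ F g (i + 1) ∧ F g (i + 1) ≠ 2 := c.imp And.right (P1 _)
  refine ⟨c1 g hg, fun u => ?_, c3 g hg, fun u => ?_, ?_⟩
  · have v := Fd g hg (2 - M)
    rw [show 2 - (M : ℤ) + (M - 1) = 1 by ring] at v
    obtain ⟨a, k, r, e⟩ := c1 _ (mul_mem hg hΔ) (by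
      simp only [F, u] at v
      split_ifs at v <;> first | omega | simpa using v)
    exact ⟨a, k - 1, by omega, by rw [zpow_sub_one, ← mul_assoc, ← e, mul_inv_cancel_right]⟩
  · rcases eq_or_eq_neg_of_abs_eq u with u | u
    · obtain ⟨a, k, b, -, e⟩ := c3 g hg u
      exact ⟨a, k, b, e⟩
    have v := Fk g hg 2 (-2 * (M - 1))
    rw [show -2 * ((M : ℤ) - 1) + 2 * (M - 1) = 0 by ring] at v
    obtain ⟨a, k, b, -, e⟩ := c3 _ (mul_mem hg (zpow_mem hΔ 2)) (by
      simp only [F, u] at v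
      split_ifs at v <;> first | omega | simpa using v)
    have d := del_yy rel (-2) 0
    rw [yy_congr w x (j := 0) (by omega), show yy w x 0 = w from rfl] at d
    refine ⟨a, k + -2, b, ?_⟩
    rw [zpow_add, ← mul_assoc, mul_assoc _ (Δ ^ (-2 : ℤ)), (SemiconjBy.zpow_right d b).eq,
      ← mul_assoc, ← e, zpow_neg, mul_inv_cancel_right]
  · simp only [F] at b' c'
    simp only [le_abs]
    split_ifs at b' c' <;> first
      | omega
      | (rcases c' with c' | c' <;> refine ⟨?_, ?_, ?_⟩ <;> first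
          | exact Or.inr (Or.inl b'.1) | exact Or.inr (Or.inr b'.1) | exact Or.inr (Or.inl c'.1)
          | exact Or.inr (Or.inr c'.1) | exact Or.inl (by linarith) | exact b'.2 | exact c'.2
          | (intro _; linarith [b'.1]))

end Pool.Agent.MP_6eaae3_al.MX
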