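import Pool.Agent.MP_6eaae3_al.MX.Basic

/-! The open side letters at the start and at the landing place of a port. -/

namespace Pool.Agent.MP_6eaae3_al.MX

open FreeGroup (of mk invRev IsReduced)
open Set Pool.Agent.MP_6eaae3_al.LT Pool.Agent.MP_6eaae3_al.LT.Path Pool.Agent.MP_6eaae3_al.EV

namespace Ld

theorem et_congr {N a b : ℕ} (h : a = b ∨ ((a = 0 ∨ N < a) ∧ (b = 0 ∨ N < b))) : et N a = et N b := by
  rcases h with rfl | h
  · rfl
  · rw [et, et, if_neg (by omega), if_neg (by omega)]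

theorem eo_eq {N i : ℕ} (h1 : 1 ≤ i) (h2 : i ≤ N) (e : Bool) :
    eo i e = et N (if e = true then i else 0) := by
  cases e
  · rw [if_neg (by simp), et, if_neg (by omega)]; rfl
  · rw [if_pos rfl, et_eq h1 h2]; rfl

/-- A place within two periods. -/
theorem zz {N : ℕ} (π : ℕ) (b n x : ℤ) (h0 : 0 ≤ x) (h1 : x < 2 * (2 * N - 2)) :
    ∃ β r : ℤ, zet N π b (x + n * (2 * N - 2)) = z0 N π β r ∧
      ((x < 2 * N - 2 ∧ β = (b + n * (N + 1)) % 2 ∧ r = x) ∨
        (2 * N - 2 ≤ x ∧ β = (b + n * (N + 1) + (N + 1)) % 2 ∧ r = x - (2 * N - 2))) := by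
  by_cases c : x < 2 * N - 2
  · exact ⟨_, _, zet_eq π b n h0 c, Or.inl ⟨c, rfl, rfl⟩⟩
  · refine ⟨_, _, ?_, Or.inr ⟨by omega, rfl, rfl⟩⟩
    rw [show x + n * (2 * N - 2) = x - (2 * N - 2) + (n + 1) * (2 * N - 2) by ring,
      zet_eq π b (n + 1) (by omega) (by omega)]
    congr 2
    ring

/-- The landing place of a port. -/
theorem land {N i : ℕ} (π : ℕ) (k : ℤ) (hN : 3 ≤ N) (h1 : 1 ≤ i) (h2 : i ≤ N) :
    ∃ s d : ℤ, (N % 2 = 1 → s % 2 = 0) ∧
      ((d = 0 ∧ ix N k i = i ∧ (sid N i k = true ↔ s % 2 = 0)) ∨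
        (d = N - 1 ∧ ix N k i = N + 1 - i ∧ (sid N i k = true ↔ (N + 1 - i + s) % 2 = 1))) ∧
      ∀ e, ∃ β r : ℤ, zet N π (shb i e) (lan N i e k) = z0 N π β r ∧
        ((sta N i e + d < 2 * N - 2 ∧ β = (shb i e + s) % 2 ∧ r = sta N i e + d) ∨
          (2 * N - 2 ≤ sta N i e + d ∧ β = (shb i e + s + (N + 1)) % 2 ∧
            r = sta N i e + d - (2 * N - 2))) := by
  have st : ∀ e, 0 ≤ sta N i e ∧ sta N i e < 2 * N := fun e => by unfold sta; split_ifs <;> omega
  have st' : ∀ e, sta N i e + (N - 1) < 2 * (2 * N - 2) := fun e => by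
    unfold sta; split_ifs <;> omega
  have sh : ∀ n : ℤ, N % 2 = 1 → n * (N + 1) % 2 = 0 := fun n h => by rw [sheet, if_neg (by omega)]
  obtain ⟨n, rfl | rfl⟩ : ∃ n : ℤ, k = -(2 * n) ∨ k = -(2 * n + 1) := ⟨-k / 2, by omega⟩
  · refine ⟨n * (N + 1), 0, sh n, Or.inl ⟨rfl, if_pos (by omega), ?_⟩, fun e => ?_⟩
    · rw [sid, if_pos (by omega), show -(2 * n) / 2 = -n by omega, neg_mul, decide_eq_true_iff]
      omega
    · rw [show lan N i e (-(2 * n)) = sta N i e + 0 + n * (2 * N - 2) by rw [lan]; ring]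
      exact zz π _ n _ (by have := st e; omega) (by have := st e; omega)
  · refine ⟨n * (N + 1), N - 1, sh n, Or.inr ⟨rfl, if_neg (by omega), ?_⟩, fun e => ?_⟩
    · rw [sid, if_neg (by omega), show (-(-(2 * n + 1)) - 1) / 2 = n by omega, decide_eq_true_iff]
    · rw [show lan N i e (-(2 * n + 1)) = sta N i e + (N - 1) + n * (2 * N - 2) by rw [lan]; ring]
      exact zz π _ n _ (by have := st e; omega) (st' e)

/-- The values of the open letter. -/
theorem z0_spec (N π : ℕ) {β r : ℤ} (hN : 3 ≤ N) (hβ : β = 0 ∨ β = 1) (h0 : 0 ≤ r) :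
    (β = 0 ∧ r < N ∧ (N - r) % 2 = π ∧ (z0 N π β r : ℤ) = N - r) ∨
    (β = 0 ∧ r < N ∧ (N - r) % 2 ≠ π ∧ (z0 N π β r : ℤ) = N - r + 1) ∨
    (β = 1 ∧ r = 0 ∧ N % 2 ≠ π ∧ (z0 N π β r : ℤ) = N - 1) ∨
    (β = 1 ∧ r = 0 ∧ N % 2 = π ∧ z0 N π β r = 0) ∨
    (β = 1 ∧ 0 < r ∧ r < N ∧ z0 N π β r = 0) ∨
    (N ≤ r ∧ β = π ∧ z0 N π β r = 0) ∨
    (N ≤ r ∧ β ≠ π ∧ (r - N) % 2 = π ∧ (z0 N π β r : ℤ) = r - N + 2) ∨
    (N ≤ r ∧ β ≠ π ∧ (r - N) % 2 ≠ π ∧ (z0 N π β r : ℤ) = r - N + 1) := by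
  unfold z0
  split_ifs with a b c d e f g
  · exact .inl (by omega)
  · exact .inr (.inl (by omega))
  · exact .inr (.inr (.inr (.inl (by omega))))
  · exact .inr (.inr (.inl (by omega)))
  · exact .inr (.inr (.inr (.inr (.inl (by omega)))))
  · exact .inr (.inr (.inr (.inr (.inr (.inl (by omega))))))
  · exact .inr (.inr (.inr (.inr (.inr (.inr (.inl (by omega)))))))
  · exact .inr (.inr (.inr (.inr (.inr (.inr (.inr (by omega)))))))

end Ld

open Ld in
theorem ld : S_LD := by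
  intro N π i k hN hπ h1 h2
  have st : ∀ e, 0 ≤ sta N i e ∧ sta N i e < 2 * N := fun e => by unfold sta; split_ifs <;> omega
  refine ⟨fun e => ?_, fun h e => ?_, fun h => ?_⟩
  · obtain ⟨β, r, u, v⟩ := zz (N := N) π (shb i e) 0 (sta N i e) (st e).1 (by have := st e; omega)
    rw [zero_mul, add_zero] at u
    rw [u, eo_eq h1 h2, ← apply_ite (et N)]
    refine et_congr ?_
    have w := z0_spec N π (β := β) (r := r) hN (by omega) (by have := st e; omega)
    generalize z0 N π β r = a at w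
    clear u st
    cases e <;> simp only [sta, shb, if_true, Bool.false_eq_true, if_false] at v ⊢ <;> split_ifs <;>
      rcases v with v | v <;> rcases w with w | w | w | w | w | w | w | w <;> omega
  · obtain ⟨s, d, a, b, c⟩ := land π k hN h1 h2
    obtain ⟨β, r, u, v⟩ := c e
    rw [u, eo_eq (ix_le k h1 h2).1 (ix_le k h1 h2).2]
    refine et_congr ?_
    have w := z0_spec N π (β := β) (r := r) hN (by omega) (by have := st e; omega)
    unfold zl
    generalize z0 N π β r = x at w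
    generalize sid N i k = σ at b
    generalize ix N k i = j at b h
    clear u st c
    cases e <;> cases σ <;> simp only [sta, shb, if_true, Bool.false_eq_true, if_false, true_iff,
      false_iff, beq_self_eq_true, Bool.true_beq, Bool.false_beq, Bool.not_true, true_or,
      and_true] at v b ⊢ <;>
      rcases b with b | b <;> rcases v with v | v <;>
      rcases w with w | w | w | w | w | w | w | w <;> omega
  · obtain ⟨s, d, a, b, c⟩ := land π k hN h1 h2
    obtain ⟨β, r, u, v⟩ := c true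
    obtain ⟨β', r', u', v'⟩ := c false
    rw [u, u']
    refine et_congr ?_
    have b' : (d = 0 ∧ ix N k i = i) ∨ (d = N - 1 ∧ ix N k i = N + 1 - i) :=
      b.imp (fun w => ⟨w.1, w.2.1⟩) fun w => ⟨w.1, w.2.1⟩
    have w := z0_spec N π (β := β) (r := r) hN (by omega) (by have := st true; omega)
    have w' := z0_spec N π (β := β') (r := r') hN (by omega) (by have := st false; omega)
    generalize z0 N π β r = x at w
    generalize z0 N π β' r' = x' at w'
    generalize ix N k i = j at b' h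
    simp only [sta, shb, if_true, Bool.false_eq_true, if_false] at v v'
    clear b u u' c st
    revert w'
    rcases b' with b | b <;> rcases v with v | v <;> rcases v' with v' | v' <;>
      rcases w with w | w | w | w | w | w | w | w <;>
      first | (exfalso; omega) | (rintro (w' | w' | w' | w' | w' | w' | w' | w') <;> omega)

end Pool.Agent.MP_6eaae3_al.MX
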