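import Pool.Agent.MP_6eaae3_al.MX.Basic

/-! The image of a seed when no crossing passage on one colour of the chain exists. -/

namespace Pool.Agent.MP_6eaae3_al.MX

open FreeGroup (of mk invRev IsReduced)
open Set Pool.Agent.MP_6eaae3_al.LT Pool.Agent.MP_6eaae3_al.LT.Path Pool.Agent.MP_6eaae3_al.EV

namespace Ls

variable {M V : Type} {m : V → V → ℕ} {n : ℕ} {Y : Sy m n M} {S : Set (FG M)} {s t : V}
  {N : ℕ} {p : ℤ} {c : ℕ → V × ℕ} {i : ℕ} {x : V ⊕ Bool} {B : List (M × Bool)} {y y' : M × Bool}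
  {e e' : Bool} {k : ℤ}

theorem xi_eq (π k : ℕ) :
    (if k % 2 = π then 1 else et N (k + 1)) * (if k % 2 = π then ff k else 1) *
      (if k % 2 = π then 1 else et N (k - 1))⁻¹ = xi N π (of k) := by
  by_cases h : k % 2 = π <;> simp [h, xi]

/-- What `S_DE` gives for the image of the seed. -/
theorem de (h5 : S_DE) (D : Sdd Y S s t N p c i x B y y' e e' k) (π : ℕ)
    {γ γ' : V} (hX : ({γ, γ'} : Set V) = {s, t}) (ne : γ ≠ γ')
    (col : ∀ k, (c k).1 = if k % 2 = π then γ else γ')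
    (P : Pu (PresentedGroup.of s : Art m) (PresentedGroup.of t) N p) {g} (hg : g ∈ Par m {s, t})
    (hn : ¬ ∃ j, Y.Cx (Y.im g S) γ (Sum.inl γ') j) :
    ∃ A w, (A = 1 ∨ A = if i % 2 = π then ff i else 1) ∧
      w = A⁻¹ * ((if i % 2 = π then 1 else et N (i + 1))⁻¹ * xi N π (Cw P g i e k e') *
        (if i % 2 = π then 1 else et N (i + 1))) * A ∧
      (i % 2 ≠ π → w ∈ Dk (Ac Y (Y.im g S) γ' N π c)) ∧
      (i % 2 = π → En (ff i) (et N i) (Dk (Ac Y (Y.im g S) γ' N π c)) w) := by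
  obtain ⟨θ, h⟩ := EV.ta V M m n Y _ N c _ FH (fun k => if k % 2 = π then ff k else 1)
    (fun k => if k % 2 = π then 1 else et N (k + 1)) (fun k => if k % 2 = π then 1 else et N (k - 1))
    D.cn (EV.Ls.zz_at _) (by simp [et]) (by simp [et])
  obtain ⟨a1, a2, a3⟩ := EV.li (f2 f3) ptt V M m n Y S s t N p c i x B y y' e e' k D
  obtain ⟨l, l1, -, l3, l4, l5⟩ := a3 g hg
  obtain ⟨A, hA, b⟩ := EV.Ls.val EV.ch EV.uq D h P (xi N π) (fun k _ _ => xi_eq π k) hg
  refine ⟨A, _, hA, b, ?_⟩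
  rw [← l5]
  exact h5 V M m n Y _ γ γ' N π i c _ θ y y' l (hX ▸ D.cn) col ne (EV.Ls.zz_at _) h D.i1 D.iN
    ((D.bl.2 y).1 D.y1).1 ((D.bl.2 y').1 D.y2).1 (hX ▸ a1) (hX ▸ a2) l3 (hX ▸ l4) l1 hn

end Ls

theorem ls (h : S_DE) : S_LS := by
  intro V M m n Y S s t N p c i x B y y' e e' k D
  obtain ⟨P⟩ := EV.Ls.exists_pu EV.ta EV.ch D
  have par := D.par
  refine ⟨P, fun g hg => ⟨fun hn => ?_, fun hn => ?_⟩⟩
  · obtain ⟨A, w, hA, rfl, -, a⟩ := Ls.de h D (i % 2) (pair_comm t s) D.ne.symm (fun k => by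
      rw [D.col, yy]; split_ifs <;> first | rfl | omega) P hg hn
    have a := a rfl
    simp only [if_true, inv_one, one_mul, mul_one] at a hA
    exact EV.Ls.en_conj le_rfl hA a
  · obtain ⟨A, w, hA, rfl, a, -⟩ := Ls.de h D ((i + 1) % 2) rfl D.ne (fun k => by
      rw [D.col, yy]; split_ifs <;> first | rfl | omega) P hg hn
    have hi' : ¬ i % 2 = (i + 1) % 2 := by omega
    have a := a hi'
    simp only [hi', if_false, or_self] at hA
    simpa only [Oth, hA, hi', if_false, inv_one, one_mul, mul_one] using a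

end Pool.Agent.MP_6eaae3_al.MX
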