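import Pool.Agent.MP_6eaae3_al.MX.Basic

/-! A numbering of the levels with three marked classes. -/

namespace Pool.Agent.MP_6eaae3_al.MX

open FreeGroup (of mk invRev IsReduced)
open Set Pool.Agent.MP_6eaae3_al.LT Pool.Agent.MP_6eaae3_al.LT.Path Pool.Agent.MP_6eaae3_al.EV

namespace Lv

theorem permL {n : ℕ} (L : List ℕ) (hL : L.Nodup) (hn : ∀ x ∈ L, x < n) (hk : L.length ≤ n) :
    ∃ π : Equiv.Perm ℕ, (∀ i, π i < n ↔ i < n) ∧ ∀ i (h : i < L.length), π i = L[i] := by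
  obtain ⟨σ, hσ⟩ := Equiv.Perm.exists_extending_pair (f := Fin.castLE hk)
    (g := fun j => (⟨L.get j, hn _ (L.get_mem j)⟩ : Fin n)) (Fin.castLE_injective hk)
    fun a b h => List.nodup_iff_injective_get.1 hL (congrArg Fin.val h)
  obtain ⟨π, hπ⟩ := Equiv.Perm.exists_extending_pair (f := (Fin.val : Fin n → ℕ))
    (g := fun j => (σ j).val) Fin.val_injective (Fin.val_injective.comp σ.injective)
  refine ⟨π, fun i => ⟨fun h => ?_, fun h => ?_⟩, fun i hi => ?_⟩
  · have h1 := hπ (σ.symm ⟨π i, h⟩)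
    rw [σ.apply_symm_apply] at h1
    rw [← π.injective h1]
    exact Fin.is_lt _
  · rw [show π i = _ from hπ ⟨i, h⟩]
    exact Fin.is_lt _
  · exact (hπ (Fin.castLE hk ⟨i, hi⟩)).trans (by rw [hσ]; rfl)

theorem em_inj {N : ℕ} {p p' : ℕ × ℕ} (h : p.2 < N) (h' : p'.2 < N)
    (e : p.1 * N + p.2 = p'.1 * N + p'.2) : p = p' := by
  have e1 := congrArg (· % N) e
  have e2 := congrArg (· / N) e
  simp only [EV.Lv.md _ h, EV.Lv.md _ h', EV.Lv.dv _ h, EV.Lv.dv _ h'] at e1 e2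
  exact Prod.ext e2 e1

/-- Three disjoint sets of slots of sizes `a`, `a`, `2 a` receive the first three ranges of levels. -/
theorem perm3 {N q a : ℕ} (h4 : 4 * a ≤ N * q) (A B C : Finset (ℕ × ℕ))
    (hb : ∀ p, p ∈ A ∨ p ∈ B ∨ p ∈ C → p.1 < q ∧ p.2 < N) (d1 : ∀ p ∈ A, p ∉ B)
    (d2 : ∀ p ∈ A, p ∉ C) (d3 : ∀ p ∈ B, p ∉ C) (cA : A.card = a) (cB : B.card = a)
    (cC : C.card = 2 * a) : ∃ π : Equiv.Perm ℕ, (∀ i, π i < N * q ↔ i < N * q) ∧
      ∀ r j, j < N → (Em a (π.symm (r * N + j)) ↔ (r, j) ∈ A) ∧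
        (Ep a (π.symm (r * N + j)) ↔ (r, j) ∈ B) ∧ (Kk a (π.symm (r * N + j)) ↔ (r, j) ∈ C) := by
  let M := A.toList ++ (B.toList ++ C.toList)
  have mM : ∀ p, p ∈ M ↔ p ∈ A ∨ p ∈ B ∨ p ∈ C := fun p => by
    simp only [M, List.mem_append, Finset.mem_toList]
  have lA : A.toList.length = a := by rw [Finset.length_toList, cA]
  have lB : B.toList.length = a := by rw [Finset.length_toList, cB]
  have lM : M.length = 4 * a := by
    simp only [M, List.length_append, Finset.length_toList, cA, cB, cC]; omega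
  have nM : M.Nodup := by
    refine List.nodup_append.2 ⟨A.nodup_toList, List.nodup_append.2
      ⟨B.nodup_toList, C.nodup_toList, ?_⟩, ?_⟩
    · rintro x hx y hy rfl
      exact d3 x (Finset.mem_toList.1 hx) (Finset.mem_toList.1 hy)
    · rintro x hx y hy rfl
      rcases List.mem_append.1 hy with h | h
      · exact d1 x (Finset.mem_toList.1 hx) (Finset.mem_toList.1 h)
      · exact d2 x (Finset.mem_toList.1 hx) (Finset.mem_toList.1 h)
  obtain ⟨π, p1, p2⟩ := permL (n := N * q) (M.map fun p => p.1 * N + p.2)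
    (nM.map_on fun x hx y hy e => em_inj (hb x ((mM x).1 hx)).2 (hb y ((mM y).1 hy)).2 e)
    (fun x hx => by
      obtain ⟨p, hp, rfl⟩ := List.mem_map.1 hx
      obtain ⟨u, v⟩ := hb p ((mM p).1 hp)
      have := Nat.mul_le_mul_right N (Nat.succ_le_of_lt u)
      rw [Nat.succ_mul, mul_comm q] at this
      omega)
    (by rw [List.length_map, lM]; exact h4)
  refine ⟨π, p1, fun r j hj => ?_⟩
  have k1 : (r, j) ∈ A ∨ (r, j) ∈ B ∨ (r, j) ∈ C → π.symm (r * N + j) < 4 * a := fun h => by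
    obtain ⟨i, hi, e⟩ := List.getElem_of_mem ((mM _).2 h)
    have := p2 i (by rw [List.length_map]; exact hi)
    rw [List.getElem_map, e] at this
    rw [← show π i = r * N + j from this, π.symm_apply_apply, ← lM]
    exact hi
  have k2 : ∀ h : π.symm (r * N + j) < M.length, M[π.symm (r * N + j)] = (r, j) := fun h => by
    have := p2 _ (by rw [List.length_map]; exact h)
    rw [List.getElem_map, π.apply_symm_apply] at this
    exact em_inj (hb _ ((mM _).1 (List.getElem_mem h))).2 hj this.symm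
  generalize π.symm (r * N + j) = i at k1 k2
  have a1 : i < a → (r, j) ∈ A := fun h => by
    rw [← k2 (by omega), List.getElem_append_left (by omega)]
    exact Finset.mem_toList.1 (List.getElem_mem _)
  have a2 : a ≤ i → i < 2 * a → (r, j) ∈ B := fun h h' => by
    rw [← k2 (by omega), List.getElem_append_right (by omega), List.getElem_append_left (by omega)]
    exact Finset.mem_toList.1 (List.getElem_mem _)
  have a3 : 2 * a ≤ i → i < 4 * a → (r, j) ∈ C := fun h h' => by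
    rw [← k2 (by omega), List.getElem_append_right (by omega), List.getElem_append_right (by omega)]
    exact Finset.mem_toList.1 (List.getElem_mem _)
  refine ⟨⟨a1, fun h => ?_⟩, ⟨fun h => a2 h.1 h.2, fun h => ?_⟩, ⟨fun h => a3 h.1 h.2, fun h => ?_⟩⟩
  · have := k1 (.inl h)
    by_contra c
    rcases lt_or_ge i (2 * a) with u | u
    · exact d1 _ h (a2 (Nat.le_of_not_lt c) u)
    · exact d2 _ h (a3 u this)
  · have := k1 (.inr (.inl h))
    exact ⟨Nat.le_of_not_lt fun u => d1 _ (a1 u) h, Nat.lt_of_not_le fun u => d3 _ h (a3 u this)⟩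
  · refine ⟨Nat.le_of_not_lt fun u => ?_, k1 (.inr (.inr h))⟩
    rcases lt_or_ge i a with v | v
    · exact d2 _ (a1 v) h
    · exact d3 _ (a2 v u) h

/-- The mirror image of a set of slots. -/
def mi (N : ℕ) (A : Finset (ℕ × ℕ)) : Finset (ℕ × ℕ) := A.image fun p => (p.1, N - 1 - p.2)

theorem mem_mi {N : ℕ} {A : Finset (ℕ × ℕ)} (h : ∀ p ∈ A, p.2 < N) {p : ℕ × ℕ} :
    p ∈ mi N A ↔ p.2 < N ∧ (p.1, N - 1 - p.2) ∈ A := by
  refine Finset.mem_image.trans ⟨?_, fun u => ⟨_, u.2, Prod.ext rfl ?_⟩⟩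
  · rintro ⟨x, hx, rfl⟩
    have := h x hx
    refine ⟨by show N - 1 - x.2 < N; omega, ?_⟩
    rw [show N - 1 - (x.1, N - 1 - x.2).2 = x.2 by show N - 1 - (N - 1 - x.2) = x.2; omega]
    exact hx
  · have := u.1
    show N - 1 - (N - 1 - p.2) = p.2
    omega

theorem card_mi {N : ℕ} {A : Finset (ℕ × ℕ)} (h : ∀ p ∈ A, p.2 < N) : (mi N A).card = A.card :=
  Finset.card_image_of_injOn fun x hx y hy e => by
    have := h x hx
    have := h y hy
    obtain ⟨e1, e2⟩ := Prod.mk.inj e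
    exact Prod.ext e1 (by omega)

theorem blk {N q r : ℕ} (h3 : 3 ≤ N) (h : r * N + N ≤ N * q) : r < q := by
  by_contra hc
  have := Nat.mul_le_mul_right N (Nat.le_of_not_lt hc)
  rw [mul_comm q] at this
  omega

theorem even {k q a : ℕ} (hk : 2 ≤ k) (h4 : 4 * a ≤ 2 * k * q) (hq : q ≤ a) :
    ∃ π : Equiv.Perm ℕ, (∀ i, π i < 2 * k * q ↔ i < 2 * k * q) ∧
      ∀ r, r < q → Pat a (2 * k) fun j => π.symm (r * (2 * k) + j - 1) := by
  obtain ⟨c, c1, c2, c3⟩ : ∃ c, 1 ≤ c ∧ c < k ∧ ((c = 2 ∧ 3 ≤ k) ∨ (c = 1 ∧ k = 2)) := by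
    rcases Nat.lt_or_ge 2 k with h | h
    · exact ⟨2, by omega⟩
    · exact ⟨1, by omega⟩
  let H := Finset.range q ×ˢ Finset.range k
  let A := fun c : ℕ => Finset.range q ×ˢ ({c} : Finset ℕ)
  have mH : ∀ p, p ∈ H ↔ p.1 < q ∧ p.2 < k := fun p => by
    simp only [H, Finset.mem_product, Finset.mem_range]
  have mA : ∀ c p, p ∈ A c ↔ p.1 < q ∧ p.2 = c := fun c p => by
    simp only [A, Finset.mem_product, Finset.mem_range, Finset.mem_singleton]
  have cH : 2 * a ≤ H.card := by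
    rw [Finset.card_product, Finset.card_range, Finset.card_range]
    nlinarith
  have cA : ∀ c, (A c).card = q := fun c => by
    rw [Finset.card_product, Finset.card_range, Finset.card_singleton, mul_one]
  obtain ⟨Z, z1, z2, z3⟩ := Finset.exists_subsuperset_card_eq (s := A 0) (t := H \ A c) (n := a)
    (fun p hp => by
      rw [Finset.mem_sdiff, mH, mA]
      rw [mA] at hp
      omega)
    (by rw [cA]; exact hq)
    (by have := Finset.le_card_sdiff (A c) H; rw [cA] at this; omega)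
  have mZ : ∀ p ∈ Z, (p.1 < q ∧ p.2 < k) ∧ ¬ (p.1 < q ∧ p.2 = c) := fun p hp => by
    rw [← mH, ← mA]; exact Finset.mem_sdiff.1 (z2 hp)
  obtain ⟨K, k1, k2, k3⟩ := Finset.exists_subsuperset_card_eq (s := A c) (t := H \ Z) (n := a)
    (fun p hp => by
      rw [Finset.mem_sdiff, mH]
      rw [mA] at hp
      exact ⟨by omega, fun u => (mZ p u).2 hp⟩)
    (by rw [cA]; exact hq)
    (by have := Finset.le_card_sdiff Z H; omega)
  have mK : ∀ p ∈ K, (p.1 < q ∧ p.2 < k) ∧ p ∉ Z := fun p hp => by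
    rw [← mH]; exact Finset.mem_sdiff.1 (k2 hp)
  have bZ : ∀ p ∈ Z, p.2 < 2 * k := fun p hp => by have := mZ p hp; omega
  have bK : ∀ p ∈ K, p.2 < 2 * k := fun p hp => by have := (mK p hp).1; omega
  have uZ : ∀ p ∈ mi (2 * k) Z, p.1 < q ∧ k ≤ p.2 ∧ p.2 < 2 * k := fun p hp => by
    obtain ⟨u, v⟩ := (mem_mi bZ).1 hp
    have := (mZ _ v).1
    simp only at this
    omega
  have uK : ∀ p ∈ mi (2 * k) K, p.1 < q ∧ k ≤ p.2 ∧ p.2 < 2 * k := fun p hp => by
    obtain ⟨u, v⟩ := (mem_mi bK).1 hp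
    have := (mK _ v).1
    simp only at this
    omega
  obtain ⟨π, p1, p2⟩ := perm3 (N := 2 * k) h4 Z (mi (2 * k) Z) (K ∪ mi (2 * k) K)
    (fun p hp => by
      rw [Finset.mem_union] at hp
      rcases hp with h | h | h | h
      · have := mZ p h; omega
      · have := uZ p h; omega
      · have := (mK p h).1; omega
      · have := uK p h; omega)
    (fun p h h' => by have := mZ p h; have := uZ p h'; omega)
    (fun p h h' => by
      rcases Finset.mem_union.1 h' with u | u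
      · exact (mK p u).2 h
      · have := mZ p h; have := uK p u; omega)
    (fun p h h' => by
      rcases Finset.mem_union.1 h' with u | u
      · have := uZ p h; have := (mK p u).1; omega
      · exact (mK _ ((mem_mi bK).1 u).2).2 ((mem_mi bZ).1 h).2)
    z3 (by rw [card_mi bZ, z3])
    (by
      rw [Finset.card_union_of_disjoint (Finset.disjoint_left.2 fun p h h' => by
        have := (mK p h).1; have := uK p h'; omega), card_mi bK, k3, two_mul])
  refine ⟨π, p1, fun r hr => ⟨fun _ => ?_, fun h => by omega⟩⟩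
  have P : ∀ j, 1 ≤ j → j ≤ 2 * k → (Em a (π.symm (r * (2 * k) + j - 1)) ↔ (r, j - 1) ∈ Z) ∧
      (Ep a (π.symm (r * (2 * k) + j - 1)) ↔ (r, j - 1) ∈ mi (2 * k) Z) ∧
      (Kk a (π.symm (r * (2 * k) + j - 1)) ↔ (r, j - 1) ∈ K ∪ mi (2 * k) K) := fun j u v => by
    rw [Nat.add_sub_assoc u]
    exact p2 r (j - 1) (by omega)
  have z0 : (r, 0) ∈ Z := z1 ((mA 0 _).2 ⟨hr, rfl⟩)
  have kc : ∀ j, j = c ∨ j = 2 * k - 1 - c → (r, j) ∈ K ∪ mi (2 * k) K := fun j hj => by
    have h0 : (r, c) ∈ K := k1 ((mA c _).2 ⟨hr, rfl⟩)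
    rcases hj with rfl | rfl
    · exact Finset.mem_union_left _ h0
    · exact Finset.mem_union_right _ (Finset.mem_image.2 ⟨_, h0, rfl⟩)
  refine ⟨(P 1 le_rfl (by omega)).1.2 z0, (P (2 * k) (by omega) le_rfl).2.1.2 ?_, fun h => ?_,
    fun h => ?_, (P 3 (by omega) (by omega)).2.2.2 (kc _ (by omega)),
    (P (2 * k - 2) (by omega) (by omega)).2.2.2 (kc _ (by omega)), fun j u v h => ?_⟩
  · exact Finset.mem_image.2 ⟨_, z0, rfl⟩
  · have := uZ _ ((P 2 (by omega) (by omega)).2.1.1 h)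
    simp only at this
    omega
  · have := mZ _ ((P (2 * k - 1) (by omega) (by omega)).1.1 h)
    simp only at this
    omega
  · refine (P (2 * k + 1 - j) (by omega) (by omega)).2.2.2 ?_
    rw [show 2 * k + 1 - j - 1 = 2 * k - 1 - (j - 1) by omega]
    rcases Finset.mem_union.1 ((P j u v).2.2.1 h) with w | w
    · exact Finset.mem_union_right _ (Finset.mem_image.2 ⟨_, w, rfl⟩)
    · exact Finset.mem_union_left _ ((mem_mi bK).1 w).2

theorem odd {k q a : ℕ} (hk : 1 ≤ k) (h6 : (2 * k + 1) * q = 6 * a) :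
    ∃ π : Equiv.Perm ℕ, (∀ i, π i < (2 * k + 1) * q ↔ i < (2 * k + 1) * q) ∧
      ∀ r, r < q → Pat a (2 * k + 1) fun j => π.symm (r * (2 * k + 1) + j - 1) := by
  let O := Finset.range q ×ˢ (Finset.range k).image fun j => 2 * j + 1
  let E := Finset.range q ×ˢ (Finset.range ((k + 1) / 2)).image fun j => 2 * j
  let A := Finset.range q ×ˢ ({1} : Finset ℕ)
  have mO : ∀ p, p ∈ O ↔ p.1 < q ∧ ∃ j < k, 2 * j + 1 = p.2 := fun p => by
    simp only [O, Finset.mem_product, Finset.mem_range, Finset.mem_image]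
  have mE : ∀ p ∈ E, p.1 < q ∧ p.2 < k ∧ p.2 % 2 = 0 := fun p hp => by
    simp only [E, Finset.mem_product, Finset.mem_range, Finset.mem_image] at hp
    obtain ⟨u, j, v, w⟩ := hp
    omega
  have mA : ∀ p, p ∈ A ↔ p.1 < q ∧ p.2 = 1 := fun p => by
    simp only [A, Finset.mem_product, Finset.mem_range, Finset.mem_singleton]
  have hkq := Nat.mul_le_mul_right q hk
  obtain ⟨K, k1, k2, k3⟩ := Finset.exists_subsuperset_card_eq (s := A) (t := O) (n := 2 * a)
    (fun p hp => by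
      rw [mA] at hp
      exact (mO p).2 ⟨hp.1, 0, hk, hp.2.symm⟩)
    (by rw [Finset.card_product, Finset.card_range, Finset.card_singleton]; nlinarith)
    (by
      rw [Finset.card_product, Finset.card_range,
        Finset.card_image_of_injective _ fun x y e => by simpa using e, Finset.card_range]
      nlinarith)
  obtain ⟨Z, z2, z3⟩ := Finset.exists_subset_card_eq (s := E) (n := a) (by
    rw [Finset.card_product, Finset.card_range,
      Finset.card_image_of_injective _ fun x y e => by simpa using e, Finset.card_range]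
    have := Nat.mul_le_mul_left q (show k ≤ 2 * ((k + 1) / 2) by omega)
    nlinarith)
  have mK : ∀ p ∈ K, p.1 < q ∧ p.2 < 2 * k ∧ p.2 % 2 = 1 := fun p hp => by
    obtain ⟨u, j, v, w⟩ := (mO p).1 (k2 hp)
    omega
  have mZ : ∀ p ∈ Z, p.1 < q ∧ p.2 < k ∧ p.2 % 2 = 0 := fun p hp => mE p (z2 hp)
  have bZ : ∀ p ∈ Z, p.2 < 2 * k + 1 := fun p hp => by have := mZ p hp; omega
  have uZ : ∀ p ∈ mi (2 * k + 1) Z, p.1 < q ∧ k < p.2 ∧ p.2 < 2 * k + 1 ∧ p.2 % 2 = 0 :=
    fun p hp => by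
      obtain ⟨u, v⟩ := (mem_mi bZ).1 hp
      have := mZ _ v
      simp only at this
      omega
  obtain ⟨π, p1, p2⟩ := perm3 (N := 2 * k + 1) (q := q) (a := a) (by omega) Z
    (mi (2 * k + 1) Z) K
    (fun p hp => by
      rcases hp with h | h | h
      · have := mZ p h; omega
      · have := uZ p h; omega
      · have := mK p h; omega)
    (fun p h h' => by have := mZ p h; have := uZ p h'; omega)
    (fun p h h' => by have := mZ p h; have := mK p h'; omega)
    (fun p h h' => by have := uZ p h; have := mK p h'; omega)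
    z3 (by rw [card_mi bZ, z3]) k3
  refine ⟨π, p1, fun r hr => ⟨fun h => by omega, fun _ => ?_⟩⟩
  have P : ∀ j, 1 ≤ j → j ≤ 2 * k + 1 →
      (Em a (π.symm (r * (2 * k + 1) + j - 1)) ↔ (r, j - 1) ∈ Z) ∧
      (Ep a (π.symm (r * (2 * k + 1) + j - 1)) ↔ (r, j - 1) ∈ mi (2 * k + 1) Z) ∧
      (Kk a (π.symm (r * (2 * k + 1) + j - 1)) ↔ (r, j - 1) ∈ K) := fun j u v => by
    rw [Nat.add_sub_assoc u]
    exact p2 r (j - 1) (by omega)
  refine ⟨(P 2 (by omega) (by omega)).2.2.2 (k1 ((mA _).2 ⟨hr, rfl⟩)), fun j u v => ⟨fun h => ?_,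
    fun _ => ?_⟩⟩
  · have := mK _ ((P j u v).2.2.1 h)
    simp only at this
    omega
  · refine (P j u v).1.trans (Iff.trans ?_ (P (2 * k + 1 + 1 - j) (by omega) (by omega)).2.1.symm)
    rw [mem_mi bZ, show 2 * k + 1 - 1 - (r, 2 * k + 1 + 1 - j - 1).2 = j - 1 by
      show 2 * k + 1 - 1 - (2 * k + 1 + 1 - j - 1) = j - 1; omega]
    exact ⟨fun h => ⟨by show 2 * k + 1 + 1 - j - 1 < _; omega, h⟩, fun h => h.2⟩

end Lv

theorem lv : S_LV := by
  rintro N n a h3 ⟨q, rfl⟩ h4 he ho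
  rcases Nat.mod_two_eq_zero_or_one N with h | h
  · obtain ⟨k, rfl⟩ : ∃ k, N = 2 * k := ⟨N / 2, by omega⟩
    obtain ⟨π, p1, p2⟩ := Lv.even (by omega) h4 (Nat.le_of_mul_le_mul_left (he h) (by omega))
    exact ⟨π, p1, fun r hr => p2 r (Lv.blk h3 hr)⟩
  · obtain ⟨k, rfl⟩ : ∃ k, N = 2 * k + 1 := ⟨N / 2, by omega⟩
    obtain ⟨π, p1, p2⟩ := Lv.odd (by omega) (ho h)
    exact ⟨π, p1, fun r hr => p2 r (Lv.blk h3 hr)⟩

end Pool.Agent.MP_6eaae3_al.MX
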