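import Pool.Agent.MP_6eaae3_al.MX.Basic

/-! Powers of the Garside element seen from a third colour, chains of even length. -/

namespace Pool.Agent.MP_6eaae3_al.MX

open FreeGroup (of mk invRev IsReduced)
open Set Pool.Agent.MP_6eaae3_al.LT Pool.Agent.MP_6eaae3_al.LT.Path Pool.Agent.MP_6eaae3_al.EV

namespace P1

theorem bd {H : Type} [Group H] {o w : H} {K : Subgroup H} (h : Bd o K w) :
    ∃ a b : ℤ, o ^ a * w * o ^ b ∈ K := by
  obtain ⟨a, b, κ, δ, δ', u, d, d', e⟩ := h.en (η := 1)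
  rw [or_self] at d d'
  refine ⟨-a, -b, ?_⟩
  rwa [e, d, d', show o ^ (-a) * (o ^ a * 1 * κ * 1⁻¹ * o ^ b) * o ^ (-b) = κ by group]

theorem one (en : S_EN) {w u v : FH} (hu : u ∈ Fre {x : ℕ × Bool | x.2 = true})
    (hv : v ∈ Fre {x : ℕ × Bool | x.2 = true})
    (h : u * be w * v⁻¹ ∈ Fre {x : ℕ × Bool | x.2 = true}) : w = 1 :=
  (en 0 ∅ w).2.1 ((mul_mem_cancel_left hu).1 ((mul_mem_cancel_right (inv_mem hv)).1 h))

theorem zl_not (N i : ℕ) (k : ℤ) : (zl N i true k).2 = !(zl N i false k).2 := by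
  unfold zl
  cases sid N i k <;> rfl

end P1

open P1 in
theorem p1 : S_DF → S_TL → S_LD → S_PL → S_EN → S_T1 → S_T7 → S_P1 := by
  intro df tl ld pl en t1 t7 G _ s t Δ N p P i k h4 ev rel i1 iN par k0
  have hN : 3 ≤ N := by omega
  have hΔ : Δ ^ k ∈ Subgroup.closure {s, t} :=
    zpow_mem (rel 0 ▸ alG_mem _ (yy_mem Al.ms Al.mt _) (yy_mem Al.ms Al.mt _)) k
  obtain ⟨dw, ε, hε, dφ⟩ := df G s t Δ N p P i k hN rel i1 iN par
  have cw : ∀ e j, Cw P (Δ ^ k) i e j e =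
      bp N i e k * of (ix N k i) ^ (ε * j) * (bp N i e k)⁻¹ := fun e j => by
    rw [Cw, dw, dφ, conj_zpow, ← zpow_mul]
    cases e
    · simp
    · simp only [if_true]; group
  have n0 : ∀ {j : ℤ}, j ≠ 0 → ε * j ≠ 0 := fun j0 => mul_ne_zero (by omega) j0
  have T := t1 N i k h4 ev i1 iN k0
  have x1 : ∀ {w}, w ∈ Fre (Tp i) → xi N ((i + 1) % 2) w ∈ Fre {x : ℕ × Bool | x.2 = true} :=
    xi_mem fun j (hj : j % 2 = i % 2) => by omega
  have x0 : ∀ {w}, w ∈ Fre (Tp i)ᶜ → xi N (i % 2) w ∈ Fre {x : ℕ × Bool | x.2 = true} :=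
    xi_mem fun j hj => hj
  have b1 := xi_bp tl hN (π := (i + 1) % 2) (by omega) i
  have b0 := xi_bp tl hN (π := i % 2) (by omega) i
  have L1 := ld N ((i + 1) % 2) i k hN (by omega) i1 iN
  have L0 := ld N (i % 2) i k hN (by omega) i1 iN
  have em : k % 2 = 0 → ∀ e, bh N ((i + 1) % 2) i e k ∉ Fre ∅ := fun ke e h => by
    obtain ⟨x, u, v⟩ := (T.1 ke).1 e
    exact (pl N _ i k ∅ hN i1 iN).1 e h x u v
  have A : k % 2 = 0 → ∀ e, bp N i e k ∉ Fre (Tp i) := fun ke e h => by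
    have := x1 h
    rw [b1] at this
    exact em ke e (one en (et_mem _ _) (et_mem _ _) this ▸ one_mem _)
  refine ⟨fun ke => ?_, fun e j j0 H => ?_⟩
  · have ie : ix N k i = i := if_pos ke
    refine ⟨fun H => ?_, fun h H => ?_, fun e j j0 H => ?_⟩
    · have := x1 H
      rw [dw, map_mul, map_inv, b1, b1, L1.2.2 (by omega), mul_inv_rev, inv_inv, mul_assoc,
        inv_mul_cancel_left, mul_inv_rev, ← mul_assoc, mul_assoc (et _ _), ← map_inv,
        ← map_mul] at this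
      exact em ke true ((pl N _ i k ∅ hN i1 iN).2.2.1 (Or.inl ev)
        ((t7 N i k hN i1 iN k0 fun _ => ke).1 (Or.inl ev))
        (one en (et_mem _ _) (et_mem _ _) this ▸ one_mem _) true)
    · obtain ⟨a, b, H⟩ := P1.bd H
      have := x0 H
      rw [(Al.W_t P i1 iN par hΔ h).2.2, dw, dφ, conj_zpow, ← zpow_mul, mul_assoc (_ * of _ ^ _),
        inv_mul_cancel_left] at this
      simp only [map_mul, map_inv, map_zpow, b0, L0.1, L0.2.1 (by rw [ie]), ie, xi_of, if_true,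
        zl_not] at this
      obtain ⟨k1, k2⟩ := ((en i ∅ (bh N (i % 2) i false k)).2.2.2 (bh N (i % 2) i true k)⁻¹ false
        true (zl N i false k).2).2 a b (ε * h) (by
          rw [map_inv]
          refine Eq.mp (congrArg (· ∈ _) ?_) this
          group)
      obtain ⟨e, x, u, v, w⟩ := (T.1 ke).2
      refine v ((pl N _ i k ∅ hN i1 iN).2.1 e i ?_ x u w)
      cases e
      exacts [k1, by rwa [map_inv, inv_eq_one] at k2]
    · rw [cw, ie] at H
      exact A ke e (inv_mem_iff.1 (mn ℕ _ _ _ (zpow_mem (of_mem_Fre (S := Tp i) (x := i) rfl) _)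
        (of_zpow_ne i (n0 j0)) (by rwa [inv_inv])))
  · obtain ⟨a, b, H⟩ := P1.bd H
    rw [cw] at H
    have C := (cb ℕ _ i _ _ _ a b (n0 j0) H).2.2 fun h => h rfl
    rcases Int.emod_two_eq_zero_or_one k with ke | ko
    · have ie : ix N k i = i := if_pos ke
      have sub : ({i} : Set ℕ) ⊆ Tp i := singleton_subset_iff.2 (rfl : i % 2 = i % 2)
      exact (A ke e (Fre.mono sub (C.2 ie))).elim
    obtain ⟨c, hc⟩ := C.1 (by rw [ix, if_neg (by omega)]; omega)
    have := x0 hc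
    rw [map_mul, map_zpow, xi_of rfl, b0, L0.1, if_pos rfl, ← mul_assoc, ← mul_assoc,
      show ff i ^ c * eo i e = eo i e * be (of (i, e) ^ c) by rw [be_zpow]; group,
      mul_assoc (eo _ _), ← map_mul] at this
    have z := eq_inv_of_mul_eq_one_right (one en (eo_mem _ _) (et_mem _ _) this)
    rcases T.2 ko e with h | ⟨x, u, v, w⟩
    · exact h
    · exact (v ((pl N _ i k {(i, e)} hN i1 iN).1 e
        (z ▸ inv_mem (zpow_mem (of_mem_Fre (mem_singleton _)) c)) x u w)).elim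

end Pool.Agent.MP_6eaae3_al.MX
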