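import Pool.Agent.MP_6eaae3_al.MX.Basic

/-! Powers of the Garside element: seeds of the same colour. -/

namespace Pool.Agent.MP_6eaae3_al.MX

open FreeGroup (of mk invRev IsReduced)
open Set Pool.Agent.MP_6eaae3_al.LT Pool.Agent.MP_6eaae3_al.LT.Path Pool.Agent.MP_6eaae3_al.EV

namespace P3

theorem hown {w : FreeGroup ℕ} (h : Own 3 2 ∅ w) : Hown 3 2 w := by
  obtain ⟨a, b, κ, δ, δ', ⟨u, hu, rfl⟩, h1, h2, e⟩ := h
  refine ⟨fun c => absurd c (by decide), fun _ => ⟨a, b, _, δ, δ', ?_, h1, h2, e⟩⟩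
  exact Fre.map_mem be (fun x hx => hx.elim) hu

theorem cw (df : S_DF) {G : Type} [Group G] {s t Δ : G} {N : ℕ} {p : ℤ} (P : Pu s t N p) {i : ℕ}
    (k : ℤ) (hN : 3 ≤ N) (rel : ∀ i, aa s t i (N + 1) = Δ) (i1 : 1 ≤ i) (iN : i ≤ N)
    (par : (i + p) % 2 = 1) (e : Bool) {j : ℤ} (j0 : j ≠ 0) : ∃ n : ℤ, n ≠ 0 ∧
      Cw P (Δ ^ k) i e j e = bp N i e k * of (ix N k i) ^ n * (bp N i e k)⁻¹ := by
  obtain ⟨dw, ε, hε, dφ⟩ := df G s t Δ N p P i k hN rel i1 iN par
  refine ⟨ε * j, mul_ne_zero (by omega) j0, ?_⟩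
  rw [Cw, dw, dφ, conj_zpow, ← zpow_mul]
  cases e
  · simp
  · simp only [if_true]; group

end P3

theorem p3 : S_DF → S_TL → S_LD → S_PL → S_EN → S_T4 → S_T5 → S_T6 → S_T9 → S_P3 := by
  intro df tl ld pl en t4 t5 t6 t9 G _ s t Δ N p P i k A hN rel i1 iN par k0 hA
  by_cases c32 : N = 3 ∧ i = 2
  · obtain ⟨rfl, rfl⟩ := c32
    rcases A.eq_empty_or_nonempty with rfl | ⟨⟨x, e⟩, hx⟩
    · have Z := EV.pd EV.df EV.z1 EV.z2 EV.z3 EV.z4 EV.mn (EV.cj EV.mn) G s t Δ 3 p P 2 k hN rfl rel i1 iN par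
      exact ⟨fun _ H => absurd (Z.1 (Or.inr (Or.inl (P3.hown H)))) k0, fun e j j0 _ H =>
        absurd (Z.2.2 e j j0 (Or.inr rfl) (Or.inr (Or.inr (P3.hown H)))) k0⟩
    · have g : Good 3 A := by
        have := hA _ hx
        obtain rfl : x = 2 := by simp only at this; omega
        exact Or.inr (Or.inl ⟨rfl, Or.inl ⟨e, hx⟩⟩)
      exact ⟨fun _ _ => g, fun _ _ _ _ _ => Or.inl g⟩
  have hπ : i % 2 < 2 := Nat.mod_lt _ (by norm_num)
  obtain ⟨l1, l2, l3⟩ := ld N (i % 2) i k hN hπ i1 iN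
  have xb : ∀ e, xi N (i % 2) (bp N i e k) = eo i e * be (bh N (i % 2) i e k) *
      (et N (zet N (i % 2) (shb i e) (lan N i e k)))⁻¹ := fun e => by
    rw [xi_bp tl hN hπ, l1, if_pos rfl]
  have PL := fun B => pl N (i % 2) i k B hN i1 iN
  refine ⟨fun k4 H => ?_, fun e j j0 k2 H => ?_⟩
  · rw [Own, (df G s t Δ N p P i k hN rel i1 iN par).1, et_eq i1 iN, map_mul, map_inv, xb, xb] at H
    by_cases c : ix N k i % 2 = i % 2
    · exfalso
      rw [l2 c, l2 c] at H
      have ev : N % 2 = 0 → k % 2 = 0 := fun h => by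
        unfold ix at c
        split_ifs at c <;> omega
      have u : (zl N i true k).2 = !(zl N i false k).2 := by
        unfold zl
        cases sid N i k <;> rfl
      rw [u] at H
      obtain ⟨q1, q2⟩ := ((en i A (bh N (i % 2) i false k)).2.2.2 (bh N (i % 2) i true k)⁻¹ false true
        (zl N i false k).2).1 (ix N k i) (by
          rw [map_inv]
          refine (congrArg _ ?_).mp H
          group)
      have key : ∀ e, kl i (bh N (i % 2) i e k) ≠ 1 := fun e h => by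
        obtain ⟨x, x1, x2, x3⟩ := t4 N i k hN i1 iN k0 ev q1 c32 e fun a b => absurd b (k4 a)
        exact x2 ((PL A).2.1 e i h x x1 x3)
      rcases q2 with q | q
      · exact key false q
      · rw [map_inv, inv_eq_one] at q
        exact key true q
    · rw [l3 c] at H
      have ev : N % 2 = 0 ∧ k % 2 = 1 := by
        unfold ix at c
        split_ifs at c <;> omega
      obtain ⟨T1, ⟨e0, x0, y1, y2, y3⟩, T3, -⟩ := t5 N i k (by omega) ev.1 i1 iN ev.2
      have see : ∀ B, bh N (i % 2) i false k * (bh N (i % 2) i true k)⁻¹ ∈ Fre B →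
          ∀ e x, x.1 % 2 = i % 2 → In N i e k x → x ∈ B := fun B h e =>
        (PL B).1 e ((PL B).2.2.1 (Or.inl ev.1) T1 h e)
      rcases (en i A (bh N (i % 2) i false k * (bh N (i % 2) i true k)⁻¹)).2.2.1 false true (by
          rw [map_mul, map_inv]
          refine (congrArg _ ?_).mp H
          group) with ⟨a, b, q⟩ | q
      · rcases T3 with g | ⟨rfl, i23, k1⟩
        · have ho : ∀ (e : Bool) (c : ℤ), (of (i, e) : FH) ^ c ∈ Fre (A ∪ Ho i) := fun e c =>
            zpow_mem (of_mem_Fre (S := A ∪ Ho i) (x := (i, e)) (Or.inr rfl)) c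
          have q' := (mul_mem_cancel_left (ho false a)).1
            ((mul_mem_cancel_right (ho true b)).1 (Fre.mono subset_union_left q))
          refine g.mono fun x ⟨x1, x2, e, x3⟩ => ?_
          exact (see _ q' e x x1 x3).resolve_right x2
        · obtain ⟨e, he⟩ := t9 i k a b A i23 k1 q
          refine Or.inr (Or.inr ⟨rfl, Or.inl ⟨e, ?_⟩⟩)
          rcases i23 with rfl | rfl
          exacts [Or.inr he, Or.inl he]
      · exact absurd (see _ q e0 x0 y1 y3) y2
  · obtain ⟨n, n0, cw⟩ := P3.cw df P k hN rel i1 iN par e j0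
    have c : ix N k i % 2 = i % 2 := by
      unfold ix
      split_ifs <;> omega
    rw [Own, cw, et_eq i1 iN, map_mul, map_mul, map_inv, map_zpow, xi_of c, xb, l2 c] at H
    by_cases bs : N % 2 = 0 ∧ Bs N i e k
    · exact Or.inr (Or.inl ⟨bs.1, Or.inl bs.2⟩)
    have no : ix N k i = i → ∀ B, bh N (i % 2) i e k ∈ Fre B → B ⊆ Ho i → False := fun q B h hB => by
      obtain ⟨x, x1, x2, x3⟩ := t4 N i k hN i1 iN k0 k2 q c32 e fun a _ b => bs ⟨a, b⟩
      exact x2 (hB ((PL B).1 e h x x1 x3))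
    rcases (en i A (bh N (i % 2) i e k * of (zl N i e k) ^ n * (bh N (i % 2) i e k)⁻¹)).2.2.1 e e (by
        rw [map_mul, map_mul, map_inv, show zl N i e k = (ix N k i, (zl N i e k).2) from rfl, be_zpow]
        refine (congrArg _ ?_).mp H
        group) with ⟨a, b, q⟩ | q
    · obtain ⟨r1, r2, r3⟩ := cb _ A (i, e) (zl N i e k) _ n a b n0 q
      by_cases hF : zl N i e k ∈ A
      · have sub : ∀ x, (x.1 % 2 = i % 2 ∧ x ≠ (i, e) ∧ In N i e k x) ∨ x = zl N i e k → x ∈ A := by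
          rintro x (⟨x1, x2, x3⟩ | rfl)
          · rcases (PL _).1 e r1 x x1 x3 with h | h | h
            exacts [h, absurd h x2, h ▸ hF]
          · exact hF
        rcases t6 N i k e hN i1 iN k0 (fun a => ⟨k2 a, fun b => bs ⟨a, b⟩⟩) c32 with
          g | ⟨a1, a2, a3, a4⟩ | ⟨a1, a2, a3⟩
        · exact Or.inl (g.mono sub)
        · refine Or.inr (Or.inl ⟨a1, Or.inr ⟨a2, a3, a4, (zl N i e k).2, ?_⟩⟩)
          have : zl N i e k = (i, (zl N i e k).2) := Prod.ext (if_pos (k2 a1)) rfl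
          exact this ▸ hF
        · refine Or.inr (Or.inr ⟨a1, a2, sub _ (a3.imp (fun h => ⟨?_, h⟩) id)⟩)
          simp only
          omega
      · have f : zl N i e k = (i, e) := by_contra fun h => hF (r2 h)
        exact (no (congrArg Prod.fst f) _ ((r3 (f ▸ hF)).2 f) fun x hx => congrArg Prod.fst hx).elim
    · obtain ⟨r1, r2, -⟩ := cb _ (Ho i) (i, e) (zl N i e k) (bh N (i % 2) i e k) n 0 0 n0
        (by simpa using q)
      have f : zl N i e k ∈ Ho i := by
        by_cases h : zl N i e k = (i, e)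
        · exact congrArg Prod.fst h
        · exact r2 h
      refine (no f _ r1 ?_).elim
      rintro x (h | h | h)
      exacts [h, congrArg Prod.fst h, h ▸ f]

end Pool.Agent.MP_6eaae3_al.MX
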