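import Pool.Agent.MP_6eaae3_al.MX.Basic

/-! Powers of the Garside element seen from the other colour. -/

namespace Pool.Agent.MP_6eaae3_al.MX

open FreeGroup (of mk invRev IsReduced)
open Set Pool.Agent.MP_6eaae3_al.LT Pool.Agent.MP_6eaae3_al.LT.Path Pool.Agent.MP_6eaae3_al.EV

theorem p4 : S_DF → S_TL → S_LD → S_PL → S_EN → S_T5 → S_T7 → S_P4 := by
  intro df tl ld pl en t5 t7 G _ s t Δ N p P i k A hN rel i1 iN par k0
  obtain ⟨dw, ε, hε, dφ⟩ := df G s t Δ N p P i k hN rel i1 iN par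
  have hπ : (i + 1) % 2 < 2 := Nat.mod_lt _ two_pos
  obtain ⟨l1, l2, l3⟩ := ld N ((i + 1) % 2) i k hN hπ i1 iN
  have xb : ∀ e, xi N ((i + 1) % 2) (bp N i e k) = et N (i + 1) * be (bh N ((i + 1) % 2) i e k) *
      (et N (zet N ((i + 1) % 2) (shb i e) (lan N i e k)))⁻¹ := fun e => by
    rw [xi_bp tl hN hπ, l1 e, if_neg (by omega)]
  refine ⟨fun ev H => ?_, fun e j j0 ev od H => ?_⟩
  · have l := l3 (by unfold ix; split_ifs <;> omega)
    have H1 : bh N ((i + 1) % 2) i false k * (bh N ((i + 1) % 2) i true k)⁻¹ ∈ Fre A := by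
      refine (en i A _).1 ?_
      unfold Oth at H
      rw [dw, map_mul, map_inv, xb, xb, l] at H
      rw [map_mul, map_inv]
      refine Eq.mp (congrArg (· ∈ Dk A) ?_) H
      group
    obtain ⟨q1, -, q3, q4⟩ := pl N ((i + 1) % 2) i k A hN i1 iN
    obtain ⟨u1, u2⟩ := t7 N i k hN i1 iN k0 ev
    have H2 : ∀ e, bh N ((i + 1) % 2) i e k ∈ Fre A := by
      by_cases c : N % 2 = 0 ∨ i % 2 = 0
      · exact q3 c (u1 c) H1
      · have z : bh N ((i + 1) % 2) i false k = 1 := by
          rw [show (i + 1) % 2 = 0 by omega]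
          exact q4 (by omega) (by omega)
        rw [z, one_mul, inv_mem_iff] at H1
        intro e
        cases e
        exacts [z ▸ one_mem _, H1]
    exact u2.mono fun x ⟨a, e, b⟩ => q1 e (H2 e) x a b
  · have ixe : ix N k i = N + 1 - i := if_neg (by omega)
    have ixp : ix N k i % 2 = (i + 1) % 2 := by omega
    have n0 : ε * j ≠ 0 := mul_ne_zero (by omega) j0
    have e1 : Cw P (Δ ^ k) i e j e = bp N i e k * of (ix N k i) ^ (ε * j) * (bp N i e k)⁻¹ := by
      rw [Cw, dw, dφ, conj_zpow, ← zpow_mul]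
      cases e
      · simp
      · simp only [if_true]; group
    have H1 : bh N ((i + 1) % 2) i e k * of (zl N i e k) ^ (ε * j) *
        (bh N ((i + 1) % 2) i e k)⁻¹ ∈ Fre A := by
      refine (en i A _).1 ?_
      unfold Oth at H
      rw [e1, map_mul, map_mul, map_inv, map_zpow, xb, l2 ixp e, xi_of ixp] at H
      have z : be (of (zl N i e k) ^ (ε * j)) = _ := be_zpow (ix N k i) (zl N i e k).2 (ε * j)
      rw [map_mul, map_mul, map_inv, z]
      refine Eq.mp (congrArg (· ∈ Dk A) ?_) H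
      group
    obtain ⟨c1, c2, -⟩ := cb _ A (0, true) (zl N i e k) _ (ε * j) 0 0 n0 (by
      rw [zpow_zero, one_mul, mul_one]; exact H1)
    have zA : zl N i e k ∈ A := c2 fun c => by
      have : ix N k i = 0 := congrArg Prod.fst c
      omega
    refine ⟨?_, (zl N i e k).2, ixe ▸ zA⟩
    rintro rfl
    refine (t5 N i k (by omega) ev i1 iN od).2.2.2.mono ?_
    rintro x (⟨a, b⟩ | rfl)
    · rcases (pl N ((i + 1) % 2) i k _ hN i1 iN).1 true c1 x a b with c | rfl | rfl
      exacts [c, absurd rfl b.1, zA]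
    · exact zA

end Pool.Agent.MP_6eaae3_al.MX
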