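import Pool.Agent.MP_6eaae3_al.MX.Basic

section PartH4

/-! The Hecke coordinates for even chain length. -/

namespace Pool.Agent.MP_6eaae3_al.MX

open FreeGroup (of mk invRev IsReduced)
open Set Pool.Agent.MP_6eaae3_al.LT Pool.Agent.MP_6eaae3_al.LT.Path Pool.Agent.MP_6eaae3_al.EV

namespace H4

variable {M : ℕ} {s : ℕ → ℝ}

theorem up (h : Cheb M s) (j : ℕ) : j + 3 < M → s (j + 3) < s (j + 4) → s 3 < s (j + 4) := by
  induction j with
  | zero => exact fun _ b => b
  | succ j ih =>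
    intro a b
    have c := LT.Hk.conc h (show j + 3 < M by omega)
    have := ih (by omega) (by linarith)
    linarith

theorem cls (h : Cheb M s) (hM : 4 ≤ M) (ev : M % 2 = 0) {l : ℕ} (a : 1 ≤ l) (b : l ≤ M) :
    s l = 1 ∨ s l = s 2 ∨ 2 < s l := by
  obtain ⟨n, rfl⟩ : ∃ n, M = n + 2 := ⟨M - 2, by omega⟩
  have t1 := h.rc (n + 1)
  have t2 := h.rc n
  rw [h.e, h.l] at t1
  rw [h.l] at t2
  by_cases r : l = 1 ∨ l = 2 ∨ l = n + 1 ∨ l = n + 2
  · rcases r with rfl | rfl | rfl | rfl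
    exacts [Or.inl h.o, Or.inr (Or.inl rfl), Or.inr (Or.inl (by linarith)), Or.inl h.l]
  have e3 := h.rc 1
  have e4 := h.rc 2
  have e5 := h.rc 3
  have g5 := h.gt 5 (by omega) (by omega)
  have g2 := h.gt 2 (by omega) (by omega)
  rw [h.o] at e3
  have m3 : 3 < s 2 * s 2 := by
    rw [e5, e4, e3] at g5
    by_contra q
    nlinarith [mul_pos (zero_lt_one.trans g2) (zero_lt_one.trans g2)]
  have en : 2 < s n := by rw [show s (n + 1) = s 2 by linarith] at t2; linarith
  refine Or.inr (Or.inr ?_)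
  by_cases r' : l = 3 ∨ l = n
  · rcases r' with rfl | rfl
    exacts [by linarith, en]
  obtain ⟨j, rfl⟩ : ∃ j, l = j + 4 := ⟨l - 4, by omega⟩
  obtain ⟨c, rfl⟩ : ∃ c, n = j + 3 + c + 2 := ⟨n - j - 5, by omega⟩
  rcases lt_or_ge (s (j + 3)) (s (j + 4)) with u | u
  · linarith [up h j (by omega) u]
  · linarith [(LT.Hk.down h (j + 3) c (by omega) u).2]

theorem two (h : Cheb M s) (hM : 4 ≤ M) {j : ℕ} (a : j + 1 < M) {A B : ℝ} (hA : 1 ≤ A)
    (hB : 1 ≤ B) : 2 < s (j + 2) * A + s (j + 1) * B := by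
  have g1 := h.ge a
  have g0 := h.ge (show j < M by omega)
  by_cases r : j = 0
  · have := h.gt (j + 2) (by omega) (by omega)
    nlinarith
  · have := h.gt (j + 1) (by omega) a
    nlinarith

end H4

theorem h4 : S_H4 := by
  intro G _ w x Δ M s f0 f1 hs hM ev rel ⟨mw, mx, i0, i1⟩ g hg
  have hk := fun g hg => hecke (g := g) hs (by omega) rel (K := Subgroup.closure {w, x})
    (Subgroup.subset_closure (by simp)) (Subgroup.subset_closure (by simp)) mw mx i0 i1 hg
  have nf := NF.all rel (by omega) hg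
  have hw : w ∈ Subgroup.closure {w, x} := Subgroup.subset_closure (by simp)
  have hx : x ∈ Subgroup.closure {w, x} := Subgroup.subset_closure (by simp)
  generalize Subgroup.closure {w, x} = K at *
  have ha : ∀ i j, aa w x i j ∈ K := fun i j => alG_mem _ (yy_mem hw hx _) (yy_mem hw hx _)
  have hΔ : Δ ∈ K := rel 0 ▸ ha 0 _
  let F : G → ℤ → ℝ := fun g i =>
    if i % 4 = 0 then f0 g else if i % 4 = 1 then f1 g else if i % 4 = 2 then -f0 g else -f1 g
  have an : ∀ g i, F g (i + 1 + 1) = -F g i := fun g i => by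
    simp only [F]; split_ifs <;> first | omega | simp
  have mv : ∀ g ∈ K, ∀ i, F (g * yy w x i) i = F g i ∧
      F (g * yy w x i) (i + 1) = F g (i + 1) + s 2 * F g i := fun g hg i => by
    simp only [F, yy]
    split_ifs <;> first | omega | (simp only [mw g hg, mx g hg, true_and]; try ring)
  have Fa : ∀ g ∈ K, ∀ i, ∀ j : ℕ,
      F (g * aa w x i (j + 1)) (i + j) = s (j + 1) * F g i + s j * F g (i + 1) ∧
      F (g * aa w x i (j + 1)) (i + j + 1) = s (j + 2) * F g i + s (j + 1) * F g (i + 1) := by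
    intro g hg i j
    induction j with
    | zero => simp [aa, alG, mv g hg, hs.z, hs.o, add_comm]
    | succ j ih =>
      have := mv _ (mul_mem hg (ha i (j + 1))) (i + (j + 1 : ℕ))
      rw [aa_succ', ← mul_assoc, this.1, this.2, Nat.cast_succ, ← add_assoc, an, ih.1, ih.2,
        hs.rc (j + 1), hs.rc j]
      exact ⟨rfl, by ring⟩
  have Fd : ∀ g ∈ K, ∀ i, F (g * Δ) (i + (M - 1)) = F g i := fun g hg i => by
    have := (Fa g hg (i - 1) M).1
    rw [rel, hs.e, hs.l, show i - 1 + M = i + (M - 1) by ring] at this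
    simpa using this
  have Fk : ∀ g ∈ K, ∀ k i : ℤ, F (g * Δ ^ k) (i + k * (M - 1)) = F g i := fun g hg k i => by
    induction k using Int.induction_on with
    | zero => simp
    | succ k ih =>
      rw [zpow_add_one, add_mul, one_mul, ← add_assoc, ← mul_assoc, Fd _ (mul_mem hg (zpow_mem hΔ _)), ih]
    | pred k ih =>
      rw [← ih, ← Fd _ (mul_mem hg (zpow_mem hΔ _)), zpow_sub_one]
      congr 1
      exacts [by group, by ring]
  have Fx : ∀ a : ℤ, f0 (x ^ a) = 1 ∧ f1 (x ^ a) = 0 := fun a => by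
    have := D6.shear hx (u := f1) (v := f0) (ν := -s 2)
      (fun g hg => ⟨(mx g hg).1, by rw [(mx g hg).2]; ring⟩) K.one_mem a
    simpa [i0, i1, and_comm] using this
  let P : ℝ → Prop := fun t => t = 1 ∨ t = s 2 ∨ 2 < t
  have m1 := hs.gt 2 (by omega) (by omega)
  have m2 := LT.Hk.lt_two hs
  have P1 : ∀ t, P t → 1 ≤ t ∧ t ≠ 2 := by
    rintro t (u | u | u) <;> exact ⟨by linarith, fun _ => by linarith⟩
  have key : ∀ h i, NF w x Δ M h i → h ∈ K ∧ P (F h i) ∧
      ((F h i = 1 ∧ F h (i + 1) = 0) ∨ P (F h (i + 1))) := fun h i n => by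
    induction n with
    | base a => exact ⟨zpow_mem hx a, Or.inl (by simp [F, Fx]), Or.inl (by simp [F, Fx])⟩
    | @del h i k _ ih =>
      rw [add_right_comm, Fk h ih.1, Fk h ih.1]
      exact ⟨mul_mem ih.1 (zpow_mem hΔ k), ih.2⟩
    | @step h i j _ hj ih =>
      obtain ⟨a, b, c⟩ := ih
      rw [(Fa h a i j).1, (Fa h a i j).2]
      refine ⟨mul_mem a (ha _ _), ?_⟩
      rcases c with ⟨c, d⟩ | c
      · simp only [c, d, mul_one, mul_zero, add_zero]
        refine ⟨H4.cls hs hM ev (by omega) hj, ?_⟩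
        by_cases q : j + 1 = M
        · exact Or.inl ⟨q ▸ hs.l, by rw [show j + 2 = M + 1 by omega, hs.e]⟩
        · exact Or.inr (H4.cls hs hM ev (by omega) (by omega))
      refine ⟨?_, Or.inr ?_⟩
      · rcases j with _ | j
        · rwa [hs.o, hs.z, one_mul, zero_mul, add_zero]
        · exact Or.inr (Or.inr (H4.two hs hM hj (P1 _ b).1 (P1 _ c).1))
      · by_cases q : j + 1 = M
        · rwa [show j + 2 = M + 1 by omega, q, hs.e, hs.l, zero_mul, zero_add, one_mul]
        · exact Or.inr (Or.inr (H4.two hs hM (by omega) (P1 _ b).1 (P1 _ c).1))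
  have par : ∀ k : ℤ, k * (M - 1) % 4 = if M % 4 = 0 then -k % 4 else k % 4 := fun k => by
    obtain ⟨q, r⟩ : ∃ q : ℤ, (M : ℤ) = 4 * q + (M % 4 : ℕ) := ⟨M / 4, by omega⟩
    have : k * (M - 1) = 4 * (k * q) + k * ((M % 4 : ℕ) - 1) := by rw [r]; push_cast; ring_nf
    split_ifs with c
    · rw [c] at this; omega
    · rw [show M % 4 = 2 by omega] at this; omega
  have val : ∀ a k i : ℤ, F (x ^ a * Δ ^ k) i = F (x ^ a) (i - k * (M - 1)) := fun a k i => by
    rw [← Fk _ (zpow_mem hx a) k, sub_add_cancel]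
  have c1 : ∀ g ∈ K, f1 g = 0 → ∃ a k : ℤ, k % 2 = 0 ∧ g = x ^ a * Δ ^ k := fun g hg u => by
    obtain ⟨a, k, rfl⟩ := (hk g hg).1 u
    refine ⟨a, k, ?_, rfl⟩
    have v := val a k 1
    have := par k
    simp only [F, Fx, u] at v
    split_ifs at v this <;> first | omega | simp at v
  have c3 : ∀ g ∈ K, f0 g = 1 → ∃ a k b : ℤ, k % 4 = 0 ∧ g = x ^ a * Δ ^ k * w ^ b :=
    fun g hg u => by
    obtain ⟨a, k, b, rfl⟩ := (hk g hg).2 u
    refine ⟨a, k, b, ?_, rfl⟩
    rw [(D6.shear hw mw (mul_mem (zpow_mem hx a) (zpow_mem hΔ k)) b).1] at u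
    have v := val a k 0
    have := par k
    simp only [F, Fx, u] at v
    split_ifs at v this <;> first | omega | norm_num at v
  obtain ⟨i, n⟩ := nf
  obtain ⟨-, b, c⟩ := key g i n
  have b' := P1 _ b
  have c' : F g (i + 1) = 0 ∨ 1 ≤ F g (i + 1) ∧ F g (i + 1) ≠ 2 := c.imp And.right (P1 _)
  refine ⟨c1 g hg, fun u => ?_, c3 g hg, fun u => ?_, ?_⟩
  · have v := Fd g hg (2 - M)
    rw [show 2 - (M : ℤ) + (M - 1) = 1 by ring] at v
    obtain ⟨a, k, r, e⟩ := c1 _ (mul_mem hg hΔ) (by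
      simp only [F, u] at v
      split_ifs at v <;> first | omega | simpa using v)
    exact ⟨a, k - 1, by omega, by rw [zpow_sub_one, ← mul_assoc, ← e, mul_inv_cancel_right]⟩
  · rcases eq_or_eq_neg_of_abs_eq u with u | u
    · obtain ⟨a, k, b, -, e⟩ := c3 g hg u
      exact ⟨a, k, b, e⟩
    have v := Fk g hg 2 (-2 * (M - 1))
    rw [show -2 * ((M : ℤ) - 1) + 2 * (M - 1) = 0 by ring] at v
    obtain ⟨a, k, b, -, e⟩ := c3 _ (mul_mem hg (zpow_mem hΔ 2)) (by
      simp only [F, u] at v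
      split_ifs at v <;> first | omega | simpa using v)
    have d := del_yy rel (-2) 0
    rw [yy_congr w x (j := 0) (by omega), show yy w x 0 = w from rfl] at d
    refine ⟨a, k + -2, b, ?_⟩
    rw [zpow_add, ← mul_assoc, mul_assoc _ (Δ ^ (-2 : ℤ)), (SemiconjBy.zpow_right d b).eq,
      ← mul_assoc, ← e, zpow_neg, mul_inv_cancel_right]
  · simp only [F] at b' c'
    simp only [le_abs]
    split_ifs at b' c' <;> first
      | omega
      | (rcases c' with c' | c' <;> refine ⟨?_, ?_, ?_⟩ <;> first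
          | exact Or.inr (Or.inl b'.1) | exact Or.inr (Or.inr b'.1) | exact Or.inr (Or.inl c'.1)
          | exact Or.inr (Or.inr c'.1) | exact Or.inl (by linarith) | exact b'.2 | exact c'.2
          | (intro _; linarith [b'.1]))

end Pool.Agent.MP_6eaae3_al.MX

end PartH4

section PartC3

/-! Counts over the curves of one colour, for chains of even length. -/

namespace Pool.Agent.MP_6eaae3_al.MX

open FreeGroup (of mk invRev IsReduced)
open Set Pool.Agent.MP_6eaae3_al.LT Pool.Agent.MP_6eaae3_al.LT.Path Pool.Agent.MP_6eaae3_al.EV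

open C1 in
theorem c3 (h : S_H4) : S_C3 := by
  intro G _ s t Δ N p P i g hN ev rel i1 iN par hg
  obtain ⟨U, hU⟩ := exists_cheb (show 2 ≤ N by omega)
  obtain ⟨ω, τ, f0, f1, f0', f1', k1, k2, z1, z2, nz, -, -, -, -, key⟩ :=
    EV.hf G s t N p P U i hU (by omega) i1 iN par
  obtain ⟨e1, e2, e3, e4⟩ := key g hg
  have hg' : g ∈ Subgroup.closure {t, s} := pair_comm s t ▸ hg
  obtain ⟨a1, -, a3, -⟩ := h G s t Δ N U f0 f1 hU hN ev rel k1 g hg
  obtain ⟨-, b2, -, b4, b5, -⟩ := h G t s Δ N U f0' f1' hU hN ev (rel_sw rel) k2 g hg'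
  refine ⟨fun h => ?_, fun h => ?_, fun e k k0 => ⟨fun h => a1 ?_, fun h => ?_⟩⟩
  · rw [ws_fre z1 h, mul_zero] at e2
    obtain ⟨a, k, b, c, d⟩ := a3 (sub_eq_zero.1 ((mul_eq_zero.1 e2.symm).resolve_left nz)).symm
    exact ⟨a, k, b, by omega, d⟩
  · obtain ⟨a, k, h, b, c, h3⟩ := LT.hk G t s Δ N U hU (by omega) (rel_sw rel) f0' f1' _
      (Subgroup.subset_closure (Or.inl rfl)) (Subgroup.subset_closure (Or.inr rfl))
      k2.1 k2.2.1 k2.2.2.1 k2.2.2.2 g hg' (by
        rcases ws_bd z2 h with h | h | h <;> rw [h] at e4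
        · exact Or.inl (mul_left_cancel₀ nz (by linarith))
        · exact Or.inr (Or.inl (mul_left_cancel₀ nz (by linarith)))
        · exact Or.inr (Or.inr (mul_left_cancel₀ nz (by linarith))))
    rw [sheet, if_pos ev] at c
    exact ⟨a, k, h, b, c, h3⟩
  · have := ws_fre z1 h
    rw [ws_cw, e1] at this
    exact (mul_eq_zero.1 ((mul_eq_zero.1 this).resolve_left (Int.cast_ne_zero.2 k0))).resolve_left nz
  · rcases b5 with a | a
    · obtain ⟨a, k, -, d⟩ := b2 a
      exact ⟨a, k, 0, by rw [zpow_zero, mul_one, d]⟩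
    have c : |(k : ℝ) * f0' g| ≤ 1 := by
      have := ws_bd z2 h
      rw [ws_cw, e3] at this
      rcases this with h | h | h
      · rw [show k * f0' g = 0 from mul_left_cancel₀ nz (by linarith)]; simp
      · rw [show k * f0' g = 1 from mul_left_cancel₀ nz (by linarith)]; simp
      · rw [show k * f0' g = -1 from mul_left_cancel₀ nz (by linarith)]; simp
    have d : (1 : ℝ) ≤ |(k : ℝ)| := by exact_mod_cast Int.one_le_abs k0
    rw [abs_mul] at c
    exact b4 (le_antisymm (by nlinarith) a)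

end Pool.Agent.MP_6eaae3_al.MX

end PartC3

section PartC4

/-! Counts for the passages that see only the sides in a given set. -/

namespace Pool.Agent.MP_6eaae3_al.MX

open FreeGroup (of mk invRev IsReduced)
open Set Pool.Agent.MP_6eaae3_al.LT Pool.Agent.MP_6eaae3_al.LT.Path Pool.Agent.MP_6eaae3_al.EV
open Pool.Agent.MP_6eaae3_al.EV.C2

namespace C4

variable {B : Type} [AddCommGroup B]

theorem hm_sub {L : Type} (w w' : L → B) (x) : hm (fun a => w a - w' a) x = hm w x - hm w' x := by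
  induction x using FreeGroup.induction_on with
  | C1 => rw [hm_one, hm_one, hm_one, sub_zero]
  | of a => rw [hm_of, hm_of, hm_of]
  | inv_of a ih => rw [hm_inv, hm_inv, hm_inv, ih]; abel
  | mul a b u v => rw [hm_mul, hm_mul, hm_mul, u, v]; abel

theorem sd_be (w : ℕ → B) (x) : hm (sd w) (be x) = 0 := by
  induction x using FreeGroup.induction_on with
  | C1 => rw [map_one, hm_one]
  | of a => rw [show a = (a.1, a.2) from rfl, be_of, hm_mul, hm_mul, hm_inv, sd_ff]; abel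
  | inv_of a ih => rw [map_inv, hm_inv, ih, neg_zero]
  | mul a b u v => rw [map_mul, hm_mul, u, v, add_zero]

theorem sd_dk (w : ℕ → B) {A x} (h : x ∈ Dk A) : hm (sd w) x = 0 := by
  obtain ⟨y, -, rfl⟩ := h
  exact sd_be w y

theorem sd_x (w : ℕ → B) (N π k) : hm (sd w) (xi N π (of k)) = if k % 2 = π then 0 else
    (if 1 ≤ k + 1 ∧ k + 1 ≤ N then w (k + 1) else 0) - if 1 ≤ k - 1 ∧ k - 1 ≤ N then w (k - 1) else 0 := by
  rw [xi, FreeGroup.lift_apply_of]
  by_cases h : k % 2 = π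
  · rw [if_pos h, if_pos h, sd_ff]
  · rw [if_neg h, if_neg h, hm_mul, hm_inv, sd_et, sd_et, sub_eq_add_neg]

theorem sd_x' {w : ℕ → B} {N : ℕ} (h0 : w 0 = 0) (h1 : ∀ k, N < k → w k = 0) (π k) :
    hm (sd w) (xi N π (of k)) = if k % 2 = π then 0 else w (k + 1) - w (k - 1) := by
  have : ∀ j, (if 1 ≤ j ∧ j ≤ N then w j else 0) = w j := fun j => by
    split_ifs with a
    · rfl
    by_cases b : j = 0
    exacts [by rw [b, h0], (h1 j (by omega)).symm]
  rw [sd_x, this, this]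

theorem sd_e {N i : ℕ} {A x} (i1 : 1 ≤ i) (iN : i ≤ N) (h : En (ff i) (et N i) (Dk A) x) :
    ∃ c : ℤ, (c = 0 ∨ c = 1 ∨ c = -1) ∧ ∀ {B : Type} [AddCommGroup B] (w : ℕ → B),
      hm (sd w) x = c • w i := by
  obtain ⟨a, b, κ, δ, δ', h1, h2, h3, rfl⟩ := h
  rcases h2 with rfl | rfl <;> rcases h3 with rfl | rfl
  exacts [⟨0, by simp, fun w => by simp [hm_mul, hm_zpow, sd_ff, sd_dk w h1]⟩,
    ⟨-1, by simp, fun w => by simp [hm_mul, hm_inv, hm_zpow, sd_ff, sd_dk w h1, sd_et, i1, iN]⟩,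
    ⟨1, by simp, fun w => by simp [hm_mul, hm_zpow, sd_ff, sd_dk w h1, sd_et, i1, iN]⟩,
    ⟨0, by simp, fun w => by simp [hm_mul, hm_inv, hm_zpow, sd_ff, sd_dk w h1]⟩]

variable {G : Type} [Group G] {s t : G} {N : ℕ} {p : ℤ} (P : Pu s t N p)

/-- Only the letters of the chain occur. -/
theorem cnt0 {w : ℕ → B} (h : ∀ k, 1 ≤ k → k ≤ N → w k = 0) {g}
    (hg : g ∈ Subgroup.closure {s, t}) : ∀ k, k ≤ N + 1 → hm w (P.f g k) = 0 := by
  have ends : ∀ g k, k ≤ N + 1 → (1 ≤ k → k ≤ N → hm w (P.f g k) = 0) → hm w (P.f g k) = 0 :=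
    fun g k b a => by
      by_cases c : k = 0
      · rw [c, (P.f0 g).1, hm_one]
      by_cases d : k = N + 1
      · rw [d, (P.f0 g).2, hm_one]
      exact a (by omega) (by omega)
  induction hg using Subgroup.closure_induction_right with
  | one => exact fun k c => ends _ k c fun a b => by rw [(P.f1 k a b).1, hm_of, h k a b]
  | mul_right g hg y hy ih =>
    obtain ⟨r, hr⟩ := gen_col (p := p) hy
    refine fun k d => ends _ k d fun a b => ?_
    rcases Int.emod_two_eq_zero_or_one (k + r) with c | c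
    · rw [(hr k).1 c, (P.own g hg k a b).1, ih k d]
    · rw [(hr k).2 c, (P.oth g hg k a b).1, hm_mul, hm_mul, hm_inv, ih k d,
        ih (k + 1) (by omega), ih (k - 1) (by omega)]
      abel
  | mul_inv_cancel g hg y hy ih =>
    obtain ⟨r, hr⟩ := gen_col (p := p) hy
    have hg' := mul_mem hg (inv_mem (Subgroup.subset_closure hy))
    have own : ∀ k : ℕ, k ≤ N + 1 → (k + r) % 2 = 0 → hm w (P.f (g * y⁻¹) k) = 0 :=
      fun k d c => ends _ k d fun a b => by
        have := (P.own _ hg' k a b).1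
        rw [← (hr k).1 c, inv_mul_cancel_right] at this
        rw [← this, ih k d]
    refine fun k d => ends _ k d fun a b => ?_
    rcases Int.emod_two_eq_zero_or_one (k + r) with c | c
    · exact own k d c
    · have := congrArg (hm w) (P.oth _ hg' k a b).1
      rw [← (hr k).2 c, inv_mul_cancel_right, ih k d, hm_mul, hm_mul, hm_inv,
        own (k + 1) (by omega) (by omega), own (k - 1) (by omega) (by omega)] at this
      simpa using this.symm

/-- For odd length the two end terms cancel. -/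
theorem odd_zero {i : ℕ} (hN : N % 2 = 1) (i1 : 1 ≤ i) (iN : i ≤ N) {x} {c : ℤ}
    (hc : i % 2 = 0 → hm (cq N) x = 0)
    (h0 : ∀ w : ℕ → ℤ, (∀ k, 1 ≤ k → k ≤ N → w k = 0) → hm w x = 0)
    (h1 : c = 0 ∨ c = 1 ∨ c = -1)
    (h2 : ∀ {B : Type} [AddCommGroup B] (w : ℕ → B), hm (sd w) (xi N (i % 2) x) = c • w i) :
    c = 0 := by
  rcases Nat.mod_two_eq_zero_or_one i with hi | hi
  · have e := h2 fun j => ((j / 2 : ℕ) : ZMod ((N + 1) / 2))
    rw [hi, hm_comp, show (fun k => hm _ (xi N 0 (of k))) = cq N from rfl, hc hi] at e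
    have ne : ((i / 2 : ℕ) : ZMod ((N + 1) / 2)) ≠ 0 := fun u => by
      have := Nat.le_of_dvd (by omega) ((ZMod.natCast_eq_zero_iff _ _).1 u)
      omega
    rcases h1 with rfl | rfl | rfl
    · rfl
    · rw [one_smul] at e
      exact (ne e.symm).elim
    · rw [neg_smul, one_smul] at e
      exact (ne (neg_eq_zero.1 e.symm)).elim
  · have e := h2 fun _ => (1 : ℤ)
    rw [hi, hm_comp, h0 _ fun k a b => ?_] at e
    · simpa using e.symm
    · rw [sd_x]
      split_ifs <;> omega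

end C4

open C4 in
theorem c4 (h : S_H4) : S_C4 := by
  intro G _ s t Δ N p P i g A h3' rel i1 iN par hg
  obtain ⟨U, hU⟩ := exists_cheb (show 2 ≤ N by omega)
  obtain ⟨ω, τ, f0, f1, f0', f1', k1, k2, ωz, τz, τi, τ0, ω0, big, rc, val⟩ :=
    hf G s t N p P U i hU (by omega) i1 iN par
  obtain ⟨v1, v2, v3, v4⟩ := val g hg
  have wh : ∀ (w : ℕ → ℝ) x, ws w x = hm w x := fun _ _ => rfl
  rw [wh] at v1 v2 v3 v4
  have μ1 : 1 < U 2 := hU.gt 2 (by omega) (by omega)
  have rel' := C1.rel_sw rel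
  have hg' : g ∈ Subgroup.closure {t, s} := by rwa [pair_comm]
  have m1 : ∀ a b : G, a ∈ Subgroup.closure {a, b} := fun a b => Subgroup.subset_closure (Or.inl rfl)
  have m2 : ∀ a b : G, b ∈ Subgroup.closure {a, b} := fun a b => Subgroup.subset_closure (Or.inr rfl)
  have e1 := hecke hU (by omega) rel (m1 s t) (m2 s t) k1.1 k1.2.1 k1.2.2.1 k1.2.2.2 hg
  have e2 := hecke hU (by omega) rel' (m1 t s) (m2 t s) k2.1 k2.2.1 k2.2.2.1 k2.2.2.2 hg'
  have d1 := fun ev : N % 2 = 0 => h G s t Δ N U f0 f1 hU (by omega) ev rel k1 g hg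
  have d2 := fun ev : N % 2 = 0 => h G t s Δ N U f0' f1' hU (by omega) ev rel' k2 g hg'
  let Ag : FreeGroup ℕ → Prop := fun x => ∀ (B : Type) [AddCommGroup B] (w : ℕ → B),
    (∀ k, 1 ≤ k → k ≤ N → w k = 0) → hm w x = 0
  have aW : Ag (P.W g i) := fun B _ w hw =>
    cnt_W P i1 iN par (fun g hg => cnt0 P hw hg i (by omega)) hg
  have aC : ∀ e j, Ag (Cw P g i e j e) := fun e j B _ w hw => by
    rw [hm_cw, cnt0 P hw hg i (by omega), smul_zero]
  have own : ∀ x, Ag x → (N % 2 = 1 → i % 2 = 0 → hm (cq N) x = 0) → Own N i A x →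
      ∃ c : ℤ, (c = 0 ∨ c = 1 ∨ c = -1) ∧ (N % 2 = 1 → c = 0) ∧ U 2 * hm ω x = -c * τ i :=
    fun x ag hc h => by
      obtain ⟨c, c1, c2⟩ := sd_e i1 iN h
      refine ⟨c, c1, fun o => odd_zero o i1 iN (hc o) (ag ℤ) c1 c2, ?_⟩
      have a := ag ℝ (fun k => hm (sd fun j => -τ j) (xi N (i % 2) (of k)) - U 2 * ω k)
        fun k a b => by
          rw [sd_x' (by rw [τ0, neg_zero]) fun k a => by rw [(big k a).1, neg_zero]]
          split_ifs with c
          · rw [ωz k c, mul_zero, sub_zero]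
          · rw [(rc k a b).1]; ring
      rw [hm_sub, ← hm_comp, c2, hm_smul, zsmul_eq_mul] at a
      linarith
  have oth : ∀ x, Ag x → Oth N i A x → hm τ x = 0 := fun x ag h => by
    have b := sd_dk ω h
    have a := ag ℝ (fun k => hm (sd ω) (xi N ((i + 1) % 2) (of k)) - U 2 * τ k) fun k a b => by
      rw [sd_x' ω0 fun k a => (big k a).2]
      split_ifs with c
      · rw [τz k fun u => by have : k % 2 = i % 2 := u; omega, mul_zero, sub_zero]
      · rw [(rc k a b).2, sub_self]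
    rw [hm_sub, ← hm_comp, hm_smul] at a
    rw [hm_mul, hm_mul, hm_inv] at b
    exact (mul_eq_zero.1 (show U 2 * hm τ x = 0 by linarith)).resolve_left (by linarith)
  have cf : N % 2 = 1 → i % 2 = 0 → ∀ g ∈ Subgroup.closure {s, t}, hm (cq N) (P.f g i) = 0 :=
    fun hN hi g hg => by rw [cnt_f P hN (cq_eq hN) hg i (by omega), if_neg (by omega)]
  refine ⟨fun h => ?_, fun h => ?_, fun e j hj => ⟨fun h => ?_, fun h => ?_⟩⟩
  · obtain ⟨c, c1, c2, c3⟩ := own _ aW (fun o hi => cnt_W P i1 iN par (cf o hi) hg) h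
    have f : f0 g = 1 + c := mul_left_cancel₀ τi (by linarith)
    rcases Nat.mod_two_eq_zero_or_one N with ev | od
    · obtain ⟨-, a0, a1, -, -, -, a2⟩ := d1 ev
      rcases c1 with rfl | rfl | rfl
      · obtain ⟨a, k, b, u, v⟩ := a1 (by simpa using f)
        exact ⟨a, k, b, fun _ => by omega, v⟩
      · exact (a2 (by rw [f]; norm_num)).elim
      · obtain ⟨a, k, u, v⟩ := a0 (by simpa using f)
        exact ⟨a, k, 0, fun _ => by omega, by rw [zpow_zero, mul_one, v]⟩
    · obtain ⟨a, k, b, v⟩ := e1.2 (by simpa [c2 od] using f)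
      exact ⟨a, k, b, fun _ => by omega, v⟩
  · rw [oth _ aW h, mul_zero] at v4
    have f := (mul_eq_zero.1 v4.symm).resolve_left τi
    rcases Nat.mod_two_eq_zero_or_one N with ev | od
    · obtain ⟨a, k, u, v⟩ := (d2 ev).1 f
      exact ⟨a, k, fun _ => u, v⟩
    · obtain ⟨a, k, v⟩ := e2.1 f
      exact ⟨a, k, fun _ => by omega, v⟩
  · obtain ⟨c, c1, c2, c3⟩ := own _ (aC e j) (fun o hi => by rw [hm_cw, cf o hi g hg, smul_zero]) h
    rw [hm_cw, v1, zsmul_eq_mul] at c3
    have f : U 2 * (j * f1 g) = -c := mul_left_cancel₀ τi (by linarith)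
    have d : (1 : ℝ) ≤ |(j : ℝ)| := by exact_mod_cast Int.one_le_abs hj
    rcases Nat.mod_two_eq_zero_or_one N with ev | od
    · obtain ⟨a0, -, -, -, -, a1, -⟩ := d1 ev
      obtain ⟨a, k, u, v⟩ := a0 (a1.resolve_right fun a1 => by
        have b : |(-c : ℝ)| ≤ 1 := by rcases c1 with rfl | rfl | rfl <;> simp
        rw [← f, abs_mul, abs_mul, abs_of_pos (by linarith : 0 < U 2)] at b
        have : 1 ≤ |(j : ℝ)| * |f1 g| := by nlinarith
        nlinarith)
      exact ⟨a, k, fun _ => u, v⟩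
    · rw [c2 od, Int.cast_zero, neg_zero] at f
      obtain ⟨a, k, v⟩ := e1.1 ((mul_eq_zero.1 ((mul_eq_zero.1 f).resolve_left
        (by linarith))).resolve_left (Int.cast_ne_zero.2 hj))
      exact ⟨a, k, fun _ => by omega, v⟩
  · have a := oth _ (aC e j) h
    rw [hm_cw, v3, zsmul_eq_mul] at a
    have f := (mul_eq_zero.1 ((mul_eq_zero.1 a).resolve_left (Int.cast_ne_zero.2 hj))).resolve_left τi
    rcases Nat.mod_two_eq_zero_or_one N with ev | od
    · obtain ⟨a, k, u, v⟩ := (d2 ev).2.1 f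
      exact ⟨a, k, ev, u, v⟩
    · have e3 := (h3 G t s Δ N U f0' f1' hU od rel' k2 g hg').1
      rw [f, abs_zero] at e3
      linarith

end Pool.Agent.MP_6eaae3_al.MX

end PartC4

section PartDe

/-! The image of a path in a chain without crossing passages. -/

namespace Pool.Agent.MP_6eaae3_al.MX

open FreeGroup (of mk invRev IsReduced)
open Set Pool.Agent.MP_6eaae3_al.LT Pool.Agent.MP_6eaae3_al.LT.Path Pool.Agent.MP_6eaae3_al.EV

namespace De

open EV.De

variable {V M : Type} {m : V → V → ℕ} {n : ℕ} {Y : Sy m n M} {γ γ' : V} {N π : ℕ} {c : ℕ → V × ℕ}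
  {z : ℕ → M × Bool} {θ : FG M →* FH} (D : Dat Y γ γ' N π c z θ) {k j i : ℕ} {x x' y' : M × Bool}
  {S : Set (FG M)}

include D

/-- The image of a passage between two crossings. -/
theorem pass (hS : ¬ ∃ k, Y.Cx S γ (Sum.inl γ') k) (k1 : 1 ≤ k)
    (kN : k ≤ N) (hk : k % 2 = π) (a : x ∈ Y.cl (c k)) (a' : x' ∈ Y.cl (c k))
    (h : Y.On {γ, γ'} (opp x)) (h' : Y.On {γ, γ'} (opp x')) {e e' : Bool} {w : ℤ}
    (pg : Y.Pg S (c k) x e w x' e') :
    θ ((of (EV.pt x e))⁻¹ * Y.Rn (c k) x w x' * of (EV.pt x' e')) ∈ Dk (Ac Y S γ' N π c) := by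
  have hc : (c k).1 = γ := (D.col k).trans (if_pos hk)
  obtain ⟨B, bl, -⟩ := D.cn.bl (γ := γ) (γ' := γ') (Or.inl rfl) k1 kN hc
  have mem : ∀ u ∈ Y.cl (c k), Y.On {γ, γ'} (opp u) → u ∈ B := fun u hu ⟨p, p1, p2, p3⟩ =>
    (bl.2 u).2 ⟨hu, p, p1.resolve_left fun f => Sy.cross_ne hu p3 (hc.trans f.symm), p2, p3⟩
  have one : ∀ u ∈ Y.cl (c k), Y.On {γ, γ'} (opp u) → ∀ b, θ (of (u, b)) = 1 := fun u hu v b =>
    D.own k1 kN hk hu fun f => (D.att k k1 kN).2 ((show u = z k from congrArg Prod.fst f) ▸ v)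
  have r0 : θ (Y.Rn (c k) x 0 x') = 1 := by
    obtain ⟨t, ht⟩ := bl.1
    rcases ht.rn (mem x a h) (mem x' a' h') with ⟨f, -⟩ | ⟨-, -, f⟩ | ⟨-, -, f⟩
    · rw [f, map_one]
    · rw [f, map_mul, map_inv, oo, ii, one x a h, one x' a' h', inv_one, mul_one]
    · rw [f, map_mul, map_inv, oo, ii, one x a h, one x' a' h', inv_one, mul_one]
  rw [Sy.Rn_split a, map_mul, map_mul, map_mul, map_inv, map_zpow, r0, D.ell k1 kN hk a,
    D.port k1 kN hk a h, D.port k1 kN hk a' h', mul_one]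
  have lt := D.cn.lt k k1 kN
  by_cases w0 : e = e'
  · subst w0
    by_cases w1 : w = 0
    · rw [w1, zpow_zero, mul_one, inv_mul_cancel]
      exact one_mem _
    rw [et_eq k1 kN]
    exact ⟨of (k, e) ^ w, zpow_mem (of_mem_Fre (x := (k, e)) (And.intro k1 ⟨kN, hk, lt, B, x, x', w,
      bl, mem x a h, mem x' a' h', w1, pg⟩)) _, be_zpow k e w⟩
  · cases e <;> cases e'
    · exact (w0 rfl).elim
    · exact (hS ⟨w, c k, B, x, x', hc, lt, bl, mem x a h, mem x' a' h', pg⟩).elim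
    · exact (hS ⟨-w, c k, B, x', x, hc, lt, bl, mem x' a' h', mem x a h, pg.symm⟩).elim
    · exact (w0 rfl).elim

omit D in
/-- The statement for the part of the path after a letter of the other colour. -/
def Qy (Y : Sy m n M) (γ γ' : V) (N π : ℕ) (c : ℕ → V × ℕ) (θ : FG M →* FH) (i : ℕ)
    (S : Set (FG M)) (y' : M × Bool) (l : List (Lt M × Bool)) : Prop :=
  ∀ (a : Lt M) (j : ℕ), 1 ≤ j → j ≤ N → j % 2 ≠ π → a.1 ∈ Y.cl (c j) → Hs S ((a, false) :: l) →
    Y.Pth a.1.1 l y'.1 → (∀ b ∈ l, b.1 ∈ Y.C {γ, γ'}) →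
      Rr (Dk (Ac Y S γ' N π c)) N π i
        (θ ((of a)⁻¹ * mk l))

theorem start {l : List (Lt M × Bool)} {μ ν : M} (p : Y.Pth μ l ν) (e : μ = x.1) (e' : ν = y'.1)
    (ih : ∀ l', l'.length < l.length → Qy Y γ γ' N π c θ i S y' l') (j1 : 1 ≤ j) (jN : j ≤ N)
    (hj : j % 2 ≠ π) (a : x ∈ Y.cl (c j)) (h : ¬ Y.On {γ, γ'} (opp x)) (hs : Hs S l)
    (hC : ∀ b ∈ l, b.1 ∈ Y.C {γ, γ'}) :
    Rr (Dk (Ac Y S γ' N π c)) N π i (θ (FreeGroup.mk l)) := by
  cases p with
  | nil => exact ⟨1, one_mem _, Or.inl (map_one θ)⟩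
  | @cons b b' l _ ed p =>
    obtain rfl : b.1 = x := (cell_cases e).resolve_right fun f =>
      h (f ▸ hC (b, true) List.mem_cons_self)
    rw [mk_two, mul_assoc, map_mul, show θ (of b) = 1 from D.free j1 jN hj a h b.2, one_mul]
    exact ih l (by simp) b' j j1 jN hj (ed_rn ed a).1 (hs.inf (List.infix_cons_iff.2
      (Or.inr List.infix_rfl))) (e' ▸ p) fun u hu => hC u (by simp [hu])

theorem main (hS : ¬ ∃ k, Y.Cx S γ (Sum.inl γ') k) (i1 : 1 ≤ i) (a' : y' ∈ Y.cl (c i))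
    (h' : ¬ Y.On {γ, γ'} (opp y')) (l : List (Lt M × Bool)) : Qy Y γ γ' N π c θ i S y' l := by
  induction hn : l.length using Nat.strong_induction_on generalizing l with | h s ih
  subst hn
  intro a j j1 jN hj ha hs p hC
  by_cases h : Y.On {γ, γ'} (opp a.1)
  swap
  · rw [map_mul, map_inv, show θ (of a) = 1 from D.free j1 jN hj ha h a.2, inv_one, one_mul]
    exact start D p rfl rfl (fun l' u => ih _ u l' rfl) j1 jN hj ha h
      (hs.inf (List.infix_cons_iff.2 (Or.inr List.infix_rfl))) hC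
  obtain ⟨k, k1, kN, hx, hk⟩ := D.nbr j1 jN ha h
  have hk : k % 2 = π := by_contra fun u => hj (hk.2 u)
  have on : Y.On {γ, γ'} (opp (opp a.1)) := (opp_opp a.1).symm ▸ D.cn.on j1 jN ha
  obtain ⟨e, he⟩ := exists_pt (y := opp a.1) (a := a) (opp_opp _).symm
  obtain ⟨l₁, l₂, x', w, rfl, hx', r, ⟨rfl, f⟩ | ⟨b, b', l₃, rfl, f, ed, p'⟩⟩ :=
    trip p (opp a.1) hx rfl
  · obtain rfl : x' = y' := (cell_cases f).resolve_right fun u => h' (u ▸ D.cn.on k1 kN hx')
    obtain rfl := D.idx k1 i1 hx' a'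
    obtain ⟨t, ht⟩ := D.pow k1 kN hk (Sy.Rn_mem hx hx' w)
    refine ⟨1, one_mem _, Or.inr ⟨hk, θ (of a), t, ?_, ?_⟩⟩
    · rw [he, D.port k1 kN hk hx on]
      cases e <;> simp
    · rw [List.append_nil, r, map_mul, map_inv, ht, one_mul]
  · have on' : Y.On {γ, γ'} (opp x') := f ▸ hC (b, true) (by simp)
    obtain ⟨e', he'⟩ := exists_pt f
    obtain ⟨j', j1', jN', hb, hj'⟩ := D.nbr k1 kN hx' on'
    have pg : Y.Pg S (c k) (opp a.1) e w x' e' := by
      rw [Sy.Pg, ← r, wd_mk (red_inf hs.red ⟨[(a, false)], _, rfl⟩), ← he, ← he']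
      exact hs.inf ⟨[], (b', false) :: l₃, by simp⟩
    have := pass D hS k1 kN hk hx hx' on on' pg
    rw [← he, ← he', ← r] at this
    have key : (of a)⁻¹ * FreeGroup.mk (l₁ ++ (b, true) :: (b', false) :: l₃) =
        (of a)⁻¹ * FreeGroup.mk l₁ * of b * ((of b')⁻¹ * FreeGroup.mk l₃) := by
      rw [← FreeGroup.mul_mk, mk_two]
      simp only [mul_assoc]
    rw [key, map_mul]
    exact Rr.mul this (ih _ (by simp; omega) l₃ rfl b' j' j1' jN' (hj'.1 hk)
      (ed_rn ed (f ▸ hb)).1 (hs.inf ⟨(a, false) :: l₁ ++ [(b, true)], [], by simp⟩) p'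
      fun u hu => hC u (by simp [hu]))

end De

open De EV.De in
theorem de : S_DE := by
  intro V M m n Y S γ γ' N π i c z θ y y' l cn col _ att ta i1 iN a a' h h' p hC hs hS
  have D : Dat Y γ γ' N π c z θ := ⟨cn, col, att, ta⟩
  refine ⟨fun hi => ?_, fun hi => ?_⟩
  · obtain ⟨κ, u, e | ⟨e, -⟩⟩ := start D p rfl rfl (fun l' _ => main D hS i1 a' h' l') i1 iN hi a h
      hs hC
    · exact e ▸ u
    · exact (hi e).elim
  · obtain ⟨l₁, l₂, x', w, rfl, hx', r, ⟨rfl, -⟩ | ⟨b, b', l₃, rfl, f, ed, p'⟩⟩ := trip p y a rfl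
    · obtain ⟨t, ht⟩ := D.pow i1 iN hi (Sy.Rn_mem a hx' w)
      exact ⟨t, 0, 1, 1, 1, one_mem _, Or.inl rfl, Or.inl rfl, by simp [r, ht]⟩
    · obtain ⟨t, ht⟩ := D.pow i1 iN hi (Sy.Rn_mem a hx' w)
      have on' : Y.On {γ, γ'} (opp x') := f ▸ hC (b, true) (by simp)
      obtain ⟨e', he'⟩ := exists_pt f
      obtain ⟨j', j1', jN', hb, hj'⟩ := D.nbr i1 iN hx' on'
      have hδ : θ (of b) = 1 ∨ θ (of b) = et N i := by
        rw [he', D.port i1 iN hi hx' on']
        cases e' <;> simp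
      have key : mk (l₁ ++ (b, true) :: (b', false) :: l₃) =
          mk l₁ * of b * ((of b')⁻¹ * mk l₃) := by
        rw [← FreeGroup.mul_mk, mk_two]
        simp only [mul_assoc]
      rw [key, map_mul, map_mul, r, ht]
      obtain ⟨κ, u, e | ⟨-, δ, s, v, e⟩⟩ := main D hS i1 a' h' l₃ b' j' j1' jN' (hj'.1 hi)
        (ed_rn ed (f ▸ hb)).1 (hs.inf ⟨l₁ ++ [(b, true)], [], by simp⟩) p'
        fun u hu => hC u (by simp [hu])
      · exact ⟨t, 0, κ, _, 1, u, hδ, Or.inl rfl, by rw [e]; simp⟩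
      · exact ⟨t, s, κ, _, δ, u, hδ, v, by rw [e]; simp only [mul_assoc]⟩

end Pool.Agent.MP_6eaae3_al.MX

end PartDe

section PartLs

/-! The image of a seed when no crossing passage on one colour of the chain exists. -/

namespace Pool.Agent.MP_6eaae3_al.MX

open FreeGroup (of mk invRev IsReduced)
open Set Pool.Agent.MP_6eaae3_al.LT Pool.Agent.MP_6eaae3_al.LT.Path Pool.Agent.MP_6eaae3_al.EV

namespace Ls

variable {M V : Type} {m : V → V → ℕ} {n : ℕ} {Y : Sy m n M} {S : Set (FG M)} {s t : V}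
  {N : ℕ} {p : ℤ} {c : ℕ → V × ℕ} {i : ℕ} {x : V ⊕ Bool} {B : List (M × Bool)} {y y' : M × Bool}
  {e e' : Bool} {k : ℤ}

theorem xi_eq (π k : ℕ) :
    (if k % 2 = π then 1 else et N (k + 1)) * (if k % 2 = π then ff k else 1) *
      (if k % 2 = π then 1 else et N (k - 1))⁻¹ = xi N π (of k) := by
  by_cases h : k % 2 = π <;> simp [h, xi]

/-- What `S_DE` gives for the image of the seed. -/
theorem de (h5 : S_DE) (D : Sdd Y S s t N p c i x B y y' e e' k) (π : ℕ)
    {γ γ' : V} (hX : ({γ, γ'} : Set V) = {s, t}) (ne : γ ≠ γ')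
    (col : ∀ k, (c k).1 = if k % 2 = π then γ else γ')
    (P : Pu (PresentedGroup.of s : Art m) (PresentedGroup.of t) N p) {g} (hg : g ∈ Par m {s, t})
    (hn : ¬ ∃ j, Y.Cx (Y.im g S) γ (Sum.inl γ') j) :
    ∃ A w, (A = 1 ∨ A = if i % 2 = π then ff i else 1) ∧
      w = A⁻¹ * ((if i % 2 = π then 1 else et N (i + 1))⁻¹ * xi N π (Cw P g i e k e') *
        (if i % 2 = π then 1 else et N (i + 1))) * A ∧
      (i % 2 ≠ π → w ∈ Dk (Ac Y (Y.im g S) γ' N π c)) ∧
      (i % 2 = π → En (ff i) (et N i) (Dk (Ac Y (Y.im g S) γ' N π c)) w) := by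
  obtain ⟨θ, h⟩ := EV.ta V M m n Y _ N c _ FH (fun k => if k % 2 = π then ff k else 1)
    (fun k => if k % 2 = π then 1 else et N (k + 1)) (fun k => if k % 2 = π then 1 else et N (k - 1))
    D.cn (EV.Ls.zz_at _) (by simp [et]) (by simp [et])
  obtain ⟨a1, a2, a3⟩ := EV.li (f2 f3) ptt V M m n Y S s t N p c i x B y y' e e' k D
  obtain ⟨l, l1, -, l3, l4, l5⟩ := a3 g hg
  obtain ⟨A, hA, b⟩ := EV.Ls.val EV.ch EV.uq D h P (xi N π) (fun k _ _ => xi_eq π k) hg
  refine ⟨A, _, hA, b, ?_⟩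
  rw [← l5]
  exact h5 V M m n Y _ γ γ' N π i c _ θ y y' l (hX ▸ D.cn) col ne (EV.Ls.zz_at _) h D.i1 D.iN
    ((D.bl.2 y).1 D.y1).1 ((D.bl.2 y').1 D.y2).1 (hX ▸ a1) (hX ▸ a2) l3 (hX ▸ l4) l1 hn

end Ls

theorem ls (h : S_DE) : S_LS := by
  intro V M m n Y S s t N p c i x B y y' e e' k D
  obtain ⟨P⟩ := EV.Ls.exists_pu EV.ta EV.ch D
  have par := D.par
  refine ⟨P, fun g hg => ⟨fun hn => ?_, fun hn => ?_⟩⟩
  · obtain ⟨A, w, hA, rfl, -, a⟩ := Ls.de h D (i % 2) (pair_comm t s) D.ne.symm (fun k => by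
      rw [D.col, yy]; split_ifs <;> first | rfl | omega) P hg hn
    have a := a rfl
    simp only [if_true, inv_one, one_mul, mul_one] at a hA
    exact EV.Ls.en_conj le_rfl hA a
  · obtain ⟨A, w, hA, rfl, a, -⟩ := Ls.de h D ((i + 1) % 2) rfl D.ne (fun k => by
      rw [D.col, yy]; split_ifs <;> first | rfl | omega) P hg hn
    have hi' : ¬ i % 2 = (i + 1) % 2 := by omega
    have a := a hi'
    simp only [hi', if_false, or_self] at hA
    simpa only [Oth, hA, hi', if_false, inv_one, one_mul, mul_one] using a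

end Pool.Agent.MP_6eaae3_al.MX

end PartLs

section PartDf

/-! The transverse arcs under powers of the Garside element as boundary segments. -/

namespace Pool.Agent.MP_6eaae3_al.MX

open FreeGroup (of mk invRev IsReduced)
open Set Pool.Agent.MP_6eaae3_al.LT Pool.Agent.MP_6eaae3_al.LT.Path Pool.Agent.MP_6eaae3_al.EV

namespace Df

open EV.Df

variable {H : Type} [Group H] {X : ℕ → H} {N : ℕ} {β r : ℤ}

/-- The value of the boundary up to the place `r` of the sheet `β`. -/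
def zz (X : ℕ → H) (N : ℕ) (β r : ℤ) : H :=
  if β % 2 = 0 then (if r < N then X (N + 1 - r).toNat else dd X (2 * ((r - N + 1) / 2) + 1).toNat)
  else if r = 0 then X (N + 1) * X N else dd X (2 * ((r - N + 2) / 2)).toNat

def FF (X : ℕ → H) (N : ℕ) (b p : ℤ) : H :=
  dd X (N + 1) ^ (p / (2 * N - 2)) * zz X N (b + p / (2 * N - 2) * (N + 1)) (p % (2 * N - 2))

theorem FF_eq (b n : ℤ) (h0 : 0 ≤ r) (h1 : r < 2 * N - 2) :
    FF X N b (r + n * (2 * N - 2)) = dd X (N + 1) ^ n * zz X N (b + n * (N + 1)) r := by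
  rw [FF, (sht_eq b n h0 h1).2, Int.add_mul_ediv_right _ _ (by omega),
    Int.ediv_eq_zero_of_lt h0 h1, zero_add]

theorem zA (j : ℕ) (b : β % 2 = 0) (h : r + j = N) : zz X N β r = X (j + 1) := by
  rw [zz, if_pos b]
  split_ifs
  · congr 1; omega
  · rw [show j = 0 by omega, show (2 * ((r - N + 1) / 2) + 1).toNat = 1 by omega]
    exact one_mul _

theorem zB (j : ℕ) (h : r + 1 = N + j) (j1 : 1 ≤ j) (hN : 1 ≤ N) :
    zz X N β r = if (β + j) % 2 = 0 then dd X (j + 1) else dd X j := by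
  rw [zz]
  split_ifs <;> first | omega | (congr 1; omega)

theorem zC (b : β % 2 = 1) (h0 : 1 ≤ r) (h : r < N) : zz X N β r = 1 := by
  rw [zz, if_neg (by omega), if_neg (by omega), show (2 * ((r - N + 2) / 2)).toNat = 0 by omega]
  rfl

theorem zD (b : β % 2 = 1) : zz X N β 0 = X (N + 1) * X N := by rw [zz, if_neg (by omega), if_pos rfl]

variable (hX : ∀ a, X a * X a = 1) (hN : 3 ≤ N)
include hX hN

/-- The places after a left side, also beyond the end of the period. -/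
theorem FL (b n : ℤ) {j : ℕ} (j1 : 1 ≤ j) (jN : j ≤ N) : FF X N b (N + j - 1 + n * (2 * N - 2)) =
    dd X (N + 1) ^ n * if (b + n * (N + 1) + j) % 2 = 0 then dd X (j + 1) else
      if j = N then dd X (N + 1) * X N else dd X j := by
  by_cases c : j + 2 ≤ N
  · rw [FF_eq _ _ (by omega) (by omega), zB j (by omega) j1 (by omega), if_neg (show j ≠ N by omega)]
  have e : ∀ r : ℤ, N + j - 1 = r + (2 * N - 2) → 0 ≤ r → r < 2 * N - 2 →
      FF X N b (N + j - 1 + n * (2 * N - 2)) =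
        dd X (N + 1) ^ n * (dd X (N + 1) * zz X N (b + n * (N + 1) + N + 1) r) := fun r u v w => by
    rw [u, show r + (2 * N - 2) + n * (2 * N - 2) = r + (n + 1) * (2 * N - 2) by ring, FF_eq _ _ v w,
      zpow_add_one, mul_assoc]
    congr 3
    ring
  generalize b + n * (N + 1) = β at e ⊢
  obtain ⟨a, ha⟩ : ∃ a, N = a + 1 := ⟨N - 1, by omega⟩
  by_cases d : j = a
  · rw [e 0 (by omega) le_rfl (by omega), d]
    congr 1
    split_ifs with u v
    · rw [zA (β := β + N + 1) N (by omega) (by omega), dds N, mul_assoc, hX, mul_one, ha]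
    · omega
    · rw [zD (β := β + N + 1) (by omega), dds N, ha, dds a]
      simp only [mul_assoc, i2 hX, hX, mul_one]
  · rw [e 1 (by omega) (by omega) (by omega), show j = N by omega]
    congr 1
    split_ifs with u v
    · rw [zC (β := β + N + 1) (by omega) le_rfl (by omega), mul_one]
    · rw [zA (β := β + N + 1) a (by omega) (by omega), ← ha]
    · omega

omit hX in
theorem FR (b n : ℤ) {j : ℕ} (j1 : 1 ≤ j) (jN : j ≤ N) : FF X N b (N - j + n * (2 * N - 2)) =
    dd X (N + 1) ^ n * if (b + n * (N + 1)) % 2 = 0 then X (j + 1) else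
      if j = N then X (N + 1) * X N else 1 := by
  rw [FF_eq _ _ (by omega) (by omega)]
  generalize b + n * (N + 1) = β
  congr 1
  split_ifs with u v
  · rw [zA j u (by omega)]
  · rw [v, sub_self, zD (β := β) (by omega)]
  · rw [zC (β := β) (by omega) (by omega) (by omega)]

theorem step (b p : ℤ) : FF X N b (p + 1) = FF X N b p * ch X (slw N b p) := by
  obtain ⟨r, n, h0, h1, rfl⟩ := place (N := N) (by omega) p
  rw [slw, slot_eq _ _ h0 h1, FF_eq b n h0 h1, mul_assoc]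
  by_cases c : r < N
  · obtain ⟨j, hj⟩ : ∃ j : ℕ, r + j + 1 = N := ⟨(N - 1 - r).toNat, by omega⟩
    rw [add_right_comm, FF_eq b n (by omega) (by omega)]
    generalize b + n * (N + 1) = β
    congr 1
    by_cases u : β % 2 = 0
    · rw [zA j u (by omega), zA (j + 1) u (by omega), s0, if_pos u, if_pos c,
        show (N - r).toNat = j + 1 by omega, if_neg (by omega), if_pos rfl, ch_of, i2 hX]
    have u' : β % 2 = 1 := by omega
    rw [s0, if_neg u]
    by_cases v : r = 0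
    · rw [if_pos v, if_neg (by omega), if_neg Bool.false_ne_true, v, zD u', zC u' (by omega) (by omega),
        map_inv, ch_of, mul_inv_cancel]
    rw [if_neg v, zC u' (show 1 ≤ r by omega) c, one_mul]
    by_cases w : r + 2 ≤ N
    · rw [if_pos w, if_pos rfl, map_one, zC u' (by omega) (by omega)]
    · rw [if_neg w, if_pos (show (r - N) % 2 = 1 by omega), show (r - N + 2).toNat = 1 by omega, if_neg (by omega),
        if_neg Bool.false_ne_true, zB (r := r + 1) 1 (by omega) le_rfl (by omega), if_pos (by omega), map_inv, ch_of,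
        mul_inv_rev, iX hX, iX hX, dds, dds]
      exact congrArg (· * _) (one_mul _)
  · obtain ⟨j, hj⟩ : ∃ j : ℕ, r = N + j := ⟨(r - N).toNat, by omega⟩
    rw [show r + n * (2 * N - 2) + 1 = N + (j + 2 : ℕ) - 1 + n * (2 * N - 2) by omega,
      FL hX hN _ _ (by omega) (by omega), if_neg (show j + 2 ≠ N by omega),
      zB (j + 1) (by omega) (by omega) (by omega), s0]
    generalize b + n * (N + 1) = β
    congr 1
    have e : (r - N + 2).toNat = j + 2 := by omega
    split_ifs with h1 h2 h3 h4 h5 <;> first | omega | skip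
    all_goals simp_all [ch_of, iX hX, dds, mul_assoc]

theorem ch_seg (b a c : ℤ) : ch X (seg (slw N b) a c) = (FF X N b a)⁻¹ * FF X N b c := by
  rw [seg_map, seg_eq (step hX hN b)]

/-- The values at the starting and landing places. -/
theorem vals {i : ℕ} (i1 : 1 ≤ i) (iN : i ≤ N) (k : ℤ) :
    FF X N (shb i false) (sta N i false) = dd X (i + 1) ∧ FF X N (shb i true) (sta N i true) = X (i + 1) ∧
      FF X N (shb i false) (lan N i false k) * (FF X N (shb i true) (lan N i true k))⁻¹ =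
        DD X (N + 1) k i ∧ ∃ ε : ℤ, (ε = 1 ∨ ε = -1) ∧
      FF X N (shb i false) (lan N i false k) * ch X (of (ix N k i)) ^ ε *
        (FF X N (shb i false) (lan N i false k))⁻¹ =
        DD X (N + 1) k (i - 1) * (DD X (N + 1) k i)⁻¹ * DD X (N + 1) k (i + 1) * (DD X (N + 1) k i)⁻¹ := by
  have s1 : shb i false = i % 2 := rfl
  have s2 : shb i true = 0 := rfl
  have l1 := FL hX hN (i % 2) 0 i1 iN
  have l2 := FR (X := X) hN 0 0 i1 iN
  rw [if_pos (by omega), zpow_zero, one_mul, zero_mul, add_zero] at l1 l2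
  refine ⟨l1, l2, ?_⟩
  rw [s1, s2, ch_of]
  obtain ⟨n, rfl | rfl⟩ : ∃ n, k = -(2 * n) ∨ k = -(2 * n + 1) := ⟨-k / 2, by omega⟩
  · have c : -(2 * n) % 2 = 0 := by omega
    simp only [DD, ix, if_pos c, show -(2 * n) / 2 = -n by omega, neg_neg]
    rw [show lan N i false (-(2 * n)) = N + i - 1 + n * (2 * N - 2) by simp only [lan, sta]; simp; ring,
      show lan N i true (-(2 * n)) = N - i + n * (2 * N - 2) by simp only [lan, sta]; simp; ring,
      FL hX hN _ _ i1 iN, FR hN _ _ i1 iN]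
    obtain ⟨i, rfl⟩ : ∃ j, i = j + 1 := ⟨i - 1, by omega⟩
    generalize n * (N + 1) = β
    by_cases u : β % 2 = 0
    · rw [if_pos (by omega), if_pos (by omega)]
      refine ⟨?_, 1, Or.inl rfl, ?_⟩ <;> simp [dds (i + 1), dds i, iX hX, mul_assoc, i2 hX]
    rw [if_neg (by omega), if_neg (show ¬ (0 + β) % 2 = 0 by omega)]
    split_ifs with w
    · subst w
      rw [zpow_neg]
      generalize dd X (i + 1 + 1) ^ n = δ
      refine ⟨?_, -1, Or.inr rfl, ?_⟩ <;> simp [dds (i + 1), dds i, iX hX, mul_assoc, i2 hX]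
    · refine ⟨?_, -1, Or.inr rfl, ?_⟩ <;> simp [dds (i + 1), dds i, iX hX, mul_assoc, i2 hX]
  · have c : ¬ -(2 * n + 1) % 2 = 0 := by omega
    simp only [DD, ix, if_neg c, show -(2 * n + 1) / 2 = -(n + 1) by omega, neg_neg,
      show -(n + 1) + 1 = -n by ring]
    obtain ⟨a, ha⟩ : ∃ a, N = i + a := ⟨N - i, by omega⟩
    rw [show N + 1 - i = a + 1 by omega, show N + 1 - (i - 1) = a + 1 + 1 by omega,
      show N + 1 - (i + 1) = a by omega,
      show lan N i false (-(2 * n + 1)) = i + (n + 1) * (2 * N - 2) by simp only [lan, sta]; simp; ring,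
      show lan N i true (-(2 * n + 1)) = N + a - 1 + n * (2 * N - 2) by
        simp only [lan, sta, ha]; simp; ring,
      FF_eq (r := i) _ _ (by omega) (by omega), add_mul n, zpow_neg]
    generalize dd X (N + 1) ^ (n + 1) = δ
    by_cases v : a = 0
    · subst v
      rw [FF_eq (r := N + (0 : ℕ) - 1) _ _ (by omega) (by omega)]
      generalize n * (N + 1) = β
      generalize dd X (N + 1) ^ n = δ'
      by_cases u : β % 2 = 0
      · rw [zB 1 (by omega) le_rfl (by omega), if_pos (by omega), zA 1 (by omega) (by omega)]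
        refine ⟨?_, 1, Or.inl rfl, ?_⟩ <;> simp [dd, pr, iX hX, mul_assoc, i2 hX]
      · rw [zA 0 (by omega) (by omega), zC (by omega) (by omega) (by omega)]
        refine ⟨?_, -1, Or.inr rfl, ?_⟩ <;> simp [dd, pr, iX hX, mul_assoc, i2 hX]
    rw [FL hX hN _ _ (show 1 ≤ a by omega) (by omega), if_neg (show a ≠ N by omega)]
    generalize n * (N + 1) = β
    generalize dd X (N + 1) ^ n = δ'
    split_ifs with u
    · rw [zC (by omega) (by omega) (by omega)]
      refine ⟨?_, 1, Or.inl rfl, ?_⟩ <;> simp [dds (a + 1), dds a, iX hX, mul_assoc, i2 hX]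
    · rw [zA a (by omega) (by omega)]
      refine ⟨?_, -1, Or.inr rfl, ?_⟩ <;> simp [dds (a + 1), dds a, iX hX, mul_assoc, i2 hX]

end Df

open Df EV.Df in
theorem df : S_DF := by
  intro G _ s t Δ N p P i k hN rel u v par
  have hΔ : Δ ∈ Subgroup.closure {s, t} := rel 0 ▸ alG_mem _ (yy_mem Al.ms Al.mt _) (yy_mem Al.ms Al.mt _)
  have a0 := lk G s t Δ N p P rel _ XX XX_sq k 0 i u v par (Or.inr (Or.inl rfl))
  have a1 := lk G s t Δ N p P rel _ XX XX_sq k 1 i u v par (Or.inr (Or.inr rfl))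
  rw [zpow_zero, mul_one] at a0
  rw [zpow_one, (P.arc _ (zpow_mem hΔ k) i u v par).1, map_mul, a0] at a1
  obtain ⟨b1, b2, b3, ε, b4, b5⟩ := vals XX_sq hN u v k
  refine ⟨ch_inj (a0.trans ?_), ε, b4, ch_inj ((eq_mul_inv_of_mul_eq a1).trans ?_)⟩
  · rw [map_mul, map_inv, bp, bp, ch_seg XX_sq hN, ch_seg XX_sq hN, b1, b2, WW, DE, if_pos rfl, ← b3]
    group
  · rw [map_mul, map_mul, map_inv, map_zpow, bp, ch_seg XX_sq hN, b1, WW, WW, DE, DE, if_pos rfl,
      if_neg one_ne_zero, if_pos rfl, eq_mul_inv_of_mul_eq b5.symm]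
    group

end Pool.Agent.MP_6eaae3_al.MX

end PartDf

section PartPq

/-! Words whose letters carry a fixed sign. -/

namespace Pool.Agent.MP_6eaae3_al.MX

open FreeGroup (of mk invRev IsReduced)
open Set Pool.Agent.MP_6eaae3_al.LT Pool.Agent.MP_6eaae3_al.LT.Path Pool.Agent.MP_6eaae3_al.EV

namespace Pq

variable {L : Type} {u : ℤ → ℕ × Bool} {D : Set (ℕ × Bool)} {f : ℤ → FH}

theorem red (s : L → Bool) {l : List (L × Bool)} (h : ∀ x ∈ l, x.2 = s x.1) : IsReduced l :=
  (List.pairwise_of_forall_mem_list fun a ha b hb e => by rw [h a ha, h b hb, e]).isChain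

theorem red_inv (s : L → Bool) {l : List (L × Bool)} (h : ∀ x ∈ l, x.2 = s x.1) :
    IsReduced (invRev l) :=
  red (fun x => !s x) fun x hx => by
    simp only [FreeGroup.invRev, List.mem_reverse, List.mem_map] at hx
    obtain ⟨y, hy, rfl⟩ := hx
    simp only [h y hy]

theorem split {A : Set L} {l l' : List (L × Bool)} (h : IsReduced l) (h' : IsReduced l')
    (j : ∀ x ∈ l.getLast?, ∀ y ∈ l'.head?, x.1 ≠ y.1) (m : mk l * mk l' ∈ Fre A) :
    mk l ∈ Fre A ∧ mk l' ∈ Fre A := by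
  rw [FreeGroup.mul_mk, wd_mem,
    wd_mk (List.IsChain.append h h' fun x hx y hy e => (j x hx y hy e).elim)] at m
  exact ⟨mk_mem_Fre fun a ha => m a (List.mem_append_left _ ha),
    mk_mem_Fre fun a ha => m a (List.mem_append_right _ ha)⟩

theorem lst (h : Pw u D f) {a c : ℤ} (hc : a ≤ c) : ∃ l : List ((ℕ × Bool) × Bool),
    seg f a c = mk l ∧ (∀ x ∈ l, x.2 = x.1.2) ∧
    (∀ p, a ≤ p → p < c → u p ∈ D → ∃ x ∈ l, x.1 = u p) ∧
    (∀ x ∈ l.getLast?, ∃ p, p < c ∧ u p = x.1 ∧ u p ∈ D ∧ ∀ r, r < c → u r ∈ D → r ≤ p) ∧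
    ∀ x ∈ l.head?, ∃ p, a ≤ p ∧ u p = x.1 ∧ u p ∈ D ∧ ∀ r, a ≤ r → u r ∈ D → p ≤ r := by
  induction c, hc using Int.le_induction with
  | base => exact ⟨[], seg_self f a, by simp, fun p _ _ => by omega, by simp, by simp⟩
  | succ c hc ih =>
    obtain ⟨l, e, h1, h2, h3, h4⟩ := ih
    rcases h c with ⟨d, v⟩ | ⟨d, v⟩
    · refine ⟨l ++ [(u c, (u c).2)], ?_, ?_, fun p p1 p2 p3 => ?_, ?_, ?_⟩
      · rw [seg_succ, e, v, ← FreeGroup.mul_mk, sgl]
        cases (u c).2 <;> rfl
      · intro x hx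
        rcases List.mem_append.1 hx with hx | hx
        · exact h1 x hx
        · rw [List.mem_singleton.1 hx]
      · by_cases k : p = c
        · exact ⟨_, List.mem_append_right _ (List.mem_singleton_self _), k ▸ rfl⟩
        · exact (h2 p p1 (by omega) p3).imp fun x hx => ⟨List.mem_append_left _ hx.1, hx.2⟩
      · intro x hx
        rw [List.getLast?_concat, Option.mem_def, Option.some.injEq] at hx
        exact ⟨c, by omega, hx ▸ rfl, d, fun r k _ => by omega⟩
      · intro x hx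
        rcases l with _ | ⟨y, l⟩
        · rw [List.nil_append, List.head?_cons, Option.mem_def, Option.some.injEq] at hx
          refine ⟨c, hc, hx ▸ rfl, d, fun r k k' => not_lt.1 fun k2 => ?_⟩
          simpa using h2 r k k2 k'
        · exact h4 x hx
    · have ne : ∀ r, u r ∈ D → r < c + 1 → r < c := fun r k k' =>
        lt_of_le_of_ne (by omega) fun e => d (e ▸ k)
      refine ⟨l, by rw [seg_succ, e, v, mul_one], h1, fun p p1 p2 p3 => h2 p p1 (ne p p3 p2) p3,
        fun x hx => ?_, h4⟩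
      obtain ⟨p, p1, p2, p3, p4⟩ := h3 x hx
      exact ⟨p, by omega, p2, p3, fun r k k' => p4 r (ne r k' k) k'⟩

theorem po {A : Set (ℕ × Bool)} {a c p : ℤ} (h : Pw u D f) (m : seg f a c ∈ Fre A) (h1 : a ≤ p)
    (h2 : p < c) (d : u p ∈ D) : u p ∈ A := by
  obtain ⟨l, e, s, k, -⟩ := lst h (show a ≤ c by omega)
  obtain ⟨x, hx, ex⟩ := k p h1 h2 d
  rw [e, wd_mem, wd_mk (red Prod.snd s)] at m
  exact ex ▸ m x hx

end Pq

theorem po : S_PO := by
  rintro u D f A a c p h m (⟨h1, h2⟩ | ⟨h1, h2⟩) d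
  · exact Pq.po h m h1 h2 d
  · exact Pq.po h (seg_inv f a c ▸ inv_mem m) h1 h2 d

theorem pq : S_PQ := by
  intro u D f A T a a' d q q' h per inj q1 q2 q3 r1 r2 r3 m
  have key : ∀ p p', u p ∈ D → p < p' → p' < p + T → u p ≠ u p' := fun p p' k k1 k2 e => by
    have := Int.le_of_dvd (by omega) (inj p p' k e)
    omega
  rcases le_total 0 d with d0 | d0
  · obtain ⟨l, e, s, -, k, -⟩ := Pq.lst h (show a' ≤ a' + d by omega)
    obtain ⟨l', e', s', -, k', -⟩ := Pq.lst h (show a ≤ a + d by omega)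
    rw [e, e', FreeGroup.inv_mk] at m
    have := Pq.split (Pq.red Prod.snd s) (Pq.red_inv Prod.snd s') (fun x hx y hy => by
      simp only [FreeGroup.invRev, List.head?_reverse, List.getLast?_map, Option.mem_def,
        Option.map_eq_some_iff] at hy
      obtain ⟨z, hz, rfl⟩ := hy
      obtain ⟨p, p1, p2, p3, p4⟩ := k x hx
      obtain ⟨t, t1, t2, t3, t4⟩ := k' z hz
      have := p4 q q2 q3
      have := t4 q' r2 r3
      exact fun w => key t p t3 (by omega) (by omega) (t2.trans (w.symm.trans p2.symm))) m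
    rwa [← FreeGroup.inv_mk, inv_mem_iff, ← e, ← e'] at this
  · obtain ⟨l, e, s, -, -, k⟩ := Pq.lst h (show a' + d ≤ a' by omega)
    obtain ⟨l', e', s', -, -, k'⟩ := Pq.lst h (show a + d ≤ a by omega)
    rw [seg_inv, ← seg_inv f (a' + d), e, e', FreeGroup.inv_mk] at m
    have := Pq.split (Pq.red_inv Prod.snd s) (Pq.red Prod.snd s') (fun x hx y hy => by
      simp only [FreeGroup.invRev, List.getLast?_reverse, List.head?_map, Option.mem_def,
        Option.map_eq_some_iff] at hx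
      obtain ⟨z, hz, rfl⟩ := hx
      obtain ⟨p, p1, p2, p3, p4⟩ := k z hz
      obtain ⟨t, t1, t2, t3, t4⟩ := k' y hy
      have := p4 (q' + T) (by omega) (by rwa [per])
      have := t4 q q1 q3
      exact fun w => key t p t3 (by omega) (by omega) (t2.trans (w.symm.trans p2.symm))) m
    rwa [← FreeGroup.inv_mk, ← e, ← e', seg_inv, ← seg_inv f a, inv_mem_iff] at this

end Pool.Agent.MP_6eaae3_al.MX

end PartPq

section PartPl

/-! The letters of the paths of the ports. -/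

namespace Pool.Agent.MP_6eaae3_al.MX

open FreeGroup (of mk invRev IsReduced)
open Set Pool.Agent.MP_6eaae3_al.LT Pool.Agent.MP_6eaae3_al.LT.Path Pool.Agent.MP_6eaae3_al.EV

namespace Pl

theorem pw (N π : ℕ) (b : ℤ) :
    Pw (slot N b) {x | x.1 ≠ 0 ∧ x.1 % 2 = π} (hat N π b) := fun p => by
  by_cases h : (slot N b p).1 ≠ 0 ∧ (slot N b p).1 % 2 = π
  · exact Or.inl ⟨h, if_pos h⟩
  · exact Or.inr ⟨h, if_neg h⟩

theorem kl_sgl (j : ℕ) (x : ℕ × Bool) : kl j (sgl x) = if x.1 = j then 1 else sgl x := by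
  unfold sgl
  by_cases h : x.1 = j <;> split_ifs <;> simp_all [kl]

theorem pw' (N π j : ℕ) (b : ℤ) :
    Pw (slot N b) {x | (x.1 ≠ 0 ∧ x.1 % 2 = π) ∧ x.1 ≠ j} fun p => kl j (hat N π b p) := fun p => by
  rcases pw N π b p with ⟨h, e⟩ | ⟨h, e⟩
  · by_cases c : (slot N b p).1 = j
    · exact Or.inr ⟨fun u => u.2 c, by simp only [e, kl_sgl, if_pos c]⟩
    · exact Or.inl ⟨⟨h, c⟩, by simp only [e, kl_sgl, if_neg c]⟩
  · exact Or.inr ⟨fun u => h u.1, by simp only [e, map_one]⟩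

theorem hat_eq {N π : ℕ} {b b' p p' : ℤ} (h : slot N b p = slot N b' p') :
    hat N π b p = hat N π b' p' := by
  unfold hat; rw [h]

end Pl

theorem pl : S_PO → S_PQ → S_PL := by
  intro po pq N π i k A hN h1 h2
  obtain ⟨p1, p2, p3, -, p5, -⟩ := pe N hN
  refine ⟨fun e h x hx ⟨x0, p, hp, ex⟩ => ?_, fun e j h x hx ⟨x0, p, hp, ex⟩ => ?_,
    fun par ⟨⟨q, q1, q2, q3⟩, q', r1, r2, r3⟩ h => ?_, fun hN1 hi => ?_⟩
  · subst ex
    exact po _ _ _ A _ _ p (Pl.pw N π _) h hp ⟨x0, hx⟩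
  · subst ex
    by_contra c
    rw [bh, seg_map] at h
    exact po _ _ _ ∅ _ _ p (Pl.pw' N π j _) (by rw [h]; exact one_mem _) hp ⟨⟨x0, hx⟩, c⟩
  · have sh : bh N π i false k = seg (hat N π 0) (sta N i false + i % 2 * (2 * N - 2))
        (sta N i false + i % 2 * (2 * N - 2) + -(k * (N - 1))) := by
      rw [add_right_comm, seg_shift (g := hat N π (shb i false)) _ fun p => Pl.hat_eq ?_]
      · rfl
      · rw [p1]
        refine p2 _ _ _ ?_
        show (0 + (i : ℤ) % 2 * (N + 1)) % 2 = (i : ℤ) % 2 % 2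
        rcases Int.emod_two_eq_zero_or_one (i : ℤ) with c | c <;> rw [c] <;> omega
    have st : bh N π i true k = seg (hat N π 0) (sta N i true) (sta N i true + -(k * (N - 1))) := rfl
    rw [sh, st] at h
    have per : ∀ p, slot N 0 (p + (if N % 2 = 0 then 2 else 1) * (2 * (N : ℤ) - 2)) = slot N 0 p :=
      fun p => by
        rw [p1]
        refine p2 _ _ _ ?_
        split_ifs <;> omega
    have := pq _ _ _ A _ _ _ _ q q' (Pl.pw N π 0) per (fun p p' u v => p3 p p' u.1 v)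
      (by unfold lan at q1; omega) (by unfold lan at q2; omega) q3
      (by unfold lan at r1; omega) (by unfold lan at r2; omega) r3 h
    intro e
    cases e
    · rw [sh]; exact this.1
    · rw [st]; exact this.2
  · refine Subgroup.mem_bot.1 (seg_mem fun p _ => Subgroup.mem_bot.2 (if_neg fun u => u.1 ?_))
    have c : shb i false = 1 := by
      show (i : ℤ) % 2 = 1
      omega
    rw [c] at u ⊢
    exact p5 p hN1 u.2

end Pool.Agent.MP_6eaae3_al.MX

end PartPl

section PartEn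

/-! Words in side letters are read off by an action on pairs of a state and a word. -/

namespace Pool.Agent.MP_6eaae3_al.MX

open FreeGroup (of mk invRev IsReduced)
open Set Pool.Agent.MP_6eaae3_al.LT Pool.Agent.MP_6eaae3_al.LT.Path Pool.Agent.MP_6eaae3_al.EV

namespace En

open Classical in
/-- The letter written by the curve `j` in the state `t`. -/
noncomputable def gg (j : ℕ) (t : ℕ → ℤ) : FH :=
  if t = 0 then of (j, false) else if t = Pi.single j 1 then of (j, true) else 1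

/-- The action. -/
noncomputable def PP : FH →* Equiv.Perm ((ℕ → ℤ) × FH) :=
  FreeGroup.lift fun a => if a.2 then (Equiv.addRight (Pi.single a.1 1)).prodCongr (Equiv.refl _)
    else (Equiv.refl _).prodShear fun t => Equiv.mulLeft (gg a.1 t)

def bb (e : Bool) : ℤ := if e then 1 else 0

/-- The word written by a word in side letters. -/
noncomputable def mu (t : ℕ → ℤ) : FH →* FH :=
  FreeGroup.lift fun a => gg a.1 (t + Pi.single a.1 (bb a.2))

theorem P_eo (j : ℕ) (e : Bool) (t : ℕ → ℤ) (x : FH) :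
    PP (eo j e) (t, x) = (t + Pi.single j (bb e), x) := by
  cases e <;> simp [PP, eo, bb]

theorem P_eo' (j : ℕ) (e : Bool) (t : ℕ → ℤ) (x : FH) :
    PP (eo j e)⁻¹ (t, x) = (t + Pi.single j (-bb e), x) := by
  rw [map_inv, Equiv.Perm.inv_eq_iff_eq, P_eo, add_assoc, ← Pi.single_add, neg_add_cancel,
    Pi.single_zero, add_zero]

theorem P_ff (j : ℕ) (t : ℕ → ℤ) (x : FH) : PP (ff j) (t, x) = (t, gg j t * x) := by
  simp [PP, ff]

theorem P_be (w : FH) : ∀ (t : ℕ → ℤ) (x : FH), PP (be w) (t, x) = (t, mu t w * x) := by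
  induction w using FreeGroup.induction_on with
  | C1 => intro t x; simp
  | of a =>
    intro t x
    obtain ⟨j, e⟩ := a
    rw [be_of, map_mul, map_mul, Equiv.Perm.mul_apply,
      Equiv.Perm.mul_apply, P_eo, P_ff, P_eo', add_assoc, ← Pi.single_add, add_neg_cancel,
      Pi.single_zero, add_zero, mu, FreeGroup.lift_apply_of]
  | inv_of a h =>
    intro t x
    rw [map_inv, map_inv, map_inv, Equiv.Perm.inv_eq_iff_eq, h, mul_inv_cancel_left]
  | mul u v hu hv =>
    intro t x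
    rw [map_mul, map_mul, map_mul, Equiv.Perm.mul_apply, hv, hu, mul_assoc]

theorem P_fz (j : ℕ) (a : ℤ) (t : ℕ → ℤ) (x : FH) :
    PP (ff j ^ a) (t, x) = (t, gg j t ^ a * x) := by
  have h := P_be (of (j, false) ^ a) t x
  rw [be_zpow, map_zpow (mu t), mu, FreeGroup.lift_apply_of] at h
  simpa [eo, bb] using h

theorem P_true {w : FH} (h : w ∈ Fre {x : ℕ × Bool | x.2 = true}) (p : (ℕ → ℤ) × FH) :
    (PP w p).2 = p.2 := by
  induction h using Subgroup.closure_induction generalizing p with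
  | mem y hy =>
    obtain ⟨⟨j, e⟩, rfl, rfl⟩ := hy
    have h := P_eo j true p.1 p.2
    rw [eo, if_pos rfl] at h
    rw [h]
  | one => simp
  | mul u v _ _ hu hv => rw [map_mul, Equiv.Perm.mul_apply, hu, hv]
  | inv u _ hu => rw [← hu (PP u⁻¹ p), ← Equiv.Perm.mul_apply, ← map_mul, mul_inv_cancel, map_one]; rfl

theorem gg_bb (j : ℕ) (e : Bool) : gg j (Pi.single j (bb e)) = of (j, e) := by
  have h : (Pi.single j 1 : ℕ → ℤ) ≠ 0 := fun h => by simpa using congrFun h j
  cases e <;> simp [gg, bb, h]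

theorem gg_mem (j : ℕ) (t : ℕ → ℤ) : gg j t ∈ Fre (Ho j) := by
  unfold gg; split_ifs
  exacts [of_mem_Fre rfl, of_mem_Fre rfl, one_mem _]

theorem mu_zero (w : FH) : mu 0 w = w := by
  have : mu 0 = MonoidHom.id _ := FreeGroup.ext_hom _ _ fun a => by
    rw [mu, FreeGroup.lift_apply_of, zero_add, gg_bb]; rfl
  rw [this]; rfl

theorem mu_mem (i : ℕ) {c : ℤ} (hc : c ≠ 0) (w : FH) : mu (Pi.single i c) w ∈ Fre (Ho i) := by
  induction w using FreeGroup.induction_on with
  | C1 => simp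
  | of a =>
    rw [mu, FreeGroup.lift_apply_of]
    by_cases h : a.1 = i
    · exact h ▸ gg_mem _ _
    · have h' : i ≠ a.1 := fun e => h e.symm
      rw [gg, if_neg fun e => hc (by simpa [h'] using congrFun e i),
        if_neg fun e => hc (by simpa [h'] using congrFun e i)]
      exact one_mem _
  | inv_of a h => rw [map_inv]; exact inv_mem h
  | mul u v hu hv => rw [map_mul]; exact mul_mem hu hv

theorem kl_ho {i : ℕ} {w : FH} (h : w ∈ Fre (Ho i)) : kl i w = 1 :=
  Subgroup.mem_bot.1 (Fre.map_mem (kl i) (K := ⊥) (fun x hx => by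
    rw [kl, FreeGroup.lift_apply_of, if_pos (show x.1 = i from hx)]; exact one_mem _) h)

theorem kl_gg (i : ℕ) (t : ℕ → ℤ) : kl i (gg i t) = 1 := kl_ho (gg_mem i t)

theorem kl_mu (i : ℕ) (c : ℤ) (w : FH) :
    kl i (mu (Pi.single i c) w) = if c = 0 then kl i w else 1 := by
  split_ifs with h
  · rw [h, Pi.single_zero, mu_zero]
  · exact kl_ho (mu_mem i h w)

theorem en_eo {i : ℕ} {A : Set (ℕ × Bool)} {X : FH} (h : En (ff i) (of (i, true)) (Dk A) X) :
    ∃ (a b : ℤ) (κ : FH) (d d' : Bool), κ ∈ Fre A ∧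
      X = ff i ^ a * eo i d * be κ * (eo i d')⁻¹ * ff i ^ b := by
  obtain ⟨a, b, _, _, _, ⟨κ, hκ, rfl⟩, rfl | rfl, rfl | rfl, h⟩ := h
  exacts [⟨a, b, κ, false, false, hκ, h⟩, ⟨a, b, κ, false, true, hκ, h⟩,
    ⟨a, b, κ, true, false, hκ, h⟩, ⟨a, b, κ, true, true, hκ, h⟩]

end En

open En in
theorem en : S_EN := by
  intro i A w
  refine ⟨?_, fun h => ?_, fun e e' h => ?_, fun w' e e' u => ⟨fun j h => ?_, fun a b c h => ?_⟩⟩
  · rintro ⟨κ, hκ, h⟩
    have h1 := congrArg (fun y => (PP y (0, 1)).2) h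
    simp only [P_be, mu_zero, mul_one] at h1
    exact h1 ▸ hκ
  · simpa only [P_be, mu_zero, mul_one] using P_true h (0, 1)
  · obtain ⟨a, b, κ, d, d', hκ, h⟩ := en_eo h
    have h1 := congrArg (fun y => PP y (Pi.single i (bb e'), 1)) h
    simp only [map_mul PP, Equiv.Perm.mul_apply, P_eo, P_eo', P_be, P_fz, ← Pi.single_add,
      add_neg_cancel, zero_add, Pi.single_zero, mu_zero, mul_one, gg_bb, Prod.mk.injEq] at h1
    obtain ⟨h2, h3⟩ := h1
    rw [← h2, gg_bb] at h3
    by_cases hd : bb e' + -bb d' = 0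
    · rw [hd, Pi.single_zero, mu_zero] at h3
      refine Or.inl ⟨-a, -b, ?_⟩
      rw [show of (i, e) ^ (-a) * w * of (i, e') ^ (-b) = κ by rw [h3]; group]
      exact hκ
    · have ho : ∀ (e : Bool) (a : ℤ), (of (i, e) : FH) ^ a ∈ Fre (Ho i) := fun e a =>
        zpow_mem (of_mem_Fre (show (i, e) ∈ Ho i from rfl)) a
      rw [h3]
      exact Or.inr (mul_mem (ho e a) (mul_mem (mu_mem i hd κ) (ho e' b)))
  · obtain ⟨a, b, κ, d, d', hκ, h⟩ := en_eo h
    have hu : bb (!u) + -bb u ≠ 0 := by cases u <;> simp [bb]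
    have hj : j = i := by
      by_contra hj
      have h1 := congrArg (fun y => (PP y (0, 1)).1 j) h
      simp only [map_mul PP, Equiv.Perm.mul_apply, P_eo, P_eo', P_be, P_fz, Pi.add_apply,
        Pi.single_eq_same, Pi.single_eq_of_ne hj, Pi.zero_apply] at h1
      omega
    subst hj
    have h1 := fun c : ℤ => congrArg (fun y => kl j (PP y (Pi.single j c, 1)).2) h
    simp only [map_mul PP, Equiv.Perm.mul_apply, P_eo, P_eo', P_be, P_fz, ← Pi.single_add,
      map_mul (kl j), map_zpow (kl j), kl_gg, kl_mu, one_zpow, mul_one, one_mul] at h1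
    refine ⟨rfl, ?_⟩
    by_cases hd : bb e' = bb d'
    · have h2 := h1 (bb e' - (bb (!u) + -bb u))
      rw [if_pos (by omega), if_neg (by omega), if_neg (by omega), mul_one] at h2
      exact Or.inl h2
    · have h2 := h1 (bb e')
      rw [if_neg (by omega), if_pos (by omega), if_neg (by omega), one_mul] at h2
      exact Or.inr h2
  · have hu : bb (!u) + -bb u ≠ 0 := by cases u <;> simp [bb]
    have h1 := fun c : ℤ => congrArg (kl i) (P_true h (Pi.single i c, 1))
    simp only [map_mul PP, Equiv.Perm.mul_apply, P_eo, P_eo', P_be, P_fz, ← Pi.single_add,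
      map_mul (kl i), map_zpow (kl i), kl_gg, kl_mu, one_zpow, mul_one, one_mul, map_one] at h1
    have h2 := h1 (bb e' - (bb (!u) + -bb u))
    have h3 := h1 (bb e')
    rw [if_pos (by omega), if_neg (by omega), mul_one] at h2
    rw [if_neg (by omega), if_pos (by omega), one_mul] at h3
    exact ⟨h2, h3⟩

end Pool.Agent.MP_6eaae3_al.MX

end PartEn
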