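import Pool.Agent.MP_6eaae3_al.MX.Basic

/-! The letters of the paths of the ports. -/

namespace Pool.Agent.MP_6eaae3_al.MX

open FreeGroup (of mk invRev IsReduced)
open Set Pool.Agent.MP_6eaae3_al.LT Pool.Agent.MP_6eaae3_al.LT.Path Pool.Agent.MP_6eaae3_al.EV

namespace Pl

theorem pw (N π : ℕ) (b : ℤ) :
    Pw (slot N b) {x | x.1 ≠ 0 ∧ x.1 % 2 = π} (hat N π b) := fun p => by
  by_cases h : (slot N b p).1 ≠ 0 ∧ (slot N b p).1 % 2 = π
  · exact Or.inl ⟨h, if_pos h⟩
  · exact Or.inr ⟨h, if_neg h⟩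

theorem kl_sgl (j : ℕ) (x : ℕ × Bool) : kl j (sgl x) = if x.1 = j then 1 else sgl x := by
  unfold sgl
  by_cases h : x.1 = j <;> split_ifs <;> simp_all [kl]

theorem pw' (N π j : ℕ) (b : ℤ) :
    Pw (slot N b) {x | (x.1 ≠ 0 ∧ x.1 % 2 = π) ∧ x.1 ≠ j} fun p => kl j (hat N π b p) := fun p => by
  rcases pw N π b p with ⟨h, e⟩ | ⟨h, e⟩
  · by_cases c : (slot N b p).1 = j
    · exact Or.inr ⟨fun u => u.2 c, by simp only [e, kl_sgl, if_pos c]⟩
    · exact Or.inl ⟨⟨h, c⟩, by simp only [e, kl_sgl, if_neg c]⟩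
  · exact Or.inr ⟨fun u => h u.1, by simp only [e, map_one]⟩

theorem hat_eq {N π : ℕ} {b b' p p' : ℤ} (h : slot N b p = slot N b' p') :
    hat N π b p = hat N π b' p' := by
  unfold hat; rw [h]

end Pl

theorem pl : S_PO → S_PQ → S_PL := by
  intro po pq N π i k A hN h1 h2
  obtain ⟨p1, p2, p3, -, p5, -⟩ := pe N hN
  refine ⟨fun e h x hx ⟨x0, p, hp, ex⟩ => ?_, fun e j h x hx ⟨x0, p, hp, ex⟩ => ?_,
    fun par ⟨⟨q, q1, q2, q3⟩, q', r1, r2, r3⟩ h => ?_, fun hN1 hi => ?_⟩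
  · subst ex
    exact po _ _ _ A _ _ p (Pl.pw N π _) h hp ⟨x0, hx⟩
  · subst ex
    by_contra c
    rw [bh, seg_map] at h
    exact po _ _ _ ∅ _ _ p (Pl.pw' N π j _) (by rw [h]; exact one_mem _) hp ⟨⟨x0, hx⟩, c⟩
  · have sh : bh N π i false k = seg (hat N π 0) (sta N i false + i % 2 * (2 * N - 2))
        (sta N i false + i % 2 * (2 * N - 2) + -(k * (N - 1))) := by
      rw [add_right_comm, seg_shift (g := hat N π (shb i false)) _ fun p => Pl.hat_eq ?_]
      · rfl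
      · rw [p1]
        refine p2 _ _ _ ?_
        show (0 + (i : ℤ) % 2 * (N + 1)) % 2 = (i : ℤ) % 2 % 2
        rcases Int.emod_two_eq_zero_or_one (i : ℤ) with c | c <;> rw [c] <;> omega
    have st : bh N π i true k = seg (hat N π 0) (sta N i true) (sta N i true + -(k * (N - 1))) := rfl
    rw [sh, st] at h
    have per : ∀ p, slot N 0 (p + (if N % 2 = 0 then 2 else 1) * (2 * (N : ℤ) - 2)) = slot N 0 p :=
      fun p => by
        rw [p1]
        refine p2 _ _ _ ?_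
        split_ifs <;> omega
    have := pq _ _ _ A _ _ _ _ q q' (Pl.pw N π 0) per (fun p p' u v => p3 p p' u.1 v)
      (by unfold lan at q1; omega) (by unfold lan at q2; omega) q3
      (by unfold lan at r1; omega) (by unfold lan at r2; omega) r3 h
    intro e
    cases e
    · rw [sh]; exact this.1
    · rw [st]; exact this.2
  · refine Subgroup.mem_bot.1 (seg_mem fun p _ => Subgroup.mem_bot.2 (if_neg fun u => u.1 ?_))
    have c : shb i false = 1 := by
      show (i : ℤ) % 2 = 1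
      omega
    rw [c] at u ⊢
    exact p5 p hN1 u.2

end Pool.Agent.MP_6eaae3_al.MX
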