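import Pool.Agent.MP_6eaae3_al.MX.Basic

/-! Words whose letters carry a fixed sign. -/

namespace Pool.Agent.MP_6eaae3_al.MX

open FreeGroup (of mk invRev IsReduced)
open Set Pool.Agent.MP_6eaae3_al.LT Pool.Agent.MP_6eaae3_al.LT.Path Pool.Agent.MP_6eaae3_al.EV

namespace Pq

variable {L : Type} {u : ℤ → ℕ × Bool} {D : Set (ℕ × Bool)} {f : ℤ → FH}

theorem red (s : L → Bool) {l : List (L × Bool)} (h : ∀ x ∈ l, x.2 = s x.1) : IsReduced l :=
  (List.pairwise_of_forall_mem_list fun a ha b hb e => by rw [h a ha, h b hb, e]).isChain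

theorem red_inv (s : L → Bool) {l : List (L × Bool)} (h : ∀ x ∈ l, x.2 = s x.1) :
    IsReduced (invRev l) :=
  red (fun x => !s x) fun x hx => by
    simp only [FreeGroup.invRev, List.mem_reverse, List.mem_map] at hx
    obtain ⟨y, hy, rfl⟩ := hx
    simp only [h y hy]

theorem split {A : Set L} {l l' : List (L × Bool)} (h : IsReduced l) (h' : IsReduced l')
    (j : ∀ x ∈ l.getLast?, ∀ y ∈ l'.head?, x.1 ≠ y.1) (m : mk l * mk l' ∈ Fre A) :
    mk l ∈ Fre A ∧ mk l' ∈ Fre A := by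
  rw [FreeGroup.mul_mk, wd_mem,
    wd_mk (List.IsChain.append h h' fun x hx y hy e => (j x hx y hy e).elim)] at m
  exact ⟨mk_mem_Fre fun a ha => m a (List.mem_append_left _ ha),
    mk_mem_Fre fun a ha => m a (List.mem_append_right _ ha)⟩

theorem lst (h : Pw u D f) {a c : ℤ} (hc : a ≤ c) : ∃ l : List ((ℕ × Bool) × Bool),
    seg f a c = mk l ∧ (∀ x ∈ l, x.2 = x.1.2) ∧
    (∀ p, a ≤ p → p < c → u p ∈ D → ∃ x ∈ l, x.1 = u p) ∧
    (∀ x ∈ l.getLast?, ∃ p, p < c ∧ u p = x.1 ∧ u p ∈ D ∧ ∀ r, r < c → u r ∈ D → r ≤ p) ∧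
    ∀ x ∈ l.head?, ∃ p, a ≤ p ∧ u p = x.1 ∧ u p ∈ D ∧ ∀ r, a ≤ r → u r ∈ D → p ≤ r := by
  induction c, hc using Int.le_induction with
  | base => exact ⟨[], seg_self f a, by simp, fun p _ _ => by omega, by simp, by simp⟩
  | succ c hc ih =>
    obtain ⟨l, e, h1, h2, h3, h4⟩ := ih
    rcases h c with ⟨d, v⟩ | ⟨d, v⟩
    · refine ⟨l ++ [(u c, (u c).2)], ?_, ?_, fun p p1 p2 p3 => ?_, ?_, ?_⟩
      · rw [seg_succ, e, v, ← FreeGroup.mul_mk, sgl]
        cases (u c).2 <;> rfl
      · intro x hx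
        rcases List.mem_append.1 hx with hx | hx
        · exact h1 x hx
        · rw [List.mem_singleton.1 hx]
      · by_cases k : p = c
        · exact ⟨_, List.mem_append_right _ (List.mem_singleton_self _), k ▸ rfl⟩
        · exact (h2 p p1 (by omega) p3).imp fun x hx => ⟨List.mem_append_left _ hx.1, hx.2⟩
      · intro x hx
        rw [List.getLast?_concat, Option.mem_def, Option.some.injEq] at hx
        exact ⟨c, by omega, hx ▸ rfl, d, fun r k _ => by omega⟩
      · intro x hx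
        rcases l with _ | ⟨y, l⟩
        · rw [List.nil_append, List.head?_cons, Option.mem_def, Option.some.injEq] at hx
          refine ⟨c, hc, hx ▸ rfl, d, fun r k k' => not_lt.1 fun k2 => ?_⟩
          simpa using h2 r k k2 k'
        · exact h4 x hx
    · have ne : ∀ r, u r ∈ D → r < c + 1 → r < c := fun r k k' =>
        lt_of_le_of_ne (by omega) fun e => d (e ▸ k)
      refine ⟨l, by rw [seg_succ, e, v, mul_one], h1, fun p p1 p2 p3 => h2 p p1 (ne p p3 p2) p3,
        fun x hx => ?_, h4⟩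
      obtain ⟨p, p1, p2, p3, p4⟩ := h3 x hx
      exact ⟨p, by omega, p2, p3, fun r k k' => p4 r (ne r k' k) k'⟩

theorem po {A : Set (ℕ × Bool)} {a c p : ℤ} (h : Pw u D f) (m : seg f a c ∈ Fre A) (h1 : a ≤ p)
    (h2 : p < c) (d : u p ∈ D) : u p ∈ A := by
  obtain ⟨l, e, s, k, -⟩ := lst h (show a ≤ c by omega)
  obtain ⟨x, hx, ex⟩ := k p h1 h2 d
  rw [e, wd_mem, wd_mk (red Prod.snd s)] at m
  exact ex ▸ m x hx

end Pq

theorem po : S_PO := by
  rintro u D f A a c p h m (⟨h1, h2⟩ | ⟨h1, h2⟩) d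
  · exact Pq.po h m h1 h2 d
  · exact Pq.po h (seg_inv f a c ▸ inv_mem m) h1 h2 d

theorem pq : S_PQ := by
  intro u D f A T a a' d q q' h per inj q1 q2 q3 r1 r2 r3 m
  have key : ∀ p p', u p ∈ D → p < p' → p' < p + T → u p ≠ u p' := fun p p' k k1 k2 e => by
    have := Int.le_of_dvd (by omega) (inj p p' k e)
    omega
  rcases le_total 0 d with d0 | d0
  · obtain ⟨l, e, s, -, k, -⟩ := Pq.lst h (show a' ≤ a' + d by omega)
    obtain ⟨l', e', s', -, k', -⟩ := Pq.lst h (show a ≤ a + d by omega)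
    rw [e, e', FreeGroup.inv_mk] at m
    have := Pq.split (Pq.red Prod.snd s) (Pq.red_inv Prod.snd s') (fun x hx y hy => by
      simp only [FreeGroup.invRev, List.head?_reverse, List.getLast?_map, Option.mem_def,
        Option.map_eq_some_iff] at hy
      obtain ⟨z, hz, rfl⟩ := hy
      obtain ⟨p, p1, p2, p3, p4⟩ := k x hx
      obtain ⟨t, t1, t2, t3, t4⟩ := k' z hz
      have := p4 q q2 q3
      have := t4 q' r2 r3
      exact fun w => key t p t3 (by omega) (by omega) (t2.trans (w.symm.trans p2.symm))) m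
    rwa [← FreeGroup.inv_mk, inv_mem_iff, ← e, ← e'] at this
  · obtain ⟨l, e, s, -, -, k⟩ := Pq.lst h (show a' + d ≤ a' by omega)
    obtain ⟨l', e', s', -, -, k'⟩ := Pq.lst h (show a + d ≤ a by omega)
    rw [seg_inv, ← seg_inv f (a' + d), e, e', FreeGroup.inv_mk] at m
    have := Pq.split (Pq.red_inv Prod.snd s) (Pq.red Prod.snd s') (fun x hx y hy => by
      simp only [FreeGroup.invRev, List.getLast?_reverse, List.head?_map, Option.mem_def,
        Option.map_eq_some_iff] at hx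
      obtain ⟨z, hz, rfl⟩ := hx
      obtain ⟨p, p1, p2, p3, p4⟩ := k z hz
      obtain ⟨t, t1, t2, t3, t4⟩ := k' y hy
      have := p4 (q' + T) (by omega) (by rwa [per])
      have := t4 q q1 q3
      exact fun w => key t p t3 (by omega) (by omega) (t2.trans (w.symm.trans p2.symm))) m
    rwa [← FreeGroup.inv_mk, ← e, ← e', seg_inv, ← seg_inv f a, inv_mem_iff] at this

end Pool.Agent.MP_6eaae3_al.MX
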