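import Pool.Agent.MP_6eaae3_al.EV.All

/-! Definitions and statements for cliques without the label three. -/

namespace Pool.Agent.MP_6eaae3_al.MX

open FreeGroup (of mk invRev IsReduced)
open Set Pool.Agent.MP_6eaae3_al.LT Pool.Agent.MP_6eaae3_al.EV

variable {M V L G H : Type}

/-! Classes of curves and seeds. -/

def Em (a i : ℕ) : Prop := i < a

def Ep (a i : ℕ) : Prop := a ≤ i ∧ i < 2 * a

def Kk (a i : ℕ) : Prop := 2 * a ≤ i ∧ i < 4 * a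

/-- A passage with winding along `q` whose two ports lie on the side `e`. -/
def Hp {m : V → V → ℕ} {n : ℕ} (Y : Sy m n M) (S : Set (FG M)) (r : V ⊕ Bool) (q : V × ℕ)
    (e : Bool) : Prop :=
  q.2 < n ∧ ∃ (B : List (M × Bool)) (y y' : M × Bool) (k : ℤ), Y.Bl q r B ∧ y ∈ B ∧ y' ∈ B ∧ k ≠ 0 ∧
    Y.Pg S q y e k y' e

def Hh {m : V → V → ℕ} {n : ℕ} (Y : Sy m n M) (a : ℕ) (S : Set (FG M)) (h : V) (r : V ⊕ Bool) :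
    Prop :=
  (∃ i, Kk a i ∧ Hp Y S r (h, i) false) ∨ (∃ i, Hp Y S r (h, i) true ∧ Hp Y S r (h, i) false) ∨
    ((∃ i, ¬ Em a i ∧ Hp Y S r (h, i) true) ∧ ∃ i, ¬ Ep a i ∧ Hp Y S r (h, i) true)

def Sd {m : V → V → ℕ} {n : ℕ} (Y : Sy m n M) (a : ℕ) (S : Set (FG M)) (h : V) (r : V ⊕ Bool) :
    Prop := (∃ k, Y.Cx S h r k) ∨ Hh Y a S h r

/-- The classes along a chain of length `N`. -/
def Pat (a N : ℕ) (x : ℕ → ℕ) : Prop :=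
  (N % 2 = 0 → Em a (x 1) ∧ Ep a (x N) ∧ ¬ Ep a (x 2) ∧ ¬ Em a (x (N - 1)) ∧ Kk a (x 3) ∧
    Kk a (x (N - 2)) ∧ ∀ j, 1 ≤ j → j ≤ N → Kk a (x j) → Kk a (x (N + 1 - j))) ∧
  (N % 2 = 1 → Kk a (x 2) ∧ ∀ j, 1 ≤ j → j ≤ N → (Kk a (x j) → j % 2 = 0) ∧
    (j % 2 = 1 → (Em a (x j) ↔ Ep a (x (N + 1 - j)))))

def Chs {m : V → V → ℕ} {n : ℕ} (Y : Sy m n M) (a : ℕ) (Λ : Set V) : Prop :=
  ∀ s ∈ Λ, ∀ t ∈ Λ, s ≠ t → m s t ≠ 2 → ∀ i < n, ∃ (c : ℕ → V × ℕ) (p : ℤ) (j : ℕ),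
    Y.Cn {s, t} (m s t - 1) c ∧ (∀ k : ℕ, (c k).1 = yy s t (k + p)) ∧ 1 ≤ j ∧ j ≤ m s t - 1 ∧
      c j = (t, i) ∧ Pat a (m s t - 1) fun k => (c k).2

/-- Symmetric labels, equal to two or at least four inside `Λ`. -/
def Nt (m : V → V → ℕ) (Λ : Set V) : Prop :=
  (∀ s t, m s t = m t s) ∧ ∀ s ∈ Λ, ∀ t ∈ Λ, s ≠ t → m s t = 2 ∨ 4 ≤ m s t

/-! Sides of curves as letters. -/

/-- The letter `(j, true)` is the right side of the curve `j`, `(j, false)` the left side. -/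
def be : FH →* FH :=
  FreeGroup.lift fun a => if a.2 then (of (a.1, true))⁻¹ * ff a.1 * of (a.1, true) else ff a.1

def Dk (A : Set (ℕ × Bool)) : Subgroup FH := (Fre A).map be

def Own (N i : ℕ) (A : Set (ℕ × Bool)) (w : FreeGroup ℕ) : Prop :=
  En (ff i) (et N i) (Dk A) (xi N (i % 2) w)

def Oth (N i : ℕ) (A : Set (ℕ × Bool)) (w : FreeGroup ℕ) : Prop :=
  (et N (i + 1))⁻¹ * xi N ((i + 1) % 2) w * et N (i + 1) ∈ Dk A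

/-- The sides of the curves of parity `π` of a chain along which a passage exists. -/
def Ac {m : V → V → ℕ} {n : ℕ} (Y : Sy m n M) (S : Set (FG M)) (γ : V) (N π : ℕ) (c : ℕ → V × ℕ) :
    Set (ℕ × Bool) := {a | 1 ≤ a.1 ∧ a.1 ≤ N ∧ a.1 % 2 = π ∧ Hp Y S (Sum.inl γ) (c a.1) a.2}

def Good (N : ℕ) (A : Set (ℕ × Bool)) : Prop :=
  (∃ j, (j, true) ∈ A ∧ (j, false) ∈ A) ∨
    (N % 2 = 1 ∧ ((∃ e, (2, e) ∈ A) ∨ ((1, true) ∈ A ∧ (N, true) ∈ A))) ∨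
    (N % 2 = 0 ∧ ((∃ e, (3, e) ∈ A ∨ (N - 2, e) ∈ A) ∨ ((1, true) ∈ A ∧ (N - 1, true) ∈ A) ∨
      ((2, true) ∈ A ∧ (N, true) ∈ A)))

/-- The direction in which a seed at the end of a chain of even length sees too little. -/
def Bs (N i : ℕ) (e : Bool) (k : ℤ) : Prop :=
  (i = 1 ∧ (e = true ↔ k < 0)) ∨ (i = N ∧ (e = true ↔ 0 < k))

def S_DE : Prop := ∀ (V M : Type) (m : V → V → ℕ) (n : ℕ) (Y : Sy m n M) (S : Set (FG M))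
  (γ γ' : V) (N π i : ℕ) (c : ℕ → V × ℕ) (z : ℕ → M × Bool) (θ : FG M →* FH) (y y' : M × Bool)
  (l : List (Lt M × Bool)), Y.Cn {γ, γ'} N c → (∀ k, (c k).1 = if k % 2 = π then γ else γ') →
    γ ≠ γ' → Y.At {γ, γ'} N c z →
    Y.Ta N c z θ (fun k => if k % 2 = π then ff k else 1)
      (fun k => if k % 2 = π then 1 else et N (k + 1)) (fun k => if k % 2 = π then 1 else et N (k - 1)) →
    1 ≤ i → i ≤ N → y ∈ Y.cl (c i) → y' ∈ Y.cl (c i) → ¬ Y.On {γ, γ'} (opp y) →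
    ¬ Y.On {γ, γ'} (opp y') → Y.Pth y.1 l y'.1 →
    (∀ a ∈ l, a.1 ∈ Y.C {γ, γ'}) → Hs S l → (¬ ∃ k, Y.Cx S γ (Sum.inl γ') k) →
      (i % 2 ≠ π → θ (mk l) ∈ Dk (Ac Y S γ' N π c)) ∧
      (i % 2 = π → En (ff i) (et N i) (Dk (Ac Y S γ' N π c)) (θ (mk l)))

def S_LS : Prop := ∀ (V M : Type) (m : V → V → ℕ) (n : ℕ) (Y : Sy m n M) (S : Set (FG M)) (s t : V)
  (N : ℕ) (p : ℤ) (c : ℕ → V × ℕ) (i : ℕ) (x : V ⊕ Bool) (B : List (M × Bool)) (y y' : M × Bool)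
  (e e' : Bool) (k : ℤ), Sdd Y S s t N p c i x B y y' e e' k →
    ∃ P : Pu (PresentedGroup.of s : Art m) (PresentedGroup.of t) N p, ∀ g ∈ Par m {s, t},
      ((¬ ∃ j, Y.Cx (Y.im g S) t (Sum.inl s) j) →
        Own N i (Ac Y (Y.im g S) s N (i % 2) c) (Cw P g i e k e')) ∧
      ((¬ ∃ j, Y.Cx (Y.im g S) s (Sum.inl t) j) →
        Oth N i (Ac Y (Y.im g S) t N ((i + 1) % 2) c) (Cw P g i e k e'))

/-! Counts. -/

def S_H4 : Prop := ∀ (G : Type) [Group G] (w x Δ : G) (N : ℕ) (U : ℕ → ℝ) (f0 f1 : G → ℝ), Cheb N U →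
  4 ≤ N → N % 2 = 0 → (∀ i, aa w x i (N + 1) = Δ) → Hk w x (U 2) f0 f1 →
    ∀ g ∈ Subgroup.closure {w, x},
      (f1 g = 0 → ∃ a k : ℤ, k % 2 = 0 ∧ g = x ^ a * Δ ^ k) ∧
      (f0 g = 0 → ∃ a k : ℤ, k % 2 = 1 ∧ g = x ^ a * Δ ^ k) ∧
      (f0 g = 1 → ∃ a k b : ℤ, k % 4 = 0 ∧ g = x ^ a * Δ ^ k * w ^ b) ∧
      (|f0 g| = 1 → ∃ a k b : ℤ, g = x ^ a * Δ ^ k * w ^ b) ∧
      (f0 g = 0 ∨ 1 ≤ |f0 g|) ∧ (f1 g = 0 ∨ 1 ≤ |f1 g|) ∧ f0 g ≠ 2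

def S_C3 : Prop := ∀ (G : Type) [Group G] (s t Δ : G) (N : ℕ) (p : ℤ) (P : Pu s t N p) (i : ℕ) (g : G),
  4 ≤ N → N % 2 = 0 → (∀ i, aa s t i (N + 1) = Δ) → 1 ≤ i → i ≤ N → (i + p) % 2 = 1 →
    g ∈ Subgroup.closure {s, t} →
    (P.W g i ∈ Fre (Tp i) → ∃ a k b : ℤ, k % 2 = 0 ∧ g = t ^ a * Δ ^ k * s ^ b) ∧
    (Bd (of i) (Fre (Tp i)ᶜ) (P.W g i) →
      ∃ a k h b : ℤ, k % 2 = 0 ∧ Tri h ∧ g = s ^ a * Δ ^ k * t ^ h * s ^ b) ∧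
    ∀ e j, j ≠ 0 → (Cw P g i e j e ∈ Fre (Tp i) → ∃ a k : ℤ, k % 2 = 0 ∧ g = t ^ a * Δ ^ k) ∧
      (Bd (of i) (Fre (Tp i)ᶜ) (Cw P g i e j e) → ∃ a k b : ℤ, g = s ^ a * Δ ^ k * t ^ b)

def S_C4 : Prop := ∀ (G : Type) [Group G] (s t Δ : G) (N : ℕ) (p : ℤ) (P : Pu s t N p) (i : ℕ) (g : G)
  (A : Set (ℕ × Bool)), 3 ≤ N → (∀ i, aa s t i (N + 1) = Δ) → 1 ≤ i → i ≤ N → (i + p) % 2 = 1 →
    g ∈ Subgroup.closure {s, t} →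
    (Own N i A (P.W g i) → ∃ a k b : ℤ, (N % 2 = 0 → k % 4 ≠ 2) ∧ g = t ^ a * Δ ^ k * s ^ b) ∧
    (Oth N i A (P.W g i) → ∃ a k : ℤ, (N % 2 = 0 → k % 2 = 0) ∧ g = s ^ a * Δ ^ k) ∧
    ∀ e j, j ≠ 0 →
      (Own N i A (Cw P g i e j e) → ∃ a k : ℤ, (N % 2 = 0 → k % 2 = 0) ∧ g = t ^ a * Δ ^ k) ∧
      (Oth N i A (Cw P g i e j e) → ∃ a k : ℤ, N % 2 = 0 ∧ k % 2 = 1 ∧ g = s ^ a * Δ ^ k)

/-! The boundary of a chain. -/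

/-- Products over initial segments of the integers. -/
def Gz [Group H] (f : ℤ → H) : ℤ → H
  | (n : ℕ) => pr (fun j => f j) n
  | Int.negSucc n => (pr (fun j => f (j - (n + 1))) (n + 1))⁻¹

/-- The product of `f p` over `a ≤ p < c`. -/
def seg [Group H] (f : ℤ → H) (a c : ℤ) : H := (Gz f a)⁻¹ * Gz f c

/-- The long side at the place `r` of the sheet `β`; the index `0` means no long side. -/
def s0 (N : ℕ) (β r : ℤ) : ℕ × Bool :=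
  if β = 0 then (if r < N then ((N - r).toNat, true) else
      if (r - N) % 2 = 0 then ((r - N + 2).toNat, false) else (0, false))
  else if r = 0 then (N, false) else if r + 2 ≤ N then (0, false) else
    if (r - N) % 2 = 1 then ((r - N + 2).toNat, false) else (0, false)

/-- The side letter that is open at the beginning of the place `r`. -/
def z0 (N π : ℕ) (β r : ℤ) : ℕ :=
  if β = 0 ∧ r < N then (if (N - r) % 2 = π then (N - r).toNat else (N - r + 1).toNat)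
  else if β = 1 ∧ r = 0 then (if N % 2 = π then 0 else N - 1)
  else if β = 1 ∧ r < N then 0
  else if β = π then 0
  else if (r - N) % 2 = π then (r - N + 2).toNat else (r - N + 1).toNat

def sht (N : ℕ) (b p : ℤ) : ℤ := (b + p / (2 * N - 2) * (N + 1)) % 2

def slot (N : ℕ) (b p : ℤ) : ℕ × Bool := s0 N (sht N b p) (p % (2 * N - 2))

def zet (N π : ℕ) (b p : ℤ) : ℕ := z0 N π (sht N b p) (p % (2 * N - 2))

/-- The loop read along a place of the boundary. -/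
def slw (N : ℕ) (b p : ℤ) : FreeGroup ℕ :=
  if (slot N b p).1 = 0 then 1 else
    if (slot N b p).2 then of (slot N b p).1 else (of (slot N b p).1)⁻¹

/-- A letter with its sign. -/
def sgl (a : ℕ × Bool) : FH := if a.2 then of a else (of a)⁻¹

/-- The side of parity `π` read along a place of the boundary. -/
def hat (N π : ℕ) (b p : ℤ) : FH :=
  if (slot N b p).1 ≠ 0 ∧ (slot N b p).1 % 2 = π then sgl (slot N b p) else 1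

/-- The sheet of the port on the side `e` of the curve `i`. -/
def shb (i : ℕ) (e : Bool) : ℤ := if e then 0 else i % 2

/-- The place of the port. -/
def sta (N i : ℕ) (e : Bool) : ℤ := if e then N - i else N + i - 1

/-- The place where the port lands. -/
def lan (N i : ℕ) (e : Bool) (k : ℤ) : ℤ := sta N i e - k * (N - 1)

/-- The path of the port along the boundary. -/
def bp (N i : ℕ) (e : Bool) (k : ℤ) : FreeGroup ℕ := seg (slw N (shb i e)) (sta N i e) (lan N i e k)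

/-- The same in side letters of parity `π`. -/
def bh (N π i : ℕ) (e : Bool) (k : ℤ) : FH := seg (hat N π (shb i e)) (sta N i e) (lan N i e k)

/-- The side on which the right port lands. -/
def sid (N i : ℕ) (k : ℤ) : Bool :=
  if k % 2 = 0 then decide ((k / 2 * (N + 1)) % 2 = 0)
  else decide ((N + 1 - i + (-k - 1) / 2 * (N + 1)) % 2 = 1)

/-- The side on which the port `e` lands. -/
def zl (N i : ℕ) (e : Bool) (k : ℤ) : ℕ × Bool := (ix N k i, sid N i k == e)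

/-- The side `x` lies on the path of the port `e`. -/
def In (N i : ℕ) (e : Bool) (k : ℤ) (x : ℕ × Bool) : Prop :=
  x.1 ≠ 0 ∧ ∃ p, ((sta N i e ≤ p ∧ p < lan N i e k) ∨ (lan N i e k ≤ p ∧ p < sta N i e)) ∧
    slot N (shb i e) p = x

def S_DF : Prop := ∀ (G : Type) [Group G] (s t Δ : G) (N : ℕ) (p : ℤ) (P : Pu s t N p) (i : ℕ) (k : ℤ),
  3 ≤ N → (∀ i, aa s t i (N + 1) = Δ) → 1 ≤ i → i ≤ N → (i + p) % 2 = 1 →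
    P.W (Δ ^ k) i = bp N i false k * (bp N i true k)⁻¹ ∧ ∃ ε : ℤ, (ε = 1 ∨ ε = -1) ∧
      (P.v (Δ ^ k) i)⁻¹ * P.f (Δ ^ k) i * P.v (Δ ^ k) i =
        bp N i false k * of (ix N k i) ^ ε * (bp N i false k)⁻¹

/-- The side letter of the curve `i` or nothing. -/
def eo (i : ℕ) (e : Bool) : FH := if e then of (i, true) else 1

/-- One place. -/
def S_TL : Prop := ∀ (N π : ℕ) (b p : ℤ), 3 ≤ N → π < 2 →
  xi N π (slw N b p) = et N (zet N π b p) * be (hat N π b p) * (et N (zet N π b (p + 1)))⁻¹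

/-- The open side letters at the start and at the landing place. -/
def S_LD : Prop := ∀ (N π i : ℕ) (k : ℤ), 3 ≤ N → π < 2 → 1 ≤ i → i ≤ N →
  (∀ e, et N (zet N π (shb i e) (sta N i e)) = if i % 2 = π then eo i e else et N (i + 1)) ∧
  (ix N k i % 2 = π → ∀ e, et N (zet N π (shb i e) (lan N i e k)) = eo (ix N k i) (zl N i e k).2) ∧
  (ix N k i % 2 ≠ π →
    et N (zet N π (shb i true) (lan N i true k)) = et N (zet N π (shb i false) (lan N i false k)))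

/-! Words in side letters. -/

/-- Each place carries no letter or one letter with its sign. -/
def Pw (u : ℤ → ℕ × Bool) (D : Set (ℕ × Bool)) (f : ℤ → FH) : Prop :=
  ∀ p, (u p ∈ D ∧ f p = sgl (u p)) ∨ (u p ∉ D ∧ f p = 1)

def S_PO : Prop := ∀ (u : ℤ → ℕ × Bool) (D : Set (ℕ × Bool)) (f : ℤ → FH) (A : Set (ℕ × Bool))
  (a c p : ℤ), Pw u D f → seg f a c ∈ Fre A → ((a ≤ p ∧ p < c) ∨ (c ≤ p ∧ p < a)) → u p ∈ D → u p ∈ A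

def S_PQ : Prop := ∀ (u : ℤ → ℕ × Bool) (D : Set (ℕ × Bool)) (f : ℤ → FH) (A : Set (ℕ × Bool))
  (T a a' d q q' : ℤ), Pw u D f → (∀ p, u (p + T) = u p) →
    (∀ p p', u p ∈ D → u p = u p' → T ∣ p' - p) → a + d ≤ q → q < a' + d → u q ∈ D →
    a' + d - T ≤ q' → q' < a + d → u q' ∈ D →
    seg f a' (a' + d) * (seg f a (a + d))⁻¹ ∈ Fre A → seg f a' (a' + d) ∈ Fre A ∧ seg f a (a + d) ∈ Fre A

/-- Periods of the boundary. -/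
def S_PE : Prop := ∀ N : ℕ, 3 ≤ N →
  (∀ b p n : ℤ, slot N b (p + n * (2 * N - 2)) = slot N (b + n * (N + 1)) p) ∧
  (∀ b b' p : ℤ, b % 2 = b' % 2 → slot N b p = slot N b' p) ∧
  (∀ p p' : ℤ, (slot N 0 p).1 ≠ 0 → slot N 0 p = slot N 0 p' →
    (if N % 2 = 0 then 2 else 1) * (2 * (N : ℤ) - 2) ∣ p' - p) ∧
  (∀ b p : ℤ, (slot N b p).1 ≤ N) ∧
  (∀ p : ℤ, N % 2 = 1 → (slot N 1 p).1 % 2 = 0 → (slot N 1 p).1 = 0) ∧
  ∀ (b n : ℤ) (j : ℕ), 1 ≤ j → j ≤ N →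
    ((b + n * (N + 1)) % 2 = 0 → slot N b (N - j + n * (2 * N - 2)) = (j, true)) ∧
    ((b + j + n * (N + 1)) % 2 = 0 → slot N b (N + j - 2 + n * (2 * N - 2)) = (j, false))

/-- The two landing places are separated by sides of parity `π`. -/
def Sep (N π i : ℕ) (k : ℤ) : Prop :=
  (∃ q, lan N i true k ≤ q ∧ q < lan N i false k + i % 2 * (2 * N - 2) ∧ (slot N 0 q).1 ≠ 0 ∧
    (slot N 0 q).1 % 2 = π) ∧
  ∃ q, lan N i false k + i % 2 * (2 * N - 2) - (if N % 2 = 0 then 2 else 1) * (2 * (N : ℤ) - 2) ≤ q ∧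
    q < lan N i true k ∧ (slot N 0 q).1 ≠ 0 ∧ (slot N 0 q).1 % 2 = π

def Ho (i : ℕ) : Set (ℕ × Bool) := {x | x.1 = i}

/-- The homomorphism that kills the two sides of the curve `i`. -/
def kl (i : ℕ) : FH →* FH := FreeGroup.lift fun a => if a.1 = i then 1 else of a

/-- The letters of the paths of the ports. -/
def S_PL : Prop := ∀ (N π i : ℕ) (k : ℤ) (A : Set (ℕ × Bool)), 3 ≤ N → 1 ≤ i → i ≤ N →
  (∀ e, bh N π i e k ∈ Fre A → ∀ x, x.1 % 2 = π → In N i e k x → x ∈ A) ∧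
  (∀ e j, kl j (bh N π i e k) = 1 → ∀ x, x.1 % 2 = π → In N i e k x → x.1 = j) ∧
  ((N % 2 = 0 ∨ i % 2 = 0) → Sep N π i k → bh N π i false k * (bh N π i true k)⁻¹ ∈ Fre A →
    ∀ e, bh N π i e k ∈ Fre A) ∧
  (N % 2 = 1 → i % 2 = 1 → bh N 0 i false k = 1)

def S_EN : Prop := ∀ (i : ℕ) (A : Set (ℕ × Bool)) (w : FH),
  (be w ∈ Dk A → w ∈ Fre A) ∧ (be w ∈ Fre {x | x.2 = true} → w = 1) ∧
  (∀ e e', En (ff i) (of (i, true)) (Dk A) (eo i e * be w * (eo i e')⁻¹) →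
    (∃ a b : ℤ, of (i, e) ^ a * w * of (i, e') ^ b ∈ Fre A) ∨ w ∈ Fre (Ho i)) ∧
  ∀ (w' : FH) (e e' u : Bool),
    (∀ j, En (ff i) (of (i, true)) (Dk A)
        (eo i e * be w * ((eo j u)⁻¹ * eo j (!u)) * be w' * (eo i e')⁻¹) →
      j = i ∧ (kl i w = 1 ∨ kl i w' = 1)) ∧
    ∀ a b c : ℤ, ff i ^ a * (eo i e * be w * ((eo i u)⁻¹ * ff i ^ c * eo i (!u)) * be w' *
        (eo i e')⁻¹) * ff i ^ b ∈ Fre {x | x.2 = true} → kl i w = 1 ∧ kl i w' = 1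

def S_CB : Prop := ∀ (L : Type) (D : Set L) (o F : L) (u : FreeGroup L) (n a b : ℤ), n ≠ 0 →
  of o ^ a * (u * of F ^ n * u⁻¹) * of o ^ b ∈ Fre D →
    (u ∈ Fre (D ∪ {o, F})) ∧ (F ≠ o → F ∈ D) ∧
    (o ∉ D → (F ≠ o → ∃ c : ℤ, of o ^ c * u ∈ Fre D) ∧ (F = o → u ∈ Fre {o}))

/-! The table of the sides that are seen. -/

def S_T1 : Prop := ∀ (N i : ℕ) (k : ℤ), 4 ≤ N → N % 2 = 0 → 1 ≤ i → i ≤ N → k ≠ 0 →
  (k % 2 = 0 → (∀ e, ∃ x, x.1 % 2 = (i + 1) % 2 ∧ In N i e k x) ∧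
    ∃ e x, x.1 % 2 = i % 2 ∧ x.1 ≠ i ∧ In N i e k x) ∧
  (k % 2 = 1 → ∀ e, Bs N i e k ∨ ∃ x, x.1 % 2 = i % 2 ∧ x ≠ (i, e) ∧ In N i e k x)

def S_T4 : Prop := ∀ (N i : ℕ) (k : ℤ), 3 ≤ N → 1 ≤ i → i ≤ N → k ≠ 0 → (N % 2 = 0 → k % 2 = 0) →
  ix N k i = i → ¬ (N = 3 ∧ i = 2) → ∀ e, (N % 2 = 0 → k % 4 = 2 → ¬ Bs N i e k) →
    ∃ x, x.1 % 2 = i % 2 ∧ x.1 ≠ i ∧ In N i e k x

def S_T5 : Prop := ∀ (N i : ℕ) (k : ℤ), 4 ≤ N → N % 2 = 0 → 1 ≤ i → i ≤ N → k % 2 = 1 →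
  Sep N (i % 2) i k ∧ (∃ e x, x.1 % 2 = i % 2 ∧ x.1 ≠ i ∧ In N i e k x) ∧
  (Good N {x | x.1 % 2 = i % 2 ∧ x.1 ≠ i ∧ ∃ e, In N i e k x} ∨
    (N = 4 ∧ (i = 2 ∨ i = 3) ∧ (k = 1 ∨ k = -1))) ∧
  Good N {x | (x.1 % 2 = (i + 1) % 2 ∧ In N i true k x) ∨ x = zl N i true k}

def S_T6 : Prop := ∀ (N i : ℕ) (k : ℤ) (e : Bool), 3 ≤ N → 1 ≤ i → i ≤ N → k ≠ 0 →
  (N % 2 = 0 → k % 2 = 0 ∧ ¬ Bs N i e k) → ¬ (N = 3 ∧ i = 2) →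
    Good N {x | (x.1 % 2 = i % 2 ∧ x ≠ (i, e) ∧ In N i e k x) ∨ x = zl N i e k} ∨
      (N % 2 = 0 ∧ e = false ∧ 1 < i ∧ i < N) ∨ (N % 2 = 1 ∧ i % 2 = 1 ∧
        (((N + 1 - i, e) ≠ (i, e) ∧ In N i e k (N + 1 - i, e)) ∨ (N + 1 - i, e) = zl N i e k))

def S_T7 : Prop := ∀ (N i : ℕ) (k : ℤ), 3 ≤ N → 1 ≤ i → i ≤ N → k ≠ 0 → (N % 2 = 0 → k % 2 = 0) →
  ((N % 2 = 0 ∨ i % 2 = 0) → Sep N ((i + 1) % 2) i k) ∧
    Good N {x | x.1 % 2 = (i + 1) % 2 ∧ ∃ e, In N i e k x}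

/-- The four short words. -/
def S_T9 : Prop := ∀ (i : ℕ) (k a b : ℤ) (A : Set (ℕ × Bool)), (i = 2 ∨ i = 3) → (k = 1 ∨ k = -1) →
  of (i, false) ^ a * (bh 4 (i % 2) i false k * (bh 4 (i % 2) i true k)⁻¹) * of (i, true) ^ b ∈ Fre A →
    ∃ e, (i, e) ∈ A

/-! Powers of the Garside element. -/

def S_P1 : Prop := ∀ (G : Type) [Group G] (s t Δ : G) (N : ℕ) (p : ℤ) (P : Pu s t N p) (i : ℕ) (k : ℤ),
  4 ≤ N → N % 2 = 0 → (∀ i, aa s t i (N + 1) = Δ) → 1 ≤ i → i ≤ N → (i + p) % 2 = 1 → k ≠ 0 →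
    (k % 2 = 0 → P.W (Δ ^ k) i ∉ Fre (Tp i) ∧
      (∀ h : ℤ, ¬ Bd (of i) (Fre (Tp i)ᶜ) (P.W (Δ ^ k * t ^ h) i)) ∧
      ∀ e j, j ≠ 0 → Cw P (Δ ^ k) i e j e ∉ Fre (Tp i)) ∧
    ∀ e j, j ≠ 0 → Bd (of i) (Fre (Tp i)ᶜ) (Cw P (Δ ^ k) i e j e) → Bs N i e k

def S_P3 : Prop := ∀ (G : Type) [Group G] (s t Δ : G) (N : ℕ) (p : ℤ) (P : Pu s t N p) (i : ℕ) (k : ℤ)
  (A : Set (ℕ × Bool)), 3 ≤ N → (∀ i, aa s t i (N + 1) = Δ) → 1 ≤ i → i ≤ N → (i + p) % 2 = 1 →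
    k ≠ 0 → (∀ x ∈ A, 1 ≤ x.1 ∧ x.1 ≤ N ∧ x.1 % 2 = i % 2) →
    ((N % 2 = 0 → k % 4 ≠ 2) → Own N i A (P.W (Δ ^ k) i) → Good N A) ∧
    ∀ e j, j ≠ 0 → (N % 2 = 0 → k % 2 = 0) → Own N i A (Cw P (Δ ^ k) i e j e) →
      Good N A ∨ (N % 2 = 0 ∧ (Bs N i e k ∨ (e = false ∧ 1 < i ∧ i < N ∧ ∃ e', (i, e') ∈ A))) ∨
        (N % 2 = 1 ∧ i % 2 = 1 ∧ (N + 1 - i, e) ∈ A)

def S_P4 : Prop := ∀ (G : Type) [Group G] (s t Δ : G) (N : ℕ) (p : ℤ) (P : Pu s t N p) (i : ℕ) (k : ℤ)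
  (A : Set (ℕ × Bool)), 3 ≤ N → (∀ i, aa s t i (N + 1) = Δ) → 1 ≤ i → i ≤ N → (i + p) % 2 = 1 →
    k ≠ 0 → ((N % 2 = 0 → k % 2 = 0) → Oth N i A (P.W (Δ ^ k) i) → Good N A) ∧
    ∀ e j, j ≠ 0 → N % 2 = 0 → k % 2 = 1 → Oth N i A (Cw P (Δ ^ k) i e j e) →
      (e = true → Good N A) ∧ ∃ e', (N + 1 - i, e') ∈ A

/-! The dihedral step and the plumbing. -/

def S_LL : Prop := ∀ (V M : Type) (m : V → V → ℕ) (n : ℕ) (Y : Sy m n M) (a : ℕ) (Λ : Set V)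
  (S : Set (FG M)) (s t : V) (x : V ⊕ Bool) (g : Art m), Nt m Λ → Chs Y a Λ → t ∈ Λ →
    Ok m Λ t (Sum.inl s) → x ≠ Sum.inl s → x ≠ Sum.inl t → Sd Y a S t x → g ∈ Par m {s, t} →
    (∀ r, Ok m Λ s r → r ≠ Sum.inl t → Y.Ps (Y.im g S) s r ∨ ∃ a b c : ℤ,
      g = PresentedGroup.of t ^ a * PresentedGroup.of s ^ b * PresentedGroup.of t ^ c) ∧
    (∀ r, Ok m Λ t r → r ≠ Sum.inl s → Y.Ps (Y.im g S) t r ∨ ∃ a b c d : ℤ, g = PresentedGroup.of s ^ a *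
      PresentedGroup.of t ^ b * PresentedGroup.of s ^ c * PresentedGroup.of t ^ d) ∧
    (Sd Y a (Y.im g S) t (Sum.inl s) ∨ ∃ a b c : ℤ,
      g = PresentedGroup.of t ^ a * PresentedGroup.of s ^ b * PresentedGroup.of t ^ c) ∧
    (Sd Y a (Y.im g S) s (Sum.inl t) ∨ ∃ a c : ℤ, g = PresentedGroup.of s ^ a * PresentedGroup.of t ^ c)

def S_LV : Prop := ∀ N n a : ℕ, 3 ≤ N → N ∣ n → 4 * a ≤ n → (N % 2 = 0 → n ≤ N * a) →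
  (N % 2 = 1 → n = 6 * a) → ∃ π : Equiv.Perm ℕ, (∀ i, π i < n ↔ i < n) ∧
    ∀ r, r * N + N ≤ n → Pat a N fun k => π.symm (r * N + k - 1)

def S_CS : Prop := ∀ (V M : Type) (m : V → V → ℕ) (n : ℕ) (Y : Sy m n M) (a : ℕ) (Λ : Set V)
  (lv : V → V → Equiv.Perm ℕ), Nt m Λ → Y.ad = Cl.Aj m n lv → (∀ s t i, lv s t i < n ↔ i < n) →
    (∀ s t, lv s t = lv t s) → (∀ s ∈ Λ, ∀ t ∈ Λ, s ≠ t → m s t ≠ 2 → m s t - 1 ∣ n ∧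
      ∀ r, r * (m s t - 1) + (m s t - 1) ≤ n →
        Pat a (m s t - 1) fun k => (lv s t).symm (r * (m s t - 1) + k - 1)) → Chs Y a Λ

def S_AX : Prop := ∀ (V M : Type) (m : V → V → ℕ) (n : ℕ) (Y : Sy m n M) (a : ℕ) (Λ : Set V) (t₀ : V),
  Nt m Λ → Chs Y a Λ → 0 < n → ∃ A : Ax (PresentedGroup.of : V → Art m) Λ t₀,
    ∀ g h ρ, A.Ps g h ρ → Y.Ps (Y.im g (Y.S0 t₀)) h ρ

def S_DC : Prop := ∀ (V : Type) [Finite V] (m : V → V → ℕ) (Λ : Set V),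
  (∀ s t, s ≠ t → m s t ≠ 1) → Nt m Λ → ((∀ s ∈ Λ, ∀ t ∈ Λ, s ≠ t → m s t ≠ 5) ∨
    ∀ s ∈ Λ, ∀ t ∈ Λ, s ≠ t → m s t = 2 ∨ m s t % 2 = 1) → ∀ s ∈ Λ, ∀ t ∈ Λ, Dc m Λ {s} {t}

end Pool.Agent.MP_6eaae3_al.MX
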