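import Pool.Agent.MP_6eaae3_al.MX.Basic

/-! Sides met by the path of a port: first tables. -/

namespace Pool.Agent.MP_6eaae3_al.MX

open FreeGroup (of mk invRev IsReduced)
open Set Pool.Agent.MP_6eaae3_al.LT Pool.Agent.MP_6eaae3_al.LT.Path Pool.Agent.MP_6eaae3_al.EV

namespace T1

variable {N i : ℕ} {k : ℤ}

theorem tR (n : ℤ) (j : ℕ) (c : ℤ) (hN : 3 ≤ N := by omega) (j1 : 1 ≤ j := by omega)
    (jN : j ≤ N := by omega) (h : (0 + n * ((N : ℤ) + 1)) % 2 = 0 := by omega)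
    (hp : ((N : ℤ) - i ≤ N - j + n * (2 * N - 2) ∧ (N : ℤ) - j + n * (2 * N - 2) < N - i - c * (N - 1)) ∨
      ((N : ℤ) - i - c * (N - 1) ≤ N - j + n * (2 * N - 2) ∧ (N : ℤ) - j + n * (2 * N - 2) < N - i) := by
        omega)
    (hk : (0 ≤ c ∧ c ≤ k) ∨ (k ≤ c ∧ c ≤ 0) := by omega) : In N i true k (j, true) :=
  (in_R (e := true) (k := c) n hN j1 jN h hp).mono (by omega) hk

theorem tL (n : ℤ) (j : ℕ) (c : ℤ) (hN : 3 ≤ N := by omega) (j1 : 1 ≤ j := by omega)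
    (jN : j ≤ N := by omega) (h : (0 + (j : ℤ) + n * ((N : ℤ) + 1)) % 2 = 0 := by omega)
    (hp : ((N : ℤ) - i ≤ N + j - 2 + n * (2 * N - 2) ∧
        (N : ℤ) + j - 2 + n * (2 * N - 2) < N - i - c * (N - 1)) ∨
      ((N : ℤ) - i - c * (N - 1) ≤ N + j - 2 + n * (2 * N - 2) ∧
        (N : ℤ) + j - 2 + n * (2 * N - 2) < N - i) := by omega)
    (hk : (0 ≤ c ∧ c ≤ k) ∨ (k ≤ c ∧ c ≤ 0) := by omega) : In N i true k (j, false) :=
  (in_L (e := true) (k := c) n hN j1 jN h hp).mono (by omega) hk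

theorem fR (n : ℤ) (j : ℕ) (c : ℤ) (hN : 3 ≤ N := by omega) (j1 : 1 ≤ j := by omega)
    (jN : j ≤ N := by omega) (h : ((i : ℤ) % 2 + n * ((N : ℤ) + 1)) % 2 = 0 := by omega)
    (hp : ((N : ℤ) + i - 1 ≤ N - j + n * (2 * N - 2) ∧
        (N : ℤ) - j + n * (2 * N - 2) < N + i - 1 - c * (N - 1)) ∨
      ((N : ℤ) + i - 1 - c * (N - 1) ≤ N - j + n * (2 * N - 2) ∧
        (N : ℤ) - j + n * (2 * N - 2) < N + i - 1) := by omega)
    (hk : (0 ≤ c ∧ c ≤ k) ∨ (k ≤ c ∧ c ≤ 0) := by omega) : In N i false k (j, true) :=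
  (in_R (e := false) (k := c) n hN j1 jN h hp).mono (by omega) hk

theorem fL (n : ℤ) (j : ℕ) (c : ℤ) (hN : 3 ≤ N := by omega) (j1 : 1 ≤ j := by omega)
    (jN : j ≤ N := by omega) (h : ((i : ℤ) % 2 + (j : ℤ) + n * ((N : ℤ) + 1)) % 2 = 0 := by omega)
    (hp : ((N : ℤ) + i - 1 ≤ N + j - 2 + n * (2 * N - 2) ∧
        (N : ℤ) + j - 2 + n * (2 * N - 2) < N + i - 1 - c * (N - 1)) ∨
      ((N : ℤ) + i - 1 - c * (N - 1) ≤ N + j - 2 + n * (2 * N - 2) ∧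
        (N : ℤ) + j - 2 + n * (2 * N - 2) < N + i - 1) := by omega)
    (hk : (0 ≤ c ∧ c ≤ k) ∨ (k ≤ c ∧ c ≤ 0) := by omega) : In N i false k (j, false) :=
  (in_L (e := false) (k := c) n hN j1 jN h hp).mono (by omega) hk

theorem pk {e b : Bool} {j π : ℕ} (h : In N i e k (j, b)) (u : j % 2 = π := by omega)
    (v : j ≠ i := by omega) : ∃ x : ℕ × Bool, x.1 % 2 = π ∧ x.1 ≠ i ∧ In N i e k x := ⟨_, u, v, h⟩

theorem ot (h4 : 4 ≤ N) (ev : N % 2 = 0) (i1 : 1 ≤ i) (iN : i ≤ N) (k0 : k ≠ 0) (ke : k % 2 = 0)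
    (e : Bool) : ∃ x : ℕ × Bool, x.1 % 2 = (i + 1) % 2 ∧ x.1 ≠ i ∧ In N i e k x := by
  cases e <;> rcases lt_or_gt_of_ne k0 with s | s
  · by_cases c : i = 1
    exacts [pk (fR 1 2 (-2)), pk (fL 1 (i - 1) (-2))]
  · by_cases c : i = N
    exacts [pk (fR 0 1 2), pk (fL (-1) (i + 1) 2)]
  · by_cases c : i = 1
    exacts [pk (tL 0 2 (-2)), pk (tR 0 (i - 1) (-2))]
  · by_cases c : i = N
    exacts [pk (tL (-1) 1 2), pk (tR 0 (i + 1) 2)]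

theorem nb (h4 : 4 ≤ N) (ev : N % 2 = 0) (i1 : 1 ≤ i) (iN : i ≤ N) (k0 : k ≠ 0) (ke : k % 2 = 0)
    (e : Bool) (b : ¬ Bs N i e k) : ∃ x : ℕ × Bool, x.1 % 2 = i % 2 ∧ x.1 ≠ i ∧ In N i e k x := by
  unfold Bs at b
  cases e <;> simp only [Bool.false_eq_true, false_iff, true_iff] at b <;>
    rcases lt_or_gt_of_ne k0 with s | s
  · by_cases c : i + 1 = N
    exacts [pk (fR 1 1 (-2)), pk (fL 0 (i + 2) (-2))]
  · by_cases c : i = 2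
    exacts [pk (fR 0 4 2), pk (fL 0 (i - 2) 2)]
  · by_cases c : i = 2
    exacts [pk (tL 0 4 (-2)), pk (tR 0 (i - 2) (-2))]
  · by_cases c : i + 1 = N
    exacts [pk (tL (-1) 1 2), pk (tR 0 (i + 2) 2)]

theorem yb (h4 : 4 ≤ N) (ev : N % 2 = 0) (k0 : k ≠ 0) (ke : k % 4 = 0)
    (e : Bool) (b : Bs N i e k) : ∃ x : ℕ × Bool, x.1 % 2 = i % 2 ∧ x.1 ≠ i ∧ In N i e k x := by
  unfold Bs at b
  cases e <;> simp only [Bool.false_eq_true, false_iff, true_iff] at b <;> rcases b with b | b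
  exacts [pk (fR (-1) 3 4), pk (fR 2 2 (-4)), pk (tR 2 3 (-4)), pk (tR (-2) 2 4)]

theorem od (h3 : 3 ≤ N) (o : N % 2 = 1) (i1 : 1 ≤ i) (iN : i ≤ N) (k0 : k ≠ 0)
    (hx : k % 2 = 0 ∨ N + 1 - i = i) (ex : ¬ (N = 3 ∧ i = 2)) (e : Bool) :
    ∃ x : ℕ × Bool, x.1 % 2 = i % 2 ∧ x.1 ≠ i ∧ In N i e k x := by
  rcases hx with ke | m <;> cases e <;> rcases lt_or_gt_of_ne k0 with s | s
  · by_cases c : i + 2 ≤ N
    exacts [pk (fL 0 (i + 2) (-2)), pk (fL 1 (i - 2) (-2))]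
  · by_cases c : 3 ≤ i
    exacts [pk (fL 0 (i - 2) 2), pk (fL (-1) (i + 2) 2)]
  · by_cases c : 3 ≤ i
    exacts [pk (tR 0 (i - 2) (-2)), pk (tR 1 (i + 2) (-2))]
  · by_cases c : i + 2 ≤ N
    exacts [pk (tR 0 (i + 2) 2), pk (tR (-1) (i - 2) 2)]
  exacts [pk (fL 0 (i + 2) (-1)), pk (fL 0 (i - 2) 1), pk (tR 0 (i - 2) (-1)), pk (tR 0 (i + 2) 1)]

theorem wk {e : Bool} (h : ∃ x : ℕ × Bool, x.1 % 2 = i % 2 ∧ x.1 ≠ i ∧ In N i e k x) :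
    ∃ x : ℕ × Bool, x.1 % 2 = i % 2 ∧ x ≠ (i, e) ∧ In N i e k x :=
  h.imp fun _ u => ⟨u.1, fun v => u.2.1 (congrArg Prod.fst v), u.2.2⟩

theorem ok (h4 : 4 ≤ N) (ev : N % 2 = 0) (i1 : 1 ≤ i) (iN : i ≤ N) (k0 : k ≠ 0)
    (e : Bool) (b : ¬ Bs N i e k) : ∃ x : ℕ × Bool, x.1 % 2 = i % 2 ∧ x ≠ (i, e) ∧ In N i e k x := by
  unfold Bs at b
  cases e <;> simp only [Bool.false_eq_true, false_iff, true_iff] at b <;>
    rcases lt_or_gt_of_ne k0 with s | s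
  · by_cases c : i + 1 = N
    exacts [⟨_, rfl, by simp, fR 1 i (-1)⟩, wk (pk (fL 0 (i + 2) (-1)))]
  · by_cases c : i = 2
    exacts [⟨_, rfl, by simp, fR 0 i 1⟩, wk (pk (fL 0 (i - 2) 1))]
  · by_cases c : i = 2
    exacts [⟨_, rfl, by simp, tL 0 i (-1)⟩, wk (pk (tR 0 (i - 2) (-1)))]
  · by_cases c : i + 1 = N
    exacts [⟨_, rfl, by simp, tL (-1) i 1⟩, wk (pk (tR 0 (i + 2) 1))]

end T1

open T1

theorem t1 : S_T1 := by
  intro N i k h4 ev i1 iN k0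
  refine ⟨fun ke => ⟨fun e => (ot h4 ev i1 iN k0 ke e).imp fun _ u => ⟨u.1, u.2.2⟩, ?_⟩,
    fun _ e => or_iff_not_imp_left.2 (ok h4 ev i1 iN k0 e)⟩
  by_cases b : Bs N i true k
  · refine ⟨false, nb h4 ev i1 iN k0 ke false ?_⟩
    unfold Bs at b ⊢
    simp only [Bool.false_eq_true, false_iff, true_iff] at b ⊢
    omega
  · exact ⟨true, nb h4 ev i1 iN k0 ke true b⟩

theorem t4 : S_T4 := by
  intro N i k h3 i1 iN k0 ke hx ex e hb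
  rcases Nat.mod_two_eq_zero_or_one N with ev | o
  · by_cases b : Bs N i e k
    · have := ke ev
      have : ¬ k % 4 = 2 := fun u => hb ev u b
      exact yb (by omega) ev k0 (by omega) e b
    · exact nb (by omega) ev i1 iN k0 (ke ev) e b
  · refine od h3 o i1 iN k0 ?_ ex e
    unfold ix at hx
    split_ifs at hx with u
    exacts [Or.inl u, Or.inr hx]

end Pool.Agent.MP_6eaae3_al.MX
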