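import Pool.Agent.MP_6eaae3_al.MX.Basic

/-! The table of the sides for odd powers on chains of even length. -/

namespace Pool.Agent.MP_6eaae3_al.MX

open FreeGroup (of mk invRev IsReduced)
open Set Pool.Agent.MP_6eaae3_al.LT Pool.Agent.MP_6eaae3_al.LT.Path Pool.Agent.MP_6eaae3_al.EV

namespace T5

/-- The place `p` lies between `a` and `a - k' (N - 1)`, and `k` extends `k'`. -/
def Bt (N : ℕ) (a p k' k : ℤ) : Prop :=
  ((a ≤ p ∧ p < a - k' * (N - 1)) ∨ (a - k' * (N - 1) ≤ p ∧ p < a)) ∧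
    ((0 ≤ k' ∧ k' ≤ k) ∨ (k ≤ k' ∧ k' ≤ 0))

variable {N i j : ℕ} {k : ℤ}

theorem sh0 (h : N % 2 = 0) (n : ℤ) : n * (N + 1) % 2 = n % 2 := by rw [sheet, if_pos h]

theorem rT (n k' : ℤ) (h : 4 ≤ N ∧ N % 2 = 0 ∧ 1 ≤ j ∧ j ≤ N ∧ n % 2 = 0)
    (b : Bt N (N - i) (N - j + n * (2 * N - 2)) k' k) : In N i true k (j, true) :=
  (in_R (e := true) (k := k') n (by omega) h.2.2.1 h.2.2.2.1
    (by have := sh0 h.2.1 n; simp only [shb, if_true]; omega) b.1).mono (by omega) b.2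

theorem lT (n k' : ℤ) (h : 4 ≤ N ∧ N % 2 = 0 ∧ 1 ≤ j ∧ j ≤ N ∧ (j + n) % 2 = 0)
    (b : Bt N (N - i) (N + j - 2 + n * (2 * N - 2)) k' k) : In N i true k (j, false) :=
  (in_L (e := true) (k := k') n (by omega) h.2.2.1 h.2.2.2.1
    (by have := sh0 h.2.1 n; simp only [shb, if_true]; omega) b.1).mono (by omega) b.2

theorem rF (n k' : ℤ) (h : 4 ≤ N ∧ N % 2 = 0 ∧ 1 ≤ j ∧ j ≤ N ∧ (i + n) % 2 = 0)
    (b : Bt N (N + i - 1) (N - j + n * (2 * N - 2)) k' k) : In N i false k (j, true) :=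
  (in_R (e := false) (k := k') n (by omega) h.2.2.1 h.2.2.2.1
    (by have := sh0 h.2.1 n; simp only [shb, Bool.false_eq_true, if_false]; omega) b.1).mono
    (by omega) b.2

theorem lF (n k' : ℤ) (h : 4 ≤ N ∧ N % 2 = 0 ∧ 1 ≤ j ∧ j ≤ N ∧ (i + j + n) % 2 = 0)
    (b : Bt N (N + i - 1) (N + j - 2 + n * (2 * N - 2)) k' k) : In N i false k (j, false) :=
  (in_L (e := false) (k := k') n (by omega) h.2.2.1 h.2.2.2.1
    (by have := sh0 h.2.1 n; simp only [shb, Bool.false_eq_true, if_false]; omega) b.1).mono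
    (by omega) b.2

theorem wR {lo hi : ℤ} {π : ℕ} (j : ℕ) (n : ℤ)
    (h : 4 ≤ N ∧ N % 2 = 0 ∧ 1 ≤ j ∧ j ≤ N ∧ n % 2 = 0 ∧ j % 2 = π ∧
      lo ≤ N - j + n * (2 * N - 2) ∧ N - j + n * (2 * N - 2) < hi) :
    ∃ q, lo ≤ q ∧ q < hi ∧ (slot N 0 q).1 ≠ 0 ∧ (slot N 0 q).1 % 2 = π := by
  have e := ((pe N (by omega)).2.2.2.2.2 0 n j (by omega) (by omega)).1
    (by have := sh0 h.2.1 n; omega)
  exact ⟨_, h.2.2.2.2.2.2.1, h.2.2.2.2.2.2.2, by rw [e]; show j ≠ 0; omega, by rw [e]; show j % 2 = π; omega⟩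

theorem wL {lo hi : ℤ} {π : ℕ} (j : ℕ) (n : ℤ)
    (h : 4 ≤ N ∧ N % 2 = 0 ∧ 1 ≤ j ∧ j ≤ N ∧ (j + n) % 2 = 0 ∧ j % 2 = π ∧
      lo ≤ N + j - 2 + n * (2 * N - 2) ∧ N + j - 2 + n * (2 * N - 2) < hi) :
    ∃ q, lo ≤ q ∧ q < hi ∧ (slot N 0 q).1 ≠ 0 ∧ (slot N 0 q).1 % 2 = π := by
  have e := ((pe N (by omega)).2.2.2.2.2 0 n j (by omega) (by omega)).2
    (by have := sh0 h.2.1 n; omega)
  exact ⟨_, h.2.2.2.2.2.2.1, h.2.2.2.2.2.2.2, by rw [e]; show j ≠ 0; omega, by rw [e]; show j % 2 = π; omega⟩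

theorem sep (hN : 4 ≤ N) (ev : N % 2 = 0) (h1 : 1 ≤ i) (h2 : i ≤ N) (hk : k % 2 = 1) :
    Sep N (i % 2) i k := by
  obtain ⟨n, rfl⟩ : ∃ n, k = -(2 * n + 1) := ⟨(-k - 1) / 2, by omega⟩
  have a1 : lan N i true (-(2 * n + 1)) = 2 * N - 1 - i + n * (2 * N - 2) := by
    simp only [lan, sta, if_true]; ring
  have a2 : lan N i false (-(2 * n + 1)) = 2 * N + i - 2 + n * (2 * N - 2) := by
    simp only [lan, sta, Bool.false_eq_true, if_false]; ring
  have e1 : (n + 1) * (2 * (N : ℤ) - 2) = n * (2 * N - 2) + (2 * N - 2) := by ring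
  have e2 : (n - 1) * (2 * (N : ℤ) - 2) = n * (2 * N - 2) - (2 * N - 2) := by ring
  unfold Sep
  rw [a1, a2, if_pos ev]
  rcases Nat.mod_two_eq_zero_or_one i with p | p
  · rw [show (i : ℤ) % 2 = 0 by omega]
    rcases Int.emod_two_eq_zero_or_one n with q | q
    · exact ⟨wL N n (by omega), wR N n (by omega)⟩
    · exact ⟨wR N (n + 1) (by omega), wL N (n - 1) (by omega)⟩
  · rw [show (i : ℤ) % 2 = 1 by omega]
    rcases Int.emod_two_eq_zero_or_one n with q | q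
    · exact ⟨wL 1 (n + 1) (by omega), wR 1 n (by omega)⟩
    · exact ⟨wR 1 (n + 1) (by omega), wL 1 n (by omega)⟩

theorem two (hN : 4 ≤ N) (ev : N % 2 = 0) (h1 : 1 ≤ i) (h2 : i ≤ N) (hk : k % 2 = 1) :
    ∃ (e : Bool) (x : ℕ × Bool), x.1 % 2 = i % 2 ∧ x.1 ≠ i ∧ In N i e k x := by
  rcases Nat.mod_two_eq_zero_or_one i with p | p <;> rcases le_or_gt 0 k with s | s
  · by_cases c : i = N
    · exact ⟨_, (2, _), by omega, by omega, lF 0 1 (by omega) (by unfold Bt; omega)⟩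
    · exact ⟨_, (N, _), by omega, by omega, rT 0 1 (by omega) (by unfold Bt; omega)⟩
  · by_cases c : i = 2
    · exact ⟨_, (N, _), by omega, by omega, lF 0 (-1) (by omega) (by unfold Bt; omega)⟩
    · exact ⟨_, (2, _), by omega, by omega, rT 0 (-1) (by omega) (by unfold Bt; omega)⟩
  · by_cases c : i + 1 = N
    · exact ⟨_, (1, _), by omega, by omega, lF 0 1 (by omega) (by unfold Bt; omega)⟩
    · exact ⟨_, (N - 1, _), by omega, by omega, rT 0 1 (by omega) (by unfold Bt; omega)⟩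
  · by_cases c : i = 1
    · exact ⟨_, (3, _), by omega, by omega, lF 0 (-1) (by omega) (by unfold Bt; omega)⟩
    · exact ⟨_, (1, _), by omega, by omega, rT 0 (-1) (by omega) (by unfold Bt; omega)⟩

variable {A : Set (ℕ × Bool)}

theorem gb (j : ℕ) (a : (j, true) ∈ A) (b : (j, false) ∈ A) : Good N A := Or.inl ⟨j, a, b⟩

theorem g3 (ev : N % 2 = 0) {e} (a : (3, e) ∈ A) : Good N A :=
  Or.inr (Or.inr ⟨ev, Or.inl ⟨e, Or.inl a⟩⟩)

theorem gm (ev : N % 2 = 0) {e} (a : (N - 2, e) ∈ A) : Good N A :=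
  Or.inr (Or.inr ⟨ev, Or.inl ⟨e, Or.inr a⟩⟩)

theorem g1 (ev : N % 2 = 0) (a : (1, true) ∈ A) (b : (N - 1, true) ∈ A) : Good N A :=
  Or.inr (Or.inr ⟨ev, Or.inr (Or.inl ⟨a, b⟩)⟩)

theorem g2 (ev : N % 2 = 0) (a : (2, true) ∈ A) (b : (N, true) ∈ A) : Good N A :=
  Or.inr (Or.inr ⟨ev, Or.inr (Or.inr ⟨a, b⟩)⟩)

theorem mo {e e' : Bool} (h : In N i e' k (j, e)) (c : j % 2 = i % 2 ∧ j ≠ i) :
    (j, e) ∈ {x : ℕ × Bool | x.1 % 2 = i % 2 ∧ x.1 ≠ i ∧ ∃ e, In N i e k x} := ⟨c.1, c.2, e', h⟩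

theorem three (hN : 4 ≤ N) (ev : N % 2 = 0) (h1 : 1 ≤ i) (h2 : i ≤ N) (hk : k % 2 = 1)
    (ex : ¬ (N = 4 ∧ (i = 2 ∨ i = 3) ∧ (k = 1 ∨ k = -1))) :
    Good N {x | x.1 % 2 = i % 2 ∧ x.1 ≠ i ∧ ∃ e, In N i e k x} := by
  rcases Nat.mod_two_eq_zero_or_one i with p | p <;> rcases le_or_gt 0 k with s | s
  · rcases lt_trichotomy (i + 2) N with c | c | c
    · exact gm ev (mo (rT 0 1 (by omega) (by unfold Bt; omega)) (by omega))
    · by_cases d : N = 4
      · exact gb 4 (mo (rT 0 3 (by omega) (by unfold Bt; omega)) (by omega))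
          (mo (lT (-2) 3 (by omega) (by unfold Bt; omega)) (by omega))
      · exact g2 ev (mo (rF 0 1 (by omega) (by unfold Bt; omega)) (by omega))
          (mo (rT 0 1 (by omega) (by unfold Bt; omega)) (by omega))
    · exact gm ev (mo (lF 0 1 (by omega) (by unfold Bt; omega)) (by omega))
  · rcases lt_trichotomy (i + 2) N with c | c | c
    · exact gm ev (mo (lF 0 (-1) (by omega) (by unfold Bt; omega)) (by omega))
    · by_cases d : N = 4
      · exact gb 4 (mo (rF 2 (-3) (by omega) (by unfold Bt; omega)) (by omega))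
          (mo (lF 0 (-3) (by omega) (by unfold Bt; omega)) (by omega))
      · exact gb 2 (mo (rT 0 (-1) (by omega) (by unfold Bt; omega)) (by omega))
          (mo (lT 0 (-1) (by omega) (by unfold Bt; omega)) (by omega))
    · exact gm ev (mo (rT 0 (-1) (by omega) (by unfold Bt; omega)) (by omega))
  · rcases lt_trichotomy i 3 with c | c | c
    · exact g3 ev (mo (rT 0 1 (by omega) (by unfold Bt; omega)) (by omega))
    · by_cases d : N = 4
      · exact gb 1 (mo (rF (-1) 3 (by omega) (by unfold Bt; omega)) (by omega))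
          (mo (lF 0 3 (by omega) (by unfold Bt; omega)) (by omega))
      · exact gb (N - 1) (mo (rT 0 1 (by omega) (by unfold Bt; omega)) (by omega))
          (mo (lT (-1) 1 (by omega) (by unfold Bt; omega)) (by omega))
    · exact g3 ev (mo (lF 0 1 (by omega) (by unfold Bt; omega)) (by omega))
  · rcases lt_trichotomy i 3 with c | c | c
    · exact g3 ev (mo (lF 0 (-1) (by omega) (by unfold Bt; omega)) (by omega))
    · by_cases d : N = 4
      · exact gb 1 (mo (rT 0 (-3) (by omega) (by unfold Bt; omega)) (by omega))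
          (mo (lT 1 (-3) (by omega) (by unfold Bt; omega)) (by omega))
      · exact g1 ev (mo (rT 0 (-1) (by omega) (by unfold Bt; omega)) (by omega))
          (mo (rF 1 (-1) (by omega) (by unfold Bt; omega)) (by omega))
    · exact g3 ev (mo (rT 0 (-1) (by omega) (by unfold Bt; omega)) (by omega))

theorem mt {e : Bool} (h : In N i true k (j, e)) (c : j % 2 = (i + 1) % 2) :
    (j, e) ∈ {x : ℕ × Bool | (x.1 % 2 = (i + 1) % 2 ∧ In N i true k x) ∨ x = zl N i true k} :=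
  Or.inl ⟨c, h⟩

theorem zl_eq (hk : k % 2 = 1) (c : j = N + 1 - i)
    (h : ((N : ℤ) + 1 - i + (-k - 1) / 2 * (N + 1)) % 2 = 1) :
    (j, true) ∈ {x : ℕ × Bool | (x.1 % 2 = (i + 1) % 2 ∧ In N i true k x) ∨ x = zl N i true k} := by
  refine Or.inr ?_
  rw [zl, ix, sid, if_neg (by omega), if_neg (by omega), decide_eq_true h, c]
  rfl

theorem four (hN : 4 ≤ N) (ev : N % 2 = 0) (h1 : 1 ≤ i) (h2 : i ≤ N) (hk : k % 2 = 1) :
    Good N {x | (x.1 % 2 = (i + 1) % 2 ∧ In N i true k x) ∨ x = zl N i true k} := by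
  rcases Nat.mod_two_eq_zero_or_one i with p | p <;> rcases le_or_gt 0 k with s | s
  · by_cases c : i = N
    · exact g3 ev (mt (lT (-1) 1 (by omega) (by unfold Bt; omega)) (by omega))
    · exact gb (N - 1) (mt (rT 0 1 (by omega) (by unfold Bt; omega)) (by omega))
        (mt (lT (-1) 1 (by omega) (by unfold Bt; omega)) (by omega))
  · by_cases c : i = 2
    · by_cases d : k = -1
      · exact g1 ev (mt (rT 0 (-1) (by omega) (by unfold Bt; omega)) (by omega))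
          (zl_eq hk (by omega) (by rw [d, show (-(-1 : ℤ) - 1) / 2 = 0 by rfl]; omega))
      · exact gb 1 (mt (rT 0 (-1) (by omega) (by unfold Bt; omega)) (by omega))
          (mt (lT 1 (-3) (by omega) (by unfold Bt; omega)) (by omega))
    · exact g3 ev (mt (rT 0 (-1) (by omega) (by unfold Bt; omega)) (by omega))
  · by_cases c : i + 1 = N
    · by_cases d : k = 1
      · exact g2 ev (zl_eq hk (by omega) (by rw [d, show (-(1 : ℤ) - 1) / 2 = -1 by rfl]; omega))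
          (mt (rT 0 1 (by omega) (by unfold Bt; omega)) (by omega))
      · exact gb N (mt (rT 0 1 (by omega) (by unfold Bt; omega)) (by omega))
          (mt (lT (-2) 3 (by omega) (by unfold Bt; omega)) (by omega))
    · exact gm ev (mt (rT 0 1 (by omega) (by unfold Bt; omega)) (by omega))
  · by_cases c : i = 1
    · exact gm ev (mt (lT 0 (-1) (by omega) (by unfold Bt; omega)) (by omega))
    · by_cases d : i + 1 = N
      · exact gm ev (mt (rT 0 (-1) (by omega) (by unfold Bt; omega)) (by omega))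
      · exact gb 2 (mt (rT 0 (-1) (by omega) (by unfold Bt; omega)) (by omega))
          (mt (lT 0 (-1) (by omega) (by unfold Bt; omega)) (by omega))

/-! The short words. -/

theorem seg3 (f : ℤ → FH) (a : ℤ) : seg f a (a + 1 + 1 + 1) = f a * f (a + 1) * f (a + 1 + 1) := by
  rw [seg_succ, seg_succ, seg_one]

theorem seg3' (f : ℤ → FH) (a : ℤ) :
    seg f (a + 1 + 1 + 1) a = (f a * f (a + 1) * f (a + 1 + 1))⁻¹ := by rw [← seg_inv, seg3]

theorem expo {x : ℕ × Bool} (hx : x ∉ A) {w : FH} (h : w ∈ Fre A) :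
    C2.hm (fun y => if y = x then (1 : ℤ) else 0) w = 0 :=
  C2.hm_fre (fun y hy => if_neg fun e : y = x => hx (e ▸ hy)) h

theorem cj {x F : ℕ × Bool} (hx : x ∉ A) (ne : x ≠ F) {c n : ℤ} (c0 : c ≠ 0) (n0 : n ≠ 0)
    (h : of x ^ c * of F ^ n * (of x ^ c)⁻¹ ∈ Fre A) : False := by
  have u := (cb _ A F F (of x ^ c) n 0 0 n0 (by simpa using h)).1
  have v := expo (x := x) (by simp [hx, ne]) u
  simp only [C2.hm_zpow, C2.hm_of, if_true, smul_eq_mul, mul_one] at v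
  exact c0 v

theorem hv {π : ℕ} {b p : ℤ} {x : ℕ × Bool} (h : slot N b p = x) :
    hat N π b p = if x.1 ≠ 0 ∧ x.1 % 2 = π then sgl x else 1 := by rw [hat, h]

theorem w1 : bh 4 0 2 false 1 * (bh 4 0 2 true 1)⁻¹ =
    of (2, false) * (of (2, true))⁻¹ * of (4, true) := by
  have a : bh 4 0 2 false 1 = (of (2, true) * 1 * (of (2, false))⁻¹)⁻¹ := seg3' (hat 4 0 0) 2
  have b : bh 4 0 2 true 1 = (1 * of (4, true) * 1)⁻¹ := by
    have c : bh 4 0 2 true 1 = seg (hat 4 0 0) (-1 + 1 + 1 + 1) (-1) := rfl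
    rw [c, seg3', hv (p := -1) (x := (3, false)) (by decide), hv (p := -1 + 1) (x := (4, true)) (by decide),
      hv (p := -1 + 1 + 1) (x := (3, true)) (by decide)]
    rfl
  rw [a, b]; group

theorem w2 : bh 4 0 2 false (-1) * (bh 4 0 2 true (-1))⁻¹ =
    (of (4, false))⁻¹ * of (2, false) * (of (2, true))⁻¹ := by
  have a : bh 4 0 2 false (-1) = 1 * (of (4, false))⁻¹ * 1 := seg3 (hat 4 0 0) 5
  have b : bh 4 0 2 true (-1) = of (2, true) * 1 * (of (2, false))⁻¹ := seg3 (hat 4 0 0) 2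
  rw [a, b]; group

theorem w3 : bh 4 1 3 false 1 * (bh 4 1 3 true 1)⁻¹ =
    of (3, false) * of (1, false) * (of (3, false))⁻¹ := by
  have a : bh 4 1 3 false 1 = ((of (1, false))⁻¹ * 1 * (of (3, false))⁻¹)⁻¹ := seg3' (hat 4 1 1) 3
  have b : bh 4 1 3 true 1 = (1 * (of (3, false))⁻¹ * 1)⁻¹ := by
    have c : bh 4 1 3 true 1 = seg (hat 4 1 0) (-2 + 1 + 1 + 1) (-2) := rfl
    rw [c, seg3', hv (p := -2) (x := (0, false)) (by decide), hv (p := -2 + 1) (x := (3, false)) (by decide),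
      hv (p := -2 + 1 + 1) (x := (4, true)) (by decide)]
    rfl
  rw [a, b]; group

theorem w4 : bh 4 1 3 false (-1) * (bh 4 1 3 true (-1))⁻¹ =
    of (3, true) * (of (1, true))⁻¹ * (of (3, true))⁻¹ := by
  have a : bh 4 1 3 false (-1) = 1 * of (3, true) * 1 := seg3 (hat 4 1 1) 6
  have b : bh 4 1 3 true (-1) = of (3, true) * 1 * of (1, true) := seg3 (hat 4 1 0) 1
  rw [a, b]; group

end T5

theorem t5 : S_T5 := fun _ _ _ hN ev h1 h2 hk =>
  ⟨T5.sep hN ev h1 h2 hk, T5.two hN ev h1 h2 hk,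
    (em _).symm.imp_left (T5.three hN ev h1 h2 hk), T5.four hN ev h1 h2 hk⟩

theorem t9 : S_T9 := by
  intro i k a b A hi hk h
  by_contra hn
  have nf : (i, false) ∉ A := fun c => hn ⟨_, c⟩
  have nt : (i, true) ∉ A := fun c => hn ⟨_, c⟩
  have ef := T5.expo nf h
  have et := T5.expo nt h
  rcases hi with rfl | rfl <;> rcases hk with rfl | rfl
  · rw [show 2 % 2 = 0 from rfl, T5.w1] at h ef et
    simp [C2.hm_mul, C2.hm_inv, C2.hm_zpow, C2.hm_of] at ef et
    rw [show a = -1 by omega, show b = 1 by omega] at h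
    refine T5.cj nt (F := (4, true)) (by decide) (c := -1) (n := 1) (by decide) (by decide) ?_
    simpa [← mul_assoc] using h
  · rw [show 2 % 2 = 0 from rfl, T5.w2] at h ef et
    simp [C2.hm_mul, C2.hm_inv, C2.hm_zpow, C2.hm_of] at ef et
    rw [show a = -1 by omega, show b = 1 by omega] at h
    refine T5.cj nf (F := (4, false)) (by decide) (c := -1) (n := -1) (by decide) (by decide) ?_
    simpa [← mul_assoc] using h
  · rw [show 3 % 2 = 1 from rfl, T5.w3] at h ef et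
    simp [C2.hm_mul, C2.hm_inv, C2.hm_zpow, C2.hm_of] at ef et
    rw [show a = 0 by omega, show b = 0 by omega] at h
    refine T5.cj nf (F := (1, false)) (by decide) (c := 1) (n := 1) (by decide) (by decide) ?_
    simpa using h
  · rw [show 3 % 2 = 1 from rfl, T5.w4] at h ef et
    simp [C2.hm_mul, C2.hm_inv, C2.hm_zpow, C2.hm_of] at ef et
    rw [show a = 0 by omega, show b = 0 by omega] at h
    refine T5.cj nt (F := (1, true)) (by decide) (c := 1) (n := -1) (by decide) (by decide) ?_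
    simpa using h

end Pool.Agent.MP_6eaae3_al.MX
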