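import Pool.Agent.MP_6eaae3_al.MX.Basic

/-! The sides seen from one port. -/

namespace Pool.Agent.MP_6eaae3_al.MX

open FreeGroup (of mk invRev IsReduced)
open Set Pool.Agent.MP_6eaae3_al.LT Pool.Agent.MP_6eaae3_al.LT.Path Pool.Agent.MP_6eaae3_al.EV

namespace T6

variable {N i : ℕ} {e : Bool} {k : ℤ}

/-- The set of sides in the statement. -/
def St (N i : ℕ) (e : Bool) (k : ℤ) : Set (ℕ × Bool) :=
  {x | (x.1 % 2 = i % 2 ∧ x ≠ (i, e) ∧ In N i e k x) ∨ x = zl N i e k}

theorem iR (j : ℕ) (n k' : ℤ) (hN : 3 ≤ N) (j1 : 1 ≤ j) (jN : j ≤ N)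
    (hk : (0 ≤ k' ∧ k' ≤ k) ∨ (k ≤ k' ∧ k' ≤ 0))
    (h : ((if e then 0 else (i : ℤ) % 2) + n * (N + 1)) % 2 = 0)
    (hp : ∀ a : ℤ, a = (if e then (N : ℤ) - i else N + i - 1) →
      (a ≤ N - j + n * (2 * N - 2) ∧ N - j + n * (2 * N - 2) < a - k' * (N - 1)) ∨
      (a - k' * (N - 1) ≤ N - j + n * (2 * N - 2) ∧ N - j + n * (2 * N - 2) < a)) :
    In N i e k (j, true) := (in_R n hN j1 jN h (hp _ rfl)).mono (by omega) hk

theorem iL (j : ℕ) (n k' : ℤ) (hN : 3 ≤ N) (j1 : 1 ≤ j) (jN : j ≤ N)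
    (hk : (0 ≤ k' ∧ k' ≤ k) ∨ (k ≤ k' ∧ k' ≤ 0))
    (h : ((if e then 0 else (i : ℤ) % 2) + j + n * (N + 1)) % 2 = 0)
    (hp : ∀ a : ℤ, a = (if e then (N : ℤ) - i else N + i - 1) →
      (a ≤ N + j - 2 + n * (2 * N - 2) ∧ N + j - 2 + n * (2 * N - 2) < a - k' * (N - 1)) ∨
      (a - k' * (N - 1) ≤ N + j - 2 + n * (2 * N - 2) ∧ N + j - 2 + n * (2 * N - 2) < a)) :
    In N i e k (j, false) := (in_L n hN j1 jN h (hp _ rfl)).mono (by omega) hk

theorem mem {j : ℕ} {u : Bool} (p : j % 2 = i % 2) (ne : j ≠ i ∨ u ≠ e) (h : In N i e k (j, u)) :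
    (j, u) ∈ St N i e k :=
  Or.inl ⟨p, fun c => by obtain ⟨a, b⟩ := Prod.mk.inj c; tauto, h⟩

theorem own (h : k % 2 = 0) : ∃ u, (i, u) ∈ St N i e k :=
  ⟨_, Or.inr (by rw [zl, ix, if_pos h])⟩

/-- Odd length, even curve. -/
theorem odd (hN : 3 ≤ N) (i1 : 1 ≤ i) (iN : i ≤ N) (k0 : k ≠ 0) (o : N % 2 = 1) (p : i % 2 = 0)
    (c : ¬ (N = 3 ∧ i = 2)) : Good N (St N i e k) := by
  have two : ∀ u, (2, u) ∈ St N i e k → Good N (St N i e k) := fun u h =>
    Or.inr (Or.inl ⟨o, Or.inl ⟨u, h⟩⟩)
  cases e <;> rcases lt_or_gt_of_ne k0 with s | s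
  · by_cases d : i = N - 1
    · exact two _ (mem (by omega) (by simp) (iR 2 1 (-1) hN (by omega) (by omega) (by omega)
        (by simp; omega) fun a h => by simp at h; omega))
    · exact Or.inl ⟨N - 1, mem (by omega) (by simp) (iR _ 1 (-1) hN (by omega) (by omega) (by omega)
        (by simp; omega) fun a h => by simp at h; omega), mem (by omega) (by omega)
        (iL _ 0 (-1) hN (by omega) (by omega) (by omega) (by simp; omega)
          fun a h => by simp at h; omega)⟩
  · by_cases d : i = 2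
    · exact two _ (mem (by omega) (by simp) (iR 2 0 1 hN (by omega) (by omega) (by omega)
        (by simp; omega) fun a h => by simp at h; omega))
    · exact two _ (mem (by omega) (by omega) (iL 2 0 1 hN (by omega) (by omega) (by omega)
        (by simp; omega) fun a h => by simp at h; omega))
  · by_cases d : i = 2
    · exact two _ (mem (by omega) (by simp) (iL 2 0 (-1) hN (by omega) (by omega) (by omega)
        (by simp) fun a h => by simp at h; omega))
    · exact two _ (mem (by omega) (by omega) (iR 2 0 (-1) hN (by omega) (by omega) (by omega)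
        (by simp) fun a h => by simp at h; omega))
  · by_cases d : i = N - 1
    · exact two _ (mem (by omega) (by simp) (iL 2 (-1) 1 hN (by omega) (by omega) (by omega)
        (by simp; omega) fun a h => by simp at h; omega))
    · exact Or.inl ⟨N - 1, mem (by omega) (by omega) (iR _ 0 1 hN (by omega) (by omega) (by omega)
        (by simp) fun a h => by simp at h; omega), mem (by omega) (by simp)
        (iL _ (-1) 1 hN (by omega) (by omega) (by omega) (by simp; omega)
          fun a h => by simp at h; omega)⟩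

/-- Odd length, odd curve. -/
theorem mir (hN : 3 ≤ N) (i1 : 1 ≤ i) (iN : i ≤ N) (k0 : k ≠ 0) (o : N % 2 = 1) (p : i % 2 = 1) :
    ((N + 1 - i, e) ≠ (i, e) ∧ In N i e k (N + 1 - i, e)) ∨ (N + 1 - i, e) = zl N i e k := by
  have sh : ∀ n : ℤ, n * (N + 1) % 2 = 0 := fun n => by rw [sheet, if_neg (by omega)]
  have sd : sid N i k = true := by
    have := sh (k / 2)
    have := sh ((-k - 1) / 2)
    unfold sid
    split_ifs <;> simp only [decide_eq_true_eq] <;> omega
  by_cases c : ix N k i = N + 1 - i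
  · exact Or.inr (by rw [zl, c, sd]; cases e <;> rfl)
  have q : k % 2 = 0 ∧ i ≠ N + 1 - i := by
    unfold ix at c
    split_ifs at c with h
    exacts [⟨h, c⟩, absurd rfl c]
  refine Or.inl ⟨fun h => q.2 (Prod.mk.inj h).1.symm, ?_⟩
  cases e <;> rcases lt_or_gt_of_ne k0 with s | s <;> rcases lt_or_gt_of_ne q.2 with d | d
  · exact iL _ 0 (-2) hN (by omega) (by omega) (by omega) (by simp; omega) fun a h => by simp at h; omega
  · exact iL _ 1 (-2) hN (by omega) (by omega) (by omega) (by simp; omega) fun a h => by simp at h; omega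
  · exact iL _ (-1) 2 hN (by omega) (by omega) (by omega) (by simp; omega) fun a h => by simp at h; omega
  · exact iL _ 0 2 hN (by omega) (by omega) (by omega) (by simp; omega) fun a h => by simp at h; omega
  · exact iR _ 1 (-2) hN (by omega) (by omega) (by omega) (by simp; omega) fun a h => by simp at h; omega
  · exact iR _ 0 (-2) hN (by omega) (by omega) (by omega) (by simp) fun a h => by simp at h; omega
  · exact iR _ 0 2 hN (by omega) (by omega) (by omega) (by simp) fun a h => by simp at h; omega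
  · exact iR _ (-1) 2 hN (by omega) (by omega) (by omega) (by simp; omega) fun a h => by simp at h; omega

/-- Even length. -/
theorem even (hN : 3 ≤ N) (i1 : 1 ≤ i) (iN : i ≤ N) (k0 : k ≠ 0) (o : N % 2 = 0) (p : k % 2 = 0)
    (b : ¬ Bs N i e k) (c : ¬ (e = false ∧ 1 < i ∧ i < N)) : Good N (St N i e k) := by
  have g3 : ∀ u, (3, u) ∈ St N i e k → Good N (St N i e k) := fun u h =>
    Or.inr (Or.inr ⟨o, Or.inl ⟨u, Or.inl h⟩⟩)
  have g2 : ∀ u, (N - 2, u) ∈ St N i e k → Good N (St N i e k) := fun u h =>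
    Or.inr (Or.inr ⟨o, Or.inl ⟨u, Or.inr h⟩⟩)
  obtain ⟨u, w⟩ := own (N := N) (i := i) (e := e) p
  by_cases d3 : i = 3
  · exact g3 u (d3 ▸ w)
  by_cases d2 : i = N - 2
  · exact g2 u (d2 ▸ w)
  unfold Bs at b
  cases e <;> simp at b c <;> rcases lt_or_gt_of_ne k0 with s | s
  · exact g3 _ (mem (by omega) (by simp) (iR 3 1 (-2) hN (by omega) (by omega) (by omega)
      (by simp; omega) fun a h => by simp at h; omega))
  · exact g2 _ (mem (by omega) (by simp) (iR _ 0 2 hN (by omega) (by omega) (by omega)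
      (by simp; omega) fun a h => by simp at h; omega))
  · by_cases d : i % 2 = 0
    · exact g2 _ (mem (by omega) (by simp) (iL _ 0 (-2) hN (by omega) (by omega) (by omega)
        (by simp; omega) fun a h => by simp at h; omega))
    · exact g3 _ (mem (by omega) (by omega) (iR 3 0 (-2) hN (by omega) (by omega) (by omega)
        (by simp) fun a h => by simp at h; omega))
  · by_cases d : i % 2 = 0
    · exact g2 _ (mem (by omega) (by omega) (iR _ 0 2 hN (by omega) (by omega) (by omega)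
        (by simp) fun a h => by simp at h; omega))
    · exact g3 _ (mem (by omega) (by simp) (iL 3 (-1) 2 hN (by omega) (by omega) (by omega)
        (by simp; omega) fun a h => by simp at h; omega))

end T6

theorem t6 : S_T6 := by
  intro N i k e hN i1 iN k0 ev c
  rcases Nat.mod_two_eq_zero_or_one N with o | o
  · by_cases d : e = false ∧ 1 < i ∧ i < N
    exacts [Or.inr (Or.inl ⟨o, d⟩), Or.inl (T6.even hN i1 iN k0 o (ev o).1 (ev o).2 d)]
  · rcases Nat.mod_two_eq_zero_or_one i with p | p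
    exacts [Or.inl (T6.odd hN i1 iN k0 o p c), Or.inr (Or.inr ⟨o, p, T6.mir hN i1 iN k0 o p⟩)]

end Pool.Agent.MP_6eaae3_al.MX
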