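import Pool.Agent.MP_6eaae3_al.MX.Basic

/-! The sides of the other parity that are seen. -/

namespace Pool.Agent.MP_6eaae3_al.MX

open FreeGroup (of mk invRev IsReduced)
open Set Pool.Agent.MP_6eaae3_al.LT Pool.Agent.MP_6eaae3_al.EV

namespace T7

variable {N π i : ℕ} {k : ℤ}

theorem sR (j : ℕ) (n d : ℤ) {lo hi : ℤ} (hN : 3 ≤ N)
    (h : 1 ≤ j ∧ j ≤ N ∧ j % 2 = π ∧ (N % 2 = 0 → (n + d) % 2 = 0) ∧
      lo ≤ N - j + (n * (2 * N - 2) + d * (2 * N - 2)) ∧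
      N - j + (n * (2 * N - 2) + d * (2 * N - 2)) < hi) :
    ∃ q, lo ≤ q ∧ q < hi ∧ (slot N 0 q).1 ≠ 0 ∧ (slot N 0 q).1 % 2 = π := by
  obtain ⟨a, b, c, e, f, g⟩ := h
  have s := sheet N (n + d)
  rw [← add_mul] at f g
  refine ⟨_, f, g, ?_⟩
  rw [((pe N hN).2.2.2.2.2 0 (n + d) j a b).1 (by split_ifs at s <;> omega)]
  exact ⟨by omega, c⟩

theorem sL (j : ℕ) (n d : ℤ) {lo hi : ℤ} (hN : 3 ≤ N)
    (h : 1 ≤ j ∧ j ≤ N ∧ j % 2 = π ∧ N % 2 = 0 ∧ (j + n + d) % 2 = 0 ∧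
      lo ≤ N + j - 2 + (n * (2 * N - 2) + d * (2 * N - 2)) ∧
      N + j - 2 + (n * (2 * N - 2) + d * (2 * N - 2)) < hi) :
    ∃ q, lo ≤ q ∧ q < hi ∧ (slot N 0 q).1 ≠ 0 ∧ (slot N 0 q).1 % 2 = π := by
  obtain ⟨a, b, c, o, e, f, g⟩ := h
  have s := sheet N (n + d)
  rw [← add_mul] at f g
  refine ⟨_, f, g, ?_⟩
  rw [((pe N hN).2.2.2.2.2 0 (n + d) j a b).2 (by rw [if_pos o] at s; omega)]
  exact ⟨by omega, c⟩

theorem sep (hN : 3 ≤ N) (h1 : 1 ≤ i) (h2 : i ≤ N) (hk : N % 2 = 0 → k % 2 = 0)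
    (h : N % 2 = 0 ∨ i % 2 = 0) : Sep N ((i + 1) % 2) i k := by
  obtain ⟨n, r, hr, e⟩ : ∃ n r : ℤ, (r = 0 ∨ r = 1) ∧ k = -(2 * n + r) :=
    ⟨-k / 2, -k % 2, by omega, by omega⟩
  have l : ∀ b, lan N i b k = sta N i b + n * (2 * N - 2) + r * (N - 1) := fun b => by
    rw [lan, e]; ring
  have hi : (i : ℤ) % 2 = 0 ∨ (i : ℤ) % 2 = 1 := by omega
  rw [Sep, l, l, sta, sta, if_pos rfl, if_neg Bool.false_ne_true]
  by_cases o : N % 2 = 0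
  · obtain rfl : r = 0 := by omega
    rw [if_pos o]
    rcases hi with hi | hi <;> rw [hi] <;> by_cases p : n % 2 = 0
    · exact ⟨sR 1 n 0 hN (by omega), sL 1 n (-1) hN (by omega)⟩
    · exact ⟨sL 1 n 0 hN (by omega), sR 1 n (-1) hN (by omega)⟩
    · exact ⟨sL 2 n 0 hN (by omega), sR N n 0 hN (by omega)⟩
    · exact ⟨sR 2 n 1 hN (by omega), sL N n (-1) hN (by omega)⟩
  · rw [if_neg o, show (i : ℤ) % 2 = 0 by omega]
    rcases hr with rfl | rfl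
    · exact ⟨sR 1 n 0 hN (by omega), sR N n 0 hN (by omega)⟩
    · exact ⟨sR N n 1 hN (by omega), sR 1 n 0 hN (by omega)⟩

theorem iR (j : ℕ) (e : Bool) (n k' : ℤ) (hN : 3 ≤ N)
    (h : 1 ≤ j ∧ j ≤ N ∧ j % 2 = (i + 1) % 2 ∧ ((0 ≤ k' ∧ k' ≤ k) ∨ (k ≤ k' ∧ k' ≤ 0)))
    (h' : (shb i e + n * (N + 1)) % 2 = 0 ∧
      ((sta N i e ≤ N - j + n * (2 * N - 2) ∧ N - j + n * (2 * N - 2) < lan N i e k') ∨
      (lan N i e k' ≤ N - j + n * (2 * N - 2) ∧ N - j + n * (2 * N - 2) < sta N i e))) :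
    (j, true) ∈ {x : ℕ × Bool | x.1 % 2 = (i + 1) % 2 ∧ ∃ e, In N i e k x} :=
  ⟨h.2.2.1, e, (in_R n hN h.1 h.2.1 h'.1 h'.2).mono (by omega) h.2.2.2⟩

theorem iL (j : ℕ) (e : Bool) (n k' : ℤ) (hN : 3 ≤ N)
    (h : 1 ≤ j ∧ j ≤ N ∧ j % 2 = (i + 1) % 2 ∧ ((0 ≤ k' ∧ k' ≤ k) ∨ (k ≤ k' ∧ k' ≤ 0)))
    (h' : (shb i e + j + n * (N + 1)) % 2 = 0 ∧
      ((sta N i e ≤ N + j - 2 + n * (2 * N - 2) ∧ N + j - 2 + n * (2 * N - 2) < lan N i e k') ∨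
      (lan N i e k' ≤ N + j - 2 + n * (2 * N - 2) ∧ N + j - 2 + n * (2 * N - 2) < sta N i e))) :
    (j, false) ∈ {x : ℕ × Bool | x.1 % 2 = (i + 1) % 2 ∧ ∃ e, In N i e k x} :=
  ⟨h.2.2.1, e, (in_L n hN h.1 h.2.1 h'.1 h'.2).mono (by omega) h.2.2.2⟩

theorem good (hN : 3 ≤ N) (h1 : 1 ≤ i) (h2 : i ≤ N) (k0 : k ≠ 0) (hk : N % 2 = 0 → k % 2 = 0) :
    Good N {x | x.1 % 2 = (i + 1) % 2 ∧ ∃ e, In N i e k x} := by
  have t1 : shb i true = 0 := rfl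
  have t2 : shb i false = i % 2 := rfl
  have t3 : sta N i true = N - i := rfl
  have t4 : sta N i false = N + i - 1 := rfl
  by_cases o : N % 2 = 0 <;> by_cases p : i % 2 = 0 <;> by_cases s : 0 < k
  · exact .inl ⟨N - 1, iR _ false 0 2 hN (by omega) (by unfold lan; omega),
      iL _ true (-1) 2 hN (by omega) (by unfold lan; omega)⟩
  · exact .inl ⟨1, iR _ true 0 (-2) hN (by omega) (by unfold lan; omega),
      iL _ false 1 (-2) hN (by omega) (by unfold lan; omega)⟩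
  · exact .inl ⟨N, iR _ true 0 2 hN (by omega) (by unfold lan; omega),
      iL _ false (-1) 2 hN (by omega) (by unfold lan; omega)⟩
  · exact .inl ⟨2, iR _ false 1 (-2) hN (by omega) (by unfold lan; omega),
      iL _ true 0 (-2) hN (by omega) (by unfold lan; omega)⟩
  · exact .inr (.inl ⟨by omega, .inr ⟨iR _ false 0 1 hN (by omega) (by unfold lan; omega),
      iR _ true 0 1 hN (by omega) (by unfold lan; omega)⟩⟩)
  · exact .inr (.inl ⟨by omega, .inr ⟨iR _ true 0 (-1) hN (by omega) (by unfold lan; omega),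
      iR _ false 1 (-1) hN (by omega) (by unfold lan; omega)⟩⟩)
  · by_cases a : i = 1
    · exact .inr (.inl ⟨by omega, .inl ⟨_, iR _ true 0 1 hN (by omega) (by unfold lan; omega)⟩⟩)
    by_cases b : i = N
    · exact .inr (.inl ⟨by omega, .inl ⟨_, iL _ true (-1) 1 hN (by omega) (by unfold lan; omega)⟩⟩)
    · exact .inl ⟨N - 1, iR _ true 0 1 hN (by omega) (by unfold lan; omega),
        iL _ true (-1) 1 hN (by omega) (by unfold lan; omega)⟩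
  · by_cases a : i = 1
    · exact .inr (.inl ⟨by omega, .inl ⟨_, iL _ true 0 (-1) hN (by omega) (by unfold lan; omega)⟩⟩)
    · exact .inr (.inl ⟨by omega, .inl ⟨_, iR _ true 0 (-1) hN (by omega) (by unfold lan; omega)⟩⟩)

end T7

theorem t7 : S_T7 := fun _ _ _ hN h1 h2 k0 hk =>
  ⟨T7.sep hN h1 h2 hk, T7.good hN h1 h2 k0 hk⟩

end Pool.Agent.MP_6eaae3_al.MX
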