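import Pool.Agent.MP_6eaae3_al.MX.Basic

/-! One place of the boundary in side letters. -/

namespace Pool.Agent.MP_6eaae3_al.MX

open FreeGroup (of mk invRev IsReduced)
open Set Pool.Agent.MP_6eaae3_al.LT Pool.Agent.MP_6eaae3_al.LT.Path Pool.Agent.MP_6eaae3_al.EV

namespace Tl

/-- The two indices give the same side letter. -/
def E (N a b : ℕ) : Prop := a = b ∨ ((a = 0 ∨ N < a) ∧ (b = 0 ∨ N < b))

theorem E.et {N a b : ℕ} (h : E N a b) : et N a = et N b := by
  rcases h with rfl | ⟨u, v⟩
  · rfl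
  · rw [EV.et, EV.et, if_neg (by omega), if_neg (by omega)]

/-- The open letters before and after a place with the side `x`. -/
def C (N π : ℕ) (x : ℕ × Bool) (z z' : ℕ) : Prop :=
  if x.1 = 0 then E N z z' else
    if x.2 = true then (if x.1 % 2 = π then x.1 ≤ N ∧ z = x.1 ∧ z' = x.1 else
      E N z (x.1 + 1) ∧ E N z' (x.1 - 1))
    else (if x.1 % 2 = π then E N z 0 ∧ E N z' 0 else E N z (x.1 - 1) ∧ E N z' (x.1 + 1))

theorem core {N π : ℕ} {x : ℕ × Bool} {z z' : ℕ} (h : C N π x z z') :
    xi N π (if x.1 = 0 then 1 else if x.2 then of x.1 else (of x.1)⁻¹) =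
      et N z * be (if x.1 ≠ 0 ∧ x.1 % 2 = π then sgl x else 1) * (et N z')⁻¹ := by
  obtain ⟨j, e⟩ := x
  have e0 : et N 0 = 1 := if_neg (by omega)
  unfold C at h
  by_cases j0 : j = 0
  · rw [if_pos j0] at h
    rw [if_pos j0, if_neg (fun c => c.1 j0), h.et]
    simp
  rw [if_neg j0] at h
  rw [if_neg j0]
  by_cases jp : j % 2 = π
  · rw [if_pos (⟨j0, jp⟩ : j ≠ 0 ∧ j % 2 = π)]
    cases e
    · simp only [Bool.false_eq_true, if_false, if_pos jp] at h
      simp only [Bool.false_eq_true, if_false, sgl, map_inv, xi_of jp, be_of, eo, h.1.et, h.2.et, e0]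
      group
    · simp only [if_true, if_pos jp] at h
      simp only [if_true, sgl, xi_of jp, be_of, eo, h.2.1, h.2.2,
        et_eq (Nat.one_le_iff_ne_zero.2 j0) h.1]
      group
  · have x1 : xi N π (of j) = et N (j + 1) * (et N (j - 1))⁻¹ := by
      rw [xi, FreeGroup.lift_apply_of, if_neg jp]
    rw [if_neg (fun c : j ≠ 0 ∧ j % 2 = π => jp c.2)]
    cases e
    · simp only [Bool.false_eq_true, if_false, if_neg jp] at h
      simp only [Bool.false_eq_true, if_false, map_inv, x1, h.1.et, h.2.et, map_one]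
      group
    · simp only [if_true, if_neg jp] at h
      simp only [if_true, x1, h.1.et, h.2.et, map_one]
      group

theorem step {N π : ℕ} {β r : ℤ} (hN : 3 ≤ N) (hπ : π < 2) (b : β = 0 ∨ β = 1) (h0 : 0 ≤ r)
    (h1 : r + 1 < 2 * N - 2) : C N π (s0 N β r) (z0 N π β r) (z0 N π β (r + 1)) := by
  obtain rfl | rfl : π = 0 ∨ π = 1 := by omega
  all_goals
    rcases b with rfl | rfl <;>
    simp only [s0, z0, if_true, true_and, zero_ne_one, one_ne_zero, false_and, if_false,
      Nat.cast_zero, Nat.cast_one] <;> split_ifs <;> (try omega) <;>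
    simp only [C, E, Bool.false_eq_true, if_true, if_false, true_or, true_and, and_true, and_self] <;>
    (try split_ifs) <;> first | trivial | omega

theorem last {N π : ℕ} {β β' r : ℤ} (hN : 3 ≤ N) (hπ : π < 2) (b : β = 0 ∨ β = 1)
    (b' : β' = (β + N + 1) % 2) (h1 : r + 1 = 2 * N - 2) :
    C N π (s0 N β r) (z0 N π β r) (z0 N π β' 0) := by
  obtain rfl | rfl : π = 0 ∨ π = 1 := by omega
  all_goals
    rcases b with rfl | rfl <;>
    simp only [s0, z0, if_true, true_and, and_true, zero_ne_one, one_ne_zero, false_and, if_false,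
      Nat.cast_zero, Nat.cast_one] <;> split_ifs <;> (try omega) <;>
    simp only [C, E, Bool.false_eq_true, if_true, if_false, true_or, true_and, and_true, and_self] <;>
    (try split_ifs) <;> first | trivial | omega

end Tl

theorem tl : S_TL := by
  intro N π b p hN hπ
  refine Tl.core (x := slot N b p) ?_
  obtain ⟨r, n, h0, h1, rfl⟩ := place (N := N) (by omega) p
  rw [slot_eq _ _ h0 h1, zet_eq _ _ _ h0 h1]
  by_cases c : r + 1 < 2 * N - 2
  · rw [add_right_comm, zet_eq _ _ _ (by omega) c]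
    exact Tl.step hN hπ (by omega) h0 c
  · rw [show r + n * (2 * N - 2) + 1 = 0 + (n + 1) * (2 * N - 2) by
      rw [show r = 2 * N - 2 - 1 by omega]; ring, zet_eq _ _ _ le_rfl (by omega)]
    exact Tl.last hN hπ (by omega) (by rw [add_mul, one_mul]; omega) (by omega)

end Pool.Agent.MP_6eaae3_al.MX
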